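import Mathlib

/-!
# MP_1c7511_co: definitions

Ordinary conics for finite point sets in the complex projective plane.
-/

set_option autoImplicit false

namespace Pool.Agent.Lib.MP_1c7511_co

open Finset

/-- Two points of the affine plane `ℂ × ℂ` are a generic pair if both coordinates differ. -/
def Gen (p q : ℂ × ℂ) : Prop := p.1 ≠ q.1 ∧ p.2 ≠ q.2

noncomputable instance (p q : ℂ × ℂ) : Decidable (Gen p q) := by
  unfold Gen; infer_instance

/-- Value of a (1,1)-form at a point. -/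
def ev (A B C D : ℂ) (p : ℂ × ℂ) : ℂ := A * p.1 * p.2 + B * p.1 + C * p.2 + D

/-- Every (1,1)-curve through a generic triple of `Q` contains a fourth point of `Q`. -/
def Four (Q : Finset (ℂ × ℂ)) : Prop :=
  ∀ p ∈ Q, ∀ q ∈ Q, ∀ r ∈ Q, Gen p q → Gen p r → Gen q r →
    ∀ A B C D : ℂ, ¬ (A = 0 ∧ B = 0 ∧ C = 0 ∧ D = 0) →
      ev A B C D p = 0 → ev A B C D q = 0 → ev A B C D r = 0 →
      ∃ s ∈ Q, s ≠ p ∧ s ≠ q ∧ s ≠ r ∧ ev A B C D s = 0

/-- `Q` is not contained in a (1,1)-curve. -/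
def NoCurve (Q : Finset (ℂ × ℂ)) : Prop :=
  ∀ A B C D : ℂ, (∀ p ∈ Q, ev A B C D p = 0) → A = 0 ∧ B = 0 ∧ C = 0 ∧ D = 0

/-- The vertical class of `p` in `Q` (same first coordinate). -/
noncomputable def Vc (Q : Finset (ℂ × ℂ)) (p : ℂ × ℂ) : Finset (ℂ × ℂ) := {q ∈ Q | q.1 = p.1}

/-- The horizontal class of `p` in `Q` (same second coordinate). -/
noncomputable def Hc (Q : Finset (ℂ × ℂ)) (p : ℂ × ℂ) : Finset (ℂ × ℂ) := {q ∈ Q | q.2 = p.2}

/-- Rows of the cross `(ξ, η)`: points on the horizontal line `η` off the vertical line `ξ`. -/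
noncomputable def Rw (Q : Finset (ℂ × ℂ)) (ξ η : ℂ) : Finset (ℂ × ℂ) := {p ∈ Q | p.2 = η ∧ p.1 ≠ ξ}

/-- Columns of the cross `(ξ, η)`: points on the vertical line `ξ` off the horizontal line `η`. -/
noncomputable def Cl (Q : Finset (ℂ × ℂ)) (ξ η : ℂ) : Finset (ℂ × ℂ) := {q ∈ Q | q.1 = ξ ∧ q.2 ≠ η}

/-- The quadratic expression attached to the cross `(ξ, η)`. -/
noncomputable def KK (Q : Finset (ℂ × ℂ)) (F : ℂ × ℂ → ℂ × ℂ → ℝ) (ξ η : ℂ) : ℝ :=
  (∑ p ∈ Rw Q ξ η, (∑ q ∈ Cl Q ξ η, F p q) ^ 2) + (∑ q ∈ Cl Q ξ η, (∑ p ∈ Rw Q ξ η, F p q) ^ 2)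
    - ∑ p ∈ Rw Q ξ η, ∑ q ∈ Cl Q ξ η, (F p q) ^ 2

/-- The sum over ordered generic triples. -/
noncomputable def TT (Q : Finset (ℂ × ℂ)) (F : ℂ × ℂ → ℂ × ℂ → ℝ) : ℝ :=
  ∑ p ∈ Q, ∑ q ∈ Q, ∑ r ∈ Q, (if Gen q r then F p q * F p r else 0)

/-- The gauged logarithmic function of a generic pair, zero on non-generic pairs. -/
noncomputable def Phi (β : ℂ × ℂ → ℝ) (p q : ℂ × ℂ) : ℝ :=
  if Gen p q then Real.log ‖p.2 - q.2‖ - Real.log ‖p.1 - q.1‖ + β p + β q else 0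

/-- What the rigidity theorem provides. -/
structure Rigid (Q : Finset (ℂ × ℂ)) (β : ℂ × ℂ → ℝ) : Prop where
  cross : ∀ ξ η : ℂ, KK Q (Phi β) ξ η = 0
  block : ∀ p ∈ Q, (∀ s ∈ Q, Phi β p s = 0) → ∀ q ∈ Q, ∀ r ∈ Q,
    Gen p q → Gen p r → Gen q r → Phi β q r = 0

/-- Distances agree on generic pairs. -/
def Isom (N : Finset (ℂ × ℂ)) : Prop :=
  ∀ p ∈ N, ∀ q ∈ N, Gen p q → ‖p.1 - q.1‖ = ‖p.2 - q.2‖

/-- The line through a generic pair of points of `N` contains a third point of `N`. -/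
def Third (N : Finset (ℂ × ℂ)) : Prop :=
  ∀ p ∈ N, ∀ q ∈ N, Gen p q → ∃ r ∈ N, r ≠ p ∧ r ≠ q ∧
    (r.1 - p.1) * (q.2 - p.2) = (q.1 - p.1) * (r.2 - p.2)

/-- The chart at `j` (both coordinates inverted, the second one scaled by `c`). -/
noncomputable def chm (c : ℝ) (j p : ℂ × ℂ) : ℂ × ℂ := ((p.1 - j.1)⁻¹, (c : ℂ) * (p.2 - j.2)⁻¹)

/-- The image under the chart at `j` of the points generic to `j`. -/
noncomputable def ch (c : ℝ) (Q : Finset (ℂ × ℂ)) (j : ℂ × ℂ) : Finset (ℂ × ℂ) :=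
  ({p ∈ Q | Gen j p}).image (chm c j)

/-- The configurations obtained from a bad point set and one of its two-point lines. -/
structure Conf (Q : Finset (ℂ × ℂ)) : Prop where
  four : Four Q
  nocurve : NoCurve Q
  v2 : ∀ p ∈ Q, (Vc Q p).card ≠ 2
  h2 : ∀ p ∈ Q, (Hc Q p).card ≠ 2

/-- Value at `v` of the quadratic form with coefficient vector `c`. -/
def qf (c : Fin 6 → ℂ) (v : Fin 3 → ℂ) : ℂ :=
  c 0 * v 0 ^ 2 + c 1 * v 1 ^ 2 + c 2 * v 2 ^ 2 + c 3 * (v 0 * v 1) + c 4 * (v 0 * v 2)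
    + c 5 * (v 1 * v 2)

/-- Collinearity of three members of a family of vectors (representing points of the plane). -/
def Col {ι : Type*} (v : ι → Fin 3 → ℂ) (i j k : ι) : Prop :=
  Matrix.det (Matrix.of ![v i, v j, v k]) = 0

/-- A counterexample to the Wiseman-Wilson property, as a finite family of representatives. -/
structure BadConf {ι : Type*} [Fintype ι] [DecidableEq ι] (v : ι → Fin 3 → ℂ) : Prop where
  indep : ∀ i j, i ≠ j → LinearIndependent ℂ ![v i, v j]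
  noconic : ∀ c : Fin 6 → ℂ, (∀ i, qf c (v i) = 0) → c = 0
  noord : ∀ c : Fin 6 → ℂ, c ≠ 0 → (univ.filter (fun i => qf c (v i) = 0)).card = 5 →
    ∃ c' : Fin 6 → ℂ, (∀ i, qf c (v i) = 0 → qf c' (v i) = 0) ∧ ∀ t : ℂ, c' ≠ t • c

/-- The number of members of the family on the line through `i` and `j`. -/
noncomputable def rho {ι : Type*} [Fintype ι] (v : ι → Fin 3 → ℂ) (i j : ι) : ℕ :=
  Set.ncard {k | Col v i j k}

end Pool.Agent.Lib.MP_1c7511_co
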