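import Mathlib
import Pool.Agent.Lib.MP_1c7511_co.Defs

section

section

set_option autoImplicit false

namespace Pool.Agent.Lib.MP_1c7511_co

open Finset

/-- Exponent vectors of the six monomials of degree two. -/
noncomputable def mon (i : Fin 6) : Fin 3 →₀ ℕ :=
  Finsupp.equivFunOnFinite.symm
    ((![![2, 0, 0], ![0, 2, 0], ![0, 0, 2], ![1, 1, 0], ![1, 0, 1], ![0, 1, 1]] :
      Fin 6 → Fin 3 → ℕ) i)

theorem mon_inj : Function.Injective mon := by
  intro i j h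
  have h2 := Finsupp.equivFunOnFinite.symm.injective h
  revert h2
  fin_cases i <;> fin_cases j <;> simp

theorem mon_degree (i : Fin 6) : (mon i).degree = 2 := by
  rw [Finsupp.degree_eq_sum, Fin.sum_univ_three]
  fin_cases i <;> simp [mon]

theorem mon_surj (m : Fin 3 →₀ ℕ) (hm : m.degree = 2) : ∃ i, m = mon i := by
  rw [Finsupp.degree_eq_sum, Fin.sum_univ_three] at hm
  have h0 : m 0 ≤ 2 := by omega
  have key : ∀ i : Fin 6, (m 0 = mon i 0 ∧ m 1 = mon i 1 ∧ m 2 = mon i 2) → m = mon i := by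
    intro i h
    ext j
    fin_cases j
    · exact h.1
    · exact h.2.1
    · exact h.2.2
  have h1 : m 1 ≤ 2 := by omega
  interval_cases ha : m 0 <;> interval_cases hb : m 1
  · exact ⟨2, key 2 ⟨by simp [mon], by simp [mon], by simp [mon]; omega⟩⟩
  · exact ⟨5, key 5 ⟨by simp [mon], by simp [mon], by simp [mon]; omega⟩⟩
  · exact ⟨1, key 1 ⟨by simp [mon], by simp [mon], by simp [mon]; omega⟩⟩
  · exact ⟨4, key 4 ⟨by simp [mon], by simp [mon], by simp [mon]; omega⟩⟩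
  · exact ⟨3, key 3 ⟨by simp [mon], by simp [mon], by simp [mon]; omega⟩⟩
  · omega
  · exact ⟨0, key 0 ⟨by simp [mon], by simp [mon], by simp [mon]; omega⟩⟩
  · omega
  · omega

/-- The quadratic form with given coefficients, as a polynomial. -/
noncomputable def fp (c : Fin 6 → ℂ) : MvPolynomial (Fin 3) ℂ :=
  ∑ i, MvPolynomial.monomial (mon i) (c i)

theorem fp_coeff (c : Fin 6 → ℂ) (i : Fin 6) : MvPolynomial.coeff (mon i) (fp c) = c i := by
  unfold fp
  rw [MvPolynomial.coeff_sum, Finset.sum_eq_single i]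
  · simp
  · intro j _ hj
    rw [MvPolynomial.coeff_monomial, if_neg]
    intro e; exact hj (mon_inj e)
  · simp

theorem fp_homog (c : Fin 6 → ℂ) : (fp c).IsHomogeneous 2 := by
  unfold fp
  apply MvPolynomial.IsHomogeneous.sum
  intro i _
  exact MvPolynomial.isHomogeneous_monomial _ (mon_degree i)

theorem exists_fp {g : MvPolynomial (Fin 3) ℂ} (hg : g.IsHomogeneous 2) : ∃ c, g = fp c := by
  refine ⟨fun i => MvPolynomial.coeff (mon i) g, ?_⟩
  ext m
  by_cases hm : m.degree = 2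
  · obtain ⟨i, rfl⟩ := mon_surj m hm
    rw [fp_coeff]
  · rw [hg.coeff_eq_zero hm, (fp_homog _).coeff_eq_zero hm]

theorem fp_eval (c : Fin 6 → ℂ) (v : Fin 3 → ℂ) : MvPolynomial.eval v (fp c) = qf c v := by
  unfold fp qf
  rw [map_sum, Fin.sum_univ_six]
  simp only [MvPolynomial.eval_monomial]
  simp only [Finsupp.prod_fintype _ _ (fun i => pow_zero _), Fin.prod_univ_three]
  simp [mon]

theorem fp_smul (t : ℂ) (c : Fin 6 → ℂ) : fp (t • c) = MvPolynomial.C t * fp c := by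
  unfold fp
  rw [Finset.mul_sum]
  apply Finset.sum_congr rfl
  intro i _
  rw [MvPolynomial.C_mul_monomial]
  rfl

theorem fp_zero : fp 0 = 0 := by
  unfold fp; simp

/-- The frozen statement follows once there is no bad configuration. -/
theorem frozen_of_no_bad
    (H : ∀ (ι : Type) [Fintype ι] [DecidableEq ι] (v : ι → Fin 3 → ℂ), ¬ BadConf v) :
    ∀ P : Finset (Projectivization ℂ (Fin 3 → ℂ)),
      (∃ f : MvPolynomial (Fin 3) ℂ, f.IsHomogeneous 2 ∧ f ≠ 0 ∧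
          ∀ p ∈ P, MvPolynomial.eval p.rep f = 0) ∨
      (∃ f : MvPolynomial (Fin 3) ℂ, f.IsHomogeneous 2 ∧ f ≠ 0 ∧
          {p | p ∈ P ∧ MvPolynomial.eval p.rep f = 0}.ncard = 5 ∧
          ∀ g : MvPolynomial (Fin 3) ℂ, g.IsHomogeneous 2 →
            (∀ p ∈ P, MvPolynomial.eval p.rep f = 0 → MvPolynomial.eval p.rep g = 0) →
            ∃ c : ℂ, g = MvPolynomial.C c * f) := by
  classical
  intro P
  by_contra hcon
  rw [not_or] at hcon
  obtain ⟨hnc, hno⟩ := hcon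
  refine H {p // p ∈ P} (fun p => p.1.rep) ?_
  refine ⟨?_, ?_, ?_⟩
  · intro p q hpq
    have hne : p.1 ≠ q.1 := fun e => hpq (Subtype.ext e)
    have h1 := (Projectivization.independent_pair_iff_ne _ _).2 hne
    rw [Projectivization.independent_iff] at h1
    have e : Projectivization.rep ∘ ![p.1, q.1] = ![p.1.rep, q.1.rep] := by
      funext i
      fin_cases i <;> rfl
    rw [e] at h1
    exact h1
  · intro c hc
    by_contra hc0
    apply hnc
    refine ⟨fp c, fp_homog c, ?_, ?_⟩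
    · intro h0
      apply hc0
      funext i
      rw [← fp_coeff c i, h0]
      simp
    · intro p hp
      rw [fp_eval]
      exact hc ⟨p, hp⟩
  · intro c hc hcard
    by_contra hno'
    push Not at hno'
    apply hno
    refine ⟨fp c, fp_homog c, ?_, ?_, ?_⟩
    · intro h0
      apply hc
      funext i
      rw [← fp_coeff c i, h0]
      simp
    · rw [← hcard, ← Finset.card_map (Function.Embedding.subtype _), ← Set.ncard_coe_finset]
      congr 1
      ext p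
      simp only [Set.mem_ofPred_eq, Finset.coe_map, Set.mem_image, Finset.mem_coe,
        Finset.mem_filter, Finset.mem_univ, true_and, Function.Embedding.subtype_apply]
      constructor
      · rintro ⟨hp, h⟩
        exact ⟨⟨p, hp⟩, by rw [← fp_eval]; exact h, rfl⟩
      · rintro ⟨q, hq, rfl⟩
        exact ⟨q.2, by rw [fp_eval]; exact hq⟩
    · intro g hg hvan
      obtain ⟨c', rfl⟩ := exists_fp hg
      obtain ⟨t, ht⟩ := hno' c' (by
        intro i hi
        have := hvan i.1 i.2 (by rw [fp_eval]; exact hi)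
        rwa [fp_eval] at this)
      exact ⟨t, by rw [← fp_smul, ht]⟩

end Pool.Agent.Lib.MP_1c7511_co
end

section

set_option autoImplicit false

namespace Pool.Agent.Lib.MP_1c7511_co

open Finset

variable {Q : Finset (ℂ × ℂ)} {β : ℂ × ℂ → ℝ}

/-- Exponentiated form of the vanishing of `Phi`. -/
theorem Phi_zero_exp {p q : ℂ × ℂ} (hg : Gen p q) (h : Phi β p q = 0) :
    ‖p.2 - q.2‖ = ‖p.1 - q.1‖ * (Real.exp (-β p) * Real.exp (-β q)) := by
  unfold Phi at h
  rw [if_pos hg] at h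
  have h1 : 0 < ‖p.1 - q.1‖ := norm_pos_iff.mpr (sub_ne_zero.mpr hg.1)
  have h2 : 0 < ‖p.2 - q.2‖ := norm_pos_iff.mpr (sub_ne_zero.mpr hg.2)
  rw [← Real.exp_add]
  have h3 : Real.log ‖p.2 - q.2‖ = Real.log ‖p.1 - q.1‖ + (-β p + -β q) := by linarith
  calc ‖p.2 - q.2‖ = Real.exp (Real.log ‖p.2 - q.2‖) := (Real.exp_log h2).symm
    _ = Real.exp (Real.log ‖p.1 - q.1‖ + (-β p + -β q)) := by rw [h3]
    _ = ‖p.1 - q.1‖ * Real.exp (-β p + -β q) := by rw [Real.exp_add, Real.exp_log h1]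

theorem norm_inv_sub_inv {x y : ℂ} (hx : x ≠ 0) (hy : y ≠ 0) :
    ‖x⁻¹ - y⁻¹‖ = ‖x - y‖ / (‖x‖ * ‖y‖) := by
  rw [inv_sub_inv hx hy, norm_div, norm_mul, norm_sub_rev]

theorem norm_smul_inv_sub_inv {c : ℝ} (hc : 0 < c) {x y : ℂ} (hx : x ≠ 0) (hy : y ≠ 0) :
    ‖(c : ℂ) * x⁻¹ - (c : ℂ) * y⁻¹‖ = c * (‖x - y‖ / (‖x‖ * ‖y‖)) := by
  rw [← mul_sub, norm_mul, norm_inv_sub_inv hx hy, Complex.norm_real, Real.norm_of_nonneg hc.le]

theorem chm_fst {c : ℝ} {j p q : ℂ × ℂ} (hp : Gen j p) (hq : Gen j q) :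
    (chm c j p).1 = (chm c j q).1 ↔ p.1 = q.1 := by
  unfold chm
  simp only [inv_inj, sub_left_inj]

theorem chm_snd {c : ℝ} (hc : 0 < c) {j p q : ℂ × ℂ} (hp : Gen j p) (hq : Gen j q) :
    (chm c j p).2 = (chm c j q).2 ↔ p.2 = q.2 := by
  unfold chm
  have hc' : (c : ℂ) ≠ 0 := by exact_mod_cast hc.ne'
  simp only [mul_eq_mul_left_iff, inv_inj, sub_left_inj, hc', or_false]

theorem chm_inj {c : ℝ} (hc : 0 < c) {j p q : ℂ × ℂ} (hp : Gen j p) (hq : Gen j q)
    (h : chm c j p = chm c j q) : p = q := by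
  refine Prod.ext ?_ ?_
  · exact (chm_fst hp hq).mp (by rw [h])
  · exact (chm_snd hc hp hq).mp (by rw [h])

/-- In the chart at a rigid point distances agree. -/
theorem chart_isom (hR : Rigid Q β) {j : ℂ × ℂ} (hjQ : j ∈ Q) (hj : ∀ s ∈ Q, Phi β j s = 0) :
    Isom (ch (Real.exp (-2 * β j)) Q j) := by
  intro P hP S hS hPS
  unfold ch at hP hS
  rw [mem_image] at hP hS
  obtain ⟨p, hp, rfl⟩ := hP
  obtain ⟨q, hq, rfl⟩ := hS
  rw [mem_filter] at hp hq
  obtain ⟨hpQ, hjp⟩ := hp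
  obtain ⟨hqQ, hjq⟩ := hq
  have hc : 0 < Real.exp (-2 * β j) := Real.exp_pos _
  have hpq : Gen p q := by
    refine ⟨fun h => hPS.1 ((chm_fst hjp hjq).mpr h), fun h => hPS.2 ((chm_snd hc hjp hjq).mpr h)⟩
  have e1 := Phi_zero_exp hjp (hj p hpQ)
  have e2 := Phi_zero_exp hjq (hj q hqQ)
  have e3 := Phi_zero_exp hpq (hR.block j hjQ hj p hpQ q hqQ hjp hjq hpq)
  have hp1 : p.1 - j.1 ≠ 0 := sub_ne_zero.mpr (Ne.symm hjp.1)
  have hp2 : p.2 - j.2 ≠ 0 := sub_ne_zero.mpr (Ne.symm hjp.2)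
  have hq1 : q.1 - j.1 ≠ 0 := sub_ne_zero.mpr (Ne.symm hjq.1)
  have hq2 : q.2 - j.2 ≠ 0 := sub_ne_zero.mpr (Ne.symm hjq.2)
  unfold chm
  simp only
  rw [norm_inv_sub_inv hp1 hq1, norm_smul_inv_sub_inv hc hp2 hq2]
  have s1 : p.1 - j.1 - (q.1 - j.1) = p.1 - q.1 := by ring
  have s2 : p.2 - j.2 - (q.2 - j.2) = p.2 - q.2 := by ring
  rw [s1, s2, norm_sub_rev p.2 j.2, norm_sub_rev q.2 j.2, norm_sub_rev p.1 j.1,
    norm_sub_rev q.1 j.1, e1, e2, e3]
  have n1 : ‖j.1 - p.1‖ ≠ 0 := norm_ne_zero_iff.mpr (sub_ne_zero.mpr hjp.1)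
  have n2 : ‖j.1 - q.1‖ ≠ 0 := norm_ne_zero_iff.mpr (sub_ne_zero.mpr hjq.1)
  have x1 : Real.exp (-2 * β j) = Real.exp (-β j) * Real.exp (-β j) := by
    rw [← Real.exp_add]; congr 1; ring
  rw [x1]
  have x2 : Real.exp (-β j) ≠ 0 := Real.exp_ne_zero _
  have x3 : Real.exp (-β p) ≠ 0 := Real.exp_ne_zero _
  have x4 : Real.exp (-β q) ≠ 0 := Real.exp_ne_zero _
  field_simp

/-- In the chart at any point, generic lines have a third point. -/
theorem chart_third (h4 : Four Q) {j : ℂ × ℂ} (hjQ : j ∈ Q) {c : ℝ} (hc : 0 < c) :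
    Third (ch c Q j) := by
  intro P hP S hS hPS
  unfold ch at hP hS
  rw [mem_image] at hP hS
  obtain ⟨p, hp, rfl⟩ := hP
  obtain ⟨q, hq, rfl⟩ := hS
  rw [mem_filter] at hp hq
  obtain ⟨hpQ, hjp⟩ := hp
  obtain ⟨hqQ, hjq⟩ := hq
  have hpq : Gen p q := by
    refine ⟨fun h => hPS.1 ((chm_fst hjp hjq).mpr h), fun h => hPS.2 ((chm_snd hc hjp hjq).mpr h)⟩
  have hc' : (c : ℂ) ≠ 0 := by exact_mod_cast hc.ne'
  have hp1 : p.1 - j.1 ≠ 0 := sub_ne_zero.mpr (Ne.symm hjp.1)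
  have hp2 : p.2 - j.2 ≠ 0 := sub_ne_zero.mpr (Ne.symm hjp.2)
  have hq1 : q.1 - j.1 ≠ 0 := sub_ne_zero.mpr (Ne.symm hjq.1)
  have hq2 : q.2 - j.2 ≠ 0 := sub_ne_zero.mpr (Ne.symm hjq.2)
  set P := chm c j p with hPdef
  set S := chm c j q with hSdef
  have hPe1 : P.1 * (p.1 - j.1) = 1 := by
    rw [hPdef]; unfold chm; simp only; exact inv_mul_cancel₀ hp1
  have hPe2 : P.2 * (p.2 - j.2) = c := by
    rw [hPdef]; unfold chm; simp only; rw [mul_assoc, inv_mul_cancel₀ hp2, mul_one]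
  have hSe1 : S.1 * (q.1 - j.1) = 1 := by
    rw [hSdef]; unfold chm; simp only; exact inv_mul_cancel₀ hq1
  have hSe2 : S.2 * (q.2 - j.2) = c := by
    rw [hSdef]; unfold chm; simp only; rw [mul_assoc, inv_mul_cancel₀ hq2, mul_one]
  obtain ⟨al, hal⟩ : ∃ al : ℂ, al = S.2 - P.2 := ⟨_, rfl⟩
  obtain ⟨be, hbe⟩ : ∃ be : ℂ, be = -(S.1 - P.1) := ⟨_, rfl⟩
  obtain ⟨ga, hga⟩ : ∃ ga : ℂ, ga = -(al * P.1 + be * P.2) := ⟨_, rfl⟩
  have hal0 : al ≠ 0 := by rw [hal]; exact sub_ne_zero.mpr (Ne.symm hPS.2)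
  have hbe0 : be ≠ 0 := by
    rw [hbe]; exact neg_ne_zero.mpr (sub_ne_zero.mpr (Ne.symm hPS.1))
  have hev : ∀ s : ℂ × ℂ, ev ga (be * c - ga * j.2) (al - ga * j.1)
      (-al * j.2 - be * c * j.1 + ga * j.1 * j.2) s
      = al * (s.2 - j.2) + be * c * (s.1 - j.1) + ga * (s.1 - j.1) * (s.2 - j.2) := by
    intro s; unfold ev; ring
  obtain ⟨s, hsQ, hsj, hsp, hsq, hs0⟩ := h4 j hjQ p hpQ q hqQ hjp hjq hpq ga (be * c - ga * j.2)
    (al - ga * j.1) (-al * j.2 - be * c * j.1 + ga * j.1 * j.2)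
    (by
      rintro ⟨h1, h2, -, -⟩
      rw [h1, zero_mul, sub_zero] at h2
      exact mul_ne_zero hbe0 hc' h2)
    (by rw [hev]; ring)
    (by
      rw [hev, hga]
      linear_combination (al * (j.2 - p.2)) * hPe1 + (be * (j.1 - p.1)) * hPe2)
    (by
      rw [hev, hga]
      have hlin : al * P.1 + be * P.2 = al * S.1 + be * S.2 := by rw [hal, hbe]; ring
      rw [hlin]
      linear_combination (al * (j.2 - q.2)) * hSe1 + (be * (j.1 - q.1)) * hSe2)
  rw [hev] at hs0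
  have hjs : Gen j s := by
    refine ⟨fun h => ?_, fun h => ?_⟩
    · rw [← h] at hs0
      simp only [sub_self, mul_zero, add_zero, zero_mul] at hs0
      have : s.2 - j.2 = 0 := (mul_eq_zero.mp hs0).resolve_left hal0
      exact hsj (Prod.ext h.symm (sub_eq_zero.mp this))
    · rw [← h] at hs0
      simp only [sub_self, mul_zero, add_zero, zero_add] at hs0
      have : s.1 - j.1 = 0 := (mul_eq_zero.mp hs0).resolve_left (mul_ne_zero hbe0 hc')
      exact hsj (Prod.ext (sub_eq_zero.mp this) h.symm)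
  have hs1 : s.1 - j.1 ≠ 0 := sub_ne_zero.mpr (Ne.symm hjs.1)
  have hs2 : s.2 - j.2 ≠ 0 := sub_ne_zero.mpr (Ne.symm hjs.2)
  refine ⟨chm c j s, ?_, ?_, ?_, ?_⟩
  · unfold ch
    exact mem_image_of_mem _ (mem_filter.mpr ⟨hsQ, hjs⟩)
  · intro h
    exact hsp (chm_inj hc hjs hjp h)
  · intro h
    exact hsq (chm_inj hc hjs hjq h)
  · have hRe1 : (chm c j s).1 * (s.1 - j.1) = 1 := by
      unfold chm; simp only; exact inv_mul_cancel₀ hs1
    have hRe2 : (chm c j s).2 * (s.2 - j.2) = c := by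
      unfold chm; simp only; rw [mul_assoc, inv_mul_cancel₀ hs2, mul_one]
    have hkey : (al * ((chm c j s).1 - P.1) + be * ((chm c j s).2 - P.2))
        * ((s.1 - j.1) * (s.2 - j.2)) = 0 := by
      rw [hga] at hs0
      linear_combination hs0 + (al * (s.2 - j.2)) * hRe1 + (be * (s.1 - j.1)) * hRe2
    have h0 := (mul_eq_zero.mp hkey).resolve_right (mul_ne_zero hs1 hs2)
    rw [hal, hbe] at h0
    linear_combination h0

/-- A second rigid point on the vertical line of the base point sees all heights at one distance. -/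
theorem chart_circle {j k : ℂ × ℂ} (hjQ : j ∈ Q) (hkQ : k ∈ Q) (hk1 : k.1 = j.1)
    (hk2 : k.2 ≠ j.2) (hj : ∀ s ∈ Q, Phi β j s = 0) (hk : ∀ s ∈ Q, Phi β k s = 0)
    {c : ℝ} (hc : 0 < c) :
    ∃ r : ℝ, ∀ q ∈ Q, Gen j q → q.2 ≠ k.2 →
      ‖(c : ℂ) * (q.2 - j.2)⁻¹ - (c : ℂ) * (k.2 - j.2)⁻¹‖ = r := by
  refine ⟨c * (Real.exp (-β k) / Real.exp (-β j) / ‖k.2 - j.2‖), ?_⟩
  intro q hqQ hjq hqk
  have hkq : Gen k q := ⟨by rw [hk1]; exact hjq.1, Ne.symm hqk⟩
  have e1 := Phi_zero_exp hjq (hj q hqQ)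
  have e2 := Phi_zero_exp hkq (hk q hqQ)
  have hq2 : q.2 - j.2 ≠ 0 := sub_ne_zero.mpr (Ne.symm hjq.2)
  have hk2' : k.2 - j.2 ≠ 0 := sub_ne_zero.mpr hk2
  rw [norm_smul_inv_sub_inv hc hq2 hk2']
  have s2 : q.2 - j.2 - (k.2 - j.2) = q.2 - k.2 := by ring
  rw [s2, norm_sub_rev q.2 k.2, norm_sub_rev q.2 j.2, e1, e2, hk1]
  have n1 : ‖j.1 - q.1‖ ≠ 0 := norm_ne_zero_iff.mpr (sub_ne_zero.mpr hjq.1)
  have n2 : ‖k.2 - j.2‖ ≠ 0 := norm_ne_zero_iff.mpr hk2'
  have x2 : Real.exp (-β j) ≠ 0 := Real.exp_ne_zero _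
  have x3 : Real.exp (-β k) ≠ 0 := Real.exp_ne_zero _
  have x4 : Real.exp (-β q) ≠ 0 := Real.exp_ne_zero _
  field_simp

end Pool.Agent.Lib.MP_1c7511_co
end

section

set_option autoImplicit false

namespace Pool.Agent.Lib.MP_1c7511_co

open Finset

namespace Geo2

lemma nsq {z : ℂ} {r : ℝ} (h : ‖z‖ = r) : z.re ^ 2 + z.im ^ 2 = r ^ 2 := by
  have := Complex.sq_norm z
  rw [h, Complex.normSq_apply] at this
  linarith

lemma gram (x1 y1 x2 y2 x3 y3 : ℝ) :
    (x1^2+y1^2)*(x2^2+y2^2)*(x3^2+y3^2) + 2*(x1*x2+y1*y2)*(x2*x3+y2*y3)*(x1*x3+y1*y3)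
    - (x1^2+y1^2)*(x2*x3+y2*y3)^2 - (x2^2+y2^2)*(x1*x3+y1*y3)^2
    - (x3^2+y3^2)*(x1*x2+y1*y2)^2 = 0 := by ring

/-- There are no four equidistant points in the plane. -/
lemma four_eq {r : ℝ} (hr : r ≠ 0) {a b c d : ℂ} (hab : ‖b - a‖ = r) (hac : ‖c - a‖ = r)
    (had : ‖d - a‖ = r) (hbc : ‖b - c‖ = r) (hbd : ‖b - d‖ = r) (hcd : ‖c - d‖ = r) : False := by
  have h1 := nsq hab
  have h2 := nsq hac
  have h3 := nsq had
  have h12 := nsq hbc
  have h13 := nsq hbd
  have h23 := nsq hcd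
  simp only [Complex.sub_re, Complex.sub_im] at h1 h2 h3 h12 h13 h23
  have g12 : (b.re - a.re) * (c.re - a.re) + (b.im - a.im) * (c.im - a.im) = r ^ 2 / 2 := by
    linarith
  have g13 : (b.re - a.re) * (d.re - a.re) + (b.im - a.im) * (d.im - a.im) = r ^ 2 / 2 := by
    linarith
  have g23 : (c.re - a.re) * (d.re - a.re) + (c.im - a.im) * (d.im - a.im) = r ^ 2 / 2 := by
    linarith
  have key := gram (b.re - a.re) (b.im - a.im) (c.re - a.re) (c.im - a.im)
    (d.re - a.re) (d.im - a.im)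
  rw [h1, h2, h3, g12, g13, g23] at key
  have : (r ^ 2) ^ 3 = 0 := by linarith
  have h0 : r = 0 := by
    have h4 : r ^ 6 = 0 := by rw [← this]; ring
    exact pow_eq_zero_iff (by norm_num) |>.1 h4
  exact hr h0

lemma sq2 {u v : ℝ} (h : u ^ 2 + v ^ 2 = 0) : u = 0 ∧ v = 0 := by
  have h1 := sq_nonneg u
  have h2 := sq_nonneg v
  exact ⟨pow_eq_zero_iff two_ne_zero |>.1 (by linarith),
    pow_eq_zero_iff two_ne_zero |>.1 (by linarith)⟩

/-- The centre of a circle is determined by three of its points. -/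
lemma circ {r : ℝ} {a b c v w : ℂ} (hab : a ≠ b) (hac : a ≠ c) (hbc : b ≠ c)
    (va : ‖v - a‖ = r) (vb : ‖v - b‖ = r) (vc : ‖v - c‖ = r)
    (wa : ‖w - a‖ = r) (wb : ‖w - b‖ = r) (wc : ‖w - c‖ = r) : v = w := by
  by_contra hvw
  have h1 := nsq va
  have h2 := nsq vb
  have h3 := nsq vc
  have k1 := nsq wa
  have k2 := nsq wb
  have k3 := nsq wc
  simp only [Complex.sub_re, Complex.sub_im] at h1 h2 h3 k1 k2 k3
  obtain ⟨a1, a2⟩ := a
  obtain ⟨b1, b2⟩ := b
  obtain ⟨c1, c2⟩ := c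
  obtain ⟨v1, v2⟩ := v
  obtain ⟨w1, w2⟩ := w
  simp only [ne_eq, Complex.mk.injEq] at *
  -- inner products of `v - w` with the differences
  have e1 : (v1 - w1) * (b1 - a1) + (v2 - w2) * (b2 - a2) = 0 := by
    linear_combination (h1 - h2 - k1 + k2) / 2
  have e2 : (v1 - w1) * (c1 - a1) + (v2 - w2) * (c2 - a2) = 0 := by
    linear_combination (h1 - h3 - k1 + k3) / 2
  have f1 : (v1 - w1) * ((b1 - a1) * (c2 - a2) - (b2 - a2) * (c1 - a1)) = 0 := by
    linear_combination (c2 - a2) * e1 - (b2 - a2) * e2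
  have f2 : (v2 - w2) * ((b1 - a1) * (c2 - a2) - (b2 - a2) * (c1 - a1)) = 0 := by
    linear_combination (b1 - a1) * e2 - (c1 - a1) * e1
  have cr : (b1 - a1) * (c2 - a2) - (b2 - a2) * (c1 - a1) = 0 := by
    by_contra hne
    apply hvw
    exact ⟨sub_eq_zero.1 ((mul_eq_zero.1 f1).resolve_right hne),
      sub_eq_zero.1 ((mul_eq_zero.1 f2).resolve_right hne)⟩
  -- inner products with `v - a`
  have g1 : 2 * ((v1 - a1) * (b1 - a1) + (v2 - a2) * (b2 - a2)) = (b1 - a1) ^ 2 + (b2 - a2) ^ 2 := by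
    linear_combination h1 - h2
  have g2 : 2 * ((v1 - a1) * (c1 - a1) + (v2 - a2) * (c2 - a2)) = (c1 - a1) ^ 2 + (c2 - a2) ^ 2 := by
    linear_combination h1 - h3
  have pos1 : (b1 - a1) ^ 2 + (b2 - a2) ^ 2 ≠ 0 := by
    intro h
    apply hab
    exact ⟨(sub_eq_zero.1 (sq2 h).1).symm, (sub_eq_zero.1 (sq2 h).2).symm⟩
  have pos2 : (c1 - a1) ^ 2 + (c2 - a2) ^ 2 ≠ 0 := by
    intro h
    apply hac
    exact ⟨(sub_eq_zero.1 (sq2 h).1).symm, (sub_eq_zero.1 (sq2 h).2).symm⟩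
  have q1 : ((b1 - a1) ^ 2 + (b2 - a2) ^ 2) * (((c1 - a1) ^ 2 + (c2 - a2) ^ 2) -
      ((b1 - a1) * (c1 - a1) + (b2 - a2) * (c2 - a2))) = 0 := by
    linear_combination (-(b1 - a1) ^ 2 - (b2 - a2) ^ 2) * g2 +
      ((b1 - a1) * (c1 - a1) + (b2 - a2) * (c2 - a2)) * g1 +
      2 * ((v2 - a2) * (b1 - a1) - (v1 - a1) * (b2 - a2)) * cr
  have q2 : ((c1 - a1) ^ 2 + (c2 - a2) ^ 2) * (((b1 - a1) ^ 2 + (b2 - a2) ^ 2) -
      ((b1 - a1) * (c1 - a1) + (b2 - a2) * (c2 - a2))) = 0 := by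
    linear_combination (-(c1 - a1) ^ 2 - (c2 - a2) ^ 2) * g1 +
      ((b1 - a1) * (c1 - a1) + (b2 - a2) * (c2 - a2)) * g2 -
      2 * ((v2 - a2) * (c1 - a1) - (v1 - a1) * (c2 - a2)) * cr
  have r1 := (mul_eq_zero.1 q1).resolve_left pos1
  have r2 := (mul_eq_zero.1 q2).resolve_left pos2
  have h4 : (b1 - c1) ^ 2 + (b2 - c2) ^ 2 = 0 := by linear_combination r1 + r2
  apply hbc
  exact ⟨sub_eq_zero.1 (sq2 h4).1, sub_eq_zero.1 (sq2 h4).2⟩

end Geo2

open Geo2

theorem fiber_circle {N : Finset (ℂ × ℂ)} (hi : Isom N) (ht : Third N) {p0 : ℂ × ℂ}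
    (hp0 : p0 ∈ N) (h3 : 3 ≤ (Vc N p0).card) {p1 q0 : ℂ × ℂ} (hp1 : p1 ∈ Vc N p0) (hq0 : q0 ∈ N)
    (hx : q0.1 ≠ p0.1) (hy : q0.2 = p1.2) {r : ℝ}
    (hr : ∀ q ∈ N, q.2 ≠ p1.2 → ‖q.2 - p1.2‖ = r) : False := by
  classical
  -- points of the fibre
  have hV : ∀ p, p ∈ Vc N p0 ↔ p ∈ N ∧ p.1 = p0.1 := by
    intro p; simp [Vc]
  obtain ⟨hp1N, hp11⟩ := (hV p1).1 hp1
  -- the distance from the point of `N` off the fibre to the fibre
  have hoff : ∀ q ∈ N, q.1 ≠ p0.1 → ∀ p ∈ N, p.1 = p0.1 → p.2 ≠ q.2 →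
      ‖q.1 - p0.1‖ = ‖q.2 - p.2‖ := by
    intro q hq hq1 p hp hp1' hne
    have := hi q hq p hp ⟨by rw [hp1']; exact hq1, fun h => hne h.symm⟩
    rw [hp1'] at this
    exact this
  -- a second point of the fibre
  have hex : ∀ v : ℂ × ℂ, ∃ p ∈ N, p.1 = p0.1 ∧ p ≠ p1 ∧ p ≠ v := by
    intro v
    have : ∃ p ∈ Vc N p0, p ∉ ({p1, v} : Finset (ℂ × ℂ)) := by
      by_contra hcon
      push Not at hcon
      have hsub : Vc N p0 ⊆ {p1, v} := hcon
      have := Finset.card_le_card hsub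
      have h2 : ({p1, v} : Finset (ℂ × ℂ)).card ≤ 2 := Finset.card_le_two
      omega
    obtain ⟨p, hp, hpn⟩ := this
    simp only [Finset.mem_insert, Finset.mem_singleton, not_or] at hpn
    exact ⟨p, ((hV p).1 hp).1, ((hV p).1 hp).2, hpn.1, hpn.2⟩
  have hne2 : ∀ p ∈ N, p.1 = p0.1 → ∀ q ∈ N, q.1 = p0.1 → p ≠ q → p.2 ≠ q.2 := by
    intro p _ h1 q _ h2 hpq h
    exact hpq (Prod.ext (h1.trans h2.symm) h)
  obtain ⟨a, haN, ha1, hap1, _⟩ := hex p1
  have ha2 : a.2 ≠ p1.2 := hne2 a haN ha1 p1 hp1N hp11 hap1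
  have hra : ‖a.2 - p1.2‖ = r := hr a haN ha2
  have hr0 : r ≠ 0 := by
    intro h
    rw [h, norm_eq_zero] at hra
    exact ha2 (sub_eq_zero.1 hra)
  have hxr : ‖q0.1 - p0.1‖ = r := by
    rw [hoff q0 hq0 hx a haN ha1 (by rw [hy]; exact ha2), hy, norm_sub_rev]
    exact hra
  -- properties of a point `s` off the fibre and off the horizontal line of `p1`
  have hs : ∀ s ∈ N, s.1 ≠ p0.1 → s.2 ≠ p1.2 → ‖s.2 - p1.2‖ = r ∧ ‖s.1 - p0.1‖ = r ∧
      ∀ p ∈ N, p.1 = p0.1 → p.2 ≠ s.2 → ‖s.2 - p.2‖ = r := by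
    intro s hsN hs1 hs2
    have h1 := hr s hsN hs2
    have h2 : ‖s.1 - p0.1‖ = r := by
      rw [hoff s hsN hs1 p1 hp1N hp11 (Ne.symm hs2)]
      exact h1
    refine ⟨h1, h2, ?_⟩
    intro p hp hp1' hne
    rw [← hoff s hsN hs1 p hp hp1' hne]
    exact h2
  -- Claim A
  have hA : ∀ y ∈ N, y.1 = p0.1 → y ≠ p1 → ∃ s ∈ N, s.1 ≠ p0.1 ∧ s.2 ≠ p1.2 ∧ s.2 ≠ y.2 ∧
      (s.1 - p0.1) * (p1.2 - y.2) = (q0.1 - p0.1) * (s.2 - y.2) := by
    intro y hyN hy1 hyp
    have hy2 : y.2 ≠ p1.2 := hne2 y hyN hy1 p1 hp1N hp11 hyp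
    have hg : Gen y q0 := ⟨by rw [hy1]; exact Ne.symm hx, by rw [hy]; exact hy2⟩
    obtain ⟨s, hsN, hsy, hsq, hcol⟩ := ht y hyN q0 hq0 hg
    rw [hy1, hy] at hcol
    have hx' : q0.1 - p0.1 ≠ 0 := sub_ne_zero.2 hx
    have hyy : p1.2 - y.2 ≠ 0 := sub_ne_zero.2 (Ne.symm hy2)
    refine ⟨s, hsN, ?_, ?_, ?_, hcol⟩
    · intro h
      rw [h, sub_self, zero_mul] at hcol
      have := (mul_eq_zero.1 hcol.symm).resolve_left hx'
      exact hsy (Prod.ext (h.trans hy1.symm) (sub_eq_zero.1 this))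
    · intro h
      rw [h] at hcol
      have := mul_right_cancel₀ hyy hcol
      have h' : s.1 = q0.1 := by linear_combination this
      exact hsq (Prod.ext h' (h.trans hy.symm))
    · intro h
      rw [h, sub_self, mul_zero] at hcol
      have := (mul_eq_zero.1 hcol).resolve_right hyy
      have h' : s.1 = p0.1 := sub_eq_zero.1 this
      exact hsy (Prod.ext (h'.trans hy1.symm) h)
  -- Claim B: the second coordinate of such a point belongs to the fibre
  have hB : ∀ s ∈ N, s.1 ≠ p0.1 → s.2 ≠ p1.2 → ∃ t ∈ N, t.1 = p0.1 ∧ t.2 = s.2 := by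
    intro s hsN hs1 hs2
    by_contra hcon
    push Not at hcon
    obtain ⟨s3, s4, s5⟩ := hs s hsN hs1 hs2
    have s6 : ∀ p ∈ N, p.1 = p0.1 → ‖s.2 - p.2‖ = r := fun p hp hp1' => s5 p hp hp1' (hcon p hp hp1')
    have hg : Gen p1 s := ⟨by rw [hp11]; exact Ne.symm hs1, Ne.symm hs2⟩
    obtain ⟨t, htN, htp, hts, hcol⟩ := ht p1 hp1N s hsN hg
    rw [hp11] at hcol
    have hs1' : s.1 - p0.1 ≠ 0 := sub_ne_zero.2 hs1
    have hs2' : s.2 - p1.2 ≠ 0 := sub_ne_zero.2 hs2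
    have ht1 : t.1 ≠ p0.1 := by
      intro h
      rw [h, sub_self, zero_mul] at hcol
      have := (mul_eq_zero.1 hcol.symm).resolve_left hs1'
      exact htp (Prod.ext (h.trans hp11.symm) (sub_eq_zero.1 this))
    have ht2 : t.2 ≠ p1.2 := by
      intro h
      rw [h, sub_self, mul_zero] at hcol
      have := (mul_eq_zero.1 hcol).resolve_right hs2'
      exact ht1 (sub_eq_zero.1 this)
    obtain ⟨t3, t4, t5⟩ := hs t htN ht1 ht2
    by_cases hmem : ∃ w ∈ N, w.1 = p0.1 ∧ w.2 = t.2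
    · obtain ⟨w, hwN, hw1, hw2⟩ := hmem
      have hwp1 : w ≠ p1 := by
        intro h; apply ht2; rw [← hw2, h]
      obtain ⟨b, hbN, hb1, hbp1, hbw⟩ := hex w
      have hb2 : b.2 ≠ p1.2 := hne2 b hbN hb1 p1 hp1N hp11 hbp1
      have hb2' : b.2 ≠ w.2 := hne2 b hbN hb1 w hwN hw1 hbw
      refine four_eq hr0 (a := p1.2) (b := t.2) (c := b.2) (d := s.2) t3 (hr b hbN hb2) s3
        (t5 b hbN hb1 (by rw [← hw2]; exact hb2')) ?_ ?_
      · rw [norm_sub_rev, ← hw2]; exact s6 w hwN hw1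
      · rw [norm_sub_rev]; exact s6 b hbN hb1
    · push Not at hmem
      have t6 : ∀ p ∈ N, p.1 = p0.1 → ‖t.2 - p.2‖ = r :=
        fun p hp hp1' => t5 p hp hp1' (hmem p hp hp1')
      obtain ⟨b, hbN, hb1, hbp1, hba⟩ := hex a
      have hb2 : b.2 ≠ p1.2 := hne2 b hbN hb1 p1 hp1N hp11 hbp1
      have hb2' : b.2 ≠ a.2 := hne2 b hbN hb1 a haN ha1 hba
      have : s.2 = t.2 := circ (r := r) (a := p1.2) (b := a.2) (c := b.2) (Ne.symm ha2)
        (Ne.symm hb2) (Ne.symm hb2') (s6 p1 hp1N hp11) (s6 a haN ha1) (s6 b hbN hb1)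
        (t6 p1 hp1N hp11) (t6 a haN ha1) (t6 b hbN hb1)
      rw [← this] at hcol
      have := mul_right_cancel₀ hs2' hcol
      exact hts (Prod.ext (by linear_combination this) (by assumption : s.2 = t.2).symm)
  -- Claim C
  obtain ⟨s, hsN, hs1, hs2, hs3, hscol⟩ := hA a haN ha1 hap1
  obtain ⟨t, htN, ht1, ht2⟩ := hB s hsN hs1 hs2
  obtain ⟨s4, s5, s6⟩ := hs s hsN hs1 hs2
  have htp1 : t ≠ p1 := by
    intro h; apply hs2; rw [← ht2, h]
  obtain ⟨s', hsN', hs1', hs2', hs3', hscol'⟩ := hA t htN ht1 htp1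
  obtain ⟨t', htN', ht1', ht2'⟩ := hB s' hsN' hs1' hs2'
  obtain ⟨s4', s5', s6'⟩ := hs s' hsN' hs1' hs2'
  have hta : t.2 ≠ a.2 := by rw [ht2]; exact hs3
  have hdist : ‖t.2 - a.2‖ = r := by
    rw [ht2]; exact s6 a haN ha1 (Ne.symm hs3)
  by_cases hcase : t' = a
  · -- `s = (u, y3)`, `s' = (u', y2)`
    have hsa : s'.2 = a.2 := by rw [← ht2', hcase]
    rw [hsa] at hscol' s4'
    rw [← ht2] at hscol s4
    have h1 := nsq hdist
    have h2 := nsq hra
    have h3 := nsq s4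
    simp only [Complex.sub_re, Complex.sub_im] at h1 h2 h3
    -- difference of first coordinates
    have hAne : a.2 - p1.2 ≠ 0 := sub_ne_zero.2 ha2
    have hTne : t.2 - p1.2 ≠ 0 := by
      rw [ht2]; exact sub_ne_zero.2 hs2
    have hdiff : (s.1 - s'.1) * ((a.2 - p1.2) * (t.2 - p1.2)) =
        (q0.1 - p0.1) * ((a.2 - t.2) * ((a.2 - p1.2) + (t.2 - p1.2))) := by
      linear_combination (-(t.2 - p1.2)) * hscol + (a.2 - p1.2) * hscol'
    have hn := congrArg norm hdiff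
    rw [norm_mul, norm_mul, norm_mul, norm_mul, hra, s4, hxr, norm_sub_rev a.2 t.2, hdist] at hn
    have hn' : ‖s.1 - s'.1‖ = ‖(a.2 - p1.2) + (t.2 - p1.2)‖ := by
      have hrr : r * r ≠ 0 := mul_ne_zero hr0 hr0
      apply mul_right_cancel₀ hrr
      rw [hn]; ring
    have hsum : ‖(a.2 - p1.2) + (t.2 - p1.2)‖ ^ 2 = 3 * r ^ 2 := by
      rw [Complex.sq_norm, Complex.normSq_apply]
      simp only [Complex.add_re, Complex.sub_re, Complex.add_im, Complex.sub_im]
      linarith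
    by_cases hu : s.1 = s'.1
    · rw [hu, sub_self, norm_zero] at hn'
      rw [← hn'] at hsum
      have : r ^ 2 = 0 := by linarith
      exact hr0 (pow_eq_zero_iff (by norm_num) |>.1 this)
    · have hg : Gen s s' := ⟨hu, by rw [hsa]; exact hs3⟩
      have := hi s hsN s' hsN' hg
      rw [hn', hsa, ← ht2, hdist] at this
      rw [this] at hsum
      have : r ^ 2 = 0 := by linarith
      exact hr0 (pow_eq_zero_iff (by norm_num) |>.1 this)
  · -- four equidistant points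
    have ht'a : t'.2 ≠ a.2 := hne2 t' htN' ht1' a haN ha1 hcase
    have hs'a : s'.2 ≠ a.2 := by rw [← ht2']; exact ht'a
    refine four_eq hr0 (a := p1.2) (b := s'.2) (c := t.2) (d := a.2) s4' ?_ hra
      (s6' t htN ht1 (Ne.symm hs3')) (s6' a haN ha1 (Ne.symm hs'a)) hdist
    rw [ht2]; exact s4

end Pool.Agent.Lib.MP_1c7511_co
end

section

set_option autoImplicit false

namespace Pool.Agent.Lib.MP_1c7511_co

open Finset

/-- Twice the signed area of the triangle `p q r`. -/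
def cr (p q r : ℂ) : ℝ := (q.re - p.re) * (r.im - p.im) - (q.im - p.im) * (r.re - p.re)

/-- Position of `z` along the line `q r`, measured from the foot of `p`. -/
def tt (p q r z : ℂ) : ℝ := (z.re - p.re) * (r.re - q.re) + (z.im - p.im) * (r.im - q.im)

theorem lt_key {x y c : ℝ} (h1 : 0 ≤ x * y) (h2 : x ^ 2 < y ^ 2) (hc : c ≠ 0) :
    (x - y) ^ 2 < y ^ 2 + c ^ 2 := by
  have hc2 : 0 < c ^ 2 := by positivity
  have h3 : x ^ 2 ≤ x * y := by
    have h4 : |x| < |y| := sq_lt_sq.1 h2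
    calc x ^ 2 = |x| * |x| := by rw [abs_mul_abs_self]; ring
      _ ≤ |x| * |y| := mul_le_mul_of_nonneg_left h4.le (abs_nonneg _)
      _ = |x * y| := (abs_mul x y).symm
      _ = x * y := abs_of_nonneg h1
  nlinarith

theorem sg_abs {a b c tu tv U1 U2 V1 V2 D : ℝ} (hDd : D = a * a + b * b) (hD : 0 < D)
    (eu1 : D * U1 = tu * a + c * b) (eu2 : D * U2 = tu * b - c * a)
    (ev1 : D * V1 = tv * a + c * b) (ev2 : D * V2 = tv * b - c * a) :
    D * (U2 * V1 - U1 * V2) = c * (tu - tv) ∧ D * (V1 * V1 + V2 * V2) = tv ^ 2 + c ^ 2 := by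
  constructor
  · apply mul_left_cancel₀ hD.ne'
    have e1 : D * (D * (U2 * V1 - U1 * V2)) = (D * U2) * (D * V1) - (D * U1) * (D * V2) := by ring
    rw [e1, eu1, eu2, ev1, ev2, hDd]; ring
  · apply mul_left_cancel₀ hD.ne'
    have e1 : D * (D * (V1 * V1 + V2 * V2)) = (D * V1) ^ 2 + (D * V2) ^ 2 := by ring
    rw [e1, ev1, ev2, hDd]; ring

theorem sg_step {p q r u v : ℂ} (hqr : q ≠ r) (hc : cr p q r ≠ 0)
    (hu : cr q r u = 0) (hv : cr q r v = 0)
    (h1 : 0 ≤ tt p q r u * tt p q r v) (h2 : (tt p q r u) ^ 2 < (tt p q r v) ^ 2) :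
    p ≠ v ∧ cr u p v ≠ 0 ∧
      (cr u p v) ^ 2 * Complex.normSq (r - q) < (cr p q r) ^ 2 * Complex.normSq (v - p) := by
  have hD : 0 < Complex.normSq (r - q) := by
    rw [Complex.normSq_pos]; exact sub_ne_zero.2 hqr.symm
  simp only [Complex.normSq_apply, Complex.sub_re, Complex.sub_im, cr, tt] at *
  obtain ⟨px, py⟩ := p
  obtain ⟨qx, qy⟩ := q
  obtain ⟨rx, ry⟩ := r
  obtain ⟨ux, uy⟩ := u
  obtain ⟨vx, vy⟩ := v
  simp only at *
  set D := (rx - qx) * (rx - qx) + (ry - qy) * (ry - qy) with hDdef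
  set c := (qx - px) * (ry - py) - (qy - py) * (rx - px) with hcdef
  set tu := (ux - px) * (rx - qx) + (uy - py) * (ry - qy) with htu
  set tv := (vx - px) * (rx - qx) + (vy - py) * (ry - qy) with htv
  set k := (px - ux) * (vy - uy) - (py - uy) * (vx - ux) with hk
  have eu1 : D * (ux - px) = tu * (rx - qx) + c * (ry - qy) := by
    rw [hDdef, htu, hcdef]; linear_combination -(ry - qy) * hu
  have eu2 : D * (uy - py) = tu * (ry - qy) - c * (rx - qx) := by
    rw [hDdef, htu, hcdef]; linear_combination (rx - qx) * hu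
  have ev1 : D * (vx - px) = tv * (rx - qx) + c * (ry - qy) := by
    rw [hDdef, htv, hcdef]; linear_combination -(ry - qy) * hv
  have ev2 : D * (vy - py) = tv * (ry - qy) - c * (rx - qx) := by
    rw [hDdef, htv, hcdef]; linear_combination (rx - qx) * hv
  clear_value D c tu tv
  obtain ⟨hk1, hvD⟩ := sg_abs hDdef hD eu1 eu2 ev1 ev2
  have hkD : D * k = c * (tu - tv) := by
    rw [← hk1, hk]; ring
  clear_value k
  have hne : tu - tv ≠ 0 := by
    intro h0
    have : tu = tv := by linarith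
    rw [this] at h2; exact lt_irrefl _ h2
  have hk0 : k ≠ 0 := by
    intro h0
    rw [h0, mul_zero] at hkD
    exact mul_ne_zero hc hne hkD.symm
  refine ⟨?_, hk0, ?_⟩
  · intro hpv
    rw [Complex.mk.injEq] at hpv
    obtain ⟨e1, e2⟩ := hpv
    rw [← e1, ← e2] at hvD
    have : 0 < tv ^ 2 + c ^ 2 := by positivity
    rw [← hvD] at this
    simp at this
  · have hlt : (tu - tv) ^ 2 < tv ^ 2 + c ^ 2 := lt_key h1 h2 hc
    have e1 : D * D * (k ^ 2 * D) = D * (c ^ 2 * (tu - tv) ^ 2) := by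
      have : D * D * (k ^ 2 * D) = D * (D * k) ^ 2 := by ring
      rw [this, hkD]; ring
    have e2 : D * D * (c ^ 2 * ((vx - px) * (vx - px) + (vy - py) * (vy - py))) =
        D * (c ^ 2 * (tv ^ 2 + c ^ 2)) := by
      rw [← hvD]; ring
    have : D * D * (k ^ 2 * D) < D * D *
        (c ^ 2 * ((vx - px) * (vx - px) + (vy - py) * (vy - py))) := by
      rw [e1, e2]
      have hc2 : 0 < c ^ 2 := by positivity
      exact mul_lt_mul_of_pos_left (mul_lt_mul_of_pos_left hlt hc2) hD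
    exact lt_of_mul_lt_mul_left this (by positivity)

theorem cr_rot (p q r : ℂ) : cr p q r = cr q r p := by unfold cr; ring

/-- Of three distinct real numbers two are on the same side of zero. -/
theorem three_side (a b c : ℝ) (hab : a ≠ b) (hac : a ≠ c) (hbc : b ≠ c) :
    (0 ≤ a * b ∧ a ^ 2 < b ^ 2) ∨ (0 ≤ b * a ∧ b ^ 2 < a ^ 2) ∨
    (0 ≤ a * c ∧ a ^ 2 < c ^ 2) ∨ (0 ≤ c * a ∧ c ^ 2 < a ^ 2) ∨
    (0 ≤ b * c ∧ b ^ 2 < c ^ 2) ∨ (0 ≤ c * b ∧ c ^ 2 < b ^ 2) := by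
  have key : ∀ x y : ℝ, x ≠ y → 0 ≤ x * y → (0 ≤ x * y ∧ x ^ 2 < y ^ 2) ∨
      (0 ≤ y * x ∧ y ^ 2 < x ^ 2) := by
    intro x y hxy h
    rcases lt_trichotomy (x ^ 2) (y ^ 2) with h1 | h1 | h1
    · left; exact ⟨h, h1⟩
    · exfalso
      rcases sq_eq_sq_iff_eq_or_eq_neg.1 h1 with h2 | h2
      · exact hxy h2
      · rw [h2] at h
        have : y = 0 := by nlinarith
        apply hxy; rw [h2, this]; simp
    · right; exact ⟨by rw [mul_comm]; exact h, h1⟩
  rcases le_total 0 a with ha | ha <;> rcases le_total 0 b with hb | hb <;>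
    rcases le_total 0 c with hc | hc
  · have := key a b hab (mul_nonneg ha hb); tauto
  · have := key a b hab (mul_nonneg ha hb); tauto
  · have := key a c hac (mul_nonneg ha hc); tauto
  · have := key b c hbc (mul_nonneg_of_nonpos_of_nonpos hb hc); tauto
  · have := key b c hbc (mul_nonneg hb hc); tauto
  · have := key a c hac (mul_nonneg_of_nonpos_of_nonpos ha hc); tauto
  · have := key a b hab (mul_nonneg_of_nonpos_of_nonpos ha hb); tauto
  · have := key a b hab (mul_nonneg_of_nonpos_of_nonpos ha hb); tauto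

/-- The real Sylvester-Gallai theorem (Kelly's proof). -/
theorem sylvester_gallai (S : Finset ℂ)
    (h : ∀ p ∈ S, ∀ q ∈ S, p ≠ q → ∃ r ∈ S, r ≠ p ∧ r ≠ q ∧ cr p q r = 0) :
    ∀ p ∈ S, ∀ q ∈ S, ∀ r ∈ S, cr p q r = 0 := by
  by_contra hcon
  push Not at hcon
  obtain ⟨p0, hp0, q0, hq0, r0, hr0, h0⟩ := hcon
  set T := (S ×ˢ S ×ˢ S).filter (fun x => cr x.1 x.2.1 x.2.2 ≠ 0) with hT
  have hTne : T.Nonempty := ⟨(p0, q0, r0), by simp [hT, hp0, hq0, hr0, h0]⟩
  obtain ⟨⟨p, q, r⟩, hmem, hmin⟩ := T.exists_min_image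
    (fun x => (cr x.1 x.2.1 x.2.2) ^ 2 / Complex.normSq (x.2.2 - x.2.1)) hTne
  simp only [hT, mem_filter, mem_product] at hmem
  obtain ⟨⟨hp, hq, hr⟩, hc⟩ := hmem
  have hqr : q ≠ r := by
    intro e; apply hc; rw [e]; unfold cr; ring
  have hD : 0 < Complex.normSq (r - q) := by
    rw [Complex.normSq_pos]; exact sub_ne_zero.2 hqr.symm
  obtain ⟨s, hs, hsq, hsr, hcs⟩ := h q hq r hr hqr
  -- no good pair
  have good : ∀ u ∈ S, ∀ v ∈ S, cr q r u = 0 → cr q r v = 0 →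
      ¬ (0 ≤ tt p q r u * tt p q r v ∧ (tt p q r u) ^ 2 < (tt p q r v) ^ 2) := by
    intro u hu v hv hu0 hv0 ⟨h1, h2⟩
    obtain ⟨hpv, hk, hlt⟩ := sg_step hqr hc hu0 hv0 h1 h2
    have hm := hmin (u, p, v) (by simp [hT, hu, hp, hv, hk])
    simp only at hm
    have hV : 0 < Complex.normSq (v - p) := by
      rw [Complex.normSq_pos]; exact sub_ne_zero.2 hpv.symm
    rw [div_le_div_iff₀ hD hV] at hm
    linarith
  have hq0' : cr q r q = 0 := by unfold cr; ring
  have hr0' : cr q r r = 0 := by unfold cr; ring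
  -- injectivity of tt on the line
  have tinj : ∀ u v : ℂ, cr q r u = 0 → cr q r v = 0 → u ≠ v → tt p q r u ≠ tt p q r v := by
    intro u v hu hv huv he
    apply huv
    have hD' := hD
    unfold cr at hu hv
    unfold tt at he
    rw [Complex.normSq_apply, Complex.sub_re, Complex.sub_im] at hD'
    set D := (r.re - q.re) * (r.re - q.re) + (r.im - q.im) * (r.im - q.im) with hDdef
    apply Complex.ext
    · have : D * u.re = D * v.re := by
        rw [hDdef]
        linear_combination (r.re - q.re) * he - (r.im - q.im) * hu + (r.im - q.im) * hv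
      exact mul_left_cancel₀ hD'.ne' this
    · have : D * u.im = D * v.im := by
        rw [hDdef]
        linear_combination (r.im - q.im) * he + (r.re - q.re) * hu - (r.re - q.re) * hv
      exact mul_left_cancel₀ hD'.ne' this
  rcases three_side (tt p q r q) (tt p q r r) (tt p q r s) (tinj q r hq0' hr0' hqr)
    (tinj q s hq0' hcs hsq.symm) (tinj r s hr0' hcs hsr.symm) with h1 | h1 | h1 | h1 | h1 | h1
  · exact good q hq r hr hq0' hr0' h1
  · exact good r hr q hq hr0' hq0' h1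
  · exact good q hq s hs hq0' hcs h1
  · exact good s hs q hq hcs hq0' h1
  · exact good r hr s hs hr0' hcs h1
  · exact good s hs r hr hcs hr0' h1

/-- If `|z| = |w|` and `|z - 1| = |w - 1|` then `w = z` or `w = conj z`. -/
theorem eq_or_conj {z w : ℂ} (h0 : ‖z‖ = ‖w‖) (h1 : ‖z - 1‖ = ‖w - 1‖) :
    z.re = w.re ∧ (z.im = w.im ∨ z.im = -w.im) := by
  have e0 : z.re * z.re + z.im * z.im = w.re * w.re + w.im * w.im := by
    rw [← Complex.normSq_apply, ← Complex.normSq_apply, Complex.normSq_eq_norm_sq,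
      Complex.normSq_eq_norm_sq, h0]
  have e1 : (z.re - 1) * (z.re - 1) + z.im * z.im = (w.re - 1) * (w.re - 1) + w.im * w.im := by
    have a1 := Complex.normSq_eq_norm_sq (z - 1)
    have a2 := Complex.normSq_eq_norm_sq (w - 1)
    rw [h1, ← a2] at a1
    simpa [Complex.normSq_apply] using a1
  have hre : z.re = w.re := by linarith
  refine ⟨hre, ?_⟩
  rw [hre] at e0
  have : z.im ^ 2 = w.im ^ 2 := by nlinarith
  exact sq_eq_sq_iff_eq_or_eq_neg.1 this

/-- Isometric case: a finite isometric correspondence in which every line has a third point is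
contained in a complex line (isometry classification plus the real Sylvester-Gallai theorem). -/
theorem iso_line {N : Finset (ℂ × ℂ)} (hi : ∀ p ∈ N, ∀ q ∈ N, ‖p.1 - q.1‖ = ‖p.2 - q.2‖)
    (ht : Third N) : ∃ a b : ℂ, ∀ p ∈ N, p.2 = a * p.1 + b := by
  by_cases hsub : ∀ p ∈ N, ∀ q ∈ N, p = q
  · rcases N.eq_empty_or_nonempty with hN | ⟨p, hp⟩
    · exact ⟨0, 0, by simp [hN]⟩
    · exact ⟨0, p.2, fun q hq => by rw [hsub q hq p hp]; ring⟩
  push Not at hsub
  obtain ⟨p0, hp0, p1, hp1, hne⟩ := hsub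
  have hne1 : ∀ p ∈ N, ∀ q ∈ N, p ≠ q → p.1 ≠ q.1 := by
    intro p hp q hq hpq h1
    have := hi p hp q hq
    rw [h1, sub_self, norm_zero] at this
    have h2 : p.2 = q.2 := by
      rw [← sub_eq_zero]; exact norm_eq_zero.1 this.symm
    exact hpq (Prod.ext h1 h2)
  have hne2 : ∀ p ∈ N, ∀ q ∈ N, p ≠ q → p.2 ≠ q.2 := by
    intro p hp q hq hpq h1
    have := hi p hp q hq
    rw [h1, sub_self, norm_zero] at this
    have h2 : p.1 = q.1 := by
      rw [← sub_eq_zero]; exact norm_eq_zero.1 this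
    exact hpq (Prod.ext h2 h1)
  have hd1 : p1.1 - p0.1 ≠ 0 := sub_ne_zero.2 (hne1 p0 hp0 p1 hp1 hne).symm
  have hd2 : p1.2 - p0.2 ≠ 0 := sub_ne_zero.2 (hne2 p0 hp0 p1 hp1 hne).symm
  set X : ℂ × ℂ → ℂ := fun p => (p.1 - p0.1) / (p1.1 - p0.1) with hX
  set Y : ℂ × ℂ → ℂ := fun p => (p.2 - p0.2) / (p1.2 - p0.2) with hY
  have hXY : ∀ p ∈ N, ∀ q ∈ N, ‖X p - X q‖ = ‖Y p - Y q‖ := by
    intro p hp q hq
    have e1 : X p - X q = (p.1 - q.1) / (p1.1 - p0.1) := by
      simp only [hX]; rw [div_sub_div_same]; congr 1; ring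
    have e2 : Y p - Y q = (p.2 - q.2) / (p1.2 - p0.2) := by
      simp only [hY]; rw [div_sub_div_same]; congr 1; ring
    rw [e1, e2, norm_div, norm_div, hi p hp q hq, hi p1 hp1 p0 hp0]
  have hX0 : X p0 = 0 := by simp [hX]
  have hY0 : Y p0 = 0 := by simp [hY]
  have hX1 : X p1 = 1 := by simp only [hX]; exact div_self hd1
  have hY1 : Y p1 = 1 := by simp only [hY]; exact div_self hd2
  have hdich : ∀ p ∈ N, (X p).re = (Y p).re ∧ ((X p).im = (Y p).im ∨ (X p).im = -(Y p).im) := by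
    intro p hp
    apply eq_or_conj
    · have := hXY p hp p0 hp0
      rwa [hX0, hY0, sub_zero, sub_zero] at this
    · have := hXY p hp p1 hp1
      rwa [hX1, hY1] at this
  -- it suffices that X = Y on N
  suffices hfin : ∀ p ∈ N, X p = Y p by
    refine ⟨(p1.2 - p0.2) / (p1.1 - p0.1), p0.2 - (p1.2 - p0.2) / (p1.1 - p0.1) * p0.1, ?_⟩
    intro p hp
    have h := hfin p hp
    simp only [hX, hY] at h
    rw [div_eq_div_iff hd1 hd2] at h
    field_simp
    linear_combination -h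
  by_cases hA : ∃ p2 ∈ N, (X p2).im ≠ 0 ∧ (X p2).im = (Y p2).im
  · obtain ⟨p2, hp2, him, hsame⟩ := hA
    intro p hp
    have h2 : X p2 = Y p2 := Complex.ext (hdich p2 hp2).1 hsame
    obtain ⟨hre, him1⟩ := hdich p hp
    rcases him1 with h3 | h3
    · exact Complex.ext hre h3
    · have h4 := hXY p hp p2 hp2
      rw [← h2] at h4
      have h5 : Complex.normSq (X p - X p2) = Complex.normSq (Y p - X p2) := by
        rw [Complex.normSq_eq_norm_sq, Complex.normSq_eq_norm_sq, h4]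
      simp only [Complex.normSq_apply, Complex.sub_re, Complex.sub_im] at h5
      rw [← hre] at h5
      have h6 : (X p2).im * (Y p).im = 0 := by
        rw [h3] at h5; nlinarith
      have h7 : (Y p).im = 0 := (mul_eq_zero.1 h6).resolve_left him
      exact Complex.ext hre (by rw [h3, h7]; simp)
  · push Not at hA
    have hconj : ∀ p ∈ N, (X p).im = -(Y p).im := by
      intro p hp
      rcases (hdich p hp).2 with h1 | h1
      · by_cases h0 : (X p).im = 0
        · rw [← h1, h0]; simp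
        · exact absurd h1 (hA p hp h0)
      · exact h1
    have hXinj : ∀ p ∈ N, ∀ q ∈ N, X p = X q → p = q := by
      intro p hp q hq h
      by_contra hpq
      apply hne1 p hp q hq hpq
      simp only [hX] at h
      rw [div_left_inj' hd1] at h
      linear_combination h
    have hSG := sylvester_gallai (N.image X) (by
      intro x hx y hy hxy
      obtain ⟨p, hp, rfl⟩ := mem_image.1 hx
      obtain ⟨q, hq, rfl⟩ := mem_image.1 hy
      have hpq : p ≠ q := fun e => hxy (by rw [e])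
      obtain ⟨r, hr, hrp, hrq, hcol⟩ := ht p hp q hq ⟨hne1 p hp q hq hpq, hne2 p hp q hq hpq⟩
      refine ⟨X r, mem_image_of_mem _ hr, fun e => hrp (hXinj r hr p hp e),
        fun e => hrq (hXinj r hr q hq e), ?_⟩
      have e1 : (X r - X p) * (Y q - Y p) = (X q - X p) * (Y r - Y p) := by
        simp only [hX, hY]
        field_simp
        linear_combination hcol
      have e2 := congrArg Complex.im e1
      simp only [Complex.mul_im, Complex.sub_re, Complex.sub_im] at e2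
      rw [← (hdich p hp).1, ← (hdich q hq).1, ← (hdich r hr).1] at e2
      have i1 : (Y p).im = -(X p).im := by rw [hconj p hp]; ring
      have i2 : (Y q).im = -(X q).im := by rw [hconj q hq]; ring
      have i3 : (Y r).im = -(X r).im := by rw [hconj r hr]; ring
      rw [i1, i2, i3] at e2
      unfold cr
      linarith)
    intro p hp
    have h1 := hSG (X p0) (mem_image_of_mem _ hp0) (X p1) (mem_image_of_mem _ hp1) (X p)
      (mem_image_of_mem _ hp)
    rw [hX0, hX1] at h1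
    unfold cr at h1
    simp at h1
    have h2 := hconj p hp
    apply Complex.ext (hdich p hp).1
    rw [h1] at h2
    rw [h1]
    linarith

end Pool.Agent.Lib.MP_1c7511_co
end

section

set_option autoImplicit false

namespace Pool.Agent.Lib.MP_1c7511_co

/-- squared distance in coordinates -/
theorem dist_coords (a b : ℂ) : ‖a - b‖ ^ 2 = (a.re - b.re) ^ 2 + (a.im - b.im) ^ 2 := by
  rw [← Complex.normSq_eq_norm_sq, Complex.normSq_apply]
  simp only [Complex.sub_re, Complex.sub_im]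
  ring

/-- Two points with the same distances to `b1` and to `b2`: the differences are orthogonal. -/
theorem perp_of_dist {a1 a2 b1 b2 : ℂ} (h1 : ‖a1 - b1‖ = ‖a2 - b1‖) (h2 : ‖a1 - b2‖ = ‖a2 - b2‖) :
    (a1.re - a2.re) * (b1.re - b2.re) + (a1.im - a2.im) * (b1.im - b2.im) = 0 := by
  have e1 := congrArg (fun x : ℝ => x ^ 2) h1
  have e2 := congrArg (fun x : ℝ => x ^ 2) h2
  simp only [dist_coords] at e1 e2
  linear_combination (-1 / 2 : ℝ) * e1 + (1 / 2 : ℝ) * e2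

/-- Pairwise orthogonal nonzero vectors of the plane: at most two. -/
theorem no_three_orth {a b c a' b' c' : ℝ} (ha : ¬ (a = 0 ∧ a' = 0)) (hb : ¬ (b = 0 ∧ b' = 0))
    (hc : ¬ (c = 0 ∧ c' = 0)) (h1 : a * b + a' * b' = 0) (h2 : b * c + b' * c' = 0)
    (h3 : a * c + a' * c' = 0) : False := by
  -- `b` and `c` are parallel, being orthogonal to `a`
  have h4 : (b * c' - b' * c) * a = 0 := by linear_combination c' * h1 - b' * h3
  have h5 : (b * c' - b' * c) * a' = 0 := by linear_combination b * h3 - c * h1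
  have h6 : b * c' - b' * c = 0 := by
    by_contra hne
    exact ha ⟨(mul_eq_zero.mp h4).resolve_left hne, (mul_eq_zero.mp h5).resolve_left hne⟩
  have h7 : (b ^ 2 + b' ^ 2) * c = 0 := by linear_combination b * h2 - b' * h6
  have h8 : (b ^ 2 + b' ^ 2) * c' = 0 := by linear_combination b' * h2 + b * h6
  have h9 : b ^ 2 + b' ^ 2 ≠ 0 := by
    intro h0
    apply hb
    constructor <;> nlinarith [sq_nonneg b, sq_nonneg b']
  exact hc ⟨(mul_eq_zero.mp h7).resolve_left h9, (mul_eq_zero.mp h8).resolve_left h9⟩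

theorem coords_ne {a b : ℂ} (h : a ≠ b) : ¬ (a.re - b.re = 0 ∧ a.im - b.im = 0) := by
  rintro ⟨h1, h2⟩
  exact h (Complex.ext (sub_eq_zero.mp h1) (sub_eq_zero.mp h2))

/-- Three distinct points equidistant from two distinct centres (with constants depending on the
centre only) do not exist. -/
theorem centre_unique {X0 X1 X2 Z1 Z2 : ℂ} {d1 d2 : ℝ} (h01 : X0 ≠ X1) (h02 : X0 ≠ X2)
    (h12 : X1 ≠ X2) (a0 : ‖X0 - Z1‖ = d1) (a1 : ‖X1 - Z1‖ = d1) (a2 : ‖X2 - Z1‖ = d1)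
    (b0 : ‖X0 - Z2‖ = d2) (b1 : ‖X1 - Z2‖ = d2) (b2 : ‖X2 - Z2‖ = d2) : Z1 = Z2 := by
  by_contra hne
  have e1 := perp_of_dist (a1 := X0) (a2 := X1) (b1 := Z1) (b2 := Z2) (a0.trans a1.symm)
    (b0.trans b1.symm)
  have e2 := perp_of_dist (a1 := X0) (a2 := X2) (b1 := Z1) (b2 := Z2) (a0.trans a2.symm)
    (b0.trans b2.symm)
  have n1 := coords_ne h01
  have n2 := coords_ne h02
  have n3 := coords_ne hne
  have n4 := coords_ne h12
  -- the three points are collinear and on a circle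
  obtain ⟨p, hp⟩ : ∃ p, p = Z1.re - Z2.re := ⟨_, rfl⟩
  obtain ⟨q, hq⟩ : ∃ q, q = Z1.im - Z2.im := ⟨_, rfl⟩
  rw [← hp, ← hq] at e1 e2 n3
  have hpq : p ^ 2 + q ^ 2 ≠ 0 := by
    intro h0
    apply n3
    constructor <;> nlinarith [sq_nonneg p, sq_nonneg q]
  -- write `X1 = X0 + s1 (-q, p)`, `X2 = X0 + s2 (-q, p)`
  obtain ⟨s1, hs1, hs1'⟩ : ∃ s : ℝ, X1.re = X0.re - s * q ∧ X1.im = X0.im + s * p := by
    refine ⟨(-(X1.re - X0.re) * q + (X1.im - X0.im) * p) / (p ^ 2 + q ^ 2), ?_, ?_⟩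
    · field_simp
      linear_combination (-p) * e1
    · field_simp
      linear_combination (-q) * e1
  obtain ⟨s2, hs2, hs2'⟩ : ∃ s : ℝ, X2.re = X0.re - s * q ∧ X2.im = X0.im + s * p := by
    refine ⟨(-(X2.re - X0.re) * q + (X2.im - X0.im) * p) / (p ^ 2 + q ^ 2), ?_, ?_⟩
    · field_simp
      linear_combination (-p) * e2
    · field_simp
      linear_combination (-q) * e2
  have hs1n : s1 ≠ 0 := by
    rintro rfl
    apply n1
    rw [hs1, hs1']; constructor <;> ring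
  have hs2n : s2 ≠ 0 := by
    rintro rfl
    apply n2
    rw [hs2, hs2']; constructor <;> ring
  have hs12 : s1 ≠ s2 := by
    rintro rfl
    apply n4
    rw [hs1, hs1', hs2, hs2']; constructor <;> ring
  have f0 := congrArg (fun x : ℝ => x ^ 2) a0
  have f1 := congrArg (fun x : ℝ => x ^ 2) a1
  have f2 := congrArg (fun x : ℝ => x ^ 2) a2
  simp only [dist_coords] at f0 f1 f2
  rw [hs1, hs1'] at f1
  rw [hs2, hs2'] at f2
  obtain ⟨m, hm⟩ : ∃ m, m = -2 * (X0.re - Z1.re) * q + 2 * (X0.im - Z1.im) * p := ⟨_, rfl⟩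
  have g1 : s1 * (s1 * (p ^ 2 + q ^ 2) + m) = 0 := by rw [hm]; linear_combination f1 - f0
  have g2 : s2 * (s2 * (p ^ 2 + q ^ 2) + m) = 0 := by rw [hm]; linear_combination f2 - f0
  have g1' := (mul_eq_zero.mp g1).resolve_left hs1n
  have g2' := (mul_eq_zero.mp g2).resolve_left hs2n
  have g3 : (s1 - s2) * (p ^ 2 + q ^ 2) = 0 := by linear_combination g1' - g2'
  rcases mul_eq_zero.mp g3 with h | h
  · exact hs12 (sub_eq_zero.mp h)
  · exact hpq h

theorem rank_one (x ξ : Fin 3 → ℂ) (hx : Function.Injective x) (hξ : Function.Injective ξ)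
    (w κ : Fin 3 → ℝ) (hw : ∀ j, 0 < w j) (hκ : ∀ s, 0 < κ s)
    (h : ∀ j s, ‖x j - ξ s‖ = κ s * w j) : False := by
  have hne : ∀ j s, x j - ξ s ≠ 0 := by
    intro j s h0
    have := h j s
    rw [h0, norm_zero] at this
    have := mul_pos (hκ s) (hw j)
    linarith
  have hξ0 : ∀ s, s ≠ 0 → ξ s - ξ 0 ≠ 0 := by
    intro s hs h0
    exact hs (hξ (sub_eq_zero.mp h0))
  -- inversion at `ξ 0`
  have key : ∀ j s, s ≠ 0 → ‖(x j - ξ 0)⁻¹ - (ξ s - ξ 0)⁻¹‖ = κ s / (κ 0 * ‖ξ s - ξ 0‖) := by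
    intro j s hs
    have h1 := hne j 0
    have h2 := hξ0 s hs
    have e1 : (x j - ξ 0)⁻¹ - (ξ s - ξ 0)⁻¹ = -(x j - ξ s) / ((x j - ξ 0) * (ξ s - ξ 0)) := by
      field_simp
      ring
    rw [e1, norm_div, norm_neg, norm_mul, h, h]
    have h3 : w j ≠ 0 := (hw j).ne'
    have h4 : κ 0 ≠ 0 := (hκ 0).ne'
    have h5 : ‖ξ s - ξ 0‖ ≠ 0 := norm_ne_zero_iff.mpr h2
    field_simp
  have hinj : ∀ i j, i ≠ j → (x i - ξ 0)⁻¹ ≠ (x j - ξ 0)⁻¹ := by
    intro i j hij h0
    have := inv_injective h0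
    exact hij (hx (by linear_combination this))
  have hZ := centre_unique (hinj 0 1 (by decide)) (hinj 0 2 (by decide)) (hinj 1 2 (by decide))
    (key 0 1 (by decide)) (key 1 1 (by decide)) (key 2 1 (by decide))
    (key 0 2 (by decide)) (key 1 2 (by decide)) (key 2 2 (by decide))
  have := inv_injective hZ
  have h12 : ξ 1 = ξ 2 := by linear_combination this
  exact absurd (hξ h12) (by decide)

theorem three_perp (a1 a2 b1 b2 c1 c2 : ℂ) (ha : a1 ≠ a2) (hb : b1 ≠ b2) (hc : c1 ≠ c2)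
    (h1 : ‖a1 - b1‖ = ‖a2 - b1‖) (h2 : ‖a1 - b2‖ = ‖a2 - b2‖)
    (h3 : ‖b1 - c1‖ = ‖b2 - c1‖) (h4 : ‖b1 - c2‖ = ‖b2 - c2‖)
    (h5 : ‖a1 - c1‖ = ‖a2 - c1‖) (h6 : ‖a1 - c2‖ = ‖a2 - c2‖) : False :=
  no_three_orth (coords_ne ha) (coords_ne hb) (coords_ne hc) (perp_of_dist h1 h2)
    (perp_of_dist h3 h4) (perp_of_dist h5 h6)

end Pool.Agent.Lib.MP_1c7511_co
end
end

section

section

set_option autoImplicit false

namespace Pool.Agent.Lib.MP_1c7511_co

open Finset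

/-! ### Elementary facts on the plane `ℂ` -/

lemma geo_nsq {a b : ℂ} (h : ‖a‖ = ‖b‖) : a.re ^ 2 + a.im ^ 2 = b.re ^ 2 + b.im ^ 2 := by
  have h1 : ‖a‖ ^ 2 = ‖b‖ ^ 2 := by rw [h]
  rw [Complex.sq_norm, Complex.sq_norm, Complex.normSq_apply, Complex.normSq_apply] at h1
  nlinarith

/-- Two circles with different centres have at most two common points. -/
lemma geo_two_circles {c c' y1 y2 y3 : ℂ} (hc : c ≠ c') (h12 : y1 ≠ y2) (h13 : y1 ≠ y3)
    (h23 : y2 ≠ y3) {d d' : ℝ} (a1 : ‖y1 - c‖ = d) (a2 : ‖y2 - c‖ = d) (a3 : ‖y3 - c‖ = d)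
    (b1 : ‖y1 - c'‖ = d') (b2 : ‖y2 - c'‖ = d') (b3 : ‖y3 - c'‖ = d') : False := by
  have := EuclideanGeometry.eq_of_dist_eq_of_dist_eq_of_finrank_eq_two
    (V := ℂ) (P := ℂ) (c₁ := c) (c₂ := c') (p₁ := y1) (p₂ := y2) (p := y3) (r₁ := d) (r₂ := d')
    Complex.finrank_real_complex hc h12
    (by rw [dist_eq_norm]; exact a1) (by rw [dist_eq_norm]; exact a2)
    (by rw [dist_eq_norm]; exact a3) (by rw [dist_eq_norm]; exact b1)
    (by rw [dist_eq_norm]; exact b2) (by rw [dist_eq_norm]; exact b3)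
  rcases this with h | h
  · exact h13 h.symm
  · exact h23 h.symm

/-- There are no four mutually equidistant points in the plane. -/
lemma geo_four_equidistant {a b c e : ℂ} {d : ℝ} (hd : 0 < d) (h1 : ‖a - e‖ = d)
    (h2 : ‖b - e‖ = d) (h3 : ‖c - e‖ = d) (h4 : ‖a - b‖ = d) (h5 : ‖a - c‖ = d)
    (h6 : ‖b - c‖ = d) : False := by
  have key : ∀ {z : ℂ}, ‖z‖ = d → z.re ^ 2 + z.im ^ 2 = d ^ 2 := by
    intro z hz
    have h : ‖z‖ ^ 2 = d ^ 2 := by rw [hz]
    rw [Complex.sq_norm, Complex.normSq_apply] at h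
    nlinarith
  have e1 := key h1
  have e2 := key h2
  have e3 := key h3
  have e4 := key h4
  have e5 := key h5
  have e6 := key h6
  simp only [Complex.sub_re, Complex.sub_im] at e1 e2 e3 e4 e5 e6
  obtain ⟨a1, a2⟩ := a
  obtain ⟨b1, b2⟩ := b
  obtain ⟨c1, c2⟩ := c
  obtain ⟨w1, w2⟩ := e
  simp only at e1 e2 e3 e4 e5 e6
  set u1 := a1 - w1 with hu1
  set u2 := a2 - w2 with hu2
  set v1 := b1 - w1 with hv1
  set v2 := b2 - w2 with hv2
  set x1 := c1 - w1 with hx1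
  set x2 := c2 - w2 with hx2
  have f4 : u1 * v1 + u2 * v2 = d ^ 2 / 2 := by
    have : a1 - b1 = u1 - v1 := by ring
    have h' : a2 - b2 = u2 - v2 := by ring
    rw [this, h'] at e4
    linear_combination (e1 + e2 - e4) / 2
  have f5 : u1 * x1 + u2 * x2 = d ^ 2 / 2 := by
    have : a1 - c1 = u1 - x1 := by ring
    have h' : a2 - c2 = u2 - x2 := by ring
    rw [this, h'] at e5
    linear_combination (e1 + e3 - e5) / 2
  have f6 : v1 * x1 + v2 * x2 = d ^ 2 / 2 := by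
    have : b1 - c1 = v1 - x1 := by ring
    have h' : b2 - c2 = v2 - x2 := by ring
    rw [this, h'] at e6
    linear_combination (e2 + e3 - e6) / 2
  -- Gram determinant of three vectors in the plane
  have gram : (u1 ^ 2 + u2 ^ 2) * ((v1 ^ 2 + v2 ^ 2) * (x1 ^ 2 + x2 ^ 2) - (v1 * x1 + v2 * x2) ^ 2)
      - (u1 * v1 + u2 * v2) * ((u1 * v1 + u2 * v2) * (x1 ^ 2 + x2 ^ 2)
        - (v1 * x1 + v2 * x2) * (u1 * x1 + u2 * x2))
      + (u1 * x1 + u2 * x2) * ((u1 * v1 + u2 * v2) * (v1 * x1 + v2 * x2)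
        - (v1 ^ 2 + v2 ^ 2) * (u1 * x1 + u2 * x2)) = 0 := by ring
  rw [e1, e2, e3, f4, f5, f6] at gram
  have : d ^ 6 = 0 := by linear_combination 2 * gram
  have h6 : 0 < d ^ 6 := by positivity
  linarith

/-- The sign lemma. -/
lemma geo_sign {p q u : ℂ} (hp : p ≠ 0) (hpq : p ≠ q) (hn : ‖p‖ = ‖q‖)
    (h : (‖u‖ = ‖u - p‖ ∧ ‖u‖ = ‖u - q‖) ∨ (u = q ∧ ‖q - p‖ = ‖q‖)) :
    0 < (u / p).im * (q / p).im := by
  have hp' : ‖p‖ ≠ 0 := by simpa using hp
  set z := q / p with hz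
  have hzn : ‖z‖ = 1 := by rw [hz, norm_div, ← hn, div_self hp']
  have hz1 : z ≠ 1 := by
    intro h1
    rw [hz, div_eq_one_iff_eq hp] at h1
    exact hpq h1.symm
  have e1 : z.re ^ 2 + z.im ^ 2 = 1 := by
    have h1 : ‖z‖ ^ 2 = 1 := by rw [hzn]; norm_num
    rw [Complex.sq_norm, Complex.normSq_apply] at h1
    nlinarith
  have hre : z.re < 1 := by
    have h2 : z.re ≤ 1 := by nlinarith [sq_nonneg z.im, sq_nonneg (z.re - 1)]
    rcases h2.lt_or_eq with h3 | h3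
    · exact h3
    · exfalso
      apply hz1
      apply Complex.ext
      · simpa using h3
      · have : z.im ^ 2 = 0 := by rw [h3] at e1; linarith
        simpa using this
  rcases h with ⟨h1, h2⟩ | ⟨h1, h2⟩
  · set w := u / p with hw
    have g1 : ‖w‖ = ‖w - 1‖ := by
      have : w - 1 = (u - p) / p := by rw [hw]; field_simp
      rw [this, norm_div, norm_div, ← h1]
    have g2 : ‖w‖ = ‖w - z‖ := by
      have : w - z = (u - q) / p := by rw [hw, hz]; field_simp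
      rw [this, norm_div, norm_div, ← h2]
    have g1' := geo_nsq g1
    have g2' := geo_nsq g2
    simp only [Complex.sub_re, Complex.sub_im, Complex.one_re, Complex.one_im] at g1' g2'
    have hwre : w.re = 1 / 2 := by nlinarith
    have : w.im * z.im = (1 - z.re) / 2 := by nlinarith
    rw [this]
    linarith
  · rw [h1, ← hz]
    have g1 : ‖z - 1‖ = ‖z‖ := by
      have : z - 1 = (q - p) / p := by rw [hz]; field_simp
      rw [this, norm_div, hz, norm_div, h2]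
    have g1' := geo_nsq g1
    simp only [Complex.sub_re, Complex.sub_im, Complex.one_re, Complex.one_im] at g1'
    nlinarith

/-! ### The configurations -/

/-- The third point on the line through a generic pair differs from both points in both
coordinates. -/
lemma third_gen {N : Finset (ℂ × ℂ)} (ht : Third N) {p q : ℂ × ℂ} (hp : p ∈ N) (hq : q ∈ N)
    (h : Gen p q) : ∃ r ∈ N, r.1 ≠ p.1 ∧ r.2 ≠ p.2 ∧ r.1 ≠ q.1 ∧ r.2 ≠ q.2 ∧
      (r.1 - p.1) * (q.2 - p.2) = (q.1 - p.1) * (r.2 - p.2) := by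
  obtain ⟨r, hr, hrp, hrq, he⟩ := ht p hp q hq h
  have h1 : q.1 - p.1 ≠ 0 := sub_ne_zero.2 (Ne.symm h.1)
  have h2 : q.2 - p.2 ≠ 0 := sub_ne_zero.2 (Ne.symm h.2)
  refine ⟨r, hr, ?_, ?_, ?_, ?_, he⟩
  · intro h3
    rw [h3, sub_self, zero_mul] at he
    have h4 := (mul_eq_zero.1 he.symm).resolve_left h1
    exact hrp (Prod.ext h3 (sub_eq_zero.1 h4))
  · intro h3
    rw [h3, sub_self, mul_zero] at he
    have h4 := (mul_eq_zero.1 he).resolve_right h2
    exact hrp (Prod.ext (sub_eq_zero.1 h4) h3)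
  · intro h3
    rw [h3] at he
    have h4 := mul_left_cancel₀ h1 he
    exact hrq (Prod.ext h3 (sub_left_injective h4).symm)
  · intro h3
    rw [h3] at he
    have h4 := mul_right_cancel₀ h2 he
    exact hrq (Prod.ext (sub_left_injective h4) h3)

/-- Transposition. -/
lemma isom_swap {N : Finset (ℂ × ℂ)} (hi : Isom N) : Isom (N.image Prod.swap) := by
  intro p hp q hq h
  simp only [mem_image, Prod.exists] at hp hq
  obtain ⟨a, b, hab, rfl⟩ := hp
  obtain ⟨c, d, hcd, rfl⟩ := hq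
  exact (hi _ hab _ hcd ⟨h.2, h.1⟩).symm

lemma third_swap {N : Finset (ℂ × ℂ)} (ht : Third N) : Third (N.image Prod.swap) := by
  intro p hp q hq h
  simp only [mem_image, Prod.exists] at hp hq
  obtain ⟨a, b, hab, rfl⟩ := hp
  obtain ⟨c, d, hcd, rfl⟩ := hq
  obtain ⟨r, hr, h1, h2, h3⟩ := ht _ hab _ hcd ⟨h.2, h.1⟩
  refine ⟨r.swap, mem_image_of_mem _ hr, ?_, ?_, ?_⟩
  · intro h4
    exact h1 (Prod.swap_injective h4)
  · intro h4
    exact h2 (Prod.swap_injective h4)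
  · simp only [Prod.fst_swap, Prod.snd_swap, Prod.swap_prod_mk] at h3 ⊢
    linear_combination -h3

lemma card_Vc_swap (N : Finset (ℂ × ℂ)) (p : ℂ × ℂ) :
    (Vc (N.image Prod.swap) p.swap).card = (Hc N p).card := by
  have : Vc (N.image Prod.swap) p.swap = (Hc N p).image Prod.swap := by
    ext q
    simp only [Vc, Hc, mem_filter, mem_image, Prod.fst_swap]
    constructor
    · rintro ⟨⟨r, hr, rfl⟩, h⟩
      exact ⟨r, ⟨hr, h⟩, rfl⟩
    · rintro ⟨r, ⟨hr, h⟩, rfl⟩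
      exact ⟨⟨r, hr, rfl⟩, h⟩
  rw [this, card_image_of_injective _ Prod.swap_injective]

/-- A vertical class with at least four points: everything lies on this line. -/
theorem fiber_four {N : Finset (ℂ × ℂ)} (hi : Isom N) (ht : Third N) {p0 : ℂ × ℂ}
    (h4 : 4 ≤ (Vc N p0).card) : ∀ q ∈ N, q.1 = p0.1 := by
  classical
  by_contra hcon
  push Not at hcon
  obtain ⟨q, hq, hq0⟩ := hcon
  set x0 := p0.1 with hx0
  -- the heights of the fibre
  set Y : Finset ℂ := (Vc N p0).image Prod.snd with hY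
  have hYmem : ∀ y, y ∈ Y ↔ (x0, y) ∈ N := by
    intro y
    simp only [hY, Vc, mem_image, mem_filter, Prod.exists]
    constructor
    · rintro ⟨a, b, ⟨hab, h1⟩, rfl⟩
      have h2 : a = x0 := h1
      rwa [← h2]
    · intro h
      exact ⟨x0, y, ⟨h, rfl⟩, rfl⟩
  have hYcard : 4 ≤ Y.card := by
    rw [hY, card_image_of_injOn]
    · exact h4
    · intro a ha b hb hab
      simp only [Vc, coe_filter, Set.mem_ofPred_eq] at ha hb
      exact Prod.ext (ha.2.trans hb.2.symm) hab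
  -- centres
  let Ctr : ℂ → Prop := fun c => ∃ x', x' ≠ x0 ∧ (x', c) ∈ N
  have hCtr : ∀ c, Ctr c → ∃ d : ℝ, 0 < d ∧ ∀ y ∈ Y, y ≠ c → ‖y - c‖ = d := by
    rintro c ⟨x', hx', hN⟩
    refine ⟨‖x0 - x'‖, norm_pos_iff.2 (sub_ne_zero.2 (Ne.symm hx')), fun y hy hyc => ?_⟩
    exact (hi _ ((hYmem y).1 hy) _ hN ⟨Ne.symm hx', hyc⟩).symm
  have hL1 : ∀ c, Ctr c → ∀ y ∈ Y, y ≠ c → ∃ c', Ctr c' ∧ c' ≠ c ∧ c' ≠ y := by
    rintro c ⟨x', hx', hN⟩ y hy hyc
    obtain ⟨r, hr, h1, h2, h3, h5, -⟩ := third_gen ht ((hYmem y).1 hy) hN ⟨Ne.symm hx', hyc⟩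
    exact ⟨r.2, ⟨r.1, h1, hr⟩, h5, h2⟩
  have hL2 : ∀ c c', Ctr c → Ctr c' → c ≠ c' → c ∈ Y ∧ c' ∈ Y := by
    intro c c' hc hc' hne
    by_contra hcon
    obtain ⟨d, -, hd⟩ := hCtr c hc
    obtain ⟨d', -, hd'⟩ := hCtr c' hc'
    have hcard : 3 ≤ ((Y.erase c).erase c').card := by
      by_cases h1 : c ∈ Y
      · have h2 : c' ∉ Y := fun h => hcon ⟨h1, h⟩
        have h3 : c' ∉ Y.erase c := fun h => h2 (mem_of_mem_erase h)
        rw [erase_eq_of_notMem h3, card_erase_of_mem h1]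
        omega
      · rw [erase_eq_of_notMem h1]
        have := pred_card_le_card_erase (s := Y) (a := c')
        omega
    obtain ⟨a, b, e, ha, hb, he, hab, hae, hbe⟩ := two_lt_card_iff.1 hcard
    simp only [mem_erase] at ha hb he
    exact geo_two_circles hne hab hae hbe (hd a ha.2.2 ha.2.1) (hd b hb.2.2 hb.2.1)
      (hd e he.2.2 he.2.1) (hd' a ha.2.2 ha.1) (hd' b hb.2.2 hb.1) (hd' e he.2.2 he.1)
  -- three centres
  have hc1 : Ctr q.2 := ⟨q.1, hq0, hq⟩
  obtain ⟨y, hy⟩ : ∃ y ∈ Y, y ≠ q.2 := exists_mem_ne (by omega) _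
  obtain ⟨c2, hc2, h21, -⟩ := hL1 _ hc1 y hy.1 hy.2
  obtain ⟨hY1, hY2⟩ := hL2 _ _ hc1 hc2 (Ne.symm h21)
  obtain ⟨c3, hc3, h31, h32⟩ := hL1 _ hc1 c2 hY2 h21
  obtain ⟨-, hY3⟩ := hL2 _ _ hc1 hc3 (Ne.symm h31)
  obtain ⟨a, ha, hna⟩ : ∃ a ∈ Y, a ∉ ({q.2, c2, c3} : Finset ℂ) := by
    by_contra hcon
    push Not at hcon
    have := card_le_card (show Y ⊆ ({q.2, c2, c3} : Finset ℂ) from hcon)
    have h2 : ({q.2, c2, c3} : Finset ℂ).card ≤ 3 := card_le_three
    omega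
  simp only [mem_insert, mem_singleton, not_or] at hna
  obtain ⟨d1, hd1, g1⟩ := hCtr _ hc1
  obtain ⟨d2, hd2, g2⟩ := hCtr _ hc2
  obtain ⟨d3, hd3, g3⟩ := hCtr _ hc3
  have k12 : d2 = d1 := by
    rw [← g2 _ hY1 (Ne.symm h21), ← g1 _ hY2 h21, norm_sub_rev]
  have k13 : d3 = d1 := by
    rw [← g3 _ hY1 (Ne.symm h31), ← g1 _ hY3 h31, norm_sub_rev]
  refine geo_four_equidistant hd1 (a := a) (b := c2) (c := c3) (e := q.2) (g1 a ha hna.1)
    (g1 _ hY2 h21) (g1 _ hY3 h31) ((g2 a ha hna.2.1).trans k12) ((g3 a ha hna.2.2).trans k13) ?_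
  exact (g3 _ hY2 (Ne.symm h32)).trans k13

/-- A horizontal class with at least four points: everything lies on this line. -/
theorem fiber_four' {N : Finset (ℂ × ℂ)} (hi : Isom N) (ht : Third N) {p0 : ℂ × ℂ}
    (h4 : 4 ≤ (Hc N p0).card) : ∀ q ∈ N, q.2 = p0.2 := by
  intro q hq
  have := fiber_four (isom_swap hi) (third_swap ht) (p0 := p0.swap)
    (by rw [card_Vc_swap]; exact h4) q.swap (mem_image_of_mem _ hq)
  simpa using this

lemma geo_step {N : Finset (ℂ × ℂ)} (hi : Isom N) (ht : Third N) {x0 xs xt y1 ya yb : ℂ}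
    (h01 : (x0, y1) ∈ N) (h0a : (x0, ya) ∈ N) (h0b : (x0, yb) ∈ N) (hs1 : (xs, y1) ∈ N)
    (ht1 : (xt, y1) ∈ N) (hxs : xs ≠ x0) (hxt : xt ≠ x0) (hst : xs ≠ xt) (ha : ya ≠ y1)
    (hb : yb ≠ y1) (hab : ya ≠ yb) : ∃ u v : ℂ, u / (xs - x0) + v / (ya - y1) = 1 ∧
      0 < (u / (xs - x0)).im * ((xt - x0) / (xs - x0)).im ∧
      0 < (v / (ya - y1)).im * ((yb - y1) / (ya - y1)).im := by
  obtain ⟨r, hr, r1, r2, r3, r4, he⟩ := third_gen ht h0a hs1 ⟨Ne.symm hxs, ha⟩
  simp only at r1 r2 r3 r4 he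
  have hX : xs - x0 ≠ 0 := sub_ne_zero.2 hxs
  have hA : ya - y1 ≠ 0 := sub_ne_zero.2 ha
  have e1 : ‖xs - x0‖ = ‖y1 - ya‖ := hi _ hs1 _ h0a ⟨hxs, Ne.symm ha⟩
  have e2 : ‖xt - x0‖ = ‖y1 - ya‖ := hi _ ht1 _ h0a ⟨hxt, Ne.symm ha⟩
  have e3 : ‖xs - x0‖ = ‖y1 - yb‖ := hi _ hs1 _ h0b ⟨hxs, Ne.symm hb⟩
  have g0 : ‖r.1 - x0‖ = ‖r.2 - y1‖ := hi _ hr _ h01 ⟨r1, r4⟩
  have g1 : ‖r.1 - xs‖ = ‖r.2 - y1‖ := hi _ hr _ hs1 ⟨r3, r4⟩
  have g2 : ‖r.1 - x0‖ = ‖r.2 - ya‖ := hi _ hr _ h0a ⟨r1, r2⟩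
  refine ⟨r.1 - x0, r.2 - y1, ?_, ?_, ?_⟩
  · field_simp
    linear_combination -he
  · apply geo_sign hX (fun h => hst (sub_left_injective h)) (e1.trans e2.symm)
    by_cases h : r.1 = xt
    · right
      refine ⟨by rw [h], ?_⟩
      rw [sub_sub_sub_cancel_right, ← h, g1, g0]
    · left
      have g3 : ‖r.1 - xt‖ = ‖r.2 - y1‖ := hi _ hr _ ht1 ⟨h, r4⟩
      rw [sub_sub_sub_cancel_right, sub_sub_sub_cancel_right, g0, g1, g3]
      exact ⟨rfl, rfl⟩
  · apply geo_sign hA (fun h => hab (sub_left_injective h))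
      (by rw [norm_sub_rev, ← e1, e3, norm_sub_rev])
    by_cases h : r.2 = yb
    · right
      refine ⟨by rw [h], ?_⟩
      rw [sub_sub_sub_cancel_right, ← h, ← g2, g0]
    · left
      have g3 : ‖r.1 - x0‖ = ‖r.2 - yb‖ := hi _ hr _ h0b ⟨r1, h⟩
      rw [sub_sub_sub_cancel_right, sub_sub_sub_cancel_right, ← g0, ← g2, ← g3]
      exact ⟨rfl, rfl⟩

/-- If a vertical class has at least three points and no horizontal class through it has exactly
two points, then everything lies on this vertical line. -/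
theorem fiber_three {N : Finset (ℂ × ℂ)} (hi : Isom N) (ht : Third N) {p0 : ℂ × ℂ}
    (hp0 : p0 ∈ N) (h3 : 3 ≤ (Vc N p0).card) (hH : ∀ p ∈ Vc N p0, (Hc N p).card ≠ 2) :
    ∀ q ∈ N, q.1 = p0.1 := by
  classical
  by_contra hcon
  push Not at hcon
  obtain ⟨q, hq, hq0⟩ := hcon
  set x0 := p0.1 with hx0
  have hV : ∀ p, p ∈ Vc N p0 ↔ p ∈ N ∧ p.1 = x0 := fun p => by
    simp only [Vc, mem_filter]; rfl
  -- an off-line point whose height is in the fibre
  obtain ⟨xs, y1, hxs, hxsN, hy1⟩ : ∃ xs y1, xs ≠ x0 ∧ (xs, y1) ∈ N ∧ (x0, y1) ∈ N := by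
    by_contra hno
    push Not at hno
    obtain ⟨a, b, e, ha, hb, he, hab, hae, hbe⟩ := two_lt_card_iff.1 h3
    rw [hV] at ha hb he
    have hall : ∀ r ∈ N, r.1 ≠ x0 → ∀ s, s ∈ N ∧ s.1 = x0 → ‖s.2 - r.2‖ = ‖x0 - r.1‖ := by
      intro r hr hr0 s hs
      have hne : s.2 ≠ r.2 := by
        intro h
        apply hno r.1 r.2 hr0 hr
        rw [← h, ← hs.2]
        exact hs.1
      have := hi s hs.1 r hr ⟨by rw [hs.2]; exact Ne.symm hr0, hne⟩
      rw [← this, hs.2]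
    have hne2 : ∀ {s t : ℂ × ℂ}, s.1 = x0 → t.1 = x0 → s ≠ t → s.2 ≠ t.2 :=
      fun hs ht hst h => hst (Prod.ext (hs.trans ht.symm) h)
    have hqa : a.2 ≠ q.2 := by
      intro h
      apply hno q.1 q.2 hq0 hq
      rw [← h, ← ha.2]; exact ha.1
    obtain ⟨r, hr, r1, r2, r3, r4, -⟩ := third_gen ht ha.1 hq
      ⟨by rw [ha.2]; exact Ne.symm hq0, hqa⟩
    have hr0 : r.1 ≠ x0 := by rw [← ha.2]; exact r1
    exact geo_two_circles (Ne.symm r4) (hne2 ha.2 hb.2 hab) (hne2 ha.2 he.2 hae)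
      (hne2 hb.2 he.2 hbe) (hall q hq hq0 a ha) (hall q hq hq0 b hb) (hall q hq hq0 e he)
      (hall r hr hr0 a ha) (hall r hr hr0 b hb) (hall r hr hr0 e he)
  -- the other two points of the fibre
  have hp1 : (x0, y1) ∈ Vc N p0 := (hV _).2 ⟨hy1, rfl⟩
  obtain ⟨s2, hs2, s3, hs3, hs23⟩ : ∃ s2 ∈ (Vc N p0).erase (x0, y1),
      ∃ s3 ∈ (Vc N p0).erase (x0, y1), s2 ≠ s3 := by
    apply one_lt_card.1
    rw [card_erase_of_mem hp1]; omega
  rw [mem_erase, hV] at hs2 hs3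
  obtain ⟨x2, y2⟩ := s2
  obtain ⟨x3, y3⟩ := s3
  simp only at hs2 hs3
  obtain ⟨hs2n, hs2N, rfl⟩ := hs2
  obtain ⟨hs3n, hs3N, hx3⟩ := hs3
  subst hx3
  have h21 : y2 ≠ y1 := fun h => hs2n (by rw [h])
  have h31 : y3 ≠ y1 := fun h => hs3n (by rw [h])
  have h23 : y2 ≠ y3 := fun h => hs23 (by rw [h])
  -- a third point at the height `y1`
  obtain ⟨xt, hxt, hst, hxtN⟩ : ∃ xt, xt ≠ x0 ∧ xs ≠ xt ∧ (xt, y1) ∈ N := by
    have hc := hH _ hp1
    have hm1 : (x0, y1) ∈ Hc N (x0, y1) := by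
      exact mem_filter.2 ⟨hy1, rfl⟩
    have hm2 : (xs, y1) ∈ (Hc N (x0, y1)).erase (x0, y1) := by
      rw [mem_erase]
      exact ⟨fun h => hxs (congrArg Prod.fst h), mem_filter.2 ⟨hxsN, rfl⟩⟩
    have hcard : 0 < (((Hc N (x0, y1)).erase (x0, y1)).erase (xs, y1)).card := by
      rw [card_erase_of_mem hm2, card_erase_of_mem hm1]
      have : 0 < ((Hc N (x0, y1)).erase (x0, y1)).card := card_pos.2 ⟨_, hm2⟩
      rw [card_erase_of_mem hm1] at this
      omega
    obtain ⟨⟨xt, yt⟩, hmt⟩ := card_pos.1 hcard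
    simp only [mem_erase, Hc, mem_filter] at hmt
    obtain ⟨k1, k2, k3, rfl⟩ := hmt
    exact ⟨xt, fun h => k2 (by rw [h]), fun h => k1 (by rw [h]), k3⟩
  obtain ⟨u2, v2, a1, a2, a3⟩ := geo_step hi ht hy1 hs2N hs3N hxsN hxtN hxs hxt hst h21 h31 h23
  obtain ⟨u3, v3, b1, b2, b3⟩ := geo_step hi ht hy1 hs3N hs2N hxsN hxtN hxs hxt hst h31 h21
    (Ne.symm h23)
  have c1 : (v2 / (y2 - y1)).im = -(u2 / (xs - x0)).im := by
    have := congrArg Complex.im a1
    simp only [Complex.add_im, Complex.one_im] at this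
    linarith
  have c2 : (v3 / (y3 - y1)).im = -(u3 / (xs - x0)).im := by
    have := congrArg Complex.im b1
    simp only [Complex.add_im, Complex.one_im] at this
    linarith
  have c3 : ((y2 - y1) / (y3 - y1)).im =
      -((y3 - y1) / (y2 - y1)).im / Complex.normSq ((y3 - y1) / (y2 - y1)) := by
    rw [← Complex.inv_im, inv_div]
  have hn : 0 < Complex.normSq ((y3 - y1) / (y2 - y1)) :=
    Complex.normSq_pos.2 (div_ne_zero (sub_ne_zero.2 h31) (sub_ne_zero.2 h21))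
  rw [c1] at a3
  rw [c2, c3] at b3
  set α := (u2 / (xs - x0)).im
  set β := (u3 / (xs - x0)).im
  set s := ((xt - x0) / (xs - x0)).im
  set t := ((y3 - y1) / (y2 - y1)).im
  set n := Complex.normSq ((y3 - y1) / (y2 - y1))
  have b4 : 0 < β * t := by
    have h1 : -β * (-t / n) = (β * t) / n := by ring
    rw [h1] at b3
    exact (div_pos_iff_of_pos_right hn).1 b3
  have m1 := mul_pos a2 b2
  have m2 := mul_pos a3 b4
  rcases le_or_gt (α * β) 0 with h | h
  · nlinarith [sq_nonneg s]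
  · nlinarith [sq_nonneg t]

end Pool.Agent.Lib.MP_1c7511_co
end

section

set_option autoImplicit false

namespace Pool.Agent.Lib.MP_1c7511_co

open Finset

/-- Value of a linear form. -/
def lin (α w : Fin 3 → ℂ) : ℂ := α 0 * w 0 + α 1 * w 1 + α 2 * w 2

/-- Coefficient vector of the product of two linear forms. -/
def prd (α β : Fin 3 → ℂ) : Fin 6 → ℂ :=
  ![α 0 * β 0, α 1 * β 1, α 2 * β 2, α 0 * β 1 + α 1 * β 0, α 0 * β 2 + α 2 * β 0,
    α 1 * β 2 + α 2 * β 1]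

theorem qf_prd (α β w : Fin 3 → ℂ) : qf (prd α β) w = lin α w * lin β w := by
  unfold qf prd lin
  simp
  ring

/-- Cross product. -/
def cx (p q : Fin 3 → ℂ) : Fin 3 → ℂ :=
  ![p 1 * q 2 - p 2 * q 1, p 2 * q 0 - p 0 * q 2, p 0 * q 1 - p 1 * q 0]

theorem lin_cx (p q w : Fin 3 → ℂ) :
    lin (cx p q) w = (p 1 * q 2 - p 2 * q 1) * w 0 + (p 2 * q 0 - p 0 * q 2) * w 1 +
      (p 0 * q 1 - p 1 * q 0) * w 2 := by
  unfold lin cx; simp

theorem col_lin {ι : Type*} (v : ι → Fin 3 → ℂ) (i j k : ι) :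
    Col v i j k ↔ lin (cx (v i) (v j)) (v k) = 0 := by
  unfold Col
  rw [lin_cx, Matrix.det_fin_three]
  simp only [Matrix.of_apply, Matrix.cons_val_zero, Matrix.cons_val_one, Matrix.cons_val]
  have : v i 0 * v j 1 * v k 2 - v i 0 * v j 2 * v k 1 - v i 1 * v j 0 * v k 2 +
      v i 1 * v j 2 * v k 0 + v i 2 * v j 0 * v k 1 - v i 2 * v j 1 * v k 0 =
      (v i 1 * v j 2 - v i 2 * v j 1) * v k 0 + (v i 2 * v j 0 - v i 0 * v j 2) * v k 1 +
      (v i 0 * v j 1 - v i 1 * v j 0) * v k 2 := by ring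
  rw [this]

theorem cx_ne {p q : Fin 3 → ℂ} (h : LinearIndependent ℂ ![p, q]) : cx p q ≠ 0 := by
  intro h0
  rw [LinearIndependent.pair_iff] at h
  have h1 := congrFun h0 0
  have h2 := congrFun h0 1
  have h3 := congrFun h0 2
  simp [cx] at h1 h2 h3
  have key : ∀ j, q j = 0 ∧ p j = 0 := by
    intro j
    have := h (q j) (-p j) (by
      funext i
      simp only [Pi.add_apply, Pi.smul_apply, smul_eq_mul, Pi.zero_apply]
      fin_cases j <;> fin_cases i <;> simp <;>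
        first
        | ring1
        | linear_combination h1
        | linear_combination -h1
        | linear_combination h2
        | linear_combination -h2
        | linear_combination h3
        | linear_combination -h3)
    exact ⟨this.1, neg_eq_zero.1 this.2⟩
  have hp : p = 0 := funext fun j => (key j).2
  have := h 1 0 (by rw [hp]; simp)
  exact one_ne_zero this.1

theorem exists_lin_one {ζ : Fin 3 → ℂ} (h : ζ ≠ 0) : ∃ u, lin ζ u = 1 := by
  have : ∃ i, ζ i ≠ 0 := by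
    by_contra hcon
    push Not at hcon
    exact h (funext hcon)
  obtain ⟨i, hi⟩ := this
  fin_cases i
  · exact ⟨![(ζ 0)⁻¹, 0, 0], by simp [lin]; exact mul_inv_cancel₀ hi⟩
  · exact ⟨![0, (ζ 1)⁻¹, 0], by simp [lin]; exact mul_inv_cancel₀ hi⟩
  · exact ⟨![0, 0, (ζ 2)⁻¹], by simp [lin]; exact mul_inv_cancel₀ hi⟩

/-- Cramer's rule. -/
theorem cramer (A B u w : Fin 3 → ℂ) (i : Fin 3) :
    lin (cx A B) u * w i = lin (cx B u) w * A i + lin (cx u A) w * B i + lin (cx A B) w * u i := by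
  simp only [lin_cx]
  fin_cases i <;> simp <;> ring

/-- Polarisation. -/
def bl (c : Fin 6 → ℂ) (p q : Fin 3 → ℂ) : ℂ :=
  2 * c 0 * p 0 * q 0 + 2 * c 1 * p 1 * q 1 + 2 * c 2 * p 2 * q 2 +
    c 3 * (p 0 * q 1 + p 1 * q 0) + c 4 * (p 0 * q 2 + p 2 * q 0) + c 5 * (p 1 * q 2 + p 2 * q 1)

theorem qf_comb (c : Fin 6 → ℂ) (A B u w : Fin 3 → ℂ) (X Y Z : ℂ)
    (h : ∀ i, w i = X * A i + Y * B i + Z * u i) :
    qf c w = X ^ 2 * qf c A + Y ^ 2 * qf c B + Z ^ 2 * qf c u + X * Y * bl c A B +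
      X * Z * bl c A u + Y * Z * bl c B u := by
  unfold qf bl
  rw [h 0, h 1, h 2]
  ring

/-- A quadratic form is determined by its values. -/
theorem qf_ext {c c' : Fin 6 → ℂ} (h : ∀ w, qf c w = qf c' w) : c = c' := by
  have h0 := h ![1, 0, 0]
  have h1 := h ![0, 1, 0]
  have h2 := h ![0, 0, 1]
  have h3 := h ![1, 1, 0]
  have h4 := h ![1, 0, 1]
  have h5 := h ![0, 1, 1]
  simp [qf] at h0 h1 h2 h3 h4 h5
  funext i
  fin_cases i
  · exact h0
  · exact h1
  · exact h2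
  · simp; linear_combination h3 - h0 - h1
  · simp; linear_combination h4 - h0 - h2
  · simp; linear_combination h5 - h1 - h2

/-- A (1,1)-form through a generic triple and vanishing at the corner `(x_p, y_q)` is zero. -/
theorem form_unique {A B C D : ℂ} {p q r : ℂ × ℂ} (hpq : Gen p q) (hpr : Gen p r)
    (hqr : Gen q r) (hp : ev A B C D p = 0) (hq : ev A B C D q = 0) (hr : ev A B C D r = 0)
    (h0 : ev A B C D (p.1, q.2) = 0) : A = 0 ∧ B = 0 ∧ C = 0 ∧ D = 0 := by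
  obtain ⟨hpq1, hpq2⟩ := hpq
  obtain ⟨hpr1, hpr2⟩ := hpr
  obtain ⟨hqr1, hqr2⟩ := hqr
  simp only [ev] at hp hq hr h0
  have e1 : A * q.2 + B = 0 := by
    have : (p.1 - q.1) * (A * q.2 + B) = 0 := by linear_combination h0 - hq
    exact (mul_eq_zero.1 this).resolve_left (sub_ne_zero.2 hpq1)
  have e2 : C * q.2 + D = 0 := by linear_combination h0 - p.1 * e1
  have e3 : A * p.1 + C = 0 := by
    have : (p.2 - q.2) * (A * p.1 + C) = 0 := by linear_combination hp - h0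
    exact (mul_eq_zero.1 this).resolve_left (sub_ne_zero.2 hpq2)
  have e4 : A * r.1 + C = 0 := by
    have : (r.2 - q.2) * (A * r.1 + C) = 0 := by
      linear_combination hr - r.1 * e1 - e2
    exact (mul_eq_zero.1 this).resolve_left (sub_ne_zero.2 hqr2.symm)
  have hA : A = 0 := by
    have : (p.1 - r.1) * A = 0 := by linear_combination e3 - e4
    exact (mul_eq_zero.1 this).resolve_left (sub_ne_zero.2 hpr1)
  have hC : C = 0 := by rw [hA] at e3; simpa using e3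
  have hB : B = 0 := by rw [hA] at e1; simpa using e1
  have hD : D = 0 := by rw [hC] at e2; simpa using e2
  exact ⟨hA, hB, hC, hD⟩

theorem form_prop {A B C D A' B' C' D' : ℂ} {p q r : ℂ × ℂ} (hpq : Gen p q) (hpr : Gen p r)
    (hqr : Gen q r) (hp : ev A B C D p = 0) (hq : ev A B C D q = 0) (hr : ev A B C D r = 0)
    (hp' : ev A' B' C' D' p = 0) (hq' : ev A' B' C' D' q = 0) (hr' : ev A' B' C' D' r = 0)
    (hne : ¬ (A = 0 ∧ B = 0 ∧ C = 0 ∧ D = 0)) :
    ∃ t : ℂ, A' = t * A ∧ B' = t * B ∧ C' = t * C ∧ D' = t * D := by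
  have h0 : ev A B C D (p.1, q.2) ≠ 0 := fun h => hne (form_unique hpq hpr hqr hp hq hr h)
  set e := ev A B C D (p.1, q.2) with he
  set e' := ev A' B' C' D' (p.1, q.2) with he'
  have hlin : ∀ x : ℂ × ℂ, ev (A' - e' / e * A) (B' - e' / e * B) (C' - e' / e * C)
      (D' - e' / e * D) x = ev A' B' C' D' x - e' / e * ev A B C D x := by
    intro x; unfold ev; ring
  have := form_unique (A := A' - e' / e * A) (B := B' - e' / e * B) (C := C' - e' / e * C)
    (D := D' - e' / e * D) hpq hpr hqr (by rw [hlin, hp, hp']; ring)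
    (by rw [hlin, hq, hq']; ring) (by rw [hlin, hr, hr']; ring)
    (by rw [hlin, ← he, ← he']; field_simp; ring)
  obtain ⟨a1, a2, a3, a4⟩ := this
  exact ⟨e' / e, sub_eq_zero.1 a1, sub_eq_zero.1 a2, sub_eq_zero.1 a3, sub_eq_zero.1 a4⟩

/-- Affine coordinates adapted to a two-point line. -/
theorem coords {ι : Type*} [Fintype ι] [DecidableEq ι] {v : ι → Fin 3 → ℂ} (h : BadConf v)
    {a b : ι} (hab : a ≠ b) (h2 : ∀ k, Col v a b k → k = a ∨ k = b) :
    ∃ ψ : ι → ℂ × ℂ,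
      (∀ i j, i ≠ a → i ≠ b → j ≠ a → j ≠ b → ψ i = ψ j → i = j) ∧
      (∀ i j, i ≠ a → i ≠ b → j ≠ a → j ≠ b → ((ψ i).1 = (ψ j).1 ↔ Col v b i j)) ∧
      (∀ i j, i ≠ a → i ≠ b → j ≠ a → j ≠ b → ((ψ i).2 = (ψ j).2 ↔ Col v a i j)) ∧
      Four ((univ.filter (fun i => i ≠ a ∧ i ≠ b)).image ψ) ∧
      NoCurve ((univ.filter (fun i => i ≠ a ∧ i ≠ b)).image ψ) := by
  obtain ⟨u, hu⟩ := exists_lin_one (cx_ne (h.indep a b hab))
  set VA := v a with hVA
  set VB := v b with hVB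
  set ξ := cx VB u with hξ
  set η := cx u VA with hη
  set ζ := cx VA VB with hζ
  have hcr : ∀ w : Fin 3 → ℂ, ∀ i, w i = lin ξ w * VA i + lin η w * VB i + lin ζ w * u i := by
    intro w i
    have := cramer VA VB u w i
    rw [hu, one_mul] at this
    exact this
  have hZ : ∀ k, k ≠ a → k ≠ b → lin ζ (v k) ≠ 0 := by
    intro k hka hkb h0
    rcases h2 k ((col_lin v a b k).2 h0) with e | e
    · exact hka e
    · exact hkb e
  have hZa : lin ζ VA = 0 := by rw [hζ, lin_cx]; ring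
  have hZb : lin ζ VB = 0 := by rw [hζ, lin_cx]; ring
  have hXa : lin ξ VA = 1 := by rw [← hu, hξ, lin_cx, hζ, lin_cx]; ring
  have hXb : lin ξ VB = 0 := by rw [hξ, lin_cx]; ring
  have hYa : lin η VA = 0 := by rw [hη, lin_cx]; ring
  have hYb : lin η VB = 1 := by rw [← hu, hη, lin_cx, hζ, lin_cx]; ring
  have hXu : lin ξ u = 0 := by rw [hξ, lin_cx]; ring
  have hYu : lin η u = 0 := by rw [hη, lin_cx]; ring
  have hlin_add : ∀ α w w' : Fin 3 → ℂ, lin α (w + w') = lin α w + lin α w' := by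
    intro α w w'; unfold lin; simp only [Pi.add_apply]; ring
  set ψ : ι → ℂ × ℂ := fun k => (lin ξ (v k) / lin ζ (v k), lin η (v k) / lin ζ (v k)) with hψ
  -- the quadratic form attached to a (1,1)-form
  let F : ℂ → ℂ → ℂ → ℂ → Fin 6 → ℂ := fun A B C D =>
    A • prd ξ η + B • prd ξ ζ + C • prd η ζ + D • prd ζ ζ
  have hF : ∀ A B C D w, qf (F A B C D) w = A * (lin ξ w * lin η w) + B * (lin ξ w * lin ζ w) +
      C * (lin η w * lin ζ w) + D * (lin ζ w * lin ζ w) := by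
    intro A B C D w
    rw [← qf_prd, ← qf_prd, ← qf_prd, ← qf_prd]
    simp only [F, qf, Pi.add_apply, Pi.smul_apply, smul_eq_mul]
    ring
  have hFψ : ∀ A B C D k, k ≠ a → k ≠ b →
      qf (F A B C D) (v k) = (lin ζ (v k)) ^ 2 * ev A B C D (ψ k) := by
    intro A B C D k hka hkb
    have hz := hZ k hka hkb
    rw [hF]
    simp only [ev, hψ]
    field_simp
  have hF0 : ∀ A B C D, F A B C D = 0 → A = 0 ∧ B = 0 ∧ C = 0 ∧ D = 0 := by
    intro A B C D h0
    have hv : ∀ w, qf (F A B C D) w = 0 := by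
      intro w; rw [h0]; simp [qf]
    have e1 := hv u
    have e2 := hv (VA + VB)
    have e3 := hv (VA + u)
    have e4 := hv (VB + u)
    rw [hF] at e1 e2 e3 e4
    simp only [hlin_add, hZa, hZb, hXa, hXb, hYa, hYb, hXu, hYu, hu] at e1 e2 e3 e4
    simp only [add_zero, zero_add, mul_one, one_mul, mul_zero, zero_mul] at e1 e2 e3 e4
    refine ⟨e2, ?_, ?_, e1⟩
    · rw [e1] at e3; simpa using e3
    · rw [e1] at e4; simpa using e4
  -- conversely
  have hG : ∀ c : Fin 6 → ℂ, qf c VA = 0 → qf c VB = 0 →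
      c = F (bl c VA VB) (bl c VA u) (bl c VB u) (qf c u) := by
    intro c hA hB
    apply qf_ext
    intro w
    rw [hF, qf_comb c VA VB u w _ _ _ (hcr w), hA, hB]
    ring
  refine ⟨ψ, ?_, ?_, ?_, ?_, ?_⟩
  · intro i j hia hib hja hjb hij
    by_contra hne
    have hi := hZ i hia hib
    have hj := hZ j hja hjb
    rw [hψ] at hij
    simp only [Prod.mk.injEq] at hij
    obtain ⟨e1, e2⟩ := hij
    rw [div_eq_div_iff hi hj] at e1 e2
    have hl := h.indep i j hne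
    rw [LinearIndependent.pair_iff] at hl
    have := hl (lin ζ (v j)) (-lin ζ (v i)) (by
      funext k
      simp only [Pi.add_apply, Pi.smul_apply, smul_eq_mul, Pi.zero_apply]
      rw [hcr (v i) k, hcr (v j) k]
      linear_combination (VA k) * e1 + (VB k) * e2)
    exact hj this.1
  · intro i j hia hib hja hjb
    have hi := hZ i hia hib
    have hj := hZ j hja hjb
    rw [col_lin, hψ]
    simp only
    rw [div_eq_div_iff hi hj]
    have key : lin ξ (v i) * lin ζ (v j) - lin ξ (v j) * lin ζ (v i) =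
        lin ζ u * lin (cx VB (v i)) (v j) * (-1) ∨
        lin ξ (v i) * lin ζ (v j) - lin ξ (v j) * lin ζ (v i) =
        lin ζ u * lin (cx VB (v i)) (v j) := by
      first
      | (left; rw [hξ, hζ]; simp only [lin_cx]; ring1)
      | (right; rw [hξ, hζ]; simp only [lin_cx]; ring1)
    rw [hu] at key
    constructor
    · intro e
      rcases key with k | k
      · linear_combination -e + k
      · linear_combination e - k
    · intro e
      rcases key with k | k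
      · linear_combination k - e
      · linear_combination k + e
  · intro i j hia hib hja hjb
    have hi := hZ i hia hib
    have hj := hZ j hja hjb
    rw [col_lin, hψ]
    simp only
    rw [div_eq_div_iff hi hj]
    have key : lin η (v i) * lin ζ (v j) - lin η (v j) * lin ζ (v i) =
        lin ζ u * lin (cx VA (v i)) (v j) * (-1) ∨
        lin η (v i) * lin ζ (v j) - lin η (v j) * lin ζ (v i) =
        lin ζ u * lin (cx VA (v i)) (v j) := by
      first
      | (left; rw [hη, hζ]; simp only [lin_cx]; ring1)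
      | (right; rw [hη, hζ]; simp only [lin_cx]; ring1)
    rw [hu] at key
    constructor
    · intro e
      rcases key with k | k
      · linear_combination -e + k
      · linear_combination e - k
    · intro e
      rcases key with k | k
      · linear_combination k - e
      · linear_combination k + e
  · -- Four
    intro p hp q hq r hr hpq hpr hqr A B C D hne evp evq evr
    by_contra hcon
    push Not at hcon
    obtain ⟨i, hi, rfl⟩ := mem_image.1 hp
    obtain ⟨j, hj, rfl⟩ := mem_image.1 hq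
    obtain ⟨k, hk, rfl⟩ := mem_image.1 hr
    simp only [mem_filter, mem_univ, true_and] at hi hj hk
    have hc0 : F A B C D ≠ 0 := fun e => hne (hF0 A B C D e)
    have hij : i ≠ j := by rintro rfl; exact hpq.1 rfl
    have hik : i ≠ k := by rintro rfl; exact hpr.1 rfl
    have hjk : j ≠ k := by rintro rfl; exact hqr.1 rfl
    have hza : qf (F A B C D) VA = 0 := by
      rw [hF, hZa, hXa, hYa]; ring
    have hzb : qf (F A B C D) VB = 0 := by
      rw [hF, hZb, hXb, hYb]; ring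
    have hset : univ.filter (fun l => qf (F A B C D) (v l) = 0) = {a, b, i, j, k} := by
      ext l
      simp only [mem_filter, mem_univ, true_and, mem_insert, mem_singleton]
      constructor
      · intro hl
        by_cases hla : l = a
        · exact Or.inl hla
        by_cases hlb : l = b
        · exact Or.inr (Or.inl hlb)
        rw [hFψ A B C D l hla hlb] at hl
        have hl' : ev A B C D (ψ l) = 0 :=
          (mul_eq_zero.1 hl).resolve_left (pow_ne_zero _ (hZ l hla hlb))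
        by_contra hcon2
        push Not at hcon2
        obtain ⟨_, _, hli, hlj, hlk⟩ := hcon2
        have inj : ∀ m, m ≠ a ∧ m ≠ b → l ≠ m → ψ l ≠ ψ m := by
          intro m hm hlm e
          apply hlm
          have hi' := hZ l hla hlb
          have hj' := hZ m hm.1 hm.2
          by_contra hne'
          rw [hψ] at e
          simp only [Prod.mk.injEq] at e
          obtain ⟨e1, e2⟩ := e
          rw [div_eq_div_iff hi' hj'] at e1 e2
          have hl := h.indep l m hne'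
          rw [LinearIndependent.pair_iff] at hl
          have := hl (lin ζ (v m)) (-lin ζ (v l)) (by
            funext k
            simp only [Pi.add_apply, Pi.smul_apply, smul_eq_mul, Pi.zero_apply]
            rw [hcr (v l) k, hcr (v m) k]
            linear_combination (VA k) * e1 + (VB k) * e2)
          exact hj' this.1
        exact hcon (ψ l) (mem_image_of_mem _ (by simp [hla, hlb])) (inj i hi hli) (inj j hj hlj)
          (inj k hk hlk) hl'
      · rintro (rfl | rfl | rfl | rfl | rfl)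
        · exact hza
        · exact hzb
        · rw [hFψ A B C D _ hi.1 hi.2, evp, mul_zero]
        · rw [hFψ A B C D _ hj.1 hj.2, evq, mul_zero]
        · rw [hFψ A B C D _ hk.1 hk.2, evr, mul_zero]
    have hcard : (univ.filter (fun l => qf (F A B C D) (v l) = 0)).card = 5 := by
      rw [hset]
      rw [card_insert_of_notMem, card_insert_of_notMem, card_insert_of_notMem,
        card_insert_of_notMem, card_singleton]
      · simpa using hjk
      · simp only [mem_insert, mem_singleton, not_or]; exact ⟨hij, hik⟩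
      · simp only [mem_insert, mem_singleton, not_or]
        exact ⟨hi.2.symm, hj.2.symm, hk.2.symm⟩
      · simp only [mem_insert, mem_singleton, not_or]
        exact ⟨hab, hi.1.symm, hj.1.symm, hk.1.symm⟩
    obtain ⟨c', hc', hnt⟩ := h.noord _ hc0 hcard
    have hA' : qf c' VA = 0 := hc' a hza
    have hB' : qf c' VB = 0 := hc' b hzb
    have hrep := hG c' hA' hB'
    have e1 : ev (bl c' VA VB) (bl c' VA u) (bl c' VB u) (qf c' u) (ψ i) = 0 := by
      have := hc' i (by rw [hFψ A B C D _ hi.1 hi.2, evp, mul_zero])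
      rw [hrep, hFψ _ _ _ _ _ hi.1 hi.2] at this
      exact (mul_eq_zero.1 this).resolve_left (pow_ne_zero _ (hZ i hi.1 hi.2))
    have e2 : ev (bl c' VA VB) (bl c' VA u) (bl c' VB u) (qf c' u) (ψ j) = 0 := by
      have := hc' j (by rw [hFψ A B C D _ hj.1 hj.2, evq, mul_zero])
      rw [hrep, hFψ _ _ _ _ _ hj.1 hj.2] at this
      exact (mul_eq_zero.1 this).resolve_left (pow_ne_zero _ (hZ j hj.1 hj.2))
    have e3 : ev (bl c' VA VB) (bl c' VA u) (bl c' VB u) (qf c' u) (ψ k) = 0 := by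
      have := hc' k (by rw [hFψ A B C D _ hk.1 hk.2, evr, mul_zero])
      rw [hrep, hFψ _ _ _ _ _ hk.1 hk.2] at this
      exact (mul_eq_zero.1 this).resolve_left (pow_ne_zero _ (hZ k hk.1 hk.2))
    obtain ⟨t, t1, t2, t3, t4⟩ := form_prop hpq hpr hqr evp evq evr e1 e2 e3 hne
    apply hnt t
    rw [hrep, t1, t2, t3, t4]
    funext m
    simp only [F, Pi.add_apply, Pi.smul_apply, smul_eq_mul]
    ring
  · -- NoCurve
    intro A B C D hall
    apply hF0
    apply h.noconic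
    intro i
    by_cases hia : i = a
    · rw [hia, ← hVA, hF, hZa, hXa, hYa]; ring
    by_cases hib : i = b
    · rw [hib, ← hVB, hF, hZb, hXb, hYb]; ring
    rw [hFψ A B C D i hia hib, hall (ψ i) (mem_image_of_mem _ (by simp [hia, hib])), mul_zero]

end Pool.Agent.Lib.MP_1c7511_co
end
end
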