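import Mathlib
import Pool.Agent.Lib.MP_1c7511_co.Defs

section

set_option autoImplicit false

namespace Pool.Agent.Lib.MP_1c7511_co

open Finset
open scoped ComplexOrder MatrixOrder Matrix

/-- Squared modulus of the determinant of three members of the family. -/
noncomputable def De {ι : Type*} (v : ι → Fin 3 → ℂ) (i j k : ι) : ℝ :=
  ‖Matrix.det (Matrix.of ![v i, v j, v k])‖ ^ 2

section gram

variable {ι : Type*} [Fintype ι] (v : ι → Fin 3 → ℂ)

/-- the weighted Gram matrix -/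
noncomputable def GM (d : ι → ℝ) : Matrix (Fin 3) (Fin 3) ℂ :=
  fun a b => ∑ i, (d i : ℂ) * (v i a * star (v i b))

omit [Fintype ι] in
theorem det3 (i j k : ι) : Matrix.det (Matrix.of ![v i, v j, v k])
    = ∑ σ : Equiv.Perm (Fin 3), ((Equiv.Perm.sign σ : ℤ) : ℂ)
      * (v i (σ 0) * v j (σ 1) * v k (σ 2)) := by
  rw [← Matrix.det_transpose, Matrix.det_apply']
  apply Finset.sum_congr rfl
  intro σ _
  rw [Fin.prod_univ_three]
  rfl

omit [Fintype ι] in
theorem De_expand (d : ι → ℝ) (i j k : ι) :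
    ((d i * d j * d k * De v i j k : ℝ) : ℂ)
      = ∑ σ : Equiv.Perm (Fin 3), ∑ τ : Equiv.Perm (Fin 3),
        (((Equiv.Perm.sign σ : ℤ) : ℂ) * ((Equiv.Perm.sign τ : ℤ) : ℂ))
        * (((d i : ℂ) * (v i (σ 0) * star (v i (τ 0)))) * ((d j : ℂ) * (v j (σ 1) * star (v j (τ 1))))
          * ((d k : ℂ) * (v k (σ 2) * star (v k (τ 2))))) := by
  have h1 : ((De v i j k : ℝ) : ℂ) = Matrix.det (Matrix.of ![v i, v j, v k])
      * star (Matrix.det (Matrix.of ![v i, v j, v k])) := by
    rw [De, ← Complex.normSq_eq_norm_sq]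
    exact (Complex.mul_conj _).symm
  push_cast
  rw [h1, det3, star_sum, Finset.sum_mul_sum, Finset.mul_sum]
  apply Finset.sum_congr rfl
  intro σ _
  rw [Finset.mul_sum]
  apply Finset.sum_congr rfl
  intro τ _
  have h2 : star (((Equiv.Perm.sign τ : ℤ) : ℂ) * (v i (τ 0) * v j (τ 1) * v k (τ 2)))
      = ((Equiv.Perm.sign τ : ℤ) : ℂ) * (star (v i (τ 0)) * star (v j (τ 1)) * star (v k (τ 2))) := by
    rw [star_mul', star_mul', star_mul']
    congr 1
    simp
  rw [h2]
  ring

theorem cauchy_binet (d : ι → ℝ) :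
    ((∑ i, ∑ j, ∑ k, d i * d j * d k * De v i j k : ℝ) : ℂ) = 6 * (GM v d).det := by
  have h0 : ((∑ i, ∑ j, ∑ k, d i * d j * d k * De v i j k : ℝ) : ℂ)
      = ∑ x : ι × ι × ι, ∑ σ : Equiv.Perm (Fin 3), ∑ τ : Equiv.Perm (Fin 3),
        (((Equiv.Perm.sign σ : ℤ) : ℂ) * ((Equiv.Perm.sign τ : ℤ) : ℂ))
        * (((d x.1 : ℂ) * (v x.1 (σ 0) * star (v x.1 (τ 0))))
          * ((d x.2.1 : ℂ) * (v x.2.1 (σ 1) * star (v x.2.1 (τ 1))))
          * ((d x.2.2 : ℂ) * (v x.2.2 (σ 2) * star (v x.2.2 (τ 2))))) := by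
    rw [Fintype.sum_prod_type]
    simp only [Fintype.sum_prod_type]
    push_cast
    apply Finset.sum_congr rfl
    intro i _
    apply Finset.sum_congr rfl
    intro j _
    apply Finset.sum_congr rfl
    intro k _
    rw [← De_expand v d i j k]
    push_cast
    rfl
  have h1 : ∀ a b c a' b' c' : Fin 3, ∑ x : ι × ι × ι,
      (((d x.1 : ℂ) * (v x.1 a * star (v x.1 a')))
          * ((d x.2.1 : ℂ) * (v x.2.1 b * star (v x.2.1 b')))
          * ((d x.2.2 : ℂ) * (v x.2.2 c * star (v x.2.2 c'))))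
      = GM v d a a' * GM v d b b' * GM v d c c' := by
    intro a b c a' b' c'
    rw [Fintype.sum_prod_type]
    simp only [Fintype.sum_prod_type]
    simp only [← Finset.mul_sum, ← Finset.sum_mul]
    rfl
  rw [h0, Finset.sum_comm]
  have h2 : ∀ σ : Equiv.Perm (Fin 3), ∑ x : ι × ι × ι, ∑ τ : Equiv.Perm (Fin 3),
        (((Equiv.Perm.sign σ : ℤ) : ℂ) * ((Equiv.Perm.sign τ : ℤ) : ℂ))
        * (((d x.1 : ℂ) * (v x.1 (σ 0) * star (v x.1 (τ 0))))
          * ((d x.2.1 : ℂ) * (v x.2.1 (σ 1) * star (v x.2.1 (τ 1))))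
          * ((d x.2.2 : ℂ) * (v x.2.2 (σ 2) * star (v x.2.2 (τ 2)))))
      = ∑ τ : Equiv.Perm (Fin 3), (((Equiv.Perm.sign σ : ℤ) : ℂ) * ((Equiv.Perm.sign τ : ℤ) : ℂ))
        * (GM v d (σ 0) (τ 0) * GM v d (σ 1) (τ 1) * GM v d (σ 2) (τ 2)) := by
    intro σ
    rw [Finset.sum_comm]
    apply Finset.sum_congr rfl
    intro τ _
    rw [← h1, Finset.mul_sum]
  simp only [h2]
  rw [Finset.sum_comm]
  have h3 : ∀ τ : Equiv.Perm (Fin 3), ∑ σ : Equiv.Perm (Fin 3),
      (((Equiv.Perm.sign σ : ℤ) : ℂ) * ((Equiv.Perm.sign τ : ℤ) : ℂ))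
        * (GM v d (σ 0) (τ 0) * GM v d (σ 1) (τ 1) * GM v d (σ 2) (τ 2)) = (GM v d).det := by
    intro τ
    have h4 : ((GM v d).submatrix id τ).det = ∑ σ : Equiv.Perm (Fin 3),
        ((Equiv.Perm.sign σ : ℤ) : ℂ)
          * (GM v d (σ 0) (τ 0) * GM v d (σ 1) (τ 1) * GM v d (σ 2) (τ 2)) := by
      rw [Matrix.det_apply']
      apply Finset.sum_congr rfl
      intro σ _
      rw [Fin.prod_univ_three]
      rfl
    have h5 : ∑ σ : Equiv.Perm (Fin 3),
      (((Equiv.Perm.sign σ : ℤ) : ℂ) * ((Equiv.Perm.sign τ : ℤ) : ℂ))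
        * (GM v d (σ 0) (τ 0) * GM v d (σ 1) (τ 1) * GM v d (σ 2) (τ 2))
        = ((Equiv.Perm.sign τ : ℤ) : ℂ) * ((GM v d).submatrix id τ).det := by
      rw [h4, Finset.mul_sum]
      apply Finset.sum_congr rfl
      intro σ _
      ring
    rw [h5, Matrix.det_permute', ← mul_assoc]
    have h6 : ((Equiv.Perm.sign τ : ℤ) : ℂ) * ((Equiv.Perm.sign τ : ℤ) : ℂ) = 1 := by
      rcases Int.units_eq_one_or (Equiv.Perm.sign τ) with h | h <;> simp [h]
    rw [h6, one_mul]
  simp only [h3]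
  rw [Finset.sum_const, Finset.card_univ, Fintype.card_perm, Fintype.card_fin]
  norm_num [Nat.factorial]

theorem GM_herm (d : ι → ℝ) : (GM v d).IsHermitian := by
  ext a b
  rw [Matrix.conjTranspose_apply, GM, star_sum]
  apply Finset.sum_congr rfl
  intro i _
  rw [star_mul', star_mul', star_star]
  have : star (d i : ℂ) = d i := Complex.conj_ofReal _
  rw [this, mul_comm (star (v i b))]

theorem GM_psd (d : ι → ℝ) (hd : ∀ i, 0 ≤ d i) : (GM v d).PosSemidef := by
  let N : Matrix ι (Fin 3) ℂ := fun i a => (Real.sqrt (d i) : ℂ) * star (v i a)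
  have h : GM v d = Nᴴ * N := by
    ext a b
    rw [Matrix.mul_apply, GM]
    apply Finset.sum_congr rfl
    intro i _
    rw [Matrix.conjTranspose_apply]
    simp only [N]
    rw [star_mul', star_star]
    have h1 : star (Real.sqrt (d i) : ℂ) = Real.sqrt (d i) := Complex.conj_ofReal _
    have h2 : (Real.sqrt (d i) : ℂ) * Real.sqrt (d i) = d i := by
      rw [← Complex.ofReal_mul, Real.mul_self_sqrt (hd i)]
    rw [h1, ← h2]
    ring
  rw [h]
  exact Matrix.posSemidef_conjTranspose_mul_self N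

theorem GM_add (d d' : ι → ℝ) : GM v (fun i => d i + d' i) = GM v d + GM v d' := by
  ext a b
  simp only [GM, Matrix.add_apply]
  rw [← Finset.sum_add_distrib]
  apply Finset.sum_congr rfl
  intro i _
  push_cast
  ring

theorem GM_smul (s : ℝ) (d : ι → ℝ) : GM v (fun i => s * d i) = (s : ℂ) • GM v d := by
  ext a b
  simp only [GM, Matrix.smul_apply, smul_eq_mul]
  rw [Finset.mul_sum]
  apply Finset.sum_congr rfl
  intro i _
  push_cast
  ring

end gram

/-- The determinant of a Hermitian pencil splits into real linear factors. -/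
theorem det_pencil {P B : Matrix (Fin 3) (Fin 3) ℂ} (hP : P.PosSemidef) (hB : B.IsHermitian)
    (hdet : P.det ≠ 0) : ∃ l : Fin 3 → ℝ, ∀ s : ℝ, s ≠ 0 →
      (P + (s : ℂ) • B).det = P.det * ∏ i, (1 + (s : ℂ) * (l i : ℂ)) := by
  obtain ⟨R, hR⟩ := CStarAlgebra.nonneg_iff_eq_star_mul_self.mp hP.nonneg
  rw [Matrix.star_eq_conjTranspose] at hR
  have hdR : R.det ≠ 0 := by
    intro h0
    apply hdet
    rw [hR, Matrix.det_mul, h0, mul_zero]
  have hRu : IsUnit R.det := isUnit_iff_ne_zero.mpr hdR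
  have hRu' : IsUnit (Rᴴ).det := by
    rw [Matrix.det_conjTranspose]
    exact isUnit_iff_ne_zero.mpr (by simpa using hdR)
  set M : Matrix (Fin 3) (Fin 3) ℂ := (Rᴴ)⁻¹ * B * R⁻¹ with hM
  have hMh : M.IsHermitian := by
    rw [Matrix.IsHermitian, hM, Matrix.conjTranspose_mul, Matrix.conjTranspose_mul, hB.eq,
      Matrix.conjTranspose_nonsing_inv, Matrix.conjTranspose_nonsing_inv,
      Matrix.conjTranspose_conjTranspose, Matrix.mul_assoc]
  have hBM : B = Rᴴ * M * R := by
    rw [hM]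
    calc B = (Rᴴ * (Rᴴ)⁻¹) * B * (R⁻¹ * R) := by
          rw [Matrix.mul_nonsing_inv _ hRu', Matrix.nonsing_inv_mul _ hRu, Matrix.one_mul,
            Matrix.mul_one]
      _ = _ := by simp only [Matrix.mul_assoc]
  refine ⟨hMh.eigenvalues, fun s hs => ?_⟩
  have hsc : (s : ℂ) ≠ 0 := by exact_mod_cast hs
  have h1 : P + (s : ℂ) • B = Rᴴ * (1 + (s : ℂ) • M) * R := by
    rw [Matrix.mul_add, Matrix.mul_one, Matrix.add_mul, ← hR, Matrix.mul_smul, Matrix.smul_mul,
      ← hBM]
  have h2 : (1 + (s : ℂ) • M).det = ∏ i, (1 + (s : ℂ) * (hMh.eigenvalues i : ℂ)) := by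
    have h3 : 1 + (s : ℂ) • M = (-(s : ℂ)) • (Matrix.scalar (Fin 3) (-(s : ℂ)⁻¹) - M) := by
      ext a b
      simp only [Matrix.add_apply, Matrix.smul_apply, Matrix.sub_apply, smul_eq_mul,
        Matrix.scalar_apply, Matrix.diagonal_apply, Matrix.one_apply]
      by_cases hab : a = b
      · simp only [hab, if_true]
        field_simp
        ring
      · simp only [hab, if_false]; ring
    have h4 : (Matrix.scalar (Fin 3) (-(s : ℂ)⁻¹) - M).det = M.charpoly.eval (-(s : ℂ)⁻¹) :=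
      (Matrix.eval_charpoly M _).symm
    rw [h3, Matrix.det_smul, h4, hMh.charpoly_eq, Polynomial.eval_prod, Fintype.card_fin,
      Fin.prod_univ_three, Fin.prod_univ_three]
    simp only [Polynomial.eval_sub, Polynomial.eval_X, Polynomial.eval_C]
    have h6 : ∀ x y z : ℂ, (-(s : ℂ)) ^ 3 * ((-(s : ℂ)⁻¹ - x) * (-(s : ℂ)⁻¹ - y) * (-(s : ℂ)⁻¹ - z))
        = (1 + s * x) * (1 + s * y) * (1 + s * z) := by
      intro x y z
      have h5 : ∀ x : ℂ, -(s : ℂ) * (-(s : ℂ)⁻¹ - x) = 1 + s * x := by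
        intro x; field_simp; ring
      rw [← h5 x, ← h5 y, ← h5 z]
      ring
    exact h6 _ _ _
  have h3 : P.det = (Rᴴ).det * R.det := by rw [hR, Matrix.det_mul]
  rw [h1, Matrix.det_mul, Matrix.det_mul, h2, h3]
  ring

/-- Real-rooted quadratics have nonnegative discriminant; here the cubic term is known to vanish. -/
theorem disc_of_factor {D S1 S2 : ℝ} {l : Fin 3 → ℝ} (hD : D ≠ 0)
    (h : ∀ s : ℝ, s ≠ 0 → D + 3 * S1 * s + 3 * S2 * s ^ 2
      = D * ((1 + s * l 0) * (1 + s * l 1) * (1 + s * l 2))) :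
    S2 * D ≤ 3 / 4 * S1 ^ 2 := by
  have h1 := h 1 (by norm_num)
  have h2 := h (-1) (by norm_num)
  have h3 := h 2 (by norm_num)
  obtain ⟨a, ha⟩ : ∃ a, a = l 0 := ⟨_, rfl⟩
  obtain ⟨b, hb⟩ : ∃ b, b = l 1 := ⟨_, rfl⟩
  obtain ⟨c, hc⟩ : ∃ c, c = l 2 := ⟨_, rfl⟩
  rw [← ha, ← hb, ← hc] at h1 h2 h3
  have e3 : D * (a * b * c) = 0 := by
    linear_combination (1 / 2 : ℝ) * h1 + (1 / 6 : ℝ) * h2 - (1 / 6 : ℝ) * h3
  have e2 : 3 * S2 = D * (a * b + b * c + a * c) := by
    linear_combination (1 / 2 : ℝ) * h1 + (1 / 2 : ℝ) * h2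
  have e1 : 3 * S1 = D * (a + b + c) := by
    linear_combination (1 / 2 : ℝ) * h1 - (1 / 2 : ℝ) * h2 + e3
  have e0 : a * b * c = 0 := (mul_eq_zero.mp e3).resolve_left hD
  have key : 4 * (a * b + b * c + a * c) ≤ (a + b + c) ^ 2 := by
    rcases mul_eq_zero.mp e0 with h | h
    · rcases mul_eq_zero.mp h with h | h
      · rw [h]; nlinarith [sq_nonneg (b - c)]
      · rw [h]; nlinarith [sq_nonneg (a - c)]
    · rw [h]; nlinarith [sq_nonneg (a - b)]
  have h4 : D ^ 2 * (4 * (a * b + b * c + a * c)) ≤ D ^ 2 * (a + b + c) ^ 2 :=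
    mul_le_mul_of_nonneg_left key (sq_nonneg D)
  have h5 : D ^ 2 * (4 * (a * b + b * c + a * c)) = 4 * D * (3 * S2) := by rw [e2]; ring
  have h6 : D ^ 2 * (a + b + c) ^ 2 = (3 * S1) ^ 2 := by rw [e1]; ring
  rw [h5, h6] at h4
  linarith

section symm

variable {ι : Type*} (v : ι → Fin 3 → ℂ)

theorem det3_expand (i j k : ι) : Matrix.det (Matrix.of ![v i, v j, v k])
    = v i 0 * v j 1 * v k 2 - v i 0 * v j 2 * v k 1 - v i 1 * v j 0 * v k 2
      + v i 1 * v j 2 * v k 0 + v i 2 * v j 0 * v k 1 - v i 2 * v j 1 * v k 0 := by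
  rw [Matrix.det_fin_three]
  rfl

theorem De_swap12 (i j k : ι) : De v i j k = De v j i k := by
  rw [De, De]
  have : Matrix.det (Matrix.of ![v j, v i, v k]) = -Matrix.det (Matrix.of ![v i, v j, v k]) := by
    rw [det3_expand, det3_expand]; ring
  rw [this, norm_neg]

theorem De_swap23 (i j k : ι) : De v i j k = De v i k j := by
  rw [De, De]
  have : Matrix.det (Matrix.of ![v i, v k, v j]) = -Matrix.det (Matrix.of ![v i, v j, v k]) := by
    rw [det3_expand, det3_expand]; ring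
  rw [this, norm_neg]

theorem De_plane {w : Fin 3 → ℂ} (hw : w ≠ 0) {i j k : ι} (hi : w ⬝ᵥ v i = 0)
    (hj : w ⬝ᵥ v j = 0) (hk : w ⬝ᵥ v k = 0) : De v i j k = 0 := by
  have h : Matrix.det (Matrix.of ![v i, v j, v k]) = 0 := by
    apply Matrix.exists_mulVec_eq_zero_iff.mp
    refine ⟨w, hw, ?_⟩
    funext r
    fin_cases r
    · change v i ⬝ᵥ w = 0
      rw [dotProduct_comm]; exact hi
    · change v j ⬝ᵥ w = 0
      rw [dotProduct_comm]; exact hj
    · change v k ⬝ᵥ w = 0
      rw [dotProduct_comm]; exact hk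
  rw [De, h, norm_zero]; norm_num

end symm

/-- Mixed discriminant inequality for a subfamily `L` contained in the plane `w = 0`. -/
theorem line_ineq {ι : Type*} [Fintype ι] [DecidableEq ι] (v : ι → Fin 3 → ℂ) (c : ι → ℝ)
    (hc : ∀ i, 0 ≤ c i) (L : Finset ι) (w : Fin 3 → ℂ) (hw : w ≠ 0)
    (hL : ∀ i ∈ L, w ⬝ᵥ v i = 0) :
    (∑ i ∈ L, ∑ j ∈ L, ∑ k, c i * c j * c k * De v i j k)
        * (∑ i, ∑ j, ∑ k, c i * c j * c k * De v i j k)
      ≤ 3 / 4 * (∑ i ∈ L, ∑ j, ∑ k, c i * c j * c k * De v i j k) ^ 2 := by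
  -- the trilinear form
  obtain ⟨D, hD⟩ : ∃ D, D = ∑ i, ∑ j, ∑ k, c i * c j * c k * De v i j k := ⟨_, rfl⟩
  obtain ⟨S1, hS1⟩ : ∃ S1, S1 = ∑ i ∈ L, ∑ j, ∑ k, c i * c j * c k * De v i j k := ⟨_, rfl⟩
  obtain ⟨S2, hS2⟩ : ∃ S2, S2 = ∑ i ∈ L, ∑ j ∈ L, ∑ k, c i * c j * c k * De v i j k := ⟨_, rfl⟩
  rw [← hD, ← hS1, ← hS2]
  by_cases hD0 : D = 0
  · rw [hD0, mul_zero]; positivity
  let e : ι → ℝ := fun i => if i ∈ L then c i else 0
  let T : (ι → ℝ) → (ι → ℝ) → (ι → ℝ) → ℝ := fun x y z => ∑ i, ∑ j, ∑ k, x i * y j * z k * De v i j k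
  have hTD : T c c c = D := hD.symm
  have hfil : ∀ f : ι → ℝ, ∑ i ∈ L, c i * f i = ∑ i, e i * f i := by
    intro f
    rw [← Finset.sum_filter_add_sum_filter_not univ (fun i => i ∈ L)]
    have h1 : ∑ i ∈ univ.filter (fun i => ¬ i ∈ L), e i * f i = 0 := by
      apply Finset.sum_eq_zero
      intro i hi
      have := (Finset.mem_filter.mp hi).2
      simp [e, this]
    rw [h1, add_zero]
    have h2 : univ.filter (fun i => i ∈ L) = L := by ext i; simp
    rw [h2]
    apply Finset.sum_congr rfl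
    intro i hi
    simp [e, hi]
  have hT1 : T e c c = S1 := by
    rw [hS1]
    have h1 := hfil (fun i => ∑ j, ∑ k, c j * c k * De v i j k)
    have e1 : ∀ i, c i * (∑ j, ∑ k, c j * c k * De v i j k)
        = ∑ j, ∑ k, c i * c j * c k * De v i j k := by
      intro i
      simp only [Finset.mul_sum]
      exact sum_congr rfl fun j _ => sum_congr rfl fun k _ => by ring
    have e2 : ∀ i, e i * (∑ j, ∑ k, c j * c k * De v i j k)
        = ∑ j, ∑ k, e i * c j * c k * De v i j k := by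
      intro i
      simp only [Finset.mul_sum]
      exact sum_congr rfl fun j _ => sum_congr rfl fun k _ => by ring
    simp only [e1, e2] at h1
    exact h1.symm
  have hT2 : T e e c = S2 := by
    rw [hS2]
    have h1 := hfil (fun i => ∑ j ∈ L, ∑ k, c j * c k * De v i j k)
    have e1 : ∀ i, c i * (∑ j ∈ L, ∑ k, c j * c k * De v i j k)
        = ∑ j ∈ L, ∑ k, c i * c j * c k * De v i j k := by
      intro i
      simp only [Finset.mul_sum]
      exact sum_congr rfl fun j _ => sum_congr rfl fun k _ => by ring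
    have e2 : ∀ i, e i * (∑ j ∈ L, ∑ k, c j * c k * De v i j k)
        = ∑ j, ∑ k, e i * e j * c k * De v i j k := by
      intro i
      have h2 := hfil (fun j => ∑ k, c k * De v i j k)
      have e3 : ∀ j, c j * (∑ k, c k * De v i j k) = ∑ k, c j * c k * De v i j k := by
        intro j
        rw [Finset.mul_sum]
        exact sum_congr rfl fun k _ => by ring
      simp only [e3] at h2
      rw [h2, Finset.mul_sum]
      apply sum_congr rfl
      intro j _
      rw [Finset.mul_sum, Finset.mul_sum]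
      exact sum_congr rfl fun k _ => by ring
    simp only [e1, e2] at h1
    exact h1.symm
  have hT3 : T e e e = 0 := by
    apply Finset.sum_eq_zero
    intro i _
    apply Finset.sum_eq_zero
    intro j _
    apply Finset.sum_eq_zero
    intro k _
    by_cases hi : i ∈ L
    · by_cases hj : j ∈ L
      · by_cases hk : k ∈ L
        · rw [De_plane v hw (hL i hi) (hL j hj) (hL k hk), mul_zero]
        · simp [e, hk]
      · simp [e, hj]
    · simp [e, hi]
  -- symmetry
  have hs12 : ∀ x y z, T x y z = T y x z := by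
    intro x y z
    change ∑ i, ∑ j, ∑ k, x i * y j * z k * De v i j k = ∑ i, ∑ j, ∑ k, y i * x j * z k * De v i j k
    rw [Finset.sum_comm]
    refine sum_congr rfl fun i _ => sum_congr rfl fun j _ => sum_congr rfl fun k _ => ?_
    rw [De_swap12]; ring
  have hs23 : ∀ x y z, T x y z = T x z y := by
    intro x y z
    change ∑ i, ∑ j, ∑ k, x i * y j * z k * De v i j k = ∑ i, ∑ j, ∑ k, x i * z j * y k * De v i j k
    apply sum_congr rfl
    intro i _
    rw [Finset.sum_comm]
    refine sum_congr rfl fun j _ => sum_congr rfl fun k _ => ?_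
    rw [De_swap23]; ring
  have hadd : ∀ s : ℝ, T (fun i => c i + s * e i) (fun i => c i + s * e i) (fun i => c i + s * e i)
      = D + 3 * S1 * s + 3 * S2 * s ^ 2 := by
    intro s
    have hlin : ∀ y z, T (fun i => c i + s * e i) y z = T c y z + s * T e y z := by
      intro y z
      change ∑ i, ∑ j, ∑ k, (c i + s * e i) * y j * z k * De v i j k
        = (∑ i, ∑ j, ∑ k, c i * y j * z k * De v i j k)
          + s * ∑ i, ∑ j, ∑ k, e i * y j * z k * De v i j k
      simp only [Finset.mul_sum, ← Finset.sum_add_distrib]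
      refine sum_congr rfl fun i _ => sum_congr rfl fun j _ => sum_congr rfl fun k _ => ?_
      ring
    have hlin2 : ∀ x z, T x (fun i => c i + s * e i) z = T x c z + s * T x e z := by
      intro x z
      rw [hs12, hlin, hs12 c, hs12 e]
    have hlin3 : ∀ x y, T x y (fun i => c i + s * e i) = T x y c + s * T x y e := by
      intro x y
      rw [hs23, hlin2, hs23 x c, hs23 x e]
    rw [hlin, hlin2, hlin2, hlin3, hlin3, hlin3, hlin3, hTD, hT3]
    have a1 : T c c e = S1 := by rw [hs23, hs12, hT1]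
    have a2 : T c e c = S1 := by rw [hs12, hT1]
    have a3 : T c e e = S2 := by rw [hs12, hs23, hT2]
    have a4 : T e c e = S2 := by rw [hs23, hT2]
    rw [a1, a2, a3, a4, hT1, hT2]
    ring
  -- matrices
  have hdetP : (GM v c).det = ((D / 6 : ℝ) : ℂ) := by
    have h1 := cauchy_binet v c
    rw [← hD] at h1
    push_cast
    rw [h1]; ring
  have hdne : (GM v c).det ≠ 0 := by
    rw [hdetP]
    have : D / 6 ≠ 0 := div_ne_zero hD0 (by norm_num)
    exact_mod_cast this
  obtain ⟨l, hl⟩ := det_pencil (GM_psd v c hc) (GM_herm v e) hdne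
  apply disc_of_factor (l := l) hD0
  intro s hs
  have h1 := cauchy_binet v (fun i => c i + s * e i)
  have h2 : GM v (fun i => c i + s * e i) = GM v c + (s : ℂ) • GM v e := by
    rw [GM_add v c (fun i => s * e i), GM_smul]
  rw [h2, hl s hs, hdetP] at h1
  have h3 := hadd s
  change ∑ i, ∑ j, ∑ k, (c i + s * e i) * (c j + s * e j) * (c k + s * e k) * De v i j k = _ at h3
  rw [h3, Fin.prod_univ_three] at h1
  have h4 : ((D + 3 * S1 * s + 3 * S2 * s ^ 2 : ℝ) : ℂ)
      = ((D * ((1 + s * l 0) * (1 + s * l 1) * (1 + s * l 2)) : ℝ) : ℂ) := by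
    rw [h1]; push_cast; ring
  exact_mod_cast h4

end Pool.Agent.Lib.MP_1c7511_co
end

section

set_option autoImplicit false

namespace Pool.Agent.Lib.MP_1c7511_co

open Finset

/-- The combinatorial coercivity estimate. -/
theorem exists_big_triple {ι : Type*} [Fintype ι] [DecidableEq ι] (Δ : ι → ι → ι → ℝ)
    (h2 : ∀ i j k, Δ i j k = Δ i k j)
    (hdiag : ∀ i k, Δ i i k = 0)
    (hN : 6 ≤ Fintype.card ι)
    (hline : ∀ i j, i ≠ j →
      2 * (univ.filter (fun k => Δ i j k = 0)).card + 1 ≤ Fintype.card ι)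
    (x : ι → ℝ) (hx : ∑ i, x i = 0) (p q : ι) :
    ∃ i j k, Δ i j k ≠ 0 ∧ 3 / (Fintype.card ι : ℝ) * (x p - x q) ≤ x i + x j + x k := by
  have hNpos : 0 < Fintype.card ι := by omega
  have hne : (univ : Finset ι).Nonempty := ⟨p, mem_univ _⟩
  obtain ⟨i1, -, hi1⟩ := exists_max_image univ x hne
  have hne2 : (univ.erase i1).Nonempty := by
    rw [← Finset.card_pos, card_erase_of_mem (mem_univ _), card_univ]
    omega
  obtain ⟨i2, hi2m, hi2⟩ := exists_max_image (univ.erase i1) x hne2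
  have h12 : i1 ≠ i2 := fun h => (ne_of_mem_erase hi2m) h.symm
  set Z := univ.filter (fun k => Δ i1 i2 k = 0) with hZ
  have hr := hline i1 i2 h12
  rw [← hZ] at hr
  have hcardc : Zᶜ.card = Fintype.card ι - Z.card := card_compl Z
  have hne3 : (Zᶜ).Nonempty := by
    rw [← Finset.card_pos, hcardc]
    omega
  obtain ⟨i3, hi3m, hi3⟩ := exists_max_image Zᶜ x hne3
  have hΔ3 : Δ i1 i2 i3 ≠ 0 := by
    intro h
    rw [mem_compl, hZ, mem_filter] at hi3m
    exact hi3m ⟨mem_univ _, h⟩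
  have hi1Z : i1 ∈ Z := by
    rw [hZ, mem_filter]
    refine ⟨mem_univ _, ?_⟩
    rw [h2, hdiag]
  refine ⟨i1, i2, i3, hΔ3, ?_⟩
  -- the majorant
  let u : ι → ℝ := fun k => if k = i1 then x i1 else if k ∈ Z then x i2 else x i3
  have h31 : i3 ≠ i1 := by
    rintro rfl
    exact (mem_compl.mp hi3m) hi1Z
  have h23 : x i3 ≤ x i2 := hi2 i3 (mem_erase.mpr ⟨h31, mem_univ _⟩)
  have h12' : x i2 ≤ x i1 := hi1 i2 (mem_univ _)
  have hxu : ∀ k, x k ≤ u k := by
    intro k
    simp only [u]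
    split_ifs with ha hb
    · rw [ha]
    · exact hi2 k (mem_erase.mpr ⟨ha, mem_univ _⟩)
    · exact hi3 k (mem_compl.mpr hb)
  have hu3 : ∀ k, x i3 ≤ u k := by
    intro k
    simp only [u]
    split_ifs with ha hb
    · exact h23.trans h12'
    · exact h23
    · exact le_refl _
  have hsum1 : ∑ k, x k ≤ ∑ k, u k - u q + x q := by
    have e1 : ∑ k, x k = ∑ k ∈ univ.erase q, x k + x q := by
      rw [sum_erase_add _ _ (mem_univ q)]
    have e2 : ∑ k, u k = ∑ k ∈ univ.erase q, u k + u q := by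
      rw [sum_erase_add _ _ (mem_univ q)]
    have e3 : ∑ k ∈ univ.erase q, x k ≤ ∑ k ∈ univ.erase q, u k :=
      sum_le_sum (fun k _ => hxu k)
    linarith
  have hsumu : ∑ k, u k = x i1 + ((Z.card : ℝ) - 1) * x i2
      + ((Fintype.card ι : ℝ) - Z.card) * x i3 := by
    rw [← sum_add_sum_compl Z u]
    have eA : ∑ k ∈ Z, u k = x i1 + ((Z.card : ℝ) - 1) * x i2 := by
      rw [← add_sum_erase Z u hi1Z]
      have : ∑ k ∈ Z.erase i1, u k = ∑ k ∈ Z.erase i1, x i2 := by
        apply sum_congr rfl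
        intro k hk
        simp only [u]
        rw [if_neg (ne_of_mem_erase hk), if_pos (mem_of_mem_erase hk)]
      rw [this, sum_const, card_erase_of_mem hi1Z, nsmul_eq_mul]
      have hpos : 1 ≤ Z.card := Finset.card_pos.mpr ⟨i1, hi1Z⟩
      rw [Nat.cast_sub hpos]
      simp [u]
    have eB : ∑ k ∈ Zᶜ, u k = ((Fintype.card ι : ℝ) - Z.card) * x i3 := by
      have : ∑ k ∈ Zᶜ, u k = ∑ k ∈ Zᶜ, x i3 := by
        apply sum_congr rfl
        intro k hk
        simp only [u]
        have hk' := mem_compl.mp hk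
        have hki : k ≠ i1 := by
          rintro rfl
          exact hk' hi1Z
        rw [if_neg hki, if_neg hk']
      rw [this, sum_const, hcardc, nsmul_eq_mul, Nat.cast_sub (card_le_univ Z)]
    rw [eA, eB]
  have hq := hu3 q
  have hp := hi1 p (mem_univ _)
  have hNr : (0 : ℝ) < Fintype.card ι := by exact_mod_cast hNpos
  have hN6 : (6 : ℝ) ≤ Fintype.card ι := by exact_mod_cast hN
  have hrr : 2 * (Z.card : ℝ) + 1 ≤ Fintype.card ι := by exact_mod_cast hr
  rw [div_mul_eq_mul_div, div_le_iff₀ hNr]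
  have m1 : 0 ≤ ((Fintype.card ι : ℝ) - 6) * (x i1 - x i2) :=
    mul_nonneg (by linarith) (by linarith)
  have m2 : 0 ≤ (2 * (Fintype.card ι : ℝ) - 3 * Z.card - 3) * (x i2 - x i3) :=
    mul_nonneg (by linarith) (by linarith)
  nlinarith [m1, m2]

/-- Existence of balanced weights. -/
theorem exists_weights {ι : Type*} [Fintype ι] [DecidableEq ι] (Δ : ι → ι → ι → ℝ)
    (h1 : ∀ i j k, Δ i j k = Δ j i k) (h2 : ∀ i j k, Δ i j k = Δ i k j)
    (hpos : ∀ i j k, 0 ≤ Δ i j k) (hdiag : ∀ i k, Δ i i k = 0)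
    (hN : 6 ≤ Fintype.card ι)
    (hline : ∀ i j, i ≠ j →
      2 * (univ.filter (fun k => Δ i j k = 0)).card + 1 ≤ Fintype.card ι) :
    ∃ c : ι → ℝ, (∀ i, 0 < c i) ∧
      ∀ i, (Fintype.card ι : ℝ) * (∑ j, ∑ k, c i * c j * c k * Δ i j k)
        = ∑ i', ∑ j, ∑ k, c i' * c j * c k * Δ i' j k := by
  classical
  have hNpos : 0 < Fintype.card ι := by omega
  have hNr : (0 : ℝ) < Fintype.card ι := by exact_mod_cast hNpos
  have : Nonempty ι := Fintype.card_pos_iff.mp hNpos
  -- the objective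
  let f : (ι → ℝ) → ℝ := fun x => ∑ i, ∑ j, ∑ k, Real.exp (x i + x j + x k) * Δ i j k
  have hfcont : Continuous f := by
    apply continuous_finsetSum
    intro i _
    apply continuous_finsetSum
    intro j _
    apply continuous_finsetSum
    intro k _
    exact (Real.continuous_exp.comp (((continuous_apply i).add (continuous_apply j)).add
      (continuous_apply k))).mul continuous_const
  -- positive lower bound of the nonzero values
  obtain ⟨δ, hδ, hδle⟩ : ∃ δ : ℝ, 0 < δ ∧ ∀ i j k, Δ i j k ≠ 0 → δ ≤ Δ i j k := by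
    let T : Finset (ι × ι × ι) := univ.filter (fun t => Δ t.1 t.2.1 t.2.2 ≠ 0)
    by_cases hT : T.Nonempty
    · obtain ⟨t, htm, ht⟩ := exists_min_image T (fun t => Δ t.1 t.2.1 t.2.2) hT
      have htne : Δ t.1 t.2.1 t.2.2 ≠ 0 := (mem_filter.mp htm).2
      refine ⟨Δ t.1 t.2.1 t.2.2, lt_of_le_of_ne (hpos _ _ _) htne.symm, ?_⟩
      intro i j k h
      exact ht (i, j, k) (mem_filter.mpr ⟨mem_univ _, h⟩)
    · refine ⟨1, one_pos, ?_⟩
      intro i j k h
      exact absurd ⟨(i, j, k), mem_filter.mpr ⟨mem_univ _, h⟩⟩ hT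
  have hterm : ∀ x : ι → ℝ, ∀ i j k, Real.exp (x i + x j + x k) * Δ i j k ≤ f x := by
    intro x i j k
    have hnn : ∀ i j k, 0 ≤ Real.exp (x i + x j + x k) * Δ i j k := fun i j k =>
      mul_nonneg (Real.exp_pos _).le (hpos _ _ _)
    calc Real.exp (x i + x j + x k) * Δ i j k
        ≤ ∑ k, Real.exp (x i + x j + x k) * Δ i j k :=
          single_le_sum (f := fun k => Real.exp (x i + x j + x k) * Δ i j k)
            (fun k _ => hnn i j k) (mem_univ k)
      _ ≤ ∑ j, ∑ k, Real.exp (x i + x j + x k) * Δ i j k :=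
          single_le_sum (f := fun j => ∑ k, Real.exp (x i + x j + x k) * Δ i j k)
            (fun j _ => sum_nonneg (fun k _ => hnn i j k)) (mem_univ j)
      _ ≤ f x :=
          single_le_sum (f := fun i => ∑ j, ∑ k, Real.exp (x i + x j + x k) * Δ i j k)
            (fun i _ => sum_nonneg (fun j _ => sum_nonneg (fun k _ => hnn i j k))) (mem_univ i)
  have hcoer : ∀ x : ι → ℝ, ∑ i, x i = 0 → ∀ p q,
      δ * Real.exp (3 / (Fintype.card ι : ℝ) * (x p - x q)) ≤ f x := by
    intro x hx p q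
    obtain ⟨i, j, k, hne, hle⟩ := exists_big_triple Δ h2 hdiag hN hline x hx p q
    calc δ * Real.exp (3 / (Fintype.card ι : ℝ) * (x p - x q))
        ≤ Δ i j k * Real.exp (x i + x j + x k) := by
          apply mul_le_mul (hδle i j k hne) (Real.exp_le_exp.mpr hle) (Real.exp_pos _).le
            (hpos _ _ _)
      _ = Real.exp (x i + x j + x k) * Δ i j k := mul_comm _ _
      _ ≤ f x := hterm x i j k
  set R : ℝ := (Fintype.card ι : ℝ) / 3 * (f 0 / δ) with hR
  have hf0 : 0 ≤ f 0 := sum_nonneg (fun i _ => sum_nonneg (fun j _ => sum_nonneg (fun k _ =>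
      mul_nonneg (Real.exp_pos _).le (hpos _ _ _))))
  have hR0 : 0 ≤ R := by positivity
  have hbig : ∀ x : ι → ℝ, ∑ i, x i = 0 → ∀ p q, R ≤ x p - x q → f 0 ≤ f x := by
    intro x hx p q hpq
    refine le_trans ?_ (hcoer x hx p q)
    have e1 : f 0 / δ ≤ 3 / (Fintype.card ι : ℝ) * (x p - x q) := by
      have : f 0 / δ = 3 / (Fintype.card ι : ℝ) * R := by
        rw [hR]; field_simp
      rw [this]
      exact mul_le_mul_of_nonneg_left hpq (by positivity)
    have e2 : f 0 / δ ≤ Real.exp (3 / (Fintype.card ι : ℝ) * (x p - x q)) := by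
      have := Real.add_one_le_exp (3 / (Fintype.card ι : ℝ) * (x p - x q))
      linarith
    calc f 0 = δ * (f 0 / δ) := by field_simp
      _ ≤ _ := mul_le_mul_of_nonneg_left e2 hδ.le
  -- compact set
  let C : Set (ι → ℝ) := {x | ∑ i, x i = 0} ∩ Set.pi Set.univ (fun _ => Set.Icc (-R) R)
  have hCcomp : IsCompact C := by
    have hcl : IsClosed {x : ι → ℝ | ∑ i, x i = 0} :=
      isClosed_eq (continuous_finsetSum _ (fun i _ => continuous_apply i)) continuous_const
    exact (isCompact_univ_pi (fun _ => isCompact_Icc)).inter_left hcl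
  have h0C : (0 : ι → ℝ) ∈ C := by
    refine ⟨by simp, ?_⟩
    intro i _
    simp only [Pi.zero_apply, Set.mem_Icc]
    constructor <;> linarith
  obtain ⟨x0, hx0C, hx0min⟩ := hCcomp.exists_isMinOn ⟨0, h0C⟩ hfcont.continuousOn
  have hmin : ∀ x : ι → ℝ, ∑ i, x i = 0 → f x0 ≤ f x := by
    intro x hx
    by_cases hxC : x ∈ C
    · exact hx0min hxC
    · have hle0 : f x0 ≤ f 0 := hx0min h0C
      refine hle0.trans ?_
      have : ¬ x ∈ Set.pi Set.univ (fun _ : ι => Set.Icc (-R) R) := fun h => hxC ⟨hx, h⟩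
      rw [Set.mem_univ_pi] at this
      push Not at this
      obtain ⟨i, hi⟩ := this
      rw [Set.mem_Icc] at hi
      by_cases hi' : R < x i
      · obtain ⟨q, hq⟩ : ∃ q, x q ≤ 0 := by
          by_contra hcon
          push Not at hcon
          have : 0 < ∑ i, x i := sum_pos (fun i _ => hcon i) univ_nonempty
          linarith
        exact hbig x hx i q (by linarith)
      · have hi2 : x i < -R := by
          by_contra hcon
          exact hi ⟨not_lt.mp hcon, not_lt.mp hi'⟩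
        obtain ⟨p, hp⟩ : ∃ p, 0 ≤ x p := by
          by_contra hcon
          push Not at hcon
          have : ∑ i, x i < 0 := sum_neg (fun i _ => hcon i) univ_nonempty
          linarith
        exact hbig x hx p i (by linarith)
  have hx0sum : ∑ i, x0 i = 0 := hx0C.1
  refine ⟨fun i => Real.exp (x0 i), fun i => Real.exp_pos _, ?_⟩
  intro i
  -- variation in the direction w
  let w : ι → ℝ := fun j => (Fintype.card ι : ℝ) * (if j = i then 1 else 0) - 1
  have hw : ∑ j, w j = 0 := by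
    simp only [w]
    rw [sum_sub_distrib, ← mul_sum]
    simp
  let g : ℝ → ℝ := fun t => ∑ a, ∑ b, ∑ d,
    Real.exp ((x0 a + x0 b + x0 d) + t * (w a + w b + w d)) * Δ a b d
  have hg : ∀ t, g t = f (fun j => x0 j + t * w j) := by
    intro t
    simp only [g, f]
    refine sum_congr rfl (fun a _ => sum_congr rfl (fun b _ => sum_congr rfl (fun d _ => ?_)))
    congr 2
    ring
  have hgmin : IsLocalMin g 0 := by
    apply Filter.Eventually.of_forall
    intro t
    rw [hg, hg]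
    have e0 : (fun j => x0 j + 0 * w j) = x0 := by
      funext j; ring
    rw [e0]
    apply hmin
    rw [sum_add_distrib, ← mul_sum, hw, hx0sum]
    ring
  have hderiv : HasDerivAt g (∑ a, ∑ b, ∑ d,
      (Real.exp ((x0 a + x0 b + x0 d) + 0 * (w a + w b + w d)) * (w a + w b + w d))
        * Δ a b d) 0 := by
    apply HasDerivAt.fun_sum
    intro a _
    apply HasDerivAt.fun_sum
    intro b _
    apply HasDerivAt.fun_sum
    intro d _
    apply HasDerivAt.mul_const
    have hlin : HasDerivAt (fun t : ℝ => (x0 a + x0 b + x0 d) + t * (w a + w b + w d))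
        (w a + w b + w d) 0 := by
      have := ((hasDerivAt_id (0 : ℝ)).mul_const (w a + w b + w d)).const_add
        (x0 a + x0 b + x0 d)
      simpa using this
    exact hlin.exp
  have hzero := hgmin.hasDerivAt_eq_zero hderiv
  -- rewrite in terms of c
  set c : ι → ℝ := fun i => Real.exp (x0 i) with hc
  have hzero' : ∑ a, ∑ b, ∑ d, (c a * c b * c d * Δ a b d) * (w a + w b + w d) = 0 := by
    rw [← hzero]
    refine sum_congr rfl (fun a _ => sum_congr rfl (fun b _ => sum_congr rfl (fun d _ => ?_)))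
    simp only [hc, zero_mul, add_zero, Real.exp_add]
    ring
  have hind : ∀ j, w j = (Fintype.card ι : ℝ) * (if j = i then 1 else 0) - 1 := fun j => rfl
  have hsplit : ∑ a, ∑ b, ∑ d, (c a * c b * c d * Δ a b d) * (w a + w b + w d)
      = (Fintype.card ι : ℝ) * (∑ a, ∑ b, ∑ d, (c a * c b * c d * Δ a b d) *
          (if a = i then 1 else 0))
        + (Fintype.card ι : ℝ) * (∑ a, ∑ b, ∑ d, (c a * c b * c d * Δ a b d) *
          (if b = i then 1 else 0))
        + (Fintype.card ι : ℝ) * (∑ a, ∑ b, ∑ d, (c a * c b * c d * Δ a b d) *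
          (if d = i then 1 else 0))
        - 3 * (∑ a, ∑ b, ∑ d, c a * c b * c d * Δ a b d) := by
    simp only [mul_sum, ← sum_add_distrib, ← sum_sub_distrib]
    refine sum_congr rfl (fun a _ => sum_congr rfl (fun b _ => sum_congr rfl (fun d _ => ?_)))
    rw [hind a, hind b, hind d]
    ring
  have hA : ∑ a, ∑ b, ∑ d, (c a * c b * c d * Δ a b d) * (if a = i then 1 else 0)
      = ∑ j, ∑ k, c i * c j * c k * Δ i j k := by
    rw [Finset.sum_eq_single i]
    · simp
    · intro a _ ha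
      simp [ha]
    · intro h; exact absurd (mem_univ i) h
  have hB : ∑ a, ∑ b, ∑ d, (c a * c b * c d * Δ a b d) * (if b = i then 1 else 0)
      = ∑ j, ∑ k, c i * c j * c k * Δ i j k := by
    refine sum_congr rfl (fun a _ => ?_)
    rw [Finset.sum_eq_single i]
    · refine sum_congr rfl (fun d _ => ?_)
      rw [h1 a i d]
      simp only [if_true]
      ring
    · intro b _ hb
      simp [hb]
    · intro h; exact absurd (mem_univ i) h
  have hD : ∑ a, ∑ b, ∑ d, (c a * c b * c d * Δ a b d) * (if d = i then 1 else 0)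
      = ∑ j, ∑ k, c i * c j * c k * Δ i j k := by
    refine sum_congr rfl (fun a _ => sum_congr rfl (fun b _ => ?_))
    rw [Finset.sum_eq_single i]
    · rw [h2 a b i, h1 a i b]
      simp only [if_true]
      ring
    · intro d _ hd
      simp [hd]
    · intro h; exact absurd (mem_univ i) h
  rw [hsplit, hA, hB, hD] at hzero'
  linarith

end Pool.Agent.Lib.MP_1c7511_co
end
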