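import Pool.Agent.Lib.MP_1c7511_co.Defs
import Pool.Agent.Lib.MP_1c7511_co.LangerB

section

set_option autoImplicit false
set_option linter.unusedSimpArgs false

namespace Pool.Agent.Lib.MP_1c7511_co

open Finset

/-! ### Coordinates -/

private theorem det_of (a b c : Fin 3 → ℂ) : Matrix.det (Matrix.of ![a, b, c]) =
    (a 1 * b 2 - a 2 * b 1) * c 0 + (a 2 * b 0 - a 0 * b 2) * c 1
      + (a 0 * b 1 - a 1 * b 0) * c 2 := by
  rw [Matrix.det_fin_three]
  simp only [Matrix.of_apply, Matrix.cons_val_zero, Matrix.cons_val_one, Matrix.cons_val]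
  ring

/-- The cross product in coordinates. -/
private def cr (a b : Fin 3 → ℂ) : Fin 3 → ℂ :=
  ![a 1 * b 2 - a 2 * b 1, a 2 * b 0 - a 0 * b 2, a 0 * b 1 - a 1 * b 0]

private theorem dot3 (w x : Fin 3 → ℂ) : w ⬝ᵥ x = w 0 * x 0 + w 1 * x 1 + w 2 * x 2 := by
  simp [dotProduct, Fin.sum_univ_three]

private theorem cr_dot (a b c : Fin 3 → ℂ) :
    cr a b ⬝ᵥ c = Matrix.det (Matrix.of ![a, b, c]) := by
  rw [det_of, dot3]
  simp [cr]

private theorem cr_ne_zero {a b : Fin 3 → ℂ} (h : LinearIndependent ℂ ![a, b]) : cr a b ≠ 0 := by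
  have h1 := crossProduct_ne_zero_iff_linearIndependent.2 h
  intro h0
  apply h1
  rw [cross_apply]
  exact h0

private theorem ne_zero_cases {w : Fin 3 → ℂ} (hw : w ≠ 0) : w 0 ≠ 0 ∨ w 1 ≠ 0 ∨ w 2 ≠ 0 := by
  by_contra hcon
  push Not at hcon
  apply hw
  funext i
  fin_cases i
  · exact hcon.1
  · exact hcon.2.1
  · exact hcon.2.2

/-- Parallelism from the vanishing of the cross product. -/
private theorem par {w w' : Fin 3 → ℂ} (hw' : w' ≠ 0) (h0 : w 1 * w' 2 = w 2 * w' 1)
    (h1 : w 2 * w' 0 = w 0 * w' 2) (h2 : w 0 * w' 1 = w 1 * w' 0) :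
    ∃ t : ℂ, w = t • w' := by
  rcases ne_zero_cases hw' with h | h | h
  · refine ⟨w 0 / w' 0, ?_⟩
    funext i
    fin_cases i
    · simp only [Pi.smul_apply, smul_eq_mul, Fin.mk_zero, Fin.mk_one, Fin.reduceFinMk,
        Fin.isValue]
      field_simp
    · simp only [Pi.smul_apply, smul_eq_mul, Fin.mk_zero, Fin.mk_one, Fin.reduceFinMk,
        Fin.isValue]
      field_simp
      linear_combination -h2
    · simp only [Pi.smul_apply, smul_eq_mul, Fin.mk_zero, Fin.mk_one, Fin.reduceFinMk,
        Fin.isValue]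
      field_simp
      linear_combination h1
  · refine ⟨w 1 / w' 1, ?_⟩
    funext i
    fin_cases i
    · simp only [Pi.smul_apply, smul_eq_mul, Fin.mk_zero, Fin.mk_one, Fin.reduceFinMk,
        Fin.isValue]
      field_simp
      linear_combination h2
    · simp only [Pi.smul_apply, smul_eq_mul, Fin.mk_zero, Fin.mk_one, Fin.reduceFinMk,
        Fin.isValue]
      field_simp
    · simp only [Pi.smul_apply, smul_eq_mul, Fin.mk_zero, Fin.mk_one, Fin.reduceFinMk,
        Fin.isValue]
      field_simp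
      linear_combination -h0
  · refine ⟨w 2 / w' 2, ?_⟩
    funext i
    fin_cases i
    · simp only [Pi.smul_apply, smul_eq_mul, Fin.mk_zero, Fin.mk_one, Fin.reduceFinMk,
        Fin.isValue]
      field_simp
      linear_combination -h1
    · simp only [Pi.smul_apply, smul_eq_mul, Fin.mk_zero, Fin.mk_one, Fin.reduceFinMk,
        Fin.isValue]
      field_simp
      linear_combination h0
    · simp only [Pi.smul_apply, smul_eq_mul, Fin.mk_zero, Fin.mk_one, Fin.reduceFinMk,
        Fin.isValue]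
      field_simp

/-- A form vanishing at two vectors is a multiple of their cross product. -/
private theorem par_cr {w a b : Fin 3 → ℂ} (hab : cr a b ≠ 0) (ha : w ⬝ᵥ a = 0)
    (hb : w ⬝ᵥ b = 0) : ∃ t : ℂ, w = t • cr a b := by
  rw [dot3] at ha hb
  apply par hab
  · simp only [cr, Matrix.cons_val_zero, Matrix.cons_val_one, Matrix.cons_val]
    linear_combination (a 0) * hb - (b 0) * ha
  · simp only [cr, Matrix.cons_val_zero, Matrix.cons_val_one, Matrix.cons_val]
    linear_combination (a 1) * hb - (b 1) * ha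
  · simp only [cr, Matrix.cons_val_zero, Matrix.cons_val_one, Matrix.cons_val]
    linear_combination (a 2) * hb - (b 2) * ha

section
variable {ι : Type*} {v : ι → Fin 3 → ℂ}

theorem col_swap12 {i j k : ι} : Col v i j k ↔ Col v j i k := by
  unfold Col
  rw [det_of, det_of]
  constructor
  · intro h
    linear_combination -h
  · intro h
    linear_combination -h

theorem col_swap23 {i j k : ι} : Col v i j k ↔ Col v i k j := by
  unfold Col
  rw [det_of, det_of]
  constructor
  · intro h
    linear_combination -h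
  · intro h
    linear_combination -h

theorem col_self1 (i j : ι) : Col v i j i := by
  unfold Col
  rw [det_of]
  ring

theorem col_self2 (i j : ι) : Col v i j j := by
  unfold Col
  rw [det_of]
  ring

theorem col_self3 (i j : ι) : Col v i i j := by
  unfold Col
  rw [det_of]
  ring

/-- A line is determined by any two of its points. -/
theorem col_line (hv : ∀ i j, i ≠ j → LinearIndependent ℂ ![v i, v j]) {i j k l : ι}
    (hij : i ≠ j) (hkl : k ≠ l) (hk : Col v i j k) (hl : Col v i j l) :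
    ∀ m, Col v i j m ↔ Col v k l m := by
  intro m
  have hij' := cr_ne_zero (hv i j hij)
  have hkl' := cr_ne_zero (hv k l hkl)
  unfold Col at *
  rw [← cr_dot] at hk hl
  rw [← cr_dot, ← cr_dot]
  obtain ⟨t, ht⟩ := par_cr hkl' hk hl
  have ht0 : t ≠ 0 := by
    rintro rfl
    exact hij' (by rw [ht, zero_smul])
  rw [ht, smul_dotProduct, smul_eq_mul]
  constructor
  · intro h
    exact (mul_eq_zero.1 h).resolve_left ht0
  · intro h
    rw [h, mul_zero]

/-- A line is the zero set of a nonzero linear form. -/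
theorem col_form (hv : ∀ i j, i ≠ j → LinearIndependent ℂ ![v i, v j]) {i j : ι}
    (hij : i ≠ j) : ∃ w : Fin 3 → ℂ, w ≠ 0 ∧ ∀ m, Col v i j m ↔ w ⬝ᵥ v m = 0 :=
  ⟨cr (v i) (v j), cr_ne_zero (hv i j hij), fun m => by rw [cr_dot]; rfl⟩

end

/-! ### Reducible conics -/

/-- The product of two linear forms. -/
private def pf (w u : Fin 3 → ℂ) : Fin 6 → ℂ :=
  ![w 0 * u 0, w 1 * u 1, w 2 * u 2, w 0 * u 1 + w 1 * u 0, w 0 * u 2 + w 2 * u 0,
    w 1 * u 2 + w 2 * u 1]

private theorem qf_pf (w u x : Fin 3 → ℂ) : qf (pf w u) x = (w ⬝ᵥ x) * (u ⬝ᵥ x) := by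
  rw [dot3, dot3]
  simp only [qf, pf, Matrix.cons_val_zero, Matrix.cons_val_one, Matrix.cons_val]
  ring

private theorem pf_smul (w u : Fin 3 → ℂ) (t : ℂ) : pf w (t • u) = t • pf w u := by
  funext i
  fin_cases i <;>
  simp only [pf, Pi.smul_apply, smul_eq_mul, Fin.mk_zero, Fin.mk_one, Fin.reduceFinMk, Fin.isValue,
    Matrix.cons_val_zero, Matrix.cons_val_one, Matrix.cons_val] <;> ring

private theorem pf_ne_zero {w u : Fin 3 → ℂ} (hw : w ≠ 0) (hu : u ≠ 0) : pf w u ≠ 0 := by
  intro h
  have e0 : w 0 * u 0 = 0 := by simpa [pf] using congrFun h 0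
  have e1 : w 1 * u 1 = 0 := by simpa [pf] using congrFun h 1
  have e2 : w 2 * u 2 = 0 := by simpa [pf] using congrFun h 2
  have e3 : w 0 * u 1 + w 1 * u 0 = 0 := by simpa [pf] using congrFun h 3
  have e4 : w 0 * u 2 + w 2 * u 0 = 0 := by simpa [pf] using congrFun h 4
  have e5 : w 1 * u 2 + w 2 * u 1 = 0 := by simpa [pf] using congrFun h 5
  apply hu
  rcases ne_zero_cases hw with hw | hw | hw
  · have u0 : u 0 = 0 := (mul_eq_zero.1 e0).resolve_left hw
    rw [u0, mul_zero, add_zero] at e3 e4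
    have u1 : u 1 = 0 := (mul_eq_zero.1 e3).resolve_left hw
    have u2 : u 2 = 0 := (mul_eq_zero.1 e4).resolve_left hw
    funext i
    fin_cases i
    · exact u0
    · exact u1
    · exact u2
  · have u1 : u 1 = 0 := (mul_eq_zero.1 e1).resolve_left hw
    rw [u1, mul_zero] at e3 e5
    rw [zero_add] at e3
    rw [add_zero] at e5
    have u0 : u 0 = 0 := (mul_eq_zero.1 e3).resolve_left hw
    have u2 : u 2 = 0 := (mul_eq_zero.1 e5).resolve_left hw
    funext i
    fin_cases i
    · exact u0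
    · exact u1
    · exact u2
  · have u2 : u 2 = 0 := (mul_eq_zero.1 e2).resolve_left hw
    rw [u2, mul_zero, zero_add] at e4 e5
    have u0 : u 0 = 0 := (mul_eq_zero.1 e4).resolve_left hw
    have u1 : u 1 = 0 := (mul_eq_zero.1 e5).resolve_left hw
    funext i
    fin_cases i
    · exact u0
    · exact u1
    · exact u2

/-- A quadratic form vanishing on a plane is divisible by its equation. -/
private theorem factor_of_plane {c : Fin 6 → ℂ} {w : Fin 3 → ℂ} (hw : w ≠ 0)
    (h : ∀ x, w ⬝ᵥ x = 0 → qf c x = 0) : ∃ u, c = pf w u := by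
  have key : ∀ x0 x1 x2 : ℂ, w 0 * x0 + w 1 * x1 + w 2 * x2 = 0 →
      c 0 * x0 ^ 2 + c 1 * x1 ^ 2 + c 2 * x2 ^ 2 + c 3 * (x0 * x1) + c 4 * (x0 * x2)
        + c 5 * (x1 * x2) = 0 := by
    intro x0 x1 x2 hx
    have := h ![x0, x1, x2] (by rw [dot3]; simpa using hx)
    simpa [qf] using this
  rcases ne_zero_cases hw with h0 | h0 | h0
  · have k1 := key (-w 1) (w 0) 0 (by ring)
    have k2 := key (-w 2) 0 (w 0) (by ring)
    have k3 := key (-w 1 - w 2) (w 0) (w 0) (by ring)
    refine ⟨![c 0 / w 0, (c 3 - w 1 * (c 0 / w 0)) / w 0, (c 4 - w 2 * (c 0 / w 0)) / w 0], ?_⟩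
    funext i
    fin_cases i <;>
    simp only [pf, Fin.mk_zero, Fin.mk_one, Fin.reduceFinMk, Fin.isValue,
      Matrix.cons_val_zero, Matrix.cons_val_one, Matrix.cons_val]
    · field_simp
    · field_simp
      linear_combination k1
    · field_simp
      linear_combination k2
    · field_simp
      ring
    · field_simp
      ring
    · field_simp
      linear_combination k3 - k1 - k2
  · have k1 := key (w 1) (-w 0) 0 (by ring)
    have k2 := key 0 (-w 2) (w 1) (by ring)
    have k3 := key (w 1) (-w 0 - w 2) (w 1) (by ring)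
    refine ⟨![(c 3 - w 0 * (c 1 / w 1)) / w 1, c 1 / w 1, (c 5 - w 2 * (c 1 / w 1)) / w 1], ?_⟩
    funext i
    fin_cases i <;>
    simp only [pf, Fin.mk_zero, Fin.mk_one, Fin.reduceFinMk, Fin.isValue,
      Matrix.cons_val_zero, Matrix.cons_val_one, Matrix.cons_val]
    · field_simp
      linear_combination k1
    · field_simp
    · field_simp
      linear_combination k2
    · field_simp
      ring
    · field_simp
      linear_combination k3 - k1 - k2
    · field_simp
      ring
  · have k1 := key (w 2) 0 (-w 0) (by ring)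
    have k2 := key 0 (w 2) (-w 1) (by ring)
    have k3 := key (w 2) (w 2) (-w 0 - w 1) (by ring)
    refine ⟨![(c 4 - w 0 * (c 2 / w 2)) / w 2, (c 5 - w 1 * (c 2 / w 2)) / w 2, c 2 / w 2], ?_⟩
    funext i
    fin_cases i <;>
    simp only [pf, Fin.mk_zero, Fin.mk_one, Fin.reduceFinMk, Fin.isValue,
      Matrix.cons_val_zero, Matrix.cons_val_one, Matrix.cons_val]
    · field_simp
      linear_combination k1
    · field_simp
      linear_combination k2
    · field_simp
    · field_simp
      linear_combination k3 - k1 - k2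
    · field_simp
      ring
    · field_simp
      ring

/-- Every vector of a plane is a combination of two independent ones. -/
private theorem comb {w a b x : Fin 3 → ℂ} (hw : w ≠ 0) (hab : cr a b ≠ 0) (ha : w ⬝ᵥ a = 0)
    (hb : w ⬝ᵥ b = 0) (hx : w ⬝ᵥ x = 0) : ∃ α β : ℂ, x = α • a + β • b := by
  obtain ⟨t, ht⟩ := par_cr hab ha hb
  have ht0 : t ≠ 0 := by
    rintro rfl
    exact hw (by rw [ht, zero_smul])
  have hx' : cr a b ⬝ᵥ x = 0 := by
    rw [ht, smul_dotProduct, smul_eq_mul] at hx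
    exact (mul_eq_zero.1 hx).resolve_left ht0
  rw [dot3] at hx'
  simp only [cr, Matrix.cons_val_zero, Matrix.cons_val_one, Matrix.cons_val] at hx'
  rcases ne_zero_cases hab with h | h | h <;>
  simp only [cr, Matrix.cons_val_zero, Matrix.cons_val_one, Matrix.cons_val] at h
  · refine ⟨(x 1 * b 2 - x 2 * b 1) / (a 1 * b 2 - a 2 * b 1),
      (a 1 * x 2 - a 2 * x 1) / (a 1 * b 2 - a 2 * b 1), ?_⟩
    funext i
    fin_cases i <;>
    simp only [Pi.add_apply, Pi.smul_apply, smul_eq_mul, Fin.mk_zero, Fin.mk_one,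
      Fin.reduceFinMk, Fin.isValue] <;>
    rw [div_mul_eq_mul_div, div_mul_eq_mul_div, ← add_div, eq_div_iff h]
    · linear_combination hx'
    · ring
    · ring
  · refine ⟨(x 2 * b 0 - x 0 * b 2) / (a 2 * b 0 - a 0 * b 2),
      (a 2 * x 0 - a 0 * x 2) / (a 2 * b 0 - a 0 * b 2), ?_⟩
    funext i
    fin_cases i <;>
    simp only [Pi.add_apply, Pi.smul_apply, smul_eq_mul, Fin.mk_zero, Fin.mk_one,
      Fin.reduceFinMk, Fin.isValue] <;>
    rw [div_mul_eq_mul_div, div_mul_eq_mul_div, ← add_div, eq_div_iff h]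
    · ring
    · linear_combination hx'
    · ring
  · refine ⟨(x 0 * b 1 - x 1 * b 0) / (a 0 * b 1 - a 1 * b 0),
      (a 0 * x 1 - a 1 * x 0) / (a 0 * b 1 - a 1 * b 0), ?_⟩
    funext i
    fin_cases i <;>
    simp only [Pi.add_apply, Pi.smul_apply, smul_eq_mul, Fin.mk_zero, Fin.mk_one,
      Fin.reduceFinMk, Fin.isValue] <;>
    rw [div_mul_eq_mul_div, div_mul_eq_mul_div, ← add_div, eq_div_iff h]
    · ring
    · ring
    · linear_combination hx'

/-- The polar form. -/
private theorem qf_comb (c : Fin 6 → ℂ) (a b : Fin 3 → ℂ) (α β : ℂ) :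
    qf c (α • a + β • b) = α ^ 2 * qf c a + β ^ 2 * qf c b
      + α * β * (qf c (a + b) - qf c a - qf c b) := by
  simp only [qf, Pi.add_apply, Pi.smul_apply, smul_eq_mul]
  ring

private theorem cr_comb_left (a b : Fin 3 → ℂ) (α : ℂ) : cr a (α • a + (0 : ℂ) • b) = 0 := by
  funext i
  fin_cases i <;> simp [cr] <;> ring

private theorem cr_comb_right (a b : Fin 3 → ℂ) (β : ℂ) : cr b ((0 : ℂ) • a + β • b) = 0 := by
  funext i
  fin_cases i <;> simp [cr] <;> ring

/-- A quadratic form vanishing at three points of a line is divisible by its equation. -/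
private theorem factor_of_three {c : Fin 6 → ℂ} {w a b e : Fin 3 → ℂ} (hw : w ≠ 0)
    (hab : cr a b ≠ 0) (hae : cr a e ≠ 0) (hbe : cr b e ≠ 0) (ha : w ⬝ᵥ a = 0)
    (hb : w ⬝ᵥ b = 0) (he : w ⬝ᵥ e = 0) (ca : qf c a = 0) (cb : qf c b = 0) (ce : qf c e = 0) :
    ∃ u, c = pf w u := by
  apply factor_of_plane hw
  intro x hx
  obtain ⟨α, β, rfl⟩ := comb hw hab ha hb hx
  obtain ⟨γ, δ, rfl⟩ := comb hw hab ha hb he
  have hγ : γ ≠ 0 := by
    rintro rfl
    exact hbe (cr_comb_right a b δ)
  have hδ : δ ≠ 0 := by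
    rintro rfl
    exact hae (cr_comb_left a b γ)
  rw [qf_comb, ca, cb] at ce ⊢
  have : qf c (a + b) - 0 - 0 = 0 := by
    have h1 : γ * δ * (qf c (a + b) - 0 - 0) = 0 := by linear_combination ce
    exact (mul_eq_zero.1 h1).resolve_left (mul_ne_zero hγ hδ)
  rw [this]
  ring

section
variable {ι : Type*} [Fintype ι] [DecidableEq ι] {v : ι → Fin 3 → ℂ}

/-- The common argument: a reducible conic with exactly five points, three of them on one line. -/
private theorem five (h : BadConf v) {w w' : Fin 3 → ℂ} (hw : w ≠ 0) (hw' : w' ≠ 0)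
    {a b c d e : ι} (hab : a ≠ b) (hac : a ≠ c) (hbc : b ≠ c) (hde : d ≠ e)
    (ha : w ⬝ᵥ v a = 0) (hb : w ⬝ᵥ v b = 0) (hc : w ⬝ᵥ v c = 0)
    (hd : w ⬝ᵥ v d ≠ 0) (he : w ⬝ᵥ v e ≠ 0) (hd' : w' ⬝ᵥ v d = 0) (he' : w' ⬝ᵥ v e = 0)
    (hex : ∀ k, (w ⬝ᵥ v k = 0 ∨ w' ⬝ᵥ v k = 0) → k = a ∨ k = b ∨ k = c ∨ k = d ∨ k = e) :
    False := by
  have hset : univ.filter (fun i => qf (pf w w') (v i) = 0) = {a, b, c, d, e} := by
    ext k
    simp only [mem_filter, mem_univ, true_and, mem_insert, mem_singleton, qf_pf, mul_eq_zero]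
    constructor
    · exact hex k
    · rintro (rfl | rfl | rfl | rfl | rfl)
      · exact Or.inl ha
      · exact Or.inl hb
      · exact Or.inl hc
      · exact Or.inr hd'
      · exact Or.inr he'
  have had : a ≠ d := by rintro rfl; exact hd ha
  have hae : a ≠ e := by rintro rfl; exact he ha
  have hbd : b ≠ d := by rintro rfl; exact hd hb
  have hbe : b ≠ e := by rintro rfl; exact he hb
  have hcd : c ≠ d := by rintro rfl; exact hd hc
  have hce : c ≠ e := by rintro rfl; exact he hc
  have hcard : (univ.filter (fun i => qf (pf w w') (v i) = 0)).card = 5 := by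
    rw [hset, card_insert_of_notMem, card_insert_of_notMem, card_insert_of_notMem,
      card_insert_of_notMem, card_singleton]
    · simp only [mem_singleton]; exact hde
    · simp only [mem_insert, mem_singleton, not_or]; exact ⟨hcd, hce⟩
    · simp only [mem_insert, mem_singleton, not_or]; exact ⟨hbc, hbd, hbe⟩
    · simp only [mem_insert, mem_singleton, not_or]; exact ⟨hab, hac, had, hae⟩
  obtain ⟨c', hc1, hc2⟩ := h.noord (pf w w') (pf_ne_zero hw hw') hcard
  have hz : ∀ k, (w ⬝ᵥ v k = 0 ∨ w' ⬝ᵥ v k = 0) → qf c' (v k) = 0 := fun k hk =>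
    hc1 k (by rw [qf_pf, mul_eq_zero]; exact hk)
  obtain ⟨u, rfl⟩ := factor_of_three hw (cr_ne_zero (h.indep a b hab))
    (cr_ne_zero (h.indep a c hac)) (cr_ne_zero (h.indep b c hbc)) ha hb hc
    (hz a (Or.inl ha)) (hz b (Or.inl hb)) (hz c (Or.inl hc))
  have hud : u ⬝ᵥ v d = 0 := by
    have := hz d (Or.inr hd')
    rw [qf_pf] at this
    exact (mul_eq_zero.1 this).resolve_left hd
  have hue : u ⬝ᵥ v e = 0 := by
    have := hz e (Or.inr he')
    rw [qf_pf] at this
    exact (mul_eq_zero.1 this).resolve_left he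
  have hcr := cr_ne_zero (h.indep d e hde)
  obtain ⟨s, hs⟩ := par_cr hcr hud hue
  obtain ⟨t, ht⟩ := par_cr hcr hd' he'
  have ht0 : t ≠ 0 := by
    rintro rfl
    exact hw' (by rw [ht, zero_smul])
  apply hc2 (s / t)
  rw [← pf_smul, ht, hs, smul_smul, div_mul_cancel₀ _ ht0]

/-- Two lines with exactly three points of the family do not share a point of the family. -/
theorem no_two_three (h : BadConf v) {p a b c d : ι} (hpa : p ≠ a) (hpb : p ≠ b) (hab : a ≠ b)
    (hpc : p ≠ c) (hpd : p ≠ d) (hcd : c ≠ d)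
    (h1 : ∀ k, Col v p a k ↔ k = p ∨ k = a ∨ k = b)
    (h2 : ∀ k, Col v p c k ↔ k = p ∨ k = c ∨ k = d)
    (hne : ¬ Col v p a c) : False := by
  obtain ⟨w, hw, hwk⟩ := col_form h.indep hpa
  obtain ⟨w', hw', hwk'⟩ := col_form h.indep hpc
  have hne' : ¬ Col v p a d := by
    intro hd
    have := (col_line h.indep hpc hpd (col_self1 p c) ((h2 d).2 (by simp)) c).1
      (col_self2 p c)
    exact hne ((col_line h.indep hpa hpd (col_self1 p a) hd c).2 this)
  refine five h hw hw' (a := p) (b := a) (c := b) (d := c) (e := d) hpa hpb hab hcd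
    ((hwk p).1 ((h1 p).2 (by simp))) ((hwk a).1 ((h1 a).2 (by simp)))
    ((hwk b).1 ((h1 b).2 (by simp))) (fun hh => hne ((hwk c).2 hh))
    (fun hh => hne' ((hwk d).2 hh)) ((hwk' c).1 ((h2 c).2 (by simp)))
    ((hwk' d).1 ((h2 d).2 (by simp))) ?_
  rintro k (hk | hk)
  · rcases (h1 k).1 ((hwk k).2 hk) with hh | hh | hh <;> simp [hh]
  · rcases (h2 k).1 ((hwk' k).2 hk) with hh | hh | hh <;> simp [hh]

/-- A line with exactly three points and a line with exactly two points of the family share a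
point of the family. -/
theorem no_three_two (h : BadConf v) {a b c d e : ι} (hab : a ≠ b) (hac : a ≠ c) (hbc : b ≠ c)
    (hde : d ≠ e)
    (h1 : ∀ k, Col v a b k ↔ k = a ∨ k = b ∨ k = c)
    (h2 : ∀ k, Col v d e k ↔ k = d ∨ k = e)
    (hd : ¬ Col v a b d) (he : ¬ Col v a b e) : False := by
  obtain ⟨w, hw, hwk⟩ := col_form h.indep hab
  obtain ⟨w', hw', hwk'⟩ := col_form h.indep hde
  refine five h hw hw' (a := a) (b := b) (c := c) (d := d) (e := e) hab hac hbc hde
    ((hwk a).1 ((h1 a).2 (by simp))) ((hwk b).1 ((h1 b).2 (by simp)))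
    ((hwk c).1 ((h1 c).2 (by simp))) (fun hh => hd ((hwk d).2 hh))
    (fun hh => he ((hwk e).2 hh)) ((hwk' d).1 ((h2 d).2 (by simp)))
    ((hwk' e).1 ((h2 e).2 (by simp))) ?_
  rintro k (hk | hk)
  · rcases (h1 k).1 ((hwk k).2 hk) with hh | hh | hh <;> simp [hh]
  · rcases (h2 k).1 ((hwk' k).2 hk) with hh | hh <;> simp [hh]

/-- A bad family is not contained in two lines. -/
theorem not_two_lines (h : BadConf v) (w w' : Fin 3 → ℂ) (hw : w ≠ 0) (hw' : w' ≠ 0)
    (hcov : ∀ i, w ⬝ᵥ v i = 0 ∨ w' ⬝ᵥ v i = 0) : False :=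
  pf_ne_zero hw hw' (h.noconic (pf w w') fun i => by
    rw [qf_pf, mul_eq_zero]; exact hcov i)

end

end Pool.Agent.Lib.MP_1c7511_co
end

section

set_option autoImplicit false
set_option linter.unusedSectionVars false

namespace Pool.Agent.Lib.MP_1c7511_co

open Finset

namespace LangerC

open Classical in
/-- The members of the family on the line through `i` and `j`. -/
noncomputable def Ln {ι : Type*} [Fintype ι] (v : ι → Fin 3 → ℂ) (i j : ι) : Finset ι :=
  univ.filter (fun k => Col v i j k)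

section
variable {ι : Type*} [Fintype ι] {v : ι → Fin 3 → ℂ}

lemma mem_Ln {i j k : ι} : k ∈ Ln v i j ↔ Col v i j k := by
  unfold Ln; simp

lemma rho_eq (i j : ι) : rho v i j = (Ln v i j).card := by
  unfold rho
  rw [← Set.ncard_coe_finset]
  congr 1
  ext k
  simp [mem_Ln]

lemma Ln_eq (hv : ∀ i j, i ≠ j → LinearIndependent ℂ ![v i, v j]) {i j k l : ι}
    (hij : i ≠ j) (hkl : k ≠ l) (hk : k ∈ Ln v i j) (hl : l ∈ Ln v i j) :
    Ln v k l = Ln v i j := by
  ext m
  rw [mem_Ln, mem_Ln]
  exact (col_line hv hij hkl (mem_Ln.mp hk) (mem_Ln.mp hl) m).symm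

lemma left_mem (i j : ι) : i ∈ Ln v i j := mem_Ln.mpr (col_self1 i j)
lemma right_mem (i j : ι) : j ∈ Ln v i j := mem_Ln.mpr (col_self2 i j)

lemma rho_ge (h3 : ∀ i j, i ≠ j → ∃ k, k ≠ i ∧ k ≠ j ∧ Col v i j k) {i j : ι} (hij : i ≠ j) :
    3 ≤ (Ln v i j).card := by
  classical
  obtain ⟨k, hki, hkj, hk⟩ := h3 i j hij
  have hsub : ({i, j, k} : Finset ι) ⊆ Ln v i j := by
    intro x hx
    simp only [Finset.mem_insert, Finset.mem_singleton] at hx
    rcases hx with rfl | rfl | rfl
    · exact left_mem _ _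
    · exact right_mem _ _
    · exact mem_Ln.mpr hk
  have hc : ({i, j, k} : Finset ι).card = 3 := by
    rw [Finset.card_insert_of_notMem, Finset.card_insert_of_notMem, Finset.card_singleton]
    · simp [Ne.symm hkj]
    · simp [Ne.symm hki, hij]
  rw [← hc]
  exact Finset.card_le_card hsub

lemma exists_off (hv : ∀ i j, i ≠ j → LinearIndependent ℂ ![v i, v j])
    (hspan : ∃ i j k, ¬ Col v i j k) {i j : ι} (hij : i ≠ j) : ∃ q, ¬ Col v i j q := by
  obtain ⟨a, b, c, habc⟩ := hspan
  by_contra hno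
  push Not at hno
  have hab : a ≠ b := by
    rintro rfl
    exact habc (col_self3 _ _)
  exact habc ((col_line hv hij hab (hno a) (hno b) c).mp (hno c))

lemma two_rho (hv : ∀ i j, i ≠ j → LinearIndependent ℂ ![v i, v j])
    (hspan : ∃ i j k, ¬ Col v i j k)
    (h3 : ∀ i j, i ≠ j → ∃ k, k ≠ i ∧ k ≠ j ∧ Col v i j k) {i j : ι} (hij : i ≠ j) :
    2 * (Ln v i j).card + 1 ≤ Fintype.card ι := by
  classical
  obtain ⟨q, hq⟩ := exists_off hv hspan hij
  have hqne : ∀ p ∈ Ln v i j, q ≠ p := by
    rintro p hp rfl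
    exact hq (mem_Ln.mp hp)
  have hch : ∀ p : ι, ∃ k, p ∈ Ln v i j → (k ≠ q ∧ k ≠ p ∧ Col v q p k) := by
    intro p
    by_cases hp : p ∈ Ln v i j
    · obtain ⟨k, h1, h2, h3⟩ := h3 q p (hqne p hp)
      exact ⟨k, fun _ => ⟨h1, h2, h3⟩⟩
    · exact ⟨p, fun h => absurd h hp⟩
  choose t ht using hch
  have hoff : ∀ p ∈ Ln v i j, t p ∉ Ln v i j := by
    intro p hp htp
    obtain ⟨h1, h2, h4⟩ := ht p hp
    have h5 := (col_line hv hij (Ne.symm h2) (mem_Ln.mp hp) (mem_Ln.mp htp) q).mpr
      (col_swap23.mp (col_swap12.mp h4))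
    exact hq h5
  have hinj : ∀ p ∈ Ln v i j, ∀ p' ∈ Ln v i j, t p = t p' → p = p' := by
    intro p hp p' hp' he
    by_contra hne
    obtain ⟨h1, h2, h4⟩ := ht p hp
    obtain ⟨h1', h2', h4'⟩ := ht p' hp'
    rw [← he] at h4' h1' h2'
    have e1 : Col v q (t p) p := col_swap23.mp h4
    have e2 : Col v q (t p) p' := col_swap23.mp h4'
    have e3 : Col v p p' q := (col_line hv (Ne.symm h1) hne e1 e2 q).mp (col_self1 _ _)
    exact hq ((col_line hv hij hne (mem_Ln.mp hp) (mem_Ln.mp hp') q).mpr e3)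
  have hsub : (Ln v i j).image t ⊆ (univ \ Ln v i j).erase q := by
    intro x hx
    obtain ⟨p, hp, rfl⟩ := Finset.mem_image.mp hx
    rw [Finset.mem_erase, Finset.mem_sdiff]
    exact ⟨(ht p hp).1, Finset.mem_univ _, hoff p hp⟩
  have hc := Finset.card_le_card hsub
  rw [Finset.card_image_of_injOn (fun p hp p' hp' he => hinj p hp p' hp' he),
    Finset.card_erase_of_mem (by
      rw [Finset.mem_sdiff]; exact ⟨Finset.mem_univ _, fun h => hq (mem_Ln.mp h)⟩),
    Finset.card_sdiff_of_subset (Finset.subset_univ _), Finset.card_univ] at hc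
  have h0 : 0 < Fintype.card ι - (Ln v i j).card := by
    have : q ∈ univ \ Ln v i j := by
      rw [Finset.mem_sdiff]; exact ⟨Finset.mem_univ _, fun h => hq (mem_Ln.mp h)⟩
    have h2 := Finset.card_pos.mpr ⟨q, this⟩
    rwa [Finset.card_sdiff_of_subset (Finset.subset_univ _), Finset.card_univ] at h2
  omega

lemma De_swap12 (i j k : ι) : De v i j k = De v j i k := by
  unfold De
  rw [Matrix.det_fin_three, Matrix.det_fin_three]
  simp only [Matrix.of_apply, Matrix.cons_val]
  rw [← norm_neg]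
  congr 2
  ring

lemma De_swap23 (i j k : ι) : De v i j k = De v i k j := by
  unfold De
  rw [Matrix.det_fin_three, Matrix.det_fin_three]
  simp only [Matrix.of_apply, Matrix.cons_val]
  rw [← norm_neg]
  congr 2
  ring

lemma De_nonneg (i j k : ι) : 0 ≤ De v i j k := by
  unfold De; positivity

lemma De_eq_zero {i j k : ι} : De v i j k = 0 ↔ Col v i j k := by
  unfold De Col
  rw [sq_eq_zero_iff, norm_eq_zero]

lemma De_diag (i k : ι) : De v i i k = 0 := De_eq_zero.mpr (col_self3 _ _)

/-- Double counting over the lines. -/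
lemma double_count [DecidableEq ι] (hv : ∀ i j, i ≠ j → LinearIndependent ℂ ![v i, v j])
    (h3 : ∀ i j, i ≠ j → ∃ k, k ≠ i ∧ k ≠ j ∧ Col v i j k)
    (g : ι → ι → ℝ) (hg : ∀ i, g i i = 0) :
    ∑ x ∈ (univ : Finset ι).offDiag, (∑ i ∈ Ln v x.1 x.2, ∑ j ∈ Ln v x.1 x.2, g i j)
        / (((Ln v x.1 x.2).card : ℝ) * (((Ln v x.1 x.2).card : ℝ) - 1))
      = ∑ i, ∑ j, g i j := by
  classical
  have hprod : ∀ s : Finset ι, ∑ i ∈ s, ∑ j ∈ s, g i j = ∑ y ∈ s.offDiag, g y.1 y.2 := by
    intro s
    rw [← Finset.sum_product' s s g]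
    symm
    refine Finset.sum_subset (fun y hy => ?_) (fun y hy hny => ?_)
    · rw [Finset.mem_offDiag] at hy
      exact Finset.mem_product.mpr ⟨hy.1, hy.2.1⟩
    · rw [Finset.mem_offDiag] at hny
      rw [Finset.mem_product] at hy
      have : y.1 = y.2 := by
        by_contra h
        exact hny ⟨hy.1, hy.2, h⟩
      rw [this, hg]
  rw [hprod univ]
  simp_rw [hprod, Finset.sum_div]
  rw [Finset.sum_comm' (t' := (univ : Finset ι).offDiag)
    (s' := fun y => (Ln v y.1 y.2).offDiag)]
  · refine Finset.sum_congr rfl (fun y hy => ?_)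
    rw [Finset.mem_offDiag] at hy
    have hyne := hy.2.2
    have hL : ∀ x ∈ (Ln v y.1 y.2).offDiag,
        g y.1 y.2 / (((Ln v x.1 x.2).card : ℝ) * (((Ln v x.1 x.2).card : ℝ) - 1))
        = g y.1 y.2 / (((Ln v y.1 y.2).card : ℝ) * (((Ln v y.1 y.2).card : ℝ) - 1)) := by
      intro x hx
      rw [Finset.mem_offDiag] at hx
      rw [Ln_eq hv hyne hx.2.2 hx.1 hx.2.1]
    rw [Finset.sum_congr rfl hL, Finset.sum_const, nsmul_eq_mul, Finset.offDiag_card]
    have hr : (3 : ℝ) ≤ ((Ln v y.1 y.2).card : ℝ) := by exact_mod_cast rho_ge h3 hyne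
    have hle : (Ln v y.1 y.2).card ≤ (Ln v y.1 y.2).card * (Ln v y.1 y.2).card :=
      Nat.le_mul_self _
    rw [Nat.cast_sub hle]
    push_cast
    have n1 : ((Ln v y.1 y.2).card : ℝ) ≠ 0 := by linarith
    have n2 : ((Ln v y.1 y.2).card : ℝ) - 1 ≠ 0 := by linarith
    field_simp
  · intro x y
    simp only [Finset.mem_offDiag]
    constructor
    · rintro ⟨⟨_, _, hx⟩, h1, h2, hy⟩
      have := Ln_eq hv hx hy h1 h2
      rw [this]
      exact ⟨⟨left_mem _ _, right_mem _ _, hx⟩, Finset.mem_univ _, Finset.mem_univ _, hy⟩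
    · rintro ⟨⟨h1, h2, hx⟩, _, _, hy⟩
      have := Ln_eq hv hy hx h1 h2
      rw [this]
      exact ⟨⟨Finset.mem_univ _, Finset.mem_univ _, hx⟩, left_mem _ _, right_mem _ _, hy⟩

end

end LangerC

open LangerC

/-- Langer-type inequality: in a non-collinear finite set of points of the complex projective
plane without two-point lines, at least `4N/3` lines have exactly three points. -/
theorem langer {ι : Type*} [Fintype ι] [DecidableEq ι] (v : ι → Fin 3 → ℂ)
    (hv : ∀ i j, i ≠ j → LinearIndependent ℂ ![v i, v j])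
    (hspan : ∃ i j k, ¬ Col v i j k)
    (h3 : ∀ i j, i ≠ j → ∃ k, k ≠ i ∧ k ≠ j ∧ Col v i j k) :
    8 * Fintype.card ι ≤ Set.ncard {p : ι × ι | p.1 ≠ p.2 ∧ rho v p.1 p.2 = 3} := by
  classical
  obtain ⟨a, b, d, habd⟩ := id hspan
  have hab : a ≠ b := by
    rintro rfl
    exact habd (col_self3 _ _)
  have hN7 : 7 ≤ Fintype.card ι := by
    have h1 := rho_ge h3 hab
    have h2 := two_rho hv hspan h3 hab
    omega
  obtain ⟨c, hc, hbal⟩ := exists_weights (De v) LangerC.De_swap12 LangerC.De_swap23 LangerC.De_nonneg LangerC.De_diag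
    (by omega) (by
      intro i j hij
      have h := two_rho hv hspan h3 hij
      have he : (univ.filter (fun k => De v i j k = 0)) = Ln v i j := by
        ext k
        rw [mem_Ln]
        simp [De_eq_zero]
      rw [he]
      exact h)
  set D : ℝ := ∑ i', ∑ j, ∑ k, c i' * c j * c k * De v i' j k with hD
  have hterm : ∀ i j k, 0 ≤ c i * c j * c k * De v i j k := fun i j k =>
    mul_nonneg (mul_nonneg (mul_nonneg (hc i).le (hc j).le) (hc k).le) (De_nonneg i j k)
  have hDpos : 0 < D := by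
    have h1 : 0 < c a * c b * c d * De v a b d := by
      have : De v a b d ≠ 0 := fun h => habd (De_eq_zero.mp h)
      have h2 : 0 < De v a b d := lt_of_le_of_ne (De_nonneg _ _ _) (Ne.symm this)
      have := hc a
      have := hc b
      have := hc d
      positivity
    have h2 : c a * c b * c d * De v a b d ≤ D := by
      calc c a * c b * c d * De v a b d ≤ ∑ k, c a * c b * c k * De v a b k :=
            Finset.single_le_sum (f := fun k => c a * c b * c k * De v a b k)
              (fun k _ => hterm a b k) (Finset.mem_univ d)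
        _ ≤ ∑ j, ∑ k, c a * c j * c k * De v a j k :=
            Finset.single_le_sum (f := fun j => ∑ k, c a * c j * c k * De v a j k)
              (fun j _ => Finset.sum_nonneg (fun k _ => hterm a j k)) (Finset.mem_univ b)
        _ ≤ D :=
            Finset.single_le_sum (f := fun i => ∑ j, ∑ k, c i * c j * c k * De v i j k)
              (fun i _ => Finset.sum_nonneg (fun j _ => Finset.sum_nonneg
                (fun k _ => hterm i j k))) (Finset.mem_univ a)
    linarith
  set g : ι → ι → ℝ := fun i j => ∑ k, c i * c j * c k * De v i j k with hg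
  have hgd : ∀ i, g i i = 0 := by
    intro i
    simp only [hg]
    refine Finset.sum_eq_zero (fun k _ => ?_)
    rw [De_diag, mul_zero]
  have hdc := double_count hv h3 g hgd
  have hNpos : (0 : ℝ) < (Fintype.card ι : ℝ) := by
    have : (7 : ℝ) ≤ (Fintype.card ι : ℝ) := by exact_mod_cast hN7
    linarith
  have hone : ∀ i, ∑ j, ∑ k, c i * c j * c k * De v i j k = D / (Fintype.card ι : ℝ) := by
    intro i
    rw [eq_div_iff hNpos.ne']
    rw [mul_comm]
    exact hbal i
  have hlin : ∀ x ∈ (univ : Finset ι).offDiag,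
      (∑ i ∈ Ln v x.1 x.2, ∑ j ∈ Ln v x.1 x.2, g i j)
        / (((Ln v x.1 x.2).card : ℝ) * (((Ln v x.1 x.2).card : ℝ) - 1))
      ≤ (3 / 4 * D / (Fintype.card ι : ℝ) ^ 2) *
          (4 / 3 + (if (Ln v x.1 x.2).card = 3 then 1 / 6 else 0)) := by
    intro x hx
    rw [Finset.mem_offDiag] at hx
    have hxne := hx.2.2
    obtain ⟨w, hw, hwm⟩ := col_form hv hxne
    have h := line_ineq v c (fun i => (hc i).le) (Ln v x.1 x.2) w hw
      (fun i hi => (hwm i).mp (mem_Ln.mp hi))
    have hs : ∑ i ∈ Ln v x.1 x.2, ∑ j, ∑ k, c i * c j * c k * De v i j k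
        = ((Ln v x.1 x.2).card : ℝ) * (D / (Fintype.card ι : ℝ)) := by
      rw [Finset.sum_congr rfl (fun i _ => hone i), Finset.sum_const, nsmul_eq_mul]
    rw [hs, ← hD] at h
    set r : ℝ := ((Ln v x.1 x.2).card : ℝ) with hr
    set S : ℝ := ∑ i ∈ Ln v x.1 x.2, ∑ j ∈ Ln v x.1 x.2, g i j with hS
    have h' : S * D ≤ 3 / 4 * (r * (D / (Fintype.card ι : ℝ))) ^ 2 := h
    have hr3 : (3 : ℝ) ≤ r := by
      rw [hr]; exact_mod_cast rho_ge h3 hxne
    have hS2 : S ≤ 3 / 4 * r ^ 2 * D / (Fintype.card ι : ℝ) ^ 2 := by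
      have h1 : S * D ≤ (3 / 4 * r ^ 2 * D / (Fintype.card ι : ℝ) ^ 2) * D := by
        calc S * D ≤ 3 / 4 * (r * (D / (Fintype.card ι : ℝ))) ^ 2 := h'
          _ = (3 / 4 * r ^ 2 * D / (Fintype.card ι : ℝ) ^ 2) * D := by
            field_simp
      exact le_of_mul_le_mul_right h1 hDpos
    have hq : r / (r - 1) ≤ 4 / 3 + (if (Ln v x.1 x.2).card = 3 then 1 / 6 else 0) := by
      by_cases h3' : (Ln v x.1 x.2).card = 3
      · rw [if_pos h3', hr, h3']
        norm_num
      · rw [if_neg h3', add_zero, div_le_iff₀ (by linarith)]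
        have h4 : 4 ≤ (Ln v x.1 x.2).card := by
          have := rho_ge h3 hxne
          omega
        have h4' : (4 : ℝ) ≤ r := by rw [hr]; exact_mod_cast h4
        linarith
    have hrr : 0 < r * (r - 1) := mul_pos (by linarith) (by linarith)
    calc S / (r * (r - 1)) ≤ (3 / 4 * r ^ 2 * D / (Fintype.card ι : ℝ) ^ 2) / (r * (r - 1)) :=
          div_le_div_of_nonneg_right hS2 hrr.le
      _ = (3 / 4 * D / (Fintype.card ι : ℝ) ^ 2) * (r / (r - 1)) := by
          have : r ≠ 0 := by linarith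
          have : r - 1 ≠ 0 := by linarith
          field_simp
      _ ≤ _ := by
          apply mul_le_mul_of_nonneg_left hq
          positivity
  have hsum := Finset.sum_le_sum hlin
  rw [hdc, ← Finset.mul_sum, Finset.sum_add_distrib, Finset.sum_const, nsmul_eq_mul,
    Finset.offDiag_card, Finset.card_univ] at hsum
  have hcount : ∑ x ∈ (univ : Finset ι).offDiag,
      (if (Ln v x.1 x.2).card = 3 then (1 / 6 : ℝ) else 0)
      = (1 / 6) * (Set.ncard {p : ι × ι | p.1 ≠ p.2 ∧ rho v p.1 p.2 = 3} : ℝ) := by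
    rw [← Finset.sum_filter, Finset.sum_const, nsmul_eq_mul, mul_comm]
    congr 2
    rw [← Set.ncard_coe_finset]
    congr 1
    ext p
    simp [rho_eq]
  rw [hcount] at hsum
  have hDg : ∑ i, ∑ j, g i j = D := rfl
  rw [hDg] at hsum
  set M : ℝ := (Set.ncard {p : ι × ι | p.1 ≠ p.2 ∧ rho v p.1 p.2 = 3} : ℝ) with hM
  have hle : Fintype.card ι ≤ Fintype.card ι * Fintype.card ι := Nat.le_mul_self _
  rw [Nat.cast_sub hle] at hsum
  push_cast at hsum
  set n : ℝ := (Fintype.card ι : ℝ) with hn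
  have h1 : n ^ 2 ≤ 3 / 4 * ((n * n - n) * (4 / 3) + 1 / 6 * M) := by
    have h2 : D * n ^ 2 ≤ D * (3 / 4 * ((n * n - n) * (4 / 3) + 1 / 6 * M)) := by
      have h3 : D * n ^ 2 ≤ (3 / 4 * D / n ^ 2 * ((n * n - n) * (4 / 3) + 1 / 6 * M)) * n ^ 2 :=
        mul_le_mul_of_nonneg_right hsum (by positivity)
      calc D * n ^ 2 ≤ (3 / 4 * D / n ^ 2 * ((n * n - n) * (4 / 3) + 1 / 6 * M)) * n ^ 2 := h3
        _ = D * (3 / 4 * ((n * n - n) * (4 / 3) + 1 / 6 * M)) := by
          field_simp
    exact le_of_mul_le_mul_left h2 hDpos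
  have h2 : 8 * n ≤ M := by nlinarith
  rw [hn, hM] at h2
  exact_mod_cast h2

end Pool.Agent.Lib.MP_1c7511_co
end

section

set_option autoImplicit false

namespace Pool.Agent.Lib.MP_1c7511_co

open Finset

theorem exists_third_of_ncard {α : Type*} {T : Set α} (hT : T.ncard = 3) {i j : α} (hi : i ∈ T)
    (hj : j ∈ T) (hij : i ≠ j) : ∃ l, l ≠ i ∧ l ≠ j ∧ ∀ k, k ∈ T ↔ (k = i ∨ k = j ∨ k = l) := by
  have hfin : T.Finite := Set.finite_of_ncard_ne_zero (by omega)
  have h1 : (T \ {i}).ncard = 2 := by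
    rw [Set.ncard_sdiff_singleton_of_mem hi, hT]
  have hj' : j ∈ T \ {i} := ⟨hj, fun h => hij (Set.mem_singleton_iff.mp h).symm⟩
  have h2 : ((T \ {i}) \ {j}).ncard = 1 := by
    rw [Set.ncard_sdiff_singleton_of_mem hj', h1]
  obtain ⟨l, hl⟩ := Set.ncard_eq_one.mp h2
  have hlm : l ∈ (T \ {i}) \ {j} := by rw [hl]; exact Set.mem_singleton l
  refine ⟨l, fun h => hlm.1.2 h, fun h => hlm.2 h, ?_⟩
  intro k
  constructor
  · intro hk
    by_cases hki : k = i
    · exact Or.inl hki
    by_cases hkj : k = j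
    · exact Or.inr (Or.inl hkj)
    right; right
    have : k ∈ (T \ {i}) \ {j} := ⟨⟨hk, hki⟩, hkj⟩
    rw [hl] at this
    exact this
  · rintro (rfl | rfl | rfl)
    · exact hi
    · exact hj
    · exact hlm.1.1

theorem card_filter_prod_le {α : Type*} [Fintype α] (P : α → α → Prop)
    [DecidablePred fun p : α × α => P p.1 p.2] [∀ i, DecidablePred (P i)] (c : ℕ)
    (h : ∀ i, (univ.filter (P i)).card ≤ c) :
    (univ.filter (fun p : α × α => P p.1 p.2)).card ≤ c * Fintype.card α := by
  rw [card_filter, Fintype.sum_prod_type]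
  calc ∑ i, ∑ j, (if P (i, j).1 (i, j).2 then 1 else 0)
      = ∑ i, (univ.filter (P i)).card := by
        refine sum_congr rfl (fun i _ => ?_)
        rw [card_filter]
    _ ≤ ∑ _i : α, c := sum_le_sum (fun i _ => h i)
    _ = c * Fintype.card α := by rw [sum_const, card_univ, smul_eq_mul, mul_comm]

section general
variable {ι : Type*} {v : ι → Fin 3 → ℂ}

/-- If all triples are collinear then all points are on a line. -/
theorem exists_form_of_all_col (hv : ∀ i j, i ≠ j → LinearIndependent ℂ ![v i, v j])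
    (hall : ∀ i j k, Col v i j k) : ∃ w : Fin 3 → ℂ, w ≠ 0 ∧ ∀ m, w ⬝ᵥ v m = 0 := by
  by_cases hs : ∃ i j : ι, i ≠ j
  · obtain ⟨i, j, hij⟩ := hs
    obtain ⟨w, hw, hwm⟩ := col_form hv hij
    exact ⟨w, hw, fun m => (hwm m).mp (hall i j m)⟩
  · push Not at hs
    by_cases hne : Nonempty ι
    · obtain ⟨i0⟩ := hne
      have : ∃ w : Fin 3 → ℂ, w ≠ 0 ∧ w ⬝ᵥ v i0 = 0 := by
        by_cases h0 : v i0 0 = 0
        · refine ⟨![1, 0, 0], ?_, ?_⟩
          · intro h
            have := congrFun h 0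
            simp at this
          · simp [dotProduct, Fin.sum_univ_three, h0]
        · refine ⟨![v i0 1, - v i0 0, 0], ?_, ?_⟩
          · intro h
            have := congrFun h 1
            simp at this
            exact h0 this
          · simp [dotProduct, Fin.sum_univ_three]
            ring
      obtain ⟨w, hw, hw0⟩ := this
      exact ⟨w, hw, fun m => by rw [hs m i0]; exact hw0⟩
    · refine ⟨![1, 0, 0], ?_, fun m => absurd ⟨m⟩ hne⟩
      intro h
      have := congrFun h 0
      simp at this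

end general

variable {ι : Type} [Fintype ι] [DecidableEq ι] {v : ι → Fin 3 → ℂ}

theorem line_three (h : BadConf v) {i j e : ι} (hij : i ≠ j) (hr : rho v i j = 3)
    (he : Col v i j e) : ∃ y z, e ≠ y ∧ e ≠ z ∧ y ≠ z ∧
      (∀ k, Col v e y k ↔ k = e ∨ k = y ∨ k = z) ∧ (∀ k, Col v i j k ↔ Col v e y k) := by
  have hT : ({k | Col v i j k} : Set ι).ncard = 3 := hr
  -- a point y on the line different from e
  obtain ⟨y, hy, hye⟩ : ∃ y, Col v i j y ∧ y ≠ e := by
    by_cases hei : e = i
    · exact ⟨j, col_self2 i j, fun hh => hij (hei ▸ hh.symm)⟩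
    · exact ⟨i, col_self1 i j, fun hh => hei hh.symm⟩
  obtain ⟨z, hze, hzy, hz⟩ := exists_third_of_ncard hT (i := e) (j := y) he hy hye.symm
  have hline := col_line h.indep hij hye.symm he hy
  refine ⟨y, z, hye.symm, hze.symm, hzy.symm, ?_, hline⟩
  intro k
  rw [← hline k]
  exact hz k

theorem three_lines_eq (h : BadConf v) {i j i' j' e : ι} (hij : i ≠ j) (hij' : i' ≠ j')
    (hr : rho v i j = 3) (hr' : rho v i' j' = 3) (he : Col v i j e) (he' : Col v i' j' e) :
    ∀ k, Col v i j k ↔ Col v i' j' k := by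
  obtain ⟨y, z, hey, hez, hyz, hl, hl2⟩ := line_three h hij hr he
  obtain ⟨y', z', hey', hez', hyz', hl', hl2'⟩ := line_three h hij' hr' he'
  by_cases hc : Col v e y y'
  · have := col_line h.indep hey hey' (col_self1 e y) hc
    intro k
    rw [hl2, this k, ← hl2' k]
  · exact absurd (no_two_three h hey hez hyz hey' hez' hyz' hl hl' hc) id

theorem three_meets_two (h : BadConf v) {i j d e : ι} (hij : i ≠ j) (hr : rho v i j = 3)
    (hde : d ≠ e) (h2 : ∀ k, Col v d e k → k = d ∨ k = e) : Col v i j d ∨ Col v i j e := by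
  by_contra hcon
  push Not at hcon
  obtain ⟨y, z, hey, hez, hyz, hl, hl2⟩ := line_three h hij hr (col_self1 i j)
  refine no_three_two h hey hez hyz hde hl (fun k => ⟨h2 k, ?_⟩) ?_ ?_
  · rintro (rfl | rfl)
    · exact col_self1 _ _
    · exact col_self2 _ _
  · rw [← hl2]; exact hcon.1
  · rw [← hl2]; exact hcon.2

theorem not_all_col (h : BadConf v) : ∃ i j k, ¬ Col v i j k := by
  by_contra hcon
  push Not at hcon
  obtain ⟨w, hw, hwm⟩ := exists_form_of_all_col h.indep hcon
  exact not_two_lines h w w hw hw (fun i => Or.inl (hwm i))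

/-- A bad family has a two-point line. -/
theorem exists_two (h : BadConf v) : ∃ a b : ι, a ≠ b ∧ ∀ k, Col v a b k → k = a ∨ k = b := by
  classical
  by_contra hcon
  push Not at hcon
  have h3 : ∀ i j, i ≠ j → ∃ k, k ≠ i ∧ k ≠ j ∧ Col v i j k := by
    intro i j hij
    obtain ⟨k, hk, hki, hkj⟩ := hcon i j hij
    exact ⟨k, hki, hkj, hk⟩
  have hL := langer v h.indep (not_all_col h) h3
  have hN : 0 < Fintype.card ι := by
    obtain ⟨i, -, -, -⟩ := not_all_col h
    exact Fintype.card_pos_iff.mpr ⟨i⟩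
  have hU : Set.ncard {p : ι × ι | p.1 ≠ p.2 ∧ rho v p.1 p.2 = 3} ≤ 2 * Fintype.card ι := by
    rw [Set.ncard_eq_toFinset_card', Set.toFinset_ofPred]
    apply card_filter_prod_le (fun i j => i ≠ j ∧ rho v i j = 3)
    intro i
    by_cases hne : (univ.filter (fun j => i ≠ j ∧ rho v i j = 3)).Nonempty
    · obtain ⟨j0, hj0⟩ := hne
      rw [mem_filter] at hj0
      obtain ⟨-, hij0, hr0⟩ := hj0
      obtain ⟨l, hli, hlj, hl⟩ := exists_third_of_ncard (T := {k | Col v i j0 k}) hr0
        (i := i) (j := j0) (col_self1 i j0) (col_self2 i j0) hij0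
      have hsub : univ.filter (fun j => i ≠ j ∧ rho v i j = 3) ⊆ {j0, l} := by
        intro j hj
        rw [mem_filter] at hj
        obtain ⟨-, hij, hr⟩ := hj
        have heq := three_lines_eq h hij0 hij hr0 hr (col_self1 i j0) (col_self1 i j)
        have hc : Col v i j0 j := (heq j).mpr (col_self2 i j)
        rcases (hl j).mp hc with hh | hh | hh
        · exact absurd hh.symm hij
        · simp [hh]
        · simp [hh]
      exact (card_le_card hsub).trans (card_le_two)
    · rw [not_nonempty_iff_eq_empty.mp hne]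
      simp
  omega

/-- A bad family has no three-point line. -/
theorem no_three (h : BadConf v) {a b : ι} (hab : a ≠ b) : rho v a b ≠ 3 := by
  classical
  intro hr
  obtain ⟨c, hca, hcb, hc⟩ := exists_third_of_ncard (T := {k | Col v a b k}) hr
    (i := a) (j := b) (col_self1 a b) (col_self2 a b) hab
  have hc' : ∀ k, Col v a b k ↔ (k = a ∨ k = b ∨ k = c) := hc
  let S : Type := {i : ι // ¬ Col v a b i}
  let v' : S → Fin 3 → ℂ := fun i => v i.1
  have hv' : ∀ i j : S, i ≠ j → LinearIndependent ℂ ![v' i, v' j] := fun i j hij =>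
    h.indep i.1 j.1 (fun hh => hij (Subtype.ext hh))
  -- two lines meet at most once
  have hmeet : ∀ i j : S, i ≠ j → ∀ x y, Col v a b x → Col v a b y → Col v i.1 j.1 x →
      Col v i.1 j.1 y → x = y := by
    intro i j hij x y hx hy hx' hy'
    by_contra hxy
    have hij' : i.1 ≠ j.1 := fun hh => hij (Subtype.ext hh)
    have e1 := col_line h.indep hij' hxy hx' hy'
    have e2 := col_line h.indep hab hxy hx hy
    exact i.2 ((e2 i.1).mpr ((e1 i.1).mp (col_self1 i.1 j.1)))
  have hspan' : ∃ i j k : S, ¬ Col v' i j k := by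
    by_contra hcon
    push Not at hcon
    obtain ⟨w', hw', hwm'⟩ := exists_form_of_all_col hv' hcon
    obtain ⟨w, hw, hwm⟩ := col_form h.indep hab
    refine not_two_lines h w w' hw hw' (fun i => ?_)
    by_cases hi : Col v a b i
    · exact Or.inl ((hwm i).mp hi)
    · exact Or.inr (hwm' ⟨i, hi⟩)
  have h3' : ∀ i j : S, i ≠ j → ∃ k : S, k ≠ i ∧ k ≠ j ∧ Col v' i j k := by
    intro i j hij
    have hij' : i.1 ≠ j.1 := fun hh => hij (Subtype.ext hh)
    by_contra hcon
    push Not at hcon
    have hout : ∀ k, Col v i.1 j.1 k → k ≠ i.1 → k ≠ j.1 → Col v a b k := by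
      intro k hk hki hkj
      by_contra hkS
      exact hcon ⟨k, hkS⟩ (fun hh => hki (congrArg Subtype.val hh))
        (fun hh => hkj (congrArg Subtype.val hh)) hk
    by_cases hx : ∃ x, Col v a b x ∧ Col v i.1 j.1 x
    · obtain ⟨x, hxab, hxij⟩ := hx
      have hxi : x ≠ i.1 := fun hh => i.2 (hh ▸ hxab)
      have hxj : x ≠ j.1 := fun hh => j.2 (hh ▸ hxab)
      have hset : ({k | Col v i.1 j.1 k} : Set ι) = {i.1, j.1, x} := by
        ext k
        simp only [Set.mem_ofPred_eq, Set.mem_insert_iff, Set.mem_singleton_iff]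
        constructor
        · intro hk
          by_cases hki : k = i.1
          · exact Or.inl hki
          by_cases hkj : k = j.1
          · exact Or.inr (Or.inl hkj)
          exact Or.inr (Or.inr (hmeet i j hij k x (hout k hk hki hkj) hxab hk hxij))
        · rintro (rfl | rfl | rfl)
          · exact col_self1 _ _
          · exact col_self2 _ _
          · exact hxij
      have hr3 : rho v i.1 j.1 = 3 := by
        unfold rho
        rw [hset]
        exact Set.ncard_eq_three.mpr ⟨i.1, j.1, x, hij', hxi.symm, hxj.symm, rfl⟩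
      have := three_lines_eq h hab hij' hr hr3 hxab hxij
      exact i.2 ((this i.1).mpr (col_self1 _ _))
    · push Not at hx
      have h2 : ∀ k, Col v i.1 j.1 k → k = i.1 ∨ k = j.1 := by
        intro k hk
        by_contra hcon2
        push Not at hcon2
        exact hx k (hout k hk hcon2.1 hcon2.2) hk
      rcases three_meets_two h hab hr hij' h2 with hh | hh
      · exact i.2 hh
      · exact j.2 hh
  have hL := langer v' hv' hspan' h3'
  -- at least four points
  have h4 : 4 ≤ Fintype.card S := by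
    obtain ⟨i, j, k, hijk⟩ := hspan'
    have hij : i ≠ j := by
      rintro rfl
      exact hijk (col_self3 i k)
    have hik : i ≠ k := by
      rintro rfl
      exact hijk (col_self1 i j)
    have hjk : j ≠ k := by
      rintro rfl
      exact hijk (col_self2 i j)
    obtain ⟨l, hli, hlj, hl⟩ := h3' i j hij
    have hlk : l ≠ k := by
      rintro rfl
      exact hijk hl
    have hcard : ({i, j, k, l} : Finset S).card = 4 := by
      rw [card_insert_of_notMem, card_insert_of_notMem, card_insert_of_notMem, card_singleton]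
      · simp only [mem_singleton]; exact hlk.symm
      · simp only [mem_insert, mem_singleton, not_or]; exact ⟨hjk, hlj.symm⟩
      · simp only [mem_insert, mem_singleton, not_or]; exact ⟨hij, hik, hli.symm⟩
    rw [← hcard]
    exact card_le_univ _
  -- upper bound
  let NN : Finset (S × S) := univ.filter (fun p => p.1 ≠ p.2 ∧ rho v' p.1 p.2 = 3)
  let Nx : ι → Finset (S × S) := fun x => univ.filter (fun p =>
    p.1 ≠ p.2 ∧ rho v' p.1 p.2 = 3 ∧ Col v p.1.1 p.2.1 x)
  let NB : Finset (S × S) := univ.filter (fun p =>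
    p.1 ≠ p.2 ∧ rho v' p.1 p.2 = 3 ∧ ∀ x, Col v a b x → ¬ Col v p.1.1 p.2.1 x)
  have hNx : ∀ x, Col v a b x → (Nx x).card ≤ 2 * Fintype.card S := by
    intro x hx
    apply card_filter_prod_le (fun i j : S => i ≠ j ∧ rho v' i j = 3 ∧ Col v i.1 j.1 x)
    intro i
    by_cases hne : (univ.filter (fun j : S => i ≠ j ∧ rho v' i j = 3 ∧ Col v i.1 j.1 x)).Nonempty
    · obtain ⟨j0, hj0⟩ := hne
      rw [mem_filter] at hj0
      obtain ⟨-, hij0, hr0, hx0⟩ := hj0
      obtain ⟨l, hli, hlj, hl⟩ := exists_third_of_ncard (T := {k : S | Col v' i j0 k}) hr0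
        (i := i) (j := j0) (col_self1 i j0) (col_self2 i j0) hij0
      have hxi : i.1 ≠ x := fun hh => i.2 (hh ▸ hx)
      have hij0' : i.1 ≠ j0.1 := fun hh => hij0 (Subtype.ext hh)
      have hsub : univ.filter (fun j : S => i ≠ j ∧ rho v' i j = 3 ∧ Col v i.1 j.1 x)
          ⊆ {j0, l} := by
        intro j hj
        rw [mem_filter] at hj
        obtain ⟨-, hij, hr1, hx1⟩ := hj
        have hij' : i.1 ≠ j.1 := fun hh => hij (Subtype.ext hh)
        have e0 := col_line h.indep hij0' hxi (col_self1 _ _) hx0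
        have e1 := col_line h.indep hij' hxi (col_self1 _ _) hx1
        have hc1 : Col v i.1 j0.1 j.1 := (e0 j.1).mpr ((e1 j.1).mp (col_self2 _ _))
        rcases (hl j).mp hc1 with hh | hh | hh
        · exact absurd hh.symm hij
        · simp [hh]
        · simp [hh]
      exact (card_le_card hsub).trans (card_le_two)
    · rw [not_nonempty_iff_eq_empty.mp hne]
      simp
  have hrho : ∀ i j : S, rho v' i j = 3 → (∀ x, Col v a b x → ¬ Col v i.1 j.1 x) →
      rho v i.1 j.1 = 3 := by
    intro i j hr0 hdis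
    have himg : ({k | Col v i.1 j.1 k} : Set ι) = Subtype.val '' {k : S | Col v' i j k} := by
      ext k
      constructor
      · intro hk
        have hkS : ¬ Col v a b k := fun hh => hdis k hh hk
        exact ⟨⟨k, hkS⟩, hk, rfl⟩
      · rintro ⟨k', hk', rfl⟩
        exact hk'
    unfold rho
    rw [himg, Set.ncard_image_of_injective _ Subtype.val_injective]
    exact hr0
  have hNB : NB.card ≤ 6 := by
    by_cases hne : NB.Nonempty
    · obtain ⟨⟨i0, j0⟩, hp0⟩ := hne
      rw [mem_filter] at hp0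
      obtain ⟨-, hij0, hr0, hdis0⟩ := hp0
      simp only at hij0 hr0 hdis0
      have hij0' : i0.1 ≠ j0.1 := fun hh => hij0 (Subtype.ext hh)
      have hR0 := hrho i0 j0 hr0 hdis0
      obtain ⟨l, hli, hlj, hl⟩ := exists_third_of_ncard (T := {k : S | Col v' i0 j0 k}) hr0
        (i := i0) (j := j0) (col_self1 i0 j0) (col_self2 i0 j0) hij0
      obtain ⟨d, e, hde, h2⟩ := exists_two h
      have hsub : NB ⊆ ({i0, j0, l} : Finset S).offDiag := by
        rintro ⟨i, j⟩ hp
        rw [mem_filter] at hp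
        obtain ⟨-, hij, hr1, hdis1⟩ := hp
        simp only at hij hr1 hdis1
        have hij' : i.1 ≠ j.1 := fun hh => hij (Subtype.ext hh)
        have hR1 := hrho i j hr1 hdis1
        have heq : ∀ k, Col v i0.1 j0.1 k ↔ Col v i.1 j.1 k := by
          rcases three_meets_two h hab hr hde h2 with hd | he
          · have c0 : Col v i0.1 j0.1 e := by
              rcases three_meets_two h hij0' hR0 hde h2 with hh | hh
              · exact absurd hh (hdis0 d hd)
              · exact hh
            have c1 : Col v i.1 j.1 e := by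
              rcases three_meets_two h hij' hR1 hde h2 with hh | hh
              · exact absurd hh (hdis1 d hd)
              · exact hh
            exact three_lines_eq h hij0' hij' hR0 hR1 c0 c1
          · have c0 : Col v i0.1 j0.1 d := by
              rcases three_meets_two h hij0' hR0 hde h2 with hh | hh
              · exact hh
              · exact absurd hh (hdis0 e he)
            have c1 : Col v i.1 j.1 d := by
              rcases three_meets_two h hij' hR1 hde h2 with hh | hh
              · exact hh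
              · exact absurd hh (hdis1 e he)
            exact three_lines_eq h hij0' hij' hR0 hR1 c0 c1
        rw [mem_offDiag]
        refine ⟨?_, ?_, hij⟩
        · have : Col v' i0 j0 i := (heq i.1).mpr (col_self1 _ _)
          simpa using (hl i).mp this
        · have : Col v' i0 j0 j := (heq j.1).mpr (col_self2 _ _)
          simpa using (hl j).mp this
      refine (card_le_card hsub).trans ?_
      rw [offDiag_card]
      have h3c : ({i0, j0, l} : Finset S).card = 3 := by
        rw [card_insert_of_notMem, card_insert_of_notMem, card_singleton]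
        · simp only [mem_singleton]; exact hlj.symm
        · simp only [mem_insert, mem_singleton, not_or]; exact ⟨hij0, hli.symm⟩
      rw [h3c]
    · rw [not_nonempty_iff_eq_empty.mp hne]
      simp
  have hsubN : NN ⊆ (Nx a ∪ (Nx b ∪ Nx c)) ∪ NB := by
    rintro ⟨i, j⟩ hp
    rw [mem_filter] at hp
    obtain ⟨-, hij, hr1⟩ := hp
    by_cases hx : ∃ x, Col v a b x ∧ Col v i.1 j.1 x
    · obtain ⟨x, hx1, hx2⟩ := hx
      rw [mem_union]
      left
      rcases (hc' x).mp hx1 with rfl | rfl | rfl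
      · exact mem_union_left _ (mem_filter.mpr ⟨mem_univ _, hij, hr1, hx2⟩)
      · exact mem_union_right _ (mem_union_left _ (mem_filter.mpr ⟨mem_univ _, hij, hr1, hx2⟩))
      · exact mem_union_right _ (mem_union_right _ (mem_filter.mpr ⟨mem_univ _, hij, hr1, hx2⟩))
    · push Not at hx
      exact mem_union_right _ (mem_filter.mpr ⟨mem_univ _, hij, hr1, hx⟩)
  have hNNcard : NN.card ≤ 6 * Fintype.card S + 6 := by
    have e1 := card_le_card hsubN
    have e2 := card_union_le (Nx a ∪ (Nx b ∪ Nx c)) NB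
    have e3 := card_union_le (Nx a) (Nx b ∪ Nx c)
    have e4 := card_union_le (Nx b) (Nx c)
    have ea := hNx a ((hc' a).mpr (Or.inl rfl))
    have eb := hNx b ((hc' b).mpr (Or.inr (Or.inl rfl)))
    have ec := hNx c ((hc' c).mpr (Or.inr (Or.inr rfl)))
    omega
  have hLN : Set.ncard {p : S × S | p.1 ≠ p.2 ∧ rho v' p.1 p.2 = 3} = NN.card := by
    rw [Set.ncard_eq_toFinset_card', Set.toFinset_ofPred]
  rw [hLN] at hL
  omega

end Pool.Agent.Lib.MP_1c7511_co
end
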