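import Mathlib
import Pool.Agent.Lib.MP_1c7511_co.Defs

section

set_option autoImplicit false

namespace Pool.Agent.Lib.MP_1c7511_co

open Finset

/-- expansion of the quadratic expression of an additive matrix -/
theorem additive_expand {ι κ : Type*} (R : Finset ι) (C : Finset κ) (f : κ → ℝ) (g : ι → ℝ) :
    (∑ i ∈ R, (∑ j ∈ C, (f j + g i)) ^ 2) + (∑ j ∈ C, (∑ i ∈ R, (f j + g i)) ^ 2)
      - ∑ i ∈ R, ∑ j ∈ C, (f j + g i) ^ 2
    = (R.card : ℝ) * (R.card - 1) * (∑ j ∈ C, f j ^ 2)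
      + (C.card : ℝ) * (C.card - 1) * (∑ i ∈ R, g i ^ 2)
      + R.card * (∑ j ∈ C, f j) ^ 2 + C.card * (∑ i ∈ R, g i) ^ 2
      + 2 * ((R.card : ℝ) + C.card - 1) * (∑ j ∈ C, f j) * (∑ i ∈ R, g i) := by
  obtain ⟨F, hF⟩ : ∃ F, F = ∑ j ∈ C, f j := ⟨_, rfl⟩
  obtain ⟨G, hG⟩ : ∃ G, G = ∑ i ∈ R, g i := ⟨_, rfl⟩
  have h1 : ∑ i ∈ R, (∑ j ∈ C, (f j + g i)) ^ 2
      = R.card * F ^ 2 + 2 * C.card * F * G + (C.card : ℝ) ^ 2 * ∑ i ∈ R, g i ^ 2 := by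
    have e : ∀ i, (∑ j ∈ C, (f j + g i)) ^ 2
        = F ^ 2 + (2 * C.card * F) * g i + (C.card : ℝ) ^ 2 * g i ^ 2 := by
      intro i
      rw [sum_add_distrib, sum_const, nsmul_eq_mul, ← hF]; ring
    simp only [e]
    rw [sum_add_distrib, sum_add_distrib, sum_const, nsmul_eq_mul, ← mul_sum, ← mul_sum, ← hG]
  have h2 : ∑ j ∈ C, (∑ i ∈ R, (f j + g i)) ^ 2
      = (R.card : ℝ) ^ 2 * (∑ j ∈ C, f j ^ 2) + 2 * R.card * F * G + C.card * G ^ 2 := by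
    have e : ∀ j, (∑ i ∈ R, (f j + g i)) ^ 2
        = (R.card : ℝ) ^ 2 * f j ^ 2 + (2 * R.card * G) * f j + G ^ 2 := by
      intro j
      rw [sum_add_distrib, sum_const, nsmul_eq_mul, ← hG]; ring
    simp only [e]
    rw [sum_add_distrib, sum_add_distrib, sum_const, nsmul_eq_mul, ← mul_sum, ← mul_sum, ← hF]
    ring
  have h3 : ∑ i ∈ R, ∑ j ∈ C, (f j + g i) ^ 2
      = R.card * (∑ j ∈ C, f j ^ 2) + 2 * F * G + C.card * ∑ i ∈ R, g i ^ 2 := by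
    have e : ∀ i, ∑ j ∈ C, (f j + g i) ^ 2
        = (∑ j ∈ C, f j ^ 2) + (2 * F) * g i + C.card * g i ^ 2 := by
      intro i
      have e' : ∀ j, (f j + g i) ^ 2 = f j ^ 2 + f j * (2 * g i) + g i ^ 2 := fun j => by ring
      simp only [e']
      rw [sum_add_distrib, sum_add_distrib, sum_const, nsmul_eq_mul, ← sum_mul, ← hF]
      ring
    simp only [e]
    rw [sum_add_distrib, sum_add_distrib, sum_const, nsmul_eq_mul, ← mul_sum, ← mul_sum, ← hG]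
  rw [h1, h2, h3, ← hF, ← hG]
  ring

theorem sum_sq_gap {κ : Type*} (C : Finset κ) (f : κ → ℝ) :
    ∑ j ∈ C, (C.card * f j - ∑ k ∈ C, f k) ^ 2
      = C.card * (C.card * (∑ j ∈ C, f j ^ 2) - (∑ j ∈ C, f j) ^ 2) := by
  obtain ⟨F, hF⟩ : ∃ F, F = ∑ j ∈ C, f j := ⟨_, rfl⟩
  rw [← hF]
  have e : ∀ j, (C.card * f j - F) ^ 2
      = (C.card : ℝ) ^ 2 * f j ^ 2 + (-2 * C.card * F) * f j + F ^ 2 := fun j => by ring
  simp only [e]
  rw [sum_add_distrib, sum_add_distrib, sum_const, nsmul_eq_mul, ← mul_sum, ← mul_sum, ← hF]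
  ring

theorem gap_nonneg {κ : Type*} (C : Finset κ) (f : κ → ℝ) :
    0 ≤ C.card * (∑ j ∈ C, f j ^ 2) - (∑ j ∈ C, f j) ^ 2 := by
  rcases C.eq_empty_or_nonempty with rfl | hC
  · simp
  · have h1 := sum_sq_gap C f
    have h2 : 0 ≤ ∑ j ∈ C, (C.card * f j - ∑ k ∈ C, f k) ^ 2 := sum_nonneg fun j _ => sq_nonneg _
    rw [h1] at h2
    have h3 : (0 : ℝ) < C.card := by exact_mod_cast hC.card_pos
    exact nonneg_of_mul_nonneg_right h2 h3

/-- the key identity -/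
theorem additive_key {ι κ : Type*} (R : Finset ι) (C : Finset κ) (f : κ → ℝ) (g : ι → ℝ) :
    (R.card : ℝ) * C.card * ((∑ i ∈ R, (∑ j ∈ C, (f j + g i)) ^ 2)
        + (∑ j ∈ C, (∑ i ∈ R, (f j + g i)) ^ 2) - ∑ i ∈ R, ∑ j ∈ C, (f j + g i) ^ 2)
      = ((R.card : ℝ) + C.card - 1)
          * (R.card * (∑ j ∈ C, f j) + C.card * ∑ i ∈ R, g i) ^ 2
        + (R.card : ℝ) ^ 2 * (R.card - 1)
          * (C.card * (∑ j ∈ C, f j ^ 2) - (∑ j ∈ C, f j) ^ 2)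
        + (C.card : ℝ) ^ 2 * (C.card - 1)
          * (R.card * (∑ i ∈ R, g i ^ 2) - (∑ i ∈ R, g i) ^ 2) := by
  rw [additive_expand]
  ring

theorem additive_nonneg {ι κ : Type*} (R : Finset ι) (C : Finset κ) (f : κ → ℝ) (g : ι → ℝ) :
    0 ≤ (∑ i ∈ R, (∑ j ∈ C, (f j + g i)) ^ 2) + (∑ j ∈ C, (∑ i ∈ R, (f j + g i)) ^ 2)
      - ∑ i ∈ R, ∑ j ∈ C, (f j + g i) ^ 2 := by
  rcases R.eq_empty_or_nonempty with rfl | hR
  · simp
  rcases C.eq_empty_or_nonempty with rfl | hC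
  · simp
  have hR1 : (1 : ℝ) ≤ R.card := by exact_mod_cast hR.card_pos
  have hC1 : (1 : ℝ) ≤ C.card := by exact_mod_cast hC.card_pos
  have h1 := additive_key R C f g
  have h2 := gap_nonneg C f
  have h3 := gap_nonneg R g
  have hpos : (0 : ℝ) < (R.card : ℝ) * C.card := by positivity
  have h4 : 0 ≤ ((R.card : ℝ) + C.card - 1)
      * (R.card * (∑ j ∈ C, f j) + C.card * ∑ i ∈ R, g i) ^ 2 :=
    mul_nonneg (by linarith) (sq_nonneg _)
  have h5 : 0 ≤ (R.card : ℝ) ^ 2 * (R.card - 1)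
      * (C.card * (∑ j ∈ C, f j ^ 2) - (∑ j ∈ C, f j) ^ 2) :=
    mul_nonneg (mul_nonneg (sq_nonneg _) (by linarith)) h2
  have h6 : 0 ≤ (C.card : ℝ) ^ 2 * (C.card - 1)
      * (R.card * (∑ i ∈ R, g i ^ 2) - (∑ i ∈ R, g i) ^ 2) :=
    mul_nonneg (mul_nonneg (sq_nonneg _) (by linarith)) h3
  by_contra hcon
  push Not at hcon
  have h7 := mul_neg_of_pos_of_neg hpos hcon
  rw [h1] at h7
  linarith

theorem additive_eq_zero {ι κ : Type*} (R : Finset ι) (C : Finset κ) (f : κ → ℝ) (g : ι → ℝ)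
    (h : (∑ i ∈ R, (∑ j ∈ C, (f j + g i)) ^ 2) + (∑ j ∈ C, (∑ i ∈ R, (f j + g i)) ^ 2)
      - ∑ i ∈ R, ∑ j ∈ C, (f j + g i) ^ 2 = 0) :
    (∑ i ∈ R, ∑ j ∈ C, (f j + g i) = 0) ∧
      (2 ≤ R.card → 2 ≤ C.card → ∀ i ∈ R, ∀ j ∈ C, f j + g i = 0) := by
  rcases R.eq_empty_or_nonempty with rfl | hR
  · simp
  rcases C.eq_empty_or_nonempty with rfl | hC
  · simp
  have hR1 : (1 : ℝ) ≤ R.card := by exact_mod_cast hR.card_pos
  have hC1 : (1 : ℝ) ≤ C.card := by exact_mod_cast hC.card_pos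
  have h1 := additive_key R C f g
  rw [h, mul_zero] at h1
  have h2 := gap_nonneg C f
  have h3 := gap_nonneg R g
  have h4 : 0 ≤ ((R.card : ℝ) + C.card - 1)
      * (R.card * (∑ j ∈ C, f j) + C.card * ∑ i ∈ R, g i) ^ 2 :=
    mul_nonneg (by linarith) (sq_nonneg _)
  have h5 : 0 ≤ (R.card : ℝ) ^ 2 * (R.card - 1)
      * (C.card * (∑ j ∈ C, f j ^ 2) - (∑ j ∈ C, f j) ^ 2) :=
    mul_nonneg (mul_nonneg (sq_nonneg _) (by linarith)) h2
  have h6 : 0 ≤ (C.card : ℝ) ^ 2 * (C.card - 1)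
      * (R.card * (∑ i ∈ R, g i ^ 2) - (∑ i ∈ R, g i) ^ 2) :=
    mul_nonneg (mul_nonneg (sq_nonneg _) (by linarith)) h3
  have h4' : ((R.card : ℝ) + C.card - 1)
      * (R.card * (∑ j ∈ C, f j) + C.card * ∑ i ∈ R, g i) ^ 2 = 0 := by linarith
  have h5' : (R.card : ℝ) ^ 2 * (R.card - 1)
      * (C.card * (∑ j ∈ C, f j ^ 2) - (∑ j ∈ C, f j) ^ 2) = 0 := by linarith
  have h6' : (C.card : ℝ) ^ 2 * (C.card - 1)
      * (R.card * (∑ i ∈ R, g i ^ 2) - (∑ i ∈ R, g i) ^ 2) = 0 := by linarith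
  have hsum : R.card * (∑ j ∈ C, f j) + C.card * ∑ i ∈ R, g i = 0 := by
    have h7 : ((R.card : ℝ) + C.card - 1) ≠ 0 := by linarith
    exact pow_eq_zero_iff two_ne_zero |>.mp ((mul_eq_zero.mp h4').resolve_left h7)
  constructor
  · have e : ∀ i, ∑ j ∈ C, (f j + g i) = (∑ j ∈ C, f j) + C.card * g i := by
      intro i; rw [sum_add_distrib, sum_const, nsmul_eq_mul]
    simp only [e]
    rw [sum_add_distrib, sum_const, nsmul_eq_mul, ← mul_sum]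
    exact hsum
  · intro hR2 hC2 i hi j hj
    have hR2' : (2 : ℝ) ≤ R.card := by exact_mod_cast hR2
    have hC2' : (2 : ℝ) ≤ C.card := by exact_mod_cast hC2
    have h7 : C.card * (∑ j ∈ C, f j ^ 2) - (∑ j ∈ C, f j) ^ 2 = 0 := by
      have : (R.card : ℝ) ^ 2 * (R.card - 1) ≠ 0 := by
        have : (0 : ℝ) < (R.card : ℝ) ^ 2 * (R.card - 1) := mul_pos (pow_pos (by linarith) 2) (by linarith)
        exact this.ne'
      exact (mul_eq_zero.mp h5').resolve_left this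
    have h8 : R.card * (∑ i ∈ R, g i ^ 2) - (∑ i ∈ R, g i) ^ 2 = 0 := by
      have : (C.card : ℝ) ^ 2 * (C.card - 1) ≠ 0 := by
        have : (0 : ℝ) < (C.card : ℝ) ^ 2 * (C.card - 1) := mul_pos (pow_pos (by linarith) 2) (by linarith)
        exact this.ne'
      exact (mul_eq_zero.mp h6').resolve_left this
    have h9 := sum_sq_gap C f
    rw [h7, mul_zero] at h9
    have h10 := (sum_eq_zero_iff_of_nonneg fun j _ => sq_nonneg _).mp h9 j hj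
    have h11 := sum_sq_gap R g
    rw [h8, mul_zero] at h11
    have h12 := (sum_eq_zero_iff_of_nonneg fun j _ => sq_nonneg _).mp h11 i hi
    have h13 : C.card * f j = ∑ k ∈ C, f k := by
      have := pow_eq_zero_iff two_ne_zero |>.mp h10
      linarith
    have h14 : R.card * g i = ∑ k ∈ R, g k := by
      have := pow_eq_zero_iff two_ne_zero |>.mp h12
      linarith
    have h15 : (R.card : ℝ) * C.card * (f j + g i) = 0 := by
      rw [← h13, ← h14] at hsum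
      linarith
    have h16 : (R.card : ℝ) * C.card ≠ 0 := (mul_pos (by linarith) (by linarith) : (0 : ℝ) < (R.card : ℝ) * C.card).ne'
    exact (mul_eq_zero.mp h15).resolve_left h16

end Pool.Agent.Lib.MP_1c7511_co
end

section

set_option autoImplicit false

namespace Pool.Agent.Lib.MP_1c7511_co

open Finset

namespace Block

/-- Coefficients of the (1,1)-form through three points. -/
noncomputable def cA (p q r : ℂ × ℂ) : ℂ :=
  (p.1 - q.1) * (p.2 - r.2) - (p.1 - r.1) * (p.2 - q.2)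
noncomputable def cB (p q r : ℂ × ℂ) : ℂ :=
  -((p.1 - q.1) * (p.2 - r.2) * q.2) + (p.1 - r.1) * (p.2 - q.2) * r.2
noncomputable def cC (p q r : ℂ × ℂ) : ℂ :=
  -((p.1 - q.1) * (p.2 - r.2) * r.1) + (p.1 - r.1) * (p.2 - q.2) * q.1
noncomputable def cD (p q r : ℂ × ℂ) : ℂ :=
  (p.1 - q.1) * (p.2 - r.2) * r.1 * q.2 - (p.1 - r.1) * (p.2 - q.2) * q.1 * r.2

/-- The (1,1)-form through three points. -/
noncomputable def E (p q r s : ℂ × ℂ) : ℂ :=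
  ev (cA p q r) (cB p q r) (cC p q r) (cD p q r) s

lemma E1 (p q r : ℂ × ℂ) : E p q r p = 0 := by
  unfold E ev cA cB cC cD; ring
lemma E2 (p q r : ℂ × ℂ) : E p q r q = 0 := by
  unfold E ev cA cB cC cD; ring
lemma E3 (p q r : ℂ × ℂ) : E p q r r = 0 := by
  unfold E ev cA cB cC cD; ring

lemma det_ne {p q r : ℂ × ℂ} (h1 : Gen p q) (h2 : Gen p r) (h3 : Gen q r) :
    cA p q r * cD p q r - cB p q r * cC p q r ≠ 0 := by
  have h : cA p q r * cD p q r - cB p q r * cC p q r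
      = (p.1 - q.1) * (p.2 - r.2) * ((p.1 - r.1) * (p.2 - q.2))
        * ((q.1 - r.1) * (q.2 - r.2)) := by
    unfold cA cB cC cD; ring
  rw [h]
  have e1 := sub_ne_zero.mpr h1.1
  have e2 := sub_ne_zero.mpr h1.2
  have e3 := sub_ne_zero.mpr h2.1
  have e4 := sub_ne_zero.mpr h2.2
  have e5 := sub_ne_zero.mpr h3.1
  have e6 := sub_ne_zero.mpr h3.2
  positivity

/-- On a nondegenerate curve the denominator does not vanish. -/
lemma den_ne {A B C D : ℂ} (hd : A * D - B * C ≠ 0) {s : ℂ × ℂ} (hs : ev A B C D s = 0) :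
    A * s.1 + C ≠ 0 := by
  intro h
  apply hd
  have h2 : B * s.1 + D = 0 := by
    have : ev A B C D s = (A * s.1 + C) * s.2 + (B * s.1 + D) := by unfold ev; ring
    rw [this, h] at hs
    simpa using hs
  have hC : C = - (A * s.1) := by linear_combination h
  have hD : D = - (B * s.1) := by linear_combination h2
  rw [hC, hD]; ring

lemma y_sub {A B C D : ℂ} {s t : ℂ × ℂ} (hs : ev A B C D s = 0) (ht : ev A B C D t = 0) :
    (s.2 - t.2) * ((A * s.1 + C) * (A * t.1 + C)) = (A * D - B * C) * (s.1 - t.1) := by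
  unfold ev at hs ht
  linear_combination (A * t.1 + C) * hs - (A * s.1 + C) * ht

/-- Different points of a nondegenerate curve are generic to each other. -/
lemma gen_of_ne {A B C D : ℂ} (hd : A * D - B * C ≠ 0) {s t : ℂ × ℂ} (hs : ev A B C D s = 0)
    (ht : ev A B C D t = 0) (hst : s ≠ t) : Gen s t := by
  have h := y_sub hs ht
  have d1 := den_ne hd hs
  have d2 := den_ne hd ht
  have hx : s.1 ≠ t.1 := by
    intro hx
    rw [hx, sub_self, mul_zero] at h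
    have h2 : s.2 - t.2 = 0 := by
      rcases mul_eq_zero.mp h with h | h
      · exact h
      · rw [← hx] at h
        rw [← hx] at d2
        exact absurd h (mul_ne_zero d2 d2)
    exact hst (Prod.ext hx (sub_eq_zero.mp h2))
  refine ⟨hx, ?_⟩
  intro hy
  rw [hy, sub_self, zero_mul] at h
  exact mul_ne_zero hd (sub_ne_zero.mpr hx) h.symm

/-- A quadratic polynomial with three zeros vanishes. -/
lemma quad_zero {a b c x y z : ℂ} (hxy : x ≠ y) (hxz : x ≠ z) (hyz : y ≠ z)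
    (h1 : a * x ^ 2 + b * x + c = 0) (h2 : a * y ^ 2 + b * y + c = 0)
    (h3 : a * z ^ 2 + b * z + c = 0) : a = 0 ∧ b = 0 ∧ c = 0 := by
  have e1 : a * (x + y) + b = 0 := by
    have : (x - y) * (a * (x + y) + b) = 0 := by linear_combination h1 - h2
    exact (mul_eq_zero.mp this).resolve_left (sub_ne_zero.mpr hxy)
  have e2 : a * (x + z) + b = 0 := by
    have : (x - z) * (a * (x + z) + b) = 0 := by linear_combination h1 - h3
    exact (mul_eq_zero.mp this).resolve_left (sub_ne_zero.mpr hxz)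
  have ha : a = 0 := by
    have : a * (y - z) = 0 := by linear_combination e1 - e2
    exact (mul_eq_zero.mp this).resolve_right (sub_ne_zero.mpr hyz)
  subst ha
  have hb : b = 0 := by simpa using e1
  subst hb
  exact ⟨rfl, rfl, by simpa using h1⟩

/-- A nondegenerate curve is determined by three of its points. -/
lemma same_zero {A B C D A' B' C' D' : ℂ} (hd : A * D - B * C ≠ 0) {p q r : ℂ × ℂ}
    (hpq : p ≠ q) (hpr : p ≠ r) (hqr : q ≠ r)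
    (h1 : ev A B C D p = 0) (h2 : ev A B C D q = 0) (h3 : ev A B C D r = 0)
    (h1' : ev A' B' C' D' p = 0) (h2' : ev A' B' C' D' q = 0) (h3' : ev A' B' C' D' r = 0)
    {s : ℂ × ℂ} (hs : ev A B C D s = 0) : ev A' B' C' D' s = 0 := by
  have key : ∀ t : ℂ × ℂ, ev A B C D t = 0 →
      (A * t.1 + C) * ev A' B' C' D' t
        = (B' * A - A' * B) * t.1 ^ 2 + (B' * C + D' * A - A' * D - C' * B) * t.1
          + (D' * C - C' * D) := by
    intro t ht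
    unfold ev at *
    linear_combination (A' * t.1 + C') * ht
  have k1 := key p h1
  have k2 := key q h2
  have k3 := key r h3
  rw [h1', mul_zero] at k1
  rw [h2', mul_zero] at k2
  rw [h3', mul_zero] at k3
  obtain ⟨a, b, c⟩ := quad_zero (gen_of_ne hd h1 h2 hpq).1 (gen_of_ne hd h1 h3 hpr).1
    (gen_of_ne hd h2 h3 hqr).1 k1.symm k2.symm k3.symm
  have ks := key s hs
  rw [a, b, c] at ks
  have : (A * s.1 + C) * ev A' B' C' D' s = 0 := by rw [ks]; ring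
  exact (mul_eq_zero.mp this).resolve_left (den_ne hd hs)

/-- Generic triples. -/
def GT (t : (ℂ × ℂ) × (ℂ × ℂ) × (ℂ × ℂ)) : Prop :=
  Gen t.1 t.2.1 ∧ Gen t.1 t.2.2 ∧ Gen t.2.1 t.2.2

noncomputable instance (t : (ℂ × ℂ) × (ℂ × ℂ) × (ℂ × ℂ)) : Decidable (GT t) := by
  unfold GT; infer_instance

/-- The generic triples of `Q`. -/
noncomputable def SS (Q : Finset (ℂ × ℂ)) : Finset ((ℂ × ℂ) × (ℂ × ℂ) × (ℂ × ℂ)) :=
  (Q ×ˢ Q ×ˢ Q).filter GT

/-- The block of a generic triple. -/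
noncomputable def Bk (Q : Finset (ℂ × ℂ)) (t : (ℂ × ℂ) × (ℂ × ℂ) × (ℂ × ℂ)) :
    Finset (ℂ × ℂ) :=
  Q.filter (fun s => E t.1 t.2.1 t.2.2 s = 0)

/-- Ordered triples of distinct points of `b`. -/
def Tr {P : Type*} [DecidableEq P] (b : Finset P) : Finset (P × P × P) :=
  (b ×ˢ b ×ˢ b).filter (fun t => t.1 ≠ t.2.1 ∧ t.1 ≠ t.2.2 ∧ t.2.1 ≠ t.2.2)

lemma trip_sum {P : Type*} [DecidableEq P] (b : Finset P) (α : P → ℝ) :
    ∑ t ∈ Tr b, (α t.1 + α t.2.1) * (α t.1 + α t.2.2)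
      = ((b.card : ℝ) - 2) * (((b.card : ℝ) - 4) * (∑ s ∈ b, α s ^ 2) + 3 * (∑ s ∈ b, α s) ^ 2) := by
  classical
  unfold Tr
  rw [Finset.sum_filter, Finset.sum_product]
  simp_rw [Finset.sum_product]
  have hpt : ∀ p q r : P, (if p ≠ q ∧ p ≠ r ∧ q ≠ r then (α p + α q) * (α p + α r) else 0)
      = (α p ^ 2 + α p * α r + α q * α p + α q * α r)
        - (if p = q then 2 * α p ^ 2 + 2 * α p * α r else 0)
        - (if p = r then 2 * α p ^ 2 + 2 * α p * α q else 0)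
        - (if q = r then α p ^ 2 + 2 * α p * α q + α q ^ 2 else 0)
        + (if p = q then (if p = r then 8 * α p ^ 2 else 0) else 0) := by
    intro p q r
    by_cases h1 : p = q
    · subst h1
      by_cases h2 : p = r
      · subst h2; simp; ring
      · simp [h2]; ring
    · by_cases h2 : p = r
      · subst h2; simp [h1, Ne.symm h1]
        ring
      · by_cases h3 : q = r
        · subst h3; simp [h1]; ring
        · simp [h1, h2, h3]; ring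
  have e1 : ∀ p ∈ b, (∑ q ∈ b, ∑ r ∈ b,
      (if p ≠ q ∧ p ≠ r ∧ q ≠ r then (α p + α q) * (α p + α r) else 0))
      = ((b.card : ℝ) ^ 2 * α p ^ 2 + 2 * b.card * α p * (∑ s ∈ b, α s) + (∑ s ∈ b, α s) ^ 2)
        - 2 * (2 * b.card * α p ^ 2 + 2 * α p * (∑ s ∈ b, α s))
        - (b.card * α p ^ 2 + 2 * α p * (∑ s ∈ b, α s) + ∑ s ∈ b, α s ^ 2)
        + 8 * α p ^ 2 := by
    intro p hp
    simp_rw [hpt]
    simp only [Finset.sum_add_distrib, Finset.sum_sub_distrib, Finset.sum_ite_eq, hp,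
      Finset.sum_const, nsmul_eq_mul, ← Finset.mul_sum, ← Finset.sum_mul, if_true]
    have a1 : (∑ x ∈ b, ∑ x_1 ∈ b, if p = x then 2 * α p ^ 2 + 2 * α p * α x_1 else 0)
        = 2 * b.card * α p ^ 2 + 2 * α p * (∑ s ∈ b, α s) := by
      rw [Finset.sum_comm]
      simp only [Finset.sum_ite_eq, hp, if_true, Finset.sum_add_distrib, Finset.sum_const,
        nsmul_eq_mul, ← Finset.mul_sum]
      ring
    have a2 : (∑ x ∈ b, if x ∈ b then α p ^ 2 + 2 * α p * α x + α x ^ 2 else 0)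
        = b.card * α p ^ 2 + 2 * α p * (∑ s ∈ b, α s) + ∑ s ∈ b, α s ^ 2 := by
      rw [Finset.sum_congr rfl (fun x hx => if_pos hx)]
      simp only [Finset.sum_add_distrib, Finset.sum_const, nsmul_eq_mul, ← Finset.mul_sum]
    have a3 : (∑ x ∈ b, ∑ x_1 ∈ b, if p = x then if p = x_1 then 8 * α p ^ 2 else 0 else 0)
        = 8 * α p ^ 2 := by
      rw [Finset.sum_comm]
      simp only [Finset.sum_ite_eq, hp, if_true]
    rw [a1, a3, a2]
    ring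
  rw [Finset.sum_congr rfl e1]
  simp only [Finset.sum_add_distrib, Finset.sum_sub_distrib, ← Finset.mul_sum, ← Finset.sum_mul,
    Finset.sum_const, nsmul_eq_mul]
  ring

lemma TT_eq (Q : Finset (ℂ × ℂ)) (β : ℂ × ℂ → ℝ) :
    TT Q (Phi β) = ∑ t ∈ SS Q, Phi β t.1 t.2.1 * Phi β t.1 t.2.2 := by
  unfold TT SS
  rw [Finset.sum_filter, Finset.sum_product]
  refine Finset.sum_congr rfl (fun p _ => ?_)
  rw [Finset.sum_product]
  refine Finset.sum_congr rfl (fun q _ => ?_)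
  refine Finset.sum_congr rfl (fun r _ => ?_)
  by_cases h3 : Gen q r
  · by_cases h1 : Gen p q
    · by_cases h2 : Gen p r
      · have hg : GT (p, q, r) := ⟨h1, h2, h3⟩
        rw [if_pos h3, if_pos hg]
      · have hg : ¬ GT (p, q, r) := fun h => h2 h.2.1
        rw [if_pos h3, if_neg hg]
        simp [Phi, h2]
    · have hg : ¬ GT (p, q, r) := fun h => h1 h.1
      rw [if_pos h3, if_neg hg]
      simp [Phi, h1]
  · have hg : ¬ GT (p, q, r) := fun h => h3 h.2.2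
    rw [if_neg h3, if_neg hg]

lemma ne_of_gen {p q : ℂ × ℂ} (h : Gen p q) : p ≠ q := fun e => h.1 (by rw [e])

lemma mem_Bk {Q : Finset (ℂ × ℂ)} {t : (ℂ × ℂ) × (ℂ × ℂ) × (ℂ × ℂ)} {s : ℂ × ℂ} :
    s ∈ Bk Q t ↔ s ∈ Q ∧ E t.1 t.2.1 t.2.2 s = 0 := by
  unfold Bk; rw [Finset.mem_filter]

lemma mem_SS {Q : Finset (ℂ × ℂ)} {t : (ℂ × ℂ) × (ℂ × ℂ) × (ℂ × ℂ)} :
    t ∈ SS Q ↔ (t.1 ∈ Q ∧ t.2.1 ∈ Q ∧ t.2.2 ∈ Q) ∧ GT t := by
  unfold SS; rw [Finset.mem_filter, Finset.mem_product, Finset.mem_product]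

/-- The fibres of the block map. -/
lemma fib_eq (Q : Finset (ℂ × ℂ)) {t : (ℂ × ℂ) × (ℂ × ℂ) × (ℂ × ℂ)} (ht : t ∈ SS Q) :
    (SS Q).filter (fun u => Bk Q u = Bk Q t) = Tr (Bk Q t) := by
  have htg := (mem_SS.mp ht).2
  have hd := det_ne htg.1 htg.2.1 htg.2.2
  ext u
  rw [Finset.mem_filter]
  unfold Tr
  rw [Finset.mem_filter, Finset.mem_product, Finset.mem_product]
  constructor
  · rintro ⟨hu, hb⟩
    obtain ⟨⟨m1, m2, m3⟩, hg⟩ := mem_SS.mp hu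
    rw [← hb]
    exact ⟨⟨mem_Bk.mpr ⟨m1, E1 _ _ _⟩, mem_Bk.mpr ⟨m2, E2 _ _ _⟩, mem_Bk.mpr ⟨m3, E3 _ _ _⟩⟩,
      ne_of_gen hg.1, ne_of_gen hg.2.1, ne_of_gen hg.2.2⟩
  · rintro ⟨⟨b1, b2, b3⟩, n1, n2, n3⟩
    obtain ⟨m1, z1⟩ := mem_Bk.mp b1
    obtain ⟨m2, z2⟩ := mem_Bk.mp b2
    obtain ⟨m3, z3⟩ := mem_Bk.mp b3
    have g1 : Gen u.1 u.2.1 := gen_of_ne hd z1 z2 n1
    have g2 : Gen u.1 u.2.2 := gen_of_ne hd z1 z3 n2
    have g3 : Gen u.2.1 u.2.2 := gen_of_ne hd z2 z3 n3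
    refine ⟨mem_SS.mpr ⟨⟨m1, m2, m3⟩, g1, g2, g3⟩, ?_⟩
    ext s
    rw [mem_Bk, mem_Bk]
    constructor
    · rintro ⟨hs, hz⟩
      exact ⟨hs, same_zero (det_ne g1 g2 g3) n1 n2 n3 (E1 _ _ _) (E2 _ _ _) (E3 _ _ _)
        z1 z2 z3 hz⟩
    · rintro ⟨hs, hz⟩
      exact ⟨hs, same_zero hd n1 n2 n3 z1 z2 z3 (E1 _ _ _) (E2 _ _ _) (E3 _ _ _) hz⟩

lemma card_ge (Q : Finset (ℂ × ℂ)) (h4 : Four Q) {t : (ℂ × ℂ) × (ℂ × ℂ) × (ℂ × ℂ)}
    (ht : t ∈ SS Q) : 4 ≤ (Bk Q t).card := by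
  obtain ⟨⟨m1, m2, m3⟩, g1, g2, g3⟩ := mem_SS.mp ht
  have hd := det_ne g1 g2 g3
  have hnz : ¬ (cA t.1 t.2.1 t.2.2 = 0 ∧ cB t.1 t.2.1 t.2.2 = 0 ∧ cC t.1 t.2.1 t.2.2 = 0 ∧
      cD t.1 t.2.1 t.2.2 = 0) := by
    rintro ⟨a, b, _, _⟩
    apply hd
    rw [a, b]; ring
  obtain ⟨s, hs, s1, s2, s3, hz⟩ := h4 t.1 m1 t.2.1 m2 t.2.2 m3 g1 g2 g3 _ _ _ _ hnz
    (E1 _ _ _) (E2 _ _ _) (E3 _ _ _)
  have hsub : ({t.1, t.2.1, t.2.2, s} : Finset (ℂ × ℂ)) ⊆ Bk Q t := by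
    intro x hx
    simp only [Finset.mem_insert, Finset.mem_singleton] at hx
    rcases hx with rfl | rfl | rfl | rfl
    · exact mem_Bk.mpr ⟨m1, E1 _ _ _⟩
    · exact mem_Bk.mpr ⟨m2, E2 _ _ _⟩
    · exact mem_Bk.mpr ⟨m3, E3 _ _ _⟩
    · exact mem_Bk.mpr ⟨hs, hz⟩
  have hc : ({t.1, t.2.1, t.2.2, s} : Finset (ℂ × ℂ)).card = 4 := by
    rw [Finset.card_insert_of_notMem, Finset.card_insert_of_notMem,
      Finset.card_insert_of_notMem, Finset.card_singleton]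
    · simp [Ne.symm s3]
    · simp [Ne.symm s2, ne_of_gen g3]
    · simp [Ne.symm s1, ne_of_gen g1, ne_of_gen g2]
  rw [← hc]
  exact Finset.card_le_card hsub

/-- The potential on a block. -/
noncomputable def al (β : ℂ × ℂ → ℝ) (t : (ℂ × ℂ) × (ℂ × ℂ) × (ℂ × ℂ)) (s : ℂ × ℂ) : ℝ :=
  β s + Real.log ‖cA t.1 t.2.1 t.2.2 * cD t.1 t.2.1 t.2.2
      - cB t.1 t.2.1 t.2.2 * cC t.1 t.2.1 t.2.2‖ / 2
    - Real.log ‖cA t.1 t.2.1 t.2.2 * s.1 + cC t.1 t.2.1 t.2.2‖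

lemma Phi_eq (Q : Finset (ℂ × ℂ)) (β : ℂ × ℂ → ℝ) {t : (ℂ × ℂ) × (ℂ × ℂ) × (ℂ × ℂ)}
    (ht : t ∈ SS Q) {x y : ℂ × ℂ} (hx : x ∈ Bk Q t) (hy : y ∈ Bk Q t) (hxy : x ≠ y) :
    Phi β x y = al β t x + al β t y := by
  obtain ⟨_, g1, g2, g3⟩ := mem_SS.mp ht
  have hd := det_ne g1 g2 g3
  have zx := (mem_Bk.mp hx).2
  have zy := (mem_Bk.mp hy).2
  have hg : Gen x y := gen_of_ne hd zx zy hxy
  have h := y_sub zx zy
  have d1 := den_ne hd zx
  have d2 := den_ne hd zy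
  have hn : ‖x.2 - y.2‖ * (‖cA t.1 t.2.1 t.2.2 * x.1 + cC t.1 t.2.1 t.2.2‖
      * ‖cA t.1 t.2.1 t.2.2 * y.1 + cC t.1 t.2.1 t.2.2‖)
      = ‖cA t.1 t.2.1 t.2.2 * cD t.1 t.2.1 t.2.2 - cB t.1 t.2.1 t.2.2 * cC t.1 t.2.1 t.2.2‖
        * ‖x.1 - y.1‖ := by
    rw [← norm_mul, ← norm_mul, ← norm_mul, h]
  have l := congrArg Real.log hn
  have p1 : ‖x.2 - y.2‖ ≠ 0 := norm_ne_zero_iff.mpr (sub_ne_zero.mpr hg.2)
  have p2 : ‖x.1 - y.1‖ ≠ 0 := norm_ne_zero_iff.mpr (sub_ne_zero.mpr hg.1)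
  have p3 := norm_ne_zero_iff.mpr d1
  have p4 := norm_ne_zero_iff.mpr d2
  have p5 := norm_ne_zero_iff.mpr hd
  rw [Real.log_mul p1 (mul_ne_zero p3 p4), Real.log_mul p3 p4, Real.log_mul p5 p2] at l
  unfold Phi al
  rw [if_pos hg]
  linarith

lemma fib_sum (Q : Finset (ℂ × ℂ)) (β : ℂ × ℂ → ℝ)
    {t : (ℂ × ℂ) × (ℂ × ℂ) × (ℂ × ℂ)} (ht : t ∈ SS Q) :
    ∑ u ∈ (SS Q).filter (fun u => Bk Q u = Bk Q t), Phi β u.1 u.2.1 * Phi β u.1 u.2.2
      = (((Bk Q t).card : ℝ) - 2) * ((((Bk Q t).card : ℝ) - 4) * (∑ s ∈ Bk Q t, al β t s ^ 2)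
        + 3 * (∑ s ∈ Bk Q t, al β t s) ^ 2) := by
  rw [fib_eq Q ht, ← trip_sum]
  refine Finset.sum_congr rfl (fun u hu => ?_)
  unfold Tr at hu
  rw [Finset.mem_filter, Finset.mem_product, Finset.mem_product] at hu
  obtain ⟨⟨b1, b2, b3⟩, n1, n2, n3⟩ := hu
  rw [Phi_eq Q β ht b1 b2 n1, Phi_eq Q β ht b1 b3 n2]

lemma fib_nonneg (Q : Finset (ℂ × ℂ)) (h4 : Four Q) (β : ℂ × ℂ → ℝ)
    {t : (ℂ × ℂ) × (ℂ × ℂ) × (ℂ × ℂ)} (ht : t ∈ SS Q) :
    0 ≤ ∑ u ∈ (SS Q).filter (fun u => Bk Q u = Bk Q t), Phi β u.1 u.2.1 * Phi β u.1 u.2.2 := by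
  rw [fib_sum Q β ht]
  have h : (4 : ℝ) ≤ ((Bk Q t).card : ℝ) := by exact_mod_cast card_ge Q h4 ht
  have e1 : 0 ≤ ∑ s ∈ Bk Q t, al β t s ^ 2 := Finset.sum_nonneg (fun _ _ => sq_nonneg _)
  have e2 : 0 ≤ (∑ s ∈ Bk Q t, al β t s) ^ 2 := sq_nonneg _
  apply mul_nonneg (by linarith)
  have := mul_nonneg (by linarith : (0:ℝ) ≤ ((Bk Q t).card : ℝ) - 4) e1
  linarith

lemma TT_fib (Q : Finset (ℂ × ℂ)) (β : ℂ × ℂ → ℝ) :
    TT Q (Phi β) = ∑ b ∈ (SS Q).image (Bk Q),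
      ∑ u ∈ (SS Q).filter (fun u => Bk Q u = b), Phi β u.1 u.2.1 * Phi β u.1 u.2.2 := by
  rw [TT_eq]
  exact (Finset.sum_fiberwise_of_maps_to
    (fun t ht => Finset.mem_image_of_mem (Bk Q) ht) _).symm

end Block

open Block

theorem block_nonneg (Q : Finset (ℂ × ℂ)) (h4 : Four Q) (β : ℂ × ℂ → ℝ) :
    0 ≤ TT Q (Phi β) := by
  rw [TT_fib]
  refine Finset.sum_nonneg (fun b hb => ?_)
  obtain ⟨t, ht, rfl⟩ := Finset.mem_image.mp hb
  exact fib_nonneg Q h4 β ht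

theorem block_zero (Q : Finset (ℂ × ℂ)) (h4 : Four Q) (β : ℂ × ℂ → ℝ)
    (hT : TT Q (Phi β) = 0) :
    ∀ p ∈ Q, (∀ s ∈ Q, Phi β p s = 0) → ∀ q ∈ Q, ∀ r ∈ Q,
      Gen p q → Gen p r → Gen q r → Phi β q r = 0 := by
  intro p hp hps q hq r hr g1 g2 g3
  rw [TT_fib] at hT
  have ht : (p, q, r) ∈ SS Q := mem_SS.mpr ⟨⟨hp, hq, hr⟩, g1, g2, g3⟩
  have h0 : ∑ u ∈ (SS Q).filter (fun u => Bk Q u = Bk Q (p, q, r)),
      Phi β u.1 u.2.1 * Phi β u.1 u.2.2 = 0 := by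
    refine (Finset.sum_eq_zero_iff_of_nonneg ?_).mp hT _ (Finset.mem_image_of_mem (Bk Q) ht)
    intro b hb
    obtain ⟨t, ht, rfl⟩ := Finset.mem_image.mp hb
    exact fib_nonneg Q h4 β ht
  rw [fib_sum Q β ht] at h0
  set b := Bk Q (p, q, r) with hb
  set a : ℂ × ℂ → ℝ := al β (p, q, r) with ha
  have hpb : p ∈ b := mem_Bk.mpr ⟨hp, E1 _ _ _⟩
  have hqb : q ∈ b := mem_Bk.mpr ⟨hq, E2 _ _ _⟩
  have hrb : r ∈ b := mem_Bk.mpr ⟨hr, E3 _ _ _⟩
  have hsa : ∀ s ∈ b, s ≠ p → a s = - a p := by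
    intro s hs hsp
    have h := Phi_eq Q β ht hpb hs (Ne.symm hsp)
    rw [hps s (mem_Bk.mp hs).1] at h
    linarith
  have hcard : (4 : ℝ) ≤ (b.card : ℝ) := by exact_mod_cast card_ge Q h4 ht
  have s1 : ∑ s ∈ b, a s ^ 2 = (b.card : ℝ) * a p ^ 2 := by
    have : ∀ s ∈ b, a s ^ 2 = a p ^ 2 := by
      intro s hs
      by_cases h : s = p
      · rw [h]
      · rw [hsa s hs h]; ring
    rw [Finset.sum_congr rfl this, Finset.sum_const, nsmul_eq_mul]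
  have s2 : ∑ s ∈ b, a s = (2 - (b.card : ℝ)) * a p := by
    rw [← Finset.add_sum_erase b a hpb]
    have : ∀ s ∈ b.erase p, a s = - a p := by
      intro s hs
      rw [Finset.mem_erase] at hs
      exact hsa s hs.2 hs.1
    rw [Finset.sum_congr rfl this, Finset.sum_const, nsmul_eq_mul, Finset.card_erase_of_mem hpb,
      Nat.cast_sub (Finset.card_pos.mpr ⟨p, hpb⟩)]
    push_cast
    ring
  rw [s1, s2] at h0
  have hap : a p = 0 := by
    have h1 : ((b.card : ℝ) - 2) * ((((b.card : ℝ) - 4) * (b.card : ℝ))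
        + 3 * ((b.card : ℝ) - 2) ^ 2) * a p ^ 2 = 0 := by
      linear_combination h0
    have h2 : 0 < ((b.card : ℝ) - 2) * ((((b.card : ℝ) - 4) * (b.card : ℝ))
        + 3 * ((b.card : ℝ) - 2) ^ 2) := by
      apply mul_pos (by linarith)
      have : 0 ≤ ((b.card : ℝ) - 4) * (b.card : ℝ) := mul_nonneg (by linarith) (by linarith)
      have : 0 < 3 * ((b.card : ℝ) - 2) ^ 2 := by
        have : 0 < (b.card : ℝ) - 2 := by linarith
        positivity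
      linarith
    have h3 : a p ^ 2 = 0 := by
      rcases mul_eq_zero.mp h1 with h | h
      · exact absurd h h2.ne'
      · exact h
    exact pow_eq_zero_iff (two_ne_zero) |>.mp h3
  have hqp : q ≠ p := Ne.symm (ne_of_gen g1)
  have hrp : r ≠ p := Ne.symm (ne_of_gen g2)
  rw [Phi_eq Q β ht hqb hrb (ne_of_gen g3)]
  show a q + a r = 0
  rw [hsa q hqb hqp, hsa r hrb hrp, hap]
  ring

end Pool.Agent.Lib.MP_1c7511_co
end

section

set_option autoImplicit false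

namespace Pool.Agent.Lib.MP_1c7511_co

open Finset

/-- Rearrangement of the sums over all crosses, rows. -/
theorem sum_Rw (Q : Finset (ℂ × ℂ)) (g : ℂ → ℂ → ℂ × ℂ → ℝ) :
    ∑ ξ ∈ Q.image Prod.fst, ∑ η ∈ Q.image Prod.snd, ∑ p ∈ Rw Q ξ η, g ξ η p
      = ∑ p ∈ Q, ∑ ξ ∈ Q.image Prod.fst, (if p.1 ≠ ξ then g ξ p.2 p else 0) := by
  rw [Finset.sum_comm (s := Q)]
  refine Finset.sum_congr rfl (fun ξ _ => ?_)
  simp only [Rw, sum_filter]
  rw [Finset.sum_comm]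
  refine Finset.sum_congr rfl (fun p hp => ?_)
  rw [Finset.sum_eq_single p.2]
  · simp
  · intro η _ hη
    rw [if_neg]
    rintro ⟨h, -⟩
    exact hη h.symm
  · intro h
    exact absurd (Finset.mem_image_of_mem Prod.snd hp) h

/-- Rearrangement of the sums over all crosses, columns. -/
theorem sum_Cl (Q : Finset (ℂ × ℂ)) (g : ℂ → ℂ → ℂ × ℂ → ℝ) :
    ∑ ξ ∈ Q.image Prod.fst, ∑ η ∈ Q.image Prod.snd, ∑ q ∈ Cl Q ξ η, g ξ η q
      = ∑ q ∈ Q, ∑ η ∈ Q.image Prod.snd, (if q.2 ≠ η then g q.1 η q else 0) := by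
  rw [Finset.sum_comm (s := Q), Finset.sum_comm (s := Q.image Prod.fst)]
  refine Finset.sum_congr rfl (fun η _ => ?_)
  simp only [Cl, sum_filter]
  rw [Finset.sum_comm]
  refine Finset.sum_congr rfl (fun q hq => ?_)
  rw [Finset.sum_eq_single q.1]
  · simp
  · intro ξ _ hξ
    rw [if_neg]
    rintro ⟨h, -⟩
    exact hξ h.symm
  · intro h
    exact absurd (Finset.mem_image_of_mem Prod.fst hq) h

/-- The cross identity. -/
theorem cross_identity (Q : Finset (ℂ × ℂ)) (F : ℂ × ℂ → ℂ × ℂ → ℝ)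
    (hs : ∀ p q, F p q = F q p) (h0 : ∀ p q, ¬ Gen p q → F p q = 0) :
    TT Q F = (∑ p ∈ Q, (∑ q ∈ Q, F p q) ^ 2)
      - ∑ ξ ∈ Q.image Prod.fst, ∑ η ∈ Q.image Prod.snd, KK Q F ξ η := by
  -- the three sums in the crosses
  have hz1 : ∀ p q : ℂ × ℂ, p.1 = q.1 → F p q = 0 := fun p q h => h0 p q (fun hg => hg.1 h)
  have hz2 : ∀ p q : ℂ × ℂ, p.2 = q.2 → F p q = 0 := fun p q h => h0 p q (fun hg => hg.2 h)
  have A1 : ∑ ξ ∈ Q.image Prod.fst, ∑ η ∈ Q.image Prod.snd,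
        ∑ p ∈ Rw Q ξ η, (∑ q ∈ Cl Q ξ η, F p q) ^ 2
      = ∑ p ∈ Q, ∑ q ∈ Q, ∑ r ∈ Q, (if q.1 = r.1 then F p q * F p r else 0) := by
    rw [sum_Rw Q (fun ξ η p => (∑ q ∈ Cl Q ξ η, F p q) ^ 2)]
    refine Finset.sum_congr rfl (fun p _ => ?_)
    have e1 : ∀ ξ : ℂ, (if p.1 ≠ ξ then (∑ q ∈ Cl Q ξ p.2, F p q) ^ 2 else 0)
        = ∑ q ∈ Q, ∑ r ∈ Q, (if q.1 = ξ ∧ r.1 = ξ then F p q * F p r else 0) := by
      intro ξ
      have e2 : ∑ q ∈ Cl Q ξ p.2, F p q = ∑ q ∈ Q, (if q.1 = ξ then F p q else 0) := by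
        simp only [Cl, sum_filter]
        refine Finset.sum_congr rfl (fun q _ => ?_)
        by_cases h1 : q.1 = ξ
        · by_cases h2 : q.2 = p.2
          · simp [h1, h2, hz2 p q h2.symm]
          · simp [h1, h2]
        · simp [h1]
      have e3 : (∑ q ∈ Q, (if q.1 = ξ then F p q else 0)) ^ 2
          = ∑ q ∈ Q, ∑ r ∈ Q, (if q.1 = ξ ∧ r.1 = ξ then F p q * F p r else 0) := by
        rw [sq, Finset.sum_mul_sum]
        refine Finset.sum_congr rfl (fun q _ => Finset.sum_congr rfl (fun r _ => ?_))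
        by_cases h1 : q.1 = ξ <;> by_cases h2 : r.1 = ξ <;> simp [h1, h2]
      split_ifs with h
      · rw [e2, e3]
      · rw [← e3]
        push Not at h
        have : ∑ q ∈ Q, (if q.1 = ξ then F p q else 0) = 0 := by
          refine Finset.sum_eq_zero (fun q _ => ?_)
          split_ifs with h1
          · exact hz1 p q (by rw [h, h1])
          · rfl
        rw [this]; simp
    rw [Finset.sum_congr rfl (fun ξ _ => e1 ξ), Finset.sum_comm]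
    refine Finset.sum_congr rfl (fun q hq => ?_)
    rw [Finset.sum_comm]
    refine Finset.sum_congr rfl (fun r hr => ?_)
    rw [Finset.sum_eq_single q.1]
    · by_cases h : q.1 = r.1
      · simp [h]
      · rw [if_neg h, if_neg]
        rintro ⟨-, h2⟩
        exact h h2.symm
    · intro ξ _ hξ
      rw [if_neg]
      rintro ⟨h1, -⟩
      exact hξ h1.symm
    · intro h
      exact absurd (Finset.mem_image_of_mem Prod.fst hq) h
  have A2 : ∑ ξ ∈ Q.image Prod.fst, ∑ η ∈ Q.image Prod.snd,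
        ∑ q ∈ Cl Q ξ η, (∑ p ∈ Rw Q ξ η, F p q) ^ 2
      = ∑ p ∈ Q, ∑ q ∈ Q, ∑ r ∈ Q, (if q.2 = r.2 then F p q * F p r else 0) := by
    rw [sum_Cl Q (fun ξ η q => (∑ p ∈ Rw Q ξ η, F p q) ^ 2)]
    refine Finset.sum_congr rfl (fun p _ => ?_)
    have e1 : ∀ η : ℂ, (if p.2 ≠ η then (∑ q ∈ Rw Q p.1 η, F q p) ^ 2 else 0)
        = ∑ q ∈ Q, ∑ r ∈ Q, (if q.2 = η ∧ r.2 = η then F p q * F p r else 0) := by
      intro η
      have e2 : ∑ q ∈ Rw Q p.1 η, F q p = ∑ q ∈ Q, (if q.2 = η then F p q else 0) := by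
        simp only [Rw, sum_filter]
        refine Finset.sum_congr rfl (fun q _ => ?_)
        by_cases h1 : q.2 = η
        · by_cases h2 : q.1 = p.1
          · simp [h1, h2, hz1 p q h2.symm]
          · simp [h1, h2, hs q p]
        · simp [h1]
      have e3 : (∑ q ∈ Q, (if q.2 = η then F p q else 0)) ^ 2
          = ∑ q ∈ Q, ∑ r ∈ Q, (if q.2 = η ∧ r.2 = η then F p q * F p r else 0) := by
        rw [sq, Finset.sum_mul_sum]
        refine Finset.sum_congr rfl (fun q _ => Finset.sum_congr rfl (fun r _ => ?_))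
        by_cases h1 : q.2 = η <;> by_cases h2 : r.2 = η <;> simp [h1, h2]
      split_ifs with h
      · rw [e2, e3]
      · rw [← e3]
        push Not at h
        have : ∑ q ∈ Q, (if q.2 = η then F p q else 0) = 0 := by
          refine Finset.sum_eq_zero (fun q _ => ?_)
          split_ifs with h1
          · exact hz2 p q (by rw [h, h1])
          · rfl
        rw [this]; simp
    rw [Finset.sum_congr rfl (fun η _ => e1 η), Finset.sum_comm]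
    refine Finset.sum_congr rfl (fun q hq => ?_)
    rw [Finset.sum_comm]
    refine Finset.sum_congr rfl (fun r hr => ?_)
    rw [Finset.sum_eq_single q.2]
    · by_cases h : q.2 = r.2
      · simp [h]
      · rw [if_neg h, if_neg]
        rintro ⟨-, h2⟩
        exact h h2.symm
    · intro η _ hη
      rw [if_neg]
      rintro ⟨h1, -⟩
      exact hη h1.symm
    · intro h
      exact absurd (Finset.mem_image_of_mem Prod.snd hq) h
  have A3 : ∑ ξ ∈ Q.image Prod.fst, ∑ η ∈ Q.image Prod.snd,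
        ∑ p ∈ Rw Q ξ η, ∑ q ∈ Cl Q ξ η, (F p q) ^ 2
      = ∑ p ∈ Q, ∑ q ∈ Q, (F p q) ^ 2 := by
    rw [sum_Rw Q (fun ξ η p => ∑ q ∈ Cl Q ξ η, (F p q) ^ 2)]
    refine Finset.sum_congr rfl (fun p _ => ?_)
    have e1 : ∀ ξ : ℂ, (if p.1 ≠ ξ then ∑ q ∈ Cl Q ξ p.2, (F p q) ^ 2 else 0)
        = ∑ q ∈ Q, (if q.1 = ξ then (F p q) ^ 2 else 0) := by
      intro ξ
      split_ifs with h
      · simp only [Cl, sum_filter]
        refine Finset.sum_congr rfl (fun q _ => ?_)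
        by_cases h1 : q.1 = ξ
        · by_cases h2 : q.2 = p.2
          · simp [h1, h2, hz2 p q h2.symm]
          · simp [h1, h2]
        · simp [h1]
      · push Not at h
        symm
        refine Finset.sum_eq_zero (fun q _ => ?_)
        split_ifs with h1
        · rw [hz1 p q (by rw [h, h1])]; simp
        · rfl
    rw [Finset.sum_congr rfl (fun ξ _ => e1 ξ), Finset.sum_comm]
    refine Finset.sum_congr rfl (fun q hq => ?_)
    rw [Finset.sum_eq_single q.1]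
    · simp
    · intro ξ _ hξ
      rw [if_neg (fun h => hξ h.symm)]
    · intro h
      exact absurd (Finset.mem_image_of_mem Prod.fst hq) h
  have hK : ∑ ξ ∈ Q.image Prod.fst, ∑ η ∈ Q.image Prod.snd, KK Q F ξ η
      = (∑ p ∈ Q, ∑ q ∈ Q, ∑ r ∈ Q, (if q.1 = r.1 then F p q * F p r else 0))
        + (∑ p ∈ Q, ∑ q ∈ Q, ∑ r ∈ Q, (if q.2 = r.2 then F p q * F p r else 0))
        - ∑ p ∈ Q, ∑ q ∈ Q, (F p q) ^ 2 := by
    rw [← A1, ← A2, ← A3]
    simp only [KK, Finset.sum_add_distrib, Finset.sum_sub_distrib]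
  rw [hK]
  have hT : TT Q F = (∑ p ∈ Q, (∑ q ∈ Q, F p q) ^ 2)
      - ((∑ p ∈ Q, ∑ q ∈ Q, ∑ r ∈ Q, (if q.1 = r.1 then F p q * F p r else 0))
        + (∑ p ∈ Q, ∑ q ∈ Q, ∑ r ∈ Q, (if q.2 = r.2 then F p q * F p r else 0))
        - ∑ p ∈ Q, ∑ q ∈ Q, ∑ r ∈ Q, (if q = r then F p q * F p r else 0)) := by
    rw [← Finset.sum_add_distrib, ← Finset.sum_sub_distrib, ← Finset.sum_sub_distrib]
    unfold TT
    refine Finset.sum_congr rfl (fun p _ => ?_)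
    rw [sq, Finset.sum_mul_sum, ← Finset.sum_add_distrib, ← Finset.sum_sub_distrib,
      ← Finset.sum_sub_distrib]
    refine Finset.sum_congr rfl (fun q _ => ?_)
    rw [← Finset.sum_add_distrib, ← Finset.sum_sub_distrib, ← Finset.sum_sub_distrib]
    refine Finset.sum_congr rfl (fun r _ => ?_)
    by_cases h1 : q.1 = r.1
    · by_cases h2 : q.2 = r.2
      · have h3 : q = r := Prod.ext h1 h2
        subst h3
        simp [Gen]
      · have h3 : q ≠ r := fun h => h2 (by rw [h])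
        simp [Gen, h1, h2, h3]
    · by_cases h2 : q.2 = r.2
      · have h3 : q ≠ r := fun h => h1 (by rw [h])
        simp [Gen, h1, h2, h3]
      · have h3 : q ≠ r := fun h => h1 (by rw [h])
        simp [Gen, h1, h2, h3]
  rw [hT]
  congr 2
  refine Finset.sum_congr rfl (fun p _ => Finset.sum_congr rfl (fun q hq => ?_))
  rw [Finset.sum_ite_eq, if_pos hq, sq]

end Pool.Agent.Lib.MP_1c7511_co
end

section

set_option autoImplicit false

namespace Pool.Agent.Lib.MP_1c7511_co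

open Finset

theorem Gen_symm {p q : ℂ × ℂ} (h : Gen p q) : Gen q p := ⟨h.1.symm, h.2.symm⟩

theorem Gen_comm (p q : ℂ × ℂ) : Gen p q ↔ Gen q p := ⟨Gen_symm, Gen_symm⟩

theorem Phi_symm (β : ℂ × ℂ → ℝ) (p q : ℂ × ℂ) : Phi β p q = Phi β q p := by
  unfold Phi
  by_cases h : Gen p q
  · rw [if_pos h, if_pos (Gen_symm h), norm_sub_rev p.2 q.2, norm_sub_rev p.1 q.1]
    ring
  · rw [if_neg h, if_neg (fun h' => h (Gen_symm h'))]

/-- Gauge fixing: all row sums can be made zero. -/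
theorem exists_gauge (Q : Finset (ℂ × ℂ)) :
    ∃ β : ℂ × ℂ → ℝ, ∀ p ∈ Q, ∑ q ∈ Q, Phi β p q = 0 := by
  classical
  let T0 : (Q → ℝ) →ₗ[ℝ] (Q × Q → ℝ) :=
    { toFun := fun γ x => if Gen (x.1 : ℂ × ℂ) (x.2 : ℂ × ℂ) then γ x.1 + γ x.2 else 0
      map_add' := by
        intro γ γ'
        funext x
        by_cases h : Gen (x.1 : ℂ × ℂ) (x.2 : ℂ × ℂ)
        · simp [h]; ring
        · simp [h]
      map_smul' := by
        intro c γ
        funext x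
        by_cases h : Gen (x.1 : ℂ × ℂ) (x.2 : ℂ × ℂ)
        · simp [h]; ring
        · simp [h] }
  let T : (Q → ℝ) →ₗ[ℝ] EuclideanSpace ℝ (Q × Q) :=
    (WithLp.linearEquiv 2 ℝ (Q × Q → ℝ)).symm.toLinearMap ∘ₗ T0
  let φ : EuclideanSpace ℝ (Q × Q) := WithLp.toLp 2 fun x : Q × Q => Phi 0 (x.1 : ℂ × ℂ) (x.2 : ℂ × ℂ)
  obtain ⟨k, ⟨γ, rfl⟩, z, hz, hφ⟩ := (LinearMap.range T).exists_add_mem_mem_orthogonal φ
  let β : ℂ × ℂ → ℝ := fun p => if h : p ∈ Q then -γ ⟨p, h⟩ else 0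
  have hβ : ∀ p : Q, β p = -γ p := fun p => by simp [β]
  have hz' : ∀ x : Q × Q, z x = Phi β (x.1 : ℂ × ℂ) (x.2 : ℂ × ℂ) := by
    intro x
    have h1 : φ x = T γ x + z x := by rw [hφ]; rfl
    have h2 : z x = φ x - T γ x := by linarith
    have h3 : φ x = Phi 0 (x.1 : ℂ × ℂ) (x.2 : ℂ × ℂ) := rfl
    have h4 : T γ x = if Gen (x.1 : ℂ × ℂ) (x.2 : ℂ × ℂ) then γ x.1 + γ x.2 else 0 := rfl
    rw [h2, h3, h4]
    unfold Phi
    by_cases h : Gen (x.1 : ℂ × ℂ) (x.2 : ℂ × ℂ)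
    · simp only [h, if_true, hβ, Pi.zero_apply]; ring
    · simp only [h, if_false, sub_zero]
  refine ⟨β, fun p hp => ?_⟩
  have hin := hz (T (Pi.single ⟨p, hp⟩ 1)) ⟨_, rfl⟩
  rw [PiLp.inner_apply] at hin
  have h5 : ∑ x : Q × Q, inner ℝ (T (Pi.single ⟨p, hp⟩ 1) x) (z x)
      = ∑ a : Q, ∑ b : Q, Phi β (a : ℂ × ℂ) (b : ℂ × ℂ)
        * ((if a = ⟨p, hp⟩ then 1 else 0) + (if b = ⟨p, hp⟩ then 1 else 0)) := by
    rw [Fintype.sum_prod_type]
    apply sum_congr rfl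
    intro a _
    apply sum_congr rfl
    intro b _
    have h4 : T (Pi.single ⟨p, hp⟩ 1) (a, b) = if Gen (a : ℂ × ℂ) (b : ℂ × ℂ) then
      (Pi.single (⟨p, hp⟩ : Q) (1 : ℝ) : Q → ℝ) a + (Pi.single (⟨p, hp⟩ : Q) (1 : ℝ) : Q → ℝ) b
        else 0 := rfl
    rw [hz', h4]
    by_cases h : Gen (a : ℂ × ℂ) (b : ℂ × ℂ)
    · simp only [h, if_true, Pi.single_apply]
      simp only [RCLike.inner_apply, conj_trivial]
    · simp only [h, if_false]
      unfold Phi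
      simp [h]
  rw [h5] at hin
  have h6 : ∑ a : Q, ∑ b : Q, Phi β (a : ℂ × ℂ) (b : ℂ × ℂ)
        * ((if a = ⟨p, hp⟩ then 1 else 0) + (if b = ⟨p, hp⟩ then 1 else 0))
      = ∑ b : Q, Phi β p (b : ℂ × ℂ) + ∑ a : Q, Phi β (a : ℂ × ℂ) p := by
    simp only [mul_add, sum_add_distrib, mul_ite, mul_one, mul_zero]
    congr 1
    · rw [sum_comm]
      apply sum_congr rfl
      intro b _
      rw [sum_ite_eq' univ (⟨p, hp⟩ : Q)]
      simp
    · apply sum_congr rfl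
      intro a _
      rw [sum_ite_eq' univ (⟨p, hp⟩ : Q)]
      simp
  rw [h6] at hin
  have h7 : ∑ a : Q, Phi β (a : ℂ × ℂ) p = ∑ b : Q, Phi β p (b : ℂ × ℂ) :=
    sum_congr rfl fun a _ => Phi_symm β _ _
  rw [h7] at hin
  have h8 : ∑ b : Q, Phi β p (b : ℂ × ℂ) = ∑ q ∈ Q, Phi β p q :=
    Finset.sum_coe_sort Q (fun q => Phi β p q)
  rw [h8] at hin
  linarith

end Pool.Agent.Lib.MP_1c7511_co
end

section

set_option autoImplicit false

namespace Pool.Agent.Lib.MP_1c7511_co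

open Finset

namespace RigidAux

theorem Phi_of_not_gen (β : ℂ × ℂ → ℝ) {p q : ℂ × ℂ} (h : ¬ Gen p q) : Phi β p q = 0 := by
  simp [Phi, h]

theorem mem_Rw {Q : Finset (ℂ × ℂ)} {ξ η : ℂ} {p : ℂ × ℂ} :
    p ∈ Rw Q ξ η ↔ p ∈ Q ∧ p.2 = η ∧ p.1 ≠ ξ := by
  simp [Rw]

theorem mem_Cl {Q : Finset (ℂ × ℂ)} {ξ η : ℂ} {p : ℂ × ℂ} :
    p ∈ Cl Q ξ η ↔ p ∈ Q ∧ p.1 = ξ ∧ p.2 ≠ η := by
  simp [Cl]

theorem mem_Vc {Q : Finset (ℂ × ℂ)} {p x : ℂ × ℂ} : x ∈ Vc Q p ↔ x ∈ Q ∧ x.1 = p.1 := by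
  simp [Vc]

theorem mem_Hc {Q : Finset (ℂ × ℂ)} {p x : ℂ × ℂ} : x ∈ Hc Q p ↔ x ∈ Q ∧ x.2 = p.2 := by
  simp [Hc]

/-- The row part of the additive decomposition on a cross. -/
noncomputable def rowPart (β : ℂ × ℂ → ℝ) (ξ : ℂ) (p : ℂ × ℂ) : ℝ :=
  β p - Real.log ‖p.1 - ξ‖

/-- The column part of the additive decomposition on a cross. -/
noncomputable def colPart (β : ℂ × ℂ → ℝ) (η : ℂ) (q : ℂ × ℂ) : ℝ :=
  Real.log ‖η - q.2‖ + β q

theorem Phi_cross (Q : Finset (ℂ × ℂ)) (β : ℂ × ℂ → ℝ) {ξ η : ℂ} {p q : ℂ × ℂ}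
    (hp : p ∈ Rw Q ξ η) (hq : q ∈ Cl Q ξ η) :
    Phi β p q = colPart β η q + rowPart β ξ p := by
  obtain ⟨_, hp2, hp1⟩ := mem_Rw.1 hp
  obtain ⟨_, hq1, hq2⟩ := mem_Cl.1 hq
  have hg : Gen p q := ⟨by rw [hq1]; exact hp1, by rw [hp2]; exact fun h => hq2 h.symm⟩
  simp only [Phi, hg, if_true, colPart, rowPart]
  rw [hp2, hq1]
  ring

theorem KK_eq (Q : Finset (ℂ × ℂ)) (β : ℂ × ℂ → ℝ) (ξ η : ℂ) :
    KK Q (Phi β) ξ η =
      (∑ i ∈ Rw Q ξ η, (∑ j ∈ Cl Q ξ η, (colPart β η j + rowPart β ξ i)) ^ 2)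
      + (∑ j ∈ Cl Q ξ η, (∑ i ∈ Rw Q ξ η, (colPart β η j + rowPart β ξ i)) ^ 2)
      - ∑ i ∈ Rw Q ξ η, ∑ j ∈ Cl Q ξ η, (colPart β η j + rowPart β ξ i) ^ 2 := by
  unfold KK
  congr 1
  · congr 1
    · refine Finset.sum_congr rfl fun i hi => ?_
      rw [Finset.sum_congr rfl fun j hj => Phi_cross Q β hi hj]
    · refine Finset.sum_congr rfl fun j hj => ?_
      rw [Finset.sum_congr rfl fun i hi => Phi_cross Q β hi hj]
  · refine Finset.sum_congr rfl fun i hi => ?_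
    refine Finset.sum_congr rfl fun j hj => ?_
    rw [Phi_cross Q β hi hj]

theorem KK_nonneg (Q : Finset (ℂ × ℂ)) (β : ℂ × ℂ → ℝ) (ξ η : ℂ) :
    0 ≤ KK Q (Phi β) ξ η := by
  rw [KK_eq]
  exact additive_nonneg _ _ _ _

end RigidAux

open RigidAux

theorem exists_rigid (Q : Finset (ℂ × ℂ)) (h4 : Four Q) : ∃ β : ℂ × ℂ → ℝ, Rigid Q β := by
  obtain ⟨β, hβ⟩ := exists_gauge Q
  have hid := cross_identity Q (Phi β) (Phi_symm β) (fun p q h => Phi_of_not_gen β h)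
  have h1 : (∑ p ∈ Q, (∑ q ∈ Q, Phi β p q) ^ 2) = 0 := by
    refine Finset.sum_eq_zero fun p hp => ?_
    rw [hβ p hp]
    norm_num
  rw [h1, zero_sub] at hid
  have hT := block_nonneg Q h4 β
  have hS : 0 ≤ ∑ ξ ∈ Q.image Prod.fst, ∑ η ∈ Q.image Prod.snd, KK Q (Phi β) ξ η :=
    Finset.sum_nonneg fun ξ _ => Finset.sum_nonneg fun η _ => KK_nonneg Q β ξ η
  have hS0 : ∑ ξ ∈ Q.image Prod.fst, ∑ η ∈ Q.image Prod.snd, KK Q (Phi β) ξ η = 0 := by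
    linarith
  have hT0 : TT Q (Phi β) = 0 := by linarith
  refine ⟨β, ?_, block_zero Q h4 β hT0⟩
  intro ξ η
  by_cases hξ : ξ ∈ Q.image Prod.fst
  · by_cases hη : η ∈ Q.image Prod.snd
    · have h2 := (Finset.sum_eq_zero_iff_of_nonneg
        (fun ξ _ => Finset.sum_nonneg fun η _ => KK_nonneg Q β ξ η)).1 hS0 ξ hξ
      exact (Finset.sum_eq_zero_iff_of_nonneg (fun η _ => KK_nonneg Q β ξ η)).1 h2 η hη
    · have hR : Rw Q ξ η = ∅ := by
        ext x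
        simp only [mem_Rw, Finset.notMem_empty, iff_false]
        rintro ⟨hx, hx2, _⟩
        exact hη (Finset.mem_image.2 ⟨x, hx, hx2⟩)
      simp [KK, hR]
  · have hC : Cl Q ξ η = ∅ := by
      ext x
      simp only [mem_Cl, Finset.notMem_empty, iff_false]
      rintro ⟨hx, hx1, _⟩
      exact hξ (Finset.mem_image.2 ⟨x, hx, hx1⟩)
    simp [KK, hC]

namespace RigidAux

theorem card_Rw_ge (Q : Finset (ℂ × ℂ)) (p q : ℂ × ℂ) :
    (Hc Q p).card ≤ (Rw Q q.1 p.2).card + 1 := by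
  have hsub : Hc Q p ⊆ insert (q.1, p.2) (Rw Q q.1 p.2) := by
    intro x hx
    obtain ⟨hxQ, hx2⟩ := mem_Hc.1 hx
    by_cases h : x.1 = q.1
    · exact Finset.mem_insert.2 (Or.inl (Prod.ext h hx2))
    · exact Finset.mem_insert.2 (Or.inr (mem_Rw.2 ⟨hxQ, hx2, h⟩))
  exact (Finset.card_le_card hsub).trans (Finset.card_insert_le _ _)

theorem card_Cl_ge (Q : Finset (ℂ × ℂ)) (p q : ℂ × ℂ) :
    (Vc Q q).card ≤ (Cl Q q.1 p.2).card + 1 := by
  have hsub : Vc Q q ⊆ insert (q.1, p.2) (Cl Q q.1 p.2) := by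
    intro x hx
    obtain ⟨hxQ, hx1⟩ := mem_Vc.1 hx
    by_cases h : x.2 = p.2
    · exact Finset.mem_insert.2 (Or.inl (Prod.ext hx1 h))
    · exact Finset.mem_insert.2 (Or.inr (mem_Cl.2 ⟨hxQ, hx1, h⟩))
  exact (Finset.card_le_card hsub).trans (Finset.card_insert_le _ _)

theorem Rw_eq_singleton {Q : Finset (ℂ × ℂ)} {p : ℂ × ℂ} {ξ : ℂ} (hp : p ∈ Q)
    (h1 : (Hc Q p).card = 1) (hne : p.1 ≠ ξ) : Rw Q ξ p.2 = {p} := by
  obtain ⟨a, ha⟩ := Finset.card_eq_one.1 h1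
  have hpa : p = a := by
    have : p ∈ Hc Q p := mem_Hc.2 ⟨hp, rfl⟩
    rw [ha] at this
    exact Finset.mem_singleton.1 this
  ext x
  rw [mem_Rw, Finset.mem_singleton]
  constructor
  · rintro ⟨hx, hx2, _⟩
    have : x ∈ Hc Q p := mem_Hc.2 ⟨hx, hx2⟩
    rw [ha, ← hpa] at this
    exact Finset.mem_singleton.1 this
  · rintro rfl
    exact ⟨hp, rfl, hne⟩

theorem Cl_eq_singleton {Q : Finset (ℂ × ℂ)} {q : ℂ × ℂ} {η : ℂ} (hq : q ∈ Q)
    (h1 : (Vc Q q).card = 1) (hne : q.2 ≠ η) : Cl Q q.1 η = {q} := by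
  obtain ⟨a, ha⟩ := Finset.card_eq_one.1 h1
  have hqa : q = a := by
    have : q ∈ Vc Q q := mem_Vc.2 ⟨hq, rfl⟩
    rw [ha] at this
    exact Finset.mem_singleton.1 this
  ext x
  rw [mem_Cl, Finset.mem_singleton]
  constructor
  · rintro ⟨hx, hx1, _⟩
    have : x ∈ Vc Q q := mem_Vc.2 ⟨hx, hx1⟩
    rw [ha, ← hqa] at this
    exact Finset.mem_singleton.1 this
  · rintro rfl
    exact ⟨hq, rfl, hne⟩

end RigidAux

namespace Rigid

variable {Q : Finset (ℂ × ℂ)} {β : ℂ × ℂ → ℝ}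

/-- The total sum of every cross vanishes. -/
theorem sum_zero (hR : Rigid Q β) (ξ η : ℂ) :
    ∑ p ∈ Rw Q ξ η, ∑ q ∈ Cl Q ξ η, Phi β p q = 0 := by
  have h := hR.cross ξ η
  rw [KK_eq] at h
  have h2 := (additive_eq_zero _ _ _ _ h).1
  rw [← h2]
  refine Finset.sum_congr rfl fun i hi => ?_
  exact Finset.sum_congr rfl fun j hj => Phi_cross Q β hi hj

/-- Crosses with at least two rows and two columns vanish. -/
theorem zero_of_two (hR : Rigid Q β) {ξ η : ℂ} (h1 : 2 ≤ (Rw Q ξ η).card)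
    (h2 : 2 ≤ (Cl Q ξ η).card) : ∀ p ∈ Rw Q ξ η, ∀ q ∈ Cl Q ξ η, Phi β p q = 0 := by
  intro p hp q hq
  have h := hR.cross ξ η
  rw [KK_eq] at h
  rw [Phi_cross Q β hp hq]
  exact (additive_eq_zero _ _ _ _ h).2 h1 h2 p hp q hq

/-- Pairs `(p, q)` with `p` in a big horizontal class and `q` in a big vertical class. -/
theorem zero_big (hR : Rigid Q β) {p q : ℂ × ℂ} (hp : p ∈ Q) (hq : q ∈ Q)
    (h1 : 3 ≤ (Hc Q p).card) (h2 : 3 ≤ (Vc Q q).card) : Phi β p q = 0 := by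
  by_cases hg : Gen p q
  · have hr := card_Rw_ge Q p q
    have hc := card_Cl_ge Q p q
    exact hR.zero_of_two (ξ := q.1) (η := p.2) (by omega) (by omega) p
      (mem_Rw.2 ⟨hp, rfl, hg.1⟩) q (mem_Cl.2 ⟨hq, rfl, fun h => hg.2 h.symm⟩)
  · exact Phi_of_not_gen β hg

theorem zero_single (hR : Rigid Q β) {p q : ℂ × ℂ} (hp : p ∈ Q) (hq : q ∈ Q)
    (h1 : (Hc Q p).card = 1) (h2 : (Vc Q q).card = 1) : Phi β p q = 0 := by
  by_cases hg : Gen p q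
  · have h := hR.sum_zero q.1 p.2
    rw [Rw_eq_singleton hp h1 hg.1, Cl_eq_singleton hq h2 (fun h => hg.2 h.symm)] at h
    simpa using h
  · exact Phi_of_not_gen β hg

theorem sum_V (hR : Rigid Q β) {p q : ℂ × ℂ} (hp : p ∈ Q) (hq : q ∈ Q)
    (h1 : (Hc Q p).card = 1) (hne : q.1 ≠ p.1) : ∑ s ∈ Vc Q q, Phi β p s = 0 := by
  have h := hR.sum_zero q.1 p.2
  rw [Rw_eq_singleton hp h1 (fun h => hne h.symm), Finset.sum_singleton] at h
  rw [← h]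
  symm
  refine Finset.sum_subset ?_ ?_
  · intro x hx
    obtain ⟨hxQ, hx1, _⟩ := mem_Cl.1 hx
    exact mem_Vc.2 ⟨hxQ, hx1⟩
  · intro x hx hx'
    obtain ⟨hxQ, hx1⟩ := mem_Vc.1 hx
    refine Phi_of_not_gen β ?_
    rintro ⟨_, hg2⟩
    exact hx' (mem_Cl.2 ⟨hxQ, hx1, fun h => hg2 h.symm⟩)

theorem sum_H (hR : Rigid Q β) {p q : ℂ × ℂ} (hp : p ∈ Q) (hq : q ∈ Q)
    (h1 : (Vc Q p).card = 1) (hne : q.2 ≠ p.2) : ∑ s ∈ Hc Q q, Phi β p s = 0 := by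
  have h := hR.sum_zero p.1 q.2
  rw [Cl_eq_singleton hp h1 (fun h => hne h.symm)] at h
  simp only [Finset.sum_singleton] at h
  have h' : ∑ x ∈ Rw Q p.1 q.2, Phi β p x = 0 := by
    rw [← h]
    exact Finset.sum_congr rfl fun x _ => Phi_symm β p x
  rw [← h']
  symm
  refine Finset.sum_subset ?_ ?_
  · intro x hx
    obtain ⟨hxQ, hx2, _⟩ := mem_Rw.1 hx
    exact mem_Hc.2 ⟨hxQ, hx2⟩
  · intro x hx hx'
    obtain ⟨hxQ, hx2⟩ := mem_Hc.1 hx
    refine Phi_of_not_gen β ?_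
    rintro ⟨hg1, _⟩
    exact hx' (mem_Rw.2 ⟨hxQ, hx2, fun h => hg1 h.symm⟩)

end Rigid

end Pool.Agent.Lib.MP_1c7511_co
end
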