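import Pool.Agent.Lib.MP_1c7511_co.Defs
import Pool.Agent.Lib.MP_1c7511_co.Rigid
import Pool.Agent.Lib.MP_1c7511_co.Coords
import Pool.Agent.Lib.MP_1c7511_co.Reduce

section

set_option autoImplicit false

namespace Pool.Agent.Lib.MP_1c7511_co

open Finset

variable {Q : Finset (ℂ × ℂ)}

private theorem ev_swap (A B C D : ℂ) (p : ℂ × ℂ) :
    ev A B C D p.swap = ev A C B D p := by
  simp only [ev, Prod.fst_swap, Prod.snd_swap]
  ring

private theorem gen_swap {p q : ℂ × ℂ} : Gen p.swap q.swap ↔ Gen p q := by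
  simp only [Gen, Prod.fst_swap, Prod.snd_swap]
  exact and_comm

private theorem swap_inj {p q : ℂ × ℂ} (h : p ≠ q) : p.swap ≠ q.swap :=
  fun h' => h (Prod.swap_injective h')

theorem Vc_swap (p : ℂ × ℂ) : (Vc (Q.image Prod.swap) p.swap).card = (Hc Q p).card := by
  have : Vc (Q.image Prod.swap) p.swap = (Hc Q p).image Prod.swap := by
    ext x
    simp only [Vc, Hc, mem_filter, mem_image, Prod.fst_swap]
    constructor
    · rintro ⟨⟨y, hy, rfl⟩, h⟩
      exact ⟨y, ⟨hy, by simpa using h⟩, rfl⟩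
    · rintro ⟨y, ⟨hy, h⟩, rfl⟩
      exact ⟨⟨y, hy, rfl⟩, by simpa using h⟩
  rw [this, card_image_of_injective _ Prod.swap_injective]

theorem Hc_swap (p : ℂ × ℂ) : (Hc (Q.image Prod.swap) p.swap).card = (Vc Q p).card := by
  have : Hc (Q.image Prod.swap) p.swap = (Vc Q p).image Prod.swap := by
    ext x
    simp only [Vc, Hc, mem_filter, mem_image, Prod.snd_swap]
    constructor
    · rintro ⟨⟨y, hy, rfl⟩, h⟩
      exact ⟨y, ⟨hy, by simpa using h⟩, rfl⟩
    · rintro ⟨y, ⟨hy, h⟩, rfl⟩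
      exact ⟨⟨y, hy, rfl⟩, by simpa using h⟩
  rw [this, card_image_of_injective _ Prod.swap_injective]

theorem Conf.swap (h : Conf Q) : Conf (Q.image Prod.swap) where
  four := by
    intro p hp q hq r hr hpq hpr hqr A B C D hne h1 h2 h3
    obtain ⟨p, hp', rfl⟩ := mem_image.1 hp
    obtain ⟨q, hq', rfl⟩ := mem_image.1 hq
    obtain ⟨r, hr', rfl⟩ := mem_image.1 hr
    rw [gen_swap] at hpq hpr hqr
    rw [ev_swap] at h1 h2 h3
    obtain ⟨s, hs, hsp, hsq, hsr, hs0⟩ := h.four p hp' q hq' r hr' hpq hpr hqr A C B D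
      (fun hh => hne ⟨hh.1, hh.2.2.1, hh.2.1, hh.2.2.2⟩) h1 h2 h3
    exact ⟨s.swap, mem_image_of_mem _ hs, swap_inj hsp, swap_inj hsq, swap_inj hsr,
      by rw [ev_swap]; exact hs0⟩
  nocurve := by
    intro A B C D hh
    have := h.nocurve A C B D (fun p hp => by
      rw [← ev_swap]; exact hh _ (mem_image_of_mem _ hp))
    exact ⟨this.1, this.2.2.1, this.2.1, this.2.2.2⟩
  v2 := by
    intro p hp
    obtain ⟨p, hp', rfl⟩ := mem_image.1 hp
    rw [Vc_swap]
    exact h.h2 p hp'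
  h2 := by
    intro p hp
    obtain ⟨p, hp', rfl⟩ := mem_image.1 hp
    rw [Hc_swap]
    exact h.v2 p hp'

end Pool.Agent.Lib.MP_1c7511_co
end

section

set_option autoImplicit false

namespace Pool.Agent.Lib.MP_1c7511_co

open Finset

variable {Q : Finset (ℂ × ℂ)}

theorem mem_Vc {p q : ℂ × ℂ} : q ∈ Vc Q p ↔ q ∈ Q ∧ q.1 = p.1 := by
  simp [Vc]

theorem mem_Hc {p q : ℂ × ℂ} : q ∈ Hc Q p ↔ q ∈ Q ∧ q.2 = p.2 := by
  simp [Hc]

theorem Vc_congr {p q : ℂ × ℂ} (h : q.1 = p.1) : Vc Q q = Vc Q p := by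
  simp [Vc, h]

theorem Hc_congr {p q : ℂ × ℂ} (h : q.2 = p.2) : Hc Q q = Hc Q p := by
  simp [Hc, h]

theorem Vc_pos {p : ℂ × ℂ} (hp : p ∈ Q) : 0 < (Vc Q p).card :=
  Finset.card_pos.2 ⟨p, mem_Vc.2 ⟨hp, rfl⟩⟩

theorem Hc_pos {p : ℂ × ℂ} (hp : p ∈ Q) : 0 < (Hc Q p).card :=
  Finset.card_pos.2 ⟨p, mem_Hc.2 ⟨hp, rfl⟩⟩

theorem Conf.Vc_cases (h : Conf Q) {p : ℂ × ℂ} (hp : p ∈ Q) :
    (Vc Q p).card = 1 ∨ 3 ≤ (Vc Q p).card := by
  have h1 := Vc_pos hp
  have h2 := h.v2 p hp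
  omega

theorem Conf.Hc_cases (h : Conf Q) {p : ℂ × ℂ} (hp : p ∈ Q) :
    (Hc Q p).card = 1 ∨ 3 ≤ (Hc Q p).card := by
  have h1 := Hc_pos hp
  have h2 := h.h2 p hp
  omega

theorem eq_of_Vc_one {i s : ℂ × ℂ} (hi : i ∈ Q) (hV : (Vc Q i).card = 1) (hs : s ∈ Q)
    (h : s.1 = i.1) : s = i :=
  (Finset.card_le_one.1 hV.le) s (mem_Vc.2 ⟨hs, h⟩) i (mem_Vc.2 ⟨hi, rfl⟩)

theorem eq_of_Hc_one {i s : ℂ × ℂ} (hi : i ∈ Q) (hH : (Hc Q i).card = 1) (hs : s ∈ Q)
    (h : s.2 = i.2) : s = i :=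
  (Finset.card_le_one.1 hH.le) s (mem_Hc.2 ⟨hs, h⟩) i (mem_Hc.2 ⟨hi, rfl⟩)

theorem sum_mul_eq_zero {α γ : Type*} [DecidableEq γ] (S : Finset α) (f : α → γ) (g A : α → ℝ)
    (hA : ∀ s ∈ S, ∀ t ∈ S, f s = f t → A s = A t)
    (hg : ∀ s ∈ S, ∑ t ∈ S with f t = f s, g t = 0) : ∑ s ∈ S, g s * A s = 0 := by
  rw [← Finset.sum_fiberwise_of_maps_to (g := f) (t := S.image f)
    (fun x hx => Finset.mem_image_of_mem f hx)]
  apply Finset.sum_eq_zero
  intro y hy
  obtain ⟨s, hs, rfl⟩ := Finset.mem_image.1 hy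
  have h1 : ∑ t ∈ S with f t = f s, g t * A t = ∑ t ∈ S with f t = f s, g t * A s := by
    apply Finset.sum_congr rfl
    intro t ht
    rw [Finset.mem_filter] at ht
    rw [hA t ht.1 s hs ht.2]
  rw [h1, ← Finset.sum_mul, hg s hs, zero_mul]

/-- relation on a cross with big classes -/
theorem big_cross {β : ℂ × ℂ → ℝ} (hR : Rigid Q β) {s j t : ℂ × ℂ} (_hs : s ∈ Q)
    (hV : 3 ≤ (Vc Q s).card) (hH : 3 ≤ (Hc Q s).card) (hj : j ∈ Q) (hj1 : j.1 = s.1) (hjs : j ≠ s)
    (ht : t ∈ Q) (ht2 : t.2 = s.2) (hts : t ≠ s) :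
    Real.log ‖s.2 - j.2‖ + β j = Real.log ‖s.1 - t.1‖ - β t := by
  have hj2 : s.2 ≠ j.2 := fun h => hjs (Prod.ext hj1 h.symm)
  have ht1 : s.1 ≠ t.1 := fun h => hts (Prod.ext h.symm ht2)
  have hg : Gen t j := ⟨by rw [hj1]; exact ht1.symm, by rw [ht2]; exact hj2⟩
  have h0 : Phi β t j = 0 := hR.zero_big ht hj (by rw [Hc_congr ht2]; exact hH)
    (by rw [Vc_congr hj1]; exact hV)
  rw [Phi, if_pos hg, ht2, hj1, norm_sub_rev t.1 s.1] at h0
  linarith

/-- At a point that is alone in both its classes, the gauged function vanishes. -/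
theorem SS_zero (h : Conf Q) {β : ℂ × ℂ → ℝ} (hR : Rigid Q β) {i : ℂ × ℂ} (hi : i ∈ Q)
    (hV : (Vc Q i).card = 1) (hH : (Hc Q i).card = 1) : ∀ s ∈ Q, Phi β i s = 0 := by
  classical
  -- points that are not in two big classes
  have hzero : ∀ s ∈ Q, ¬ (3 ≤ (Vc Q s).card ∧ 3 ≤ (Hc Q s).card) → Phi β i s = 0 := by
    intro s hs hns
    rcases h.Vc_cases hs with h1 | h1
    · exact hR.zero_single hi hs hH h1
    · rcases h.Hc_cases hs with h2 | h2
      · rw [Phi_symm]; exact hR.zero_single hs hi h2 hV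
      · exact absurd ⟨h1, h2⟩ hns
  set S : Finset (ℂ × ℂ) := {s ∈ Q | 3 ≤ (Vc Q s).card ∧ 3 ≤ (Hc Q s).card} with hS
  have hSQ : ∀ s ∈ S, s ∈ Q := fun s hs => (Finset.mem_filter.1 hs).1
  have hSV : ∀ s ∈ S, 3 ≤ (Vc Q s).card := fun s hs => (Finset.mem_filter.1 hs).2.1
  have hSH : ∀ s ∈ S, 3 ≤ (Hc Q s).card := fun s hs => (Finset.mem_filter.1 hs).2.2
  -- other points in big classes
  have hexV : ∀ s ∈ S, ∃ j, j ∈ Q ∧ j.1 = s.1 ∧ j ≠ s := by
    intro s hs
    obtain ⟨j, hj, hjs⟩ := Finset.exists_mem_ne (lt_of_lt_of_le (by norm_num) (hSV s hs)) s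
    exact ⟨j, (mem_Vc.1 hj).1, (mem_Vc.1 hj).2, hjs⟩
  have hexH : ∀ s ∈ S, ∃ t, t ∈ Q ∧ t.2 = s.2 ∧ t ≠ s := by
    intro s hs
    obtain ⟨j, hj, hjs⟩ := Finset.exists_mem_ne (lt_of_lt_of_le (by norm_num) (hSH s hs)) s
    exact ⟨j, (mem_Hc.1 hj).1, (mem_Hc.1 hj).2, hjs⟩
  -- the function k
  let k : ℂ × ℂ → ℝ := fun s => if hs : ∃ j, j ∈ Q ∧ j.1 = s.1 ∧ j ≠ s then
    Real.log ‖s.2 - (Classical.choose hs).2‖ + β (Classical.choose hs) else 0
  have k2 : ∀ s ∈ S, ∀ t ∈ Q, t.2 = s.2 → t ≠ s → k s = Real.log ‖s.1 - t.1‖ - β t := by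
    intro s hs t ht ht2 hts
    have hx := hexV s hs
    have hc := Classical.choose_spec hx
    simp only [k, dif_pos hx]
    exact big_cross hR (hSQ s hs) (hSV s hs) (hSH s hs) hc.1 hc.2.1 hc.2.2 ht ht2 hts
  have k1 : ∀ s ∈ S, ∀ j ∈ Q, j.1 = s.1 → j ≠ s → k s = Real.log ‖s.2 - j.2‖ + β j := by
    intro s hs j hj hj1 hjs
    obtain ⟨t, ht, ht2, hts⟩ := hexH s hs
    rw [k2 s hs t ht ht2 hts]
    exact (big_cross hR (hSQ s hs) (hSV s hs) (hSH s hs) hj hj1 hjs ht ht2 hts).symm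
  have hc : ∀ s ∈ S, ∀ t ∈ S, s.1 = t.1 → k s + β s = k t + β t := by
    intro s hs t ht hst
    by_cases he : s = t
    · rw [he]
    · rw [k1 s hs t (hSQ t ht) hst.symm (Ne.symm he), k1 t ht s (hSQ s hs) hst he,
        norm_sub_rev]
      ring
  have hd : ∀ s ∈ S, ∀ t ∈ S, s.2 = t.2 → k s - β s = k t - β t := by
    intro s hs t ht hst
    by_cases he : s = t
    · rw [he]
    · rw [k2 s hs t (hSQ t ht) hst.symm (Ne.symm he), k2 t ht s (hSQ s hs) hst he,
        norm_sub_rev]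
      ring
  have hne1 : ∀ s ∈ S, s.1 ≠ i.1 := by
    intro s hs he
    have := hSV s hs
    rw [Vc_congr he, hV] at this
    omega
  have hne2 : ∀ s ∈ S, s.2 ≠ i.2 := by
    intro s hs he
    have := hSH s hs
    rw [Hc_congr he, hH] at this
    omega
  -- the sum of squares
  have hg : ∀ s ∈ S, Phi β i s = (Real.log ‖i.2 - s.2‖ - (k s - β s) / 2 + β i)
      + (-Real.log ‖i.1 - s.1‖ + (k s + β s) / 2) := by
    intro s hs
    have hG : Gen i s := ⟨(hne1 s hs).symm, (hne2 s hs).symm⟩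
    rw [Phi, if_pos hG]
    ring
  have hsum1 : ∑ s ∈ S, Phi β i s * (Real.log ‖i.2 - s.2‖ - (k s - β s) / 2 + β i) = 0 := by
    apply sum_mul_eq_zero S (fun s => s.2) (fun s => Phi β i s)
    · intro s hs t ht hst
      have hst' : s.2 = t.2 := hst
      rw [hst', hd s hs t ht hst']
    · intro s hs
      rw [← hR.sum_H hi (hSQ s hs) hV (hne2 s hs)]
      apply Finset.sum_subset
      · intro t ht
        rw [Finset.mem_filter] at ht
        exact mem_Hc.2 ⟨hSQ t ht.1, ht.2⟩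
      · intro t ht hnt
        rw [mem_Hc] at ht
        apply hzero t ht.1
        intro hcon
        exact hnt (Finset.mem_filter.2 ⟨Finset.mem_filter.2 ⟨ht.1, hcon⟩, ht.2⟩)
  have hsum2 : ∑ s ∈ S, Phi β i s * (-Real.log ‖i.1 - s.1‖ + (k s + β s) / 2) = 0 := by
    apply sum_mul_eq_zero S (fun s => s.1) (fun s => Phi β i s)
    · intro s hs t ht hst
      have hst' : s.1 = t.1 := hst
      rw [hst', hc s hs t ht hst']
    · intro s hs
      rw [← hR.sum_V hi (hSQ s hs) hH (hne1 s hs)]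
      apply Finset.sum_subset
      · intro t ht
        rw [Finset.mem_filter] at ht
        exact mem_Vc.2 ⟨hSQ t ht.1, ht.2⟩
      · intro t ht hnt
        rw [mem_Vc] at ht
        apply hzero t ht.1
        intro hcon
        exact hnt (Finset.mem_filter.2 ⟨Finset.mem_filter.2 ⟨ht.1, hcon⟩, ht.2⟩)
  have hsq : ∑ s ∈ S, Phi β i s ^ 2 = 0 := by
    have : ∑ s ∈ S, Phi β i s ^ 2
        = ∑ s ∈ S, Phi β i s * (Real.log ‖i.2 - s.2‖ - (k s - β s) / 2 + β i)
          + ∑ s ∈ S, Phi β i s * (-Real.log ‖i.1 - s.1‖ + (k s + β s) / 2) := by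
      rw [← Finset.sum_add_distrib]
      apply Finset.sum_congr rfl
      intro s hs
      rw [← mul_add, ← hg s hs, sq]
    rw [this, hsum1, hsum2, add_zero]
  intro s hs
  by_cases hsS : s ∈ S
  · have := (Finset.sum_eq_zero_iff_of_nonneg (fun s _ => sq_nonneg (Phi β i s))).1 hsq s hsS
    exact pow_eq_zero_iff (two_ne_zero) |>.1 this
  · exact hzero s hs (fun hcon => hsS (Finset.mem_filter.2 ⟨hs, hcon⟩))

theorem mem_ch {c : ℝ} {j p : ℂ × ℂ} : p ∈ ch c Q j ↔ ∃ q ∈ Q, Gen j q ∧ chm c j q = p := by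
  unfold ch
  simp only [Finset.mem_image, Finset.mem_filter]
  constructor
  · rintro ⟨q, ⟨h1, h2⟩, h3⟩; exact ⟨q, h1, h2, h3⟩
  · rintro ⟨q, h1, h2, h3⟩; exact ⟨q, ⟨h1, h2⟩, h3⟩

theorem Vc_ch {c : ℝ} {j q : ℂ × ℂ} (hq : Gen j q) :
    Vc (ch c Q j) (chm c j q) = ({p ∈ Vc Q q | Gen j p}).image (chm c j) := by
  ext p
  rw [mem_Vc, mem_ch]
  simp only [Finset.mem_image, Finset.mem_filter, mem_Vc]
  constructor
  · rintro ⟨⟨p', h1, h2, rfl⟩, h3⟩
    exact ⟨p', ⟨⟨h1, (chm_fst h2 hq).1 h3⟩, h2⟩, rfl⟩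
  · rintro ⟨p', ⟨⟨h1, h3⟩, h2⟩, rfl⟩
    exact ⟨⟨p', h1, h2, rfl⟩, (chm_fst h2 hq).2 h3⟩

theorem Hc_ch {c : ℝ} (hc : 0 < c) {j q : ℂ × ℂ} (hq : Gen j q) :
    Hc (ch c Q j) (chm c j q) = ({p ∈ Hc Q q | Gen j p}).image (chm c j) := by
  ext p
  rw [mem_Hc, mem_ch]
  simp only [Finset.mem_image, Finset.mem_filter, mem_Hc]
  constructor
  · rintro ⟨⟨p', h1, h2, rfl⟩, h3⟩
    exact ⟨p', ⟨⟨h1, (chm_snd hc h2 hq).1 h3⟩, h2⟩, rfl⟩
  · rintro ⟨p', ⟨⟨h1, h3⟩, h2⟩, rfl⟩
    exact ⟨⟨p', h1, h2, rfl⟩, (chm_snd hc h2 hq).2 h3⟩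

theorem card_image_chm {c : ℝ} (hc : 0 < c) {j : ℂ × ℂ} (S : Finset (ℂ × ℂ)) :
    (({p ∈ S | Gen j p}).image (chm c j)).card = ({p ∈ S | Gen j p}).card := by
  apply Finset.card_image_of_injOn
  intro p hp q hq hpq
  have hp' : p ∈ {p ∈ S | Gen j p} := hp
  have hq' : q ∈ {p ∈ S | Gen j p} := hq
  exact chm_inj hc (Finset.mem_filter.1 hp').2 (Finset.mem_filter.1 hq').2 hpq

/-- A single point excludes big vertical classes. -/
theorem noSS_aux (h : Conf Q) {i : ℂ × ℂ} (hi : i ∈ Q)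
    (hV : (Vc Q i).card = 1) (hH : (Hc Q i).card = 1) {p0 : ℂ × ℂ} (hp0 : p0 ∈ Q)
    (h3 : 3 ≤ (Vc Q p0).card) : False := by
  classical
  obtain ⟨β, hR⟩ := exists_rigid Q h.four
  have hz := SS_zero h hR hi hV hH
  have hgen : ∀ s ∈ Q, s ≠ i → Gen i s := by
    intro s hs hsi
    exact ⟨fun he => hsi (eq_of_Vc_one hi hV hs he.symm),
      fun he => hsi (eq_of_Hc_one hi hH hs he.symm)⟩
  set c : ℝ := Real.exp (-2 * β i) with hcdef
  have hc : 0 < c := Real.exp_pos _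
  have hiso := chart_isom hR hi hz
  have hthird := chart_third (c := c) h.four hi hc
  have hp0i : p0 ≠ i := by
    rintro rfl
    omega
  have hg0 := hgen p0 hp0 hp0i
  have hVcard : ∀ q ∈ Q, q ≠ i → (Vc (ch c Q i) (chm c i q)).card = (Vc Q q).card := by
    intro q hq hqi
    rw [Vc_ch (hgen q hq hqi), card_image_chm hc]
    congr 1
    apply Finset.filter_true_of_mem
    intro p hp
    rw [mem_Vc] at hp
    apply hgen p hp.1
    rintro rfl
    exact (hgen q hq hqi).1 hp.2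
  have hHcard : ∀ q ∈ Q, q ≠ i → (Hc (ch c Q i) (chm c i q)).card = (Hc Q q).card := by
    intro q hq hqi
    rw [Hc_ch hc (hgen q hq hqi), card_image_chm hc]
    congr 1
    apply Finset.filter_true_of_mem
    intro p hp
    rw [mem_Hc] at hp
    apply hgen p hp.1
    rintro rfl
    exact (hgen q hq hqi).2 hp.2
  have hall : ∀ q ∈ ch c Q i, q.1 = (chm c i p0).1 := by
    apply fiber_three hiso hthird (mem_ch.2 ⟨p0, hp0, hg0, rfl⟩)
    · rw [hVcard p0 hp0 hp0i]; exact h3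
    · intro p hp
      rw [mem_Vc, mem_ch] at hp
      obtain ⟨⟨q, hq, hgq, rfl⟩, -⟩ := hp
      have hqi : q ≠ i := by
        rintro rfl
        exact hgq.1 rfl
      rw [hHcard q hq hqi]
      exact h.h2 q hq
  -- everything is on the curve (x - p0.1) (y - i.2) = 0
  have := h.nocurve 1 (-i.2) (-p0.1) (p0.1 * i.2) (by
    intro p hp
    by_cases hpi : p = i
    · subst hpi; unfold ev; ring
    · have h1 := hall (chm c i p) (mem_ch.2 ⟨p, hp, hgen p hp hpi, rfl⟩)
      have h2 : p.1 = p0.1 := (chm_fst (hgen p hp hpi) hg0).1 h1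
      unfold ev; rw [h2]; ring)
  exact one_ne_zero this.1

/-- No point of a configuration is alone in both its classes. -/
theorem noSS (h : Conf Q) : ∀ p ∈ Q, ¬ ((Vc Q p).card = 1 ∧ (Hc Q p).card = 1) := by
  classical
  rintro i hi ⟨hV, hH⟩
  have hVs : ∀ p ∈ Q, (Vc Q p).card = 1 := by
    intro p hp
    rcases h.Vc_cases hp with h1 | h1
    · exact h1
    · exact (noSS_aux h hi hV hH hp h1).elim
  have hHs : ∀ p ∈ Q, (Hc Q p).card = 1 := by
    intro p hp
    rcases h.Hc_cases hp with h1 | h1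
    · exact h1
    · exfalso
      apply noSS_aux h.swap (i := i.swap) (Finset.mem_image_of_mem _ hi)
        (by rw [Vc_swap]; exact hH) (by rw [Hc_swap]; exact hV)
        (p0 := p.swap) (Finset.mem_image_of_mem _ hp) (by rw [Vc_swap]; exact h1)
  obtain ⟨β, hR⟩ := exists_rigid Q h.four
  have hz := SS_zero h hR hi hV hH
  have hgen : ∀ s ∈ Q, ∀ t ∈ Q, s ≠ t → Gen s t := by
    intro s hs t ht hst
    exact ⟨fun he => hst (eq_of_Vc_one ht (hVs t ht) hs he),
      fun he => hst (eq_of_Hc_one ht (hHs t ht) hs he)⟩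
  set c : ℝ := Real.exp (-2 * β i) with hcdef
  have hc : 0 < c := Real.exp_pos _
  have hiso := chart_isom hR hi hz
  have hthird := chart_third (c := c) h.four hi hc
  have hiso' : ∀ p ∈ ch c Q i, ∀ q ∈ ch c Q i, ‖p.1 - q.1‖ = ‖p.2 - q.2‖ := by
    intro p hp q hq
    by_cases hpq : p = q
    · rw [hpq]; simp
    · apply hiso p hp q hq
      obtain ⟨p', hp', hgp, rfl⟩ := mem_ch.1 hp
      obtain ⟨q', hq', hgq, rfl⟩ := mem_ch.1 hq
      have hne : p' ≠ q' := fun he => hpq (by rw [he])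
      have hG := hgen p' hp' q' hq' hne
      exact ⟨fun he => hG.1 ((chm_fst hgp hgq).1 he), fun he => hG.2 ((chm_snd hc hgp hgq).1 he)⟩
  obtain ⟨a, b, hab⟩ := iso_line hiso' hthird
  have := h.nocurve b (-b * i.2 - c) (a - b * i.1) (b * i.1 * i.2 + c * i.1 - a * i.2) (by
    intro p hp
    by_cases hpi : p = i
    · subst hpi; unfold ev; ring
    · have hg := hgen i hi p hp (Ne.symm hpi)
      have h1 := hab (chm c i p) (mem_ch.2 ⟨p, hp, hg, rfl⟩)
      simp only [chm] at h1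
      have hx : p.1 - i.1 ≠ 0 := sub_ne_zero.2 hg.1.symm
      have hy : p.2 - i.2 ≠ 0 := sub_ne_zero.2 hg.2.symm
      field_simp at h1
      unfold ev
      linear_combination -h1)
  have h1 : b = 0 := this.1
  have h2 := this.2.1
  rw [h1] at h2
  have hc0 : (c : ℂ) = 0 := by linear_combination -h2
  exact hc.ne' (by exact_mod_cast hc0)

end Pool.Agent.Lib.MP_1c7511_co
end

section

set_option autoImplicit false

namespace Pool.Agent.Lib.MP_1c7511_co

open Finset

variable {Q : Finset (ℂ × ℂ)}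

theorem Gen.symm {p q : ℂ × ℂ} (h : Gen p q) : Gen q p := ⟨h.1.symm, h.2.symm⟩

/-- The block of a generic triple has a fourth point, generic to the three given ones. -/
theorem four_gen (h4 : Four Q) {p q r : ℂ × ℂ} (hp : p ∈ Q) (hq : q ∈ Q) (hr : r ∈ Q)
    (hpq : Gen p q) (hpr : Gen p r) (hqr : Gen q r) :
    ∃ s ∈ Q, Gen p s ∧ Gen q s ∧ Gen r s := by
  have e1 : q.1 - r.1 ≠ 0 := sub_ne_zero.2 hqr.1
  have e2 : q.2 - p.2 ≠ 0 := sub_ne_zero.2 hpq.2.symm
  have e3 : q.1 - p.1 ≠ 0 := sub_ne_zero.2 hpq.1.symm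
  have e4 : q.2 - r.2 ≠ 0 := sub_ne_zero.2 hqr.2
  have e5 : p.1 - r.1 ≠ 0 := sub_ne_zero.2 hpr.1
  have e6 : p.2 - r.2 ≠ 0 := sub_ne_zero.2 hpr.2
  set a : ℂ := (q.1 - r.1) * (q.2 - p.2) with ha
  set b : ℂ := (q.1 - p.1) * (q.2 - r.2) with hb
  have ha0 : a ≠ 0 := mul_ne_zero e1 e2
  have hb0 : b ≠ 0 := mul_ne_zero e3 e4
  obtain ⟨s, hs, hsp, hsq, hsr, hev⟩ := h4 p hp q hq r hr hpq hpr hqr
    (a - b) (-a * r.2 + b * p.2) (-a * p.1 + b * r.1) (a * p.1 * r.2 - b * r.1 * p.2)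
    (by
      rintro ⟨h1, h2, -, -⟩
      have hab : a = b := sub_eq_zero.1 h1
      rw [← hab] at h2
      have : a * (p.2 - r.2) = 0 := by linear_combination h2
      rcases mul_eq_zero.1 this with h | h
      · exact ha0 h
      · exact e6 h)
    (by unfold ev; ring)
    (by unfold ev; rw [ha, hb]; ring)
    (by unfold ev; ring)
  have key : a * ((s.1 - p.1) * (s.2 - r.2)) = b * ((s.1 - r.1) * (s.2 - p.2)) := by
    unfold ev at hev
    linear_combination hev
  refine ⟨s, hs, ⟨fun h => ?_, fun h => ?_⟩, ⟨fun h => ?_, fun h => ?_⟩, ⟨fun h => ?_, fun h => ?_⟩⟩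
  · -- p.1 = s.1
    rw [← h] at key
    have : b * ((p.1 - r.1) * (s.2 - p.2)) = 0 := by linear_combination -key
    have h2 : s.2 - p.2 = 0 := by
      rcases mul_eq_zero.1 this with h' | h'
      · exact absurd h' hb0
      · rcases mul_eq_zero.1 h' with h'' | h''
        · exact absurd h'' e5
        · exact h''
    exact hsp (Prod.ext h.symm (sub_eq_zero.1 h2))
  · rw [← h] at key
    have : a * ((s.1 - p.1) * (p.2 - r.2)) = 0 := by linear_combination key
    have h2 : s.1 - p.1 = 0 := by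
      rcases mul_eq_zero.1 this with h' | h'
      · exact absurd h' ha0
      · rcases mul_eq_zero.1 h' with h'' | h''
        · exact h''
        · exact absurd h'' e6
    exact hsp (Prod.ext (sub_eq_zero.1 h2) h.symm)
  · -- q.1 = s.1
    rw [← h, ha, hb] at key
    have : (q.1 - r.1) * ((q.1 - p.1) * ((s.2 - q.2) * (p.2 - r.2))) = 0 := by
      linear_combination -key
    have h2 : s.2 - q.2 = 0 := by
      rcases mul_eq_zero.1 this with h' | h'
      · exact absurd h' e1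
      · rcases mul_eq_zero.1 h' with h'' | h''
        · exact absurd h'' e3
        · rcases mul_eq_zero.1 h'' with h3 | h3
          · exact h3
          · exact absurd h3 e6
    exact hsq (Prod.ext h.symm (sub_eq_zero.1 h2))
  · rw [← h, ha, hb] at key
    have : (q.2 - p.2) * ((q.2 - r.2) * ((s.1 - q.1) * (p.1 - r.1))) = 0 := by
      linear_combination key
    have h2 : s.1 - q.1 = 0 := by
      rcases mul_eq_zero.1 this with h' | h'
      · exact absurd h' e2
      · rcases mul_eq_zero.1 h' with h'' | h''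
        · exact absurd h'' e4
        · rcases mul_eq_zero.1 h'' with h3 | h3
          · exact h3
          · exact absurd h3 e5
    exact hsq (Prod.ext (sub_eq_zero.1 h2) h.symm)
  · -- r.1 = s.1
    rw [← h] at key
    have : a * ((p.1 - r.1) * (s.2 - r.2)) = 0 := by linear_combination -key
    have h2 : s.2 - r.2 = 0 := by
      rcases mul_eq_zero.1 this with h' | h'
      · exact absurd h' ha0
      · rcases mul_eq_zero.1 h' with h'' | h''
        · exact absurd h'' e5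
        · exact h''
    exact hsr (Prod.ext h.symm (sub_eq_zero.1 h2))
  · rw [← h] at key
    have : b * ((s.1 - r.1) * (p.2 - r.2)) = 0 := by linear_combination key
    have h2 : s.1 - r.1 = 0 := by
      rcases mul_eq_zero.1 this with h' | h'
      · exact absurd h' hb0
      · rcases mul_eq_zero.1 h' with h'' | h''
        · exact h''
        · exact absurd h'' e6
    exact hsr (Prod.ext (sub_eq_zero.1 h2) h.symm)

/-- A point in two big classes is rigid towards everything. -/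
theorem BB_zero (h : Conf Q) {β : ℂ × ℂ → ℝ} (hR : Rigid Q β) {j : ℂ × ℂ} (hj : j ∈ Q)
    (hV : 3 ≤ (Vc Q j).card) (hH : 3 ≤ (Hc Q j).card) : ∀ s ∈ Q, Phi β j s = 0 := by
  intro s hs
  rcases h.Vc_cases hs with h1 | h1
  · rcases h.Hc_cases hs with h2 | h2
    · exact absurd ⟨h1, h2⟩ (noSS h s hs)
    · rw [Phi_symm]; exact hR.zero_big hs hj h2 hV
  · exact hR.zero_big hj hs hH h1

theorem exists_Hc_avoid {j : ℂ × ℂ} (hH : 3 ≤ (Hc Q j).card) (x y : ℂ) :
    ∃ t ∈ Hc Q j, t.1 ≠ x ∧ t.1 ≠ y := by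
  classical
  by_contra hcon
  push Not at hcon
  have hle : (Hc Q j).card ≤ ({x, y} : Finset ℂ).card := by
    apply Finset.card_le_card_of_injOn (fun t => t.1)
    · intro t ht
      have ht' : t ∈ Hc Q j := ht
      simp only [Finset.coe_insert, Finset.coe_singleton, Set.mem_insert_iff,
        Set.mem_singleton_iff]
      by_cases h1 : t.1 = x
      · exact Or.inl h1
      · exact Or.inr (hcon t ht' h1)
    · intro s hs t ht hst
      have hs' := (mem_Hc.1 (show s ∈ Hc Q j from hs)).2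
      have ht' := (mem_Hc.1 (show t ∈ Hc Q j from ht)).2
      exact Prod.ext hst (hs'.trans ht'.symm)
  have := Finset.card_le_two (a := x) (b := y)
  omega

theorem exists_Vc_avoid {j : ℂ × ℂ} (hV : 3 ≤ (Vc Q j).card) (x y : ℂ) :
    ∃ t ∈ Vc Q j, t.2 ≠ x ∧ t.2 ≠ y := by
  classical
  by_contra hcon
  push Not at hcon
  have hle : (Vc Q j).card ≤ ({x, y} : Finset ℂ).card := by
    apply Finset.card_le_card_of_injOn (fun t => t.2)
    · intro t ht
      have ht' : t ∈ Vc Q j := ht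
      simp only [Finset.coe_insert, Finset.coe_singleton, Set.mem_insert_iff,
        Set.mem_singleton_iff]
      by_cases h1 : t.2 = x
      · exact Or.inl h1
      · exact Or.inr (hcon t ht' h1)
    · intro s hs t ht hst
      have hs' := (mem_Vc.1 (show s ∈ Vc Q j from hs)).2
      have ht' := (mem_Vc.1 (show t ∈ Vc Q j from ht)).2
      exact Prod.ext (hs'.trans ht'.symm) hst
  have := Finset.card_le_two (a := x) (b := y)
  omega

/-- Not all points generic to a doubly big point lie on one vertical line. -/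
theorem not_three_lines (h : Conf Q) {j : ℂ × ℂ} (_hj : j ∈ Q)
    (hV : 3 ≤ (Vc Q j).card) (hH : 3 ≤ (Hc Q j).card) {t : ℂ × ℂ} (ht : t ∈ Q) (hg : Gen j t)
    (hall : ∀ s ∈ Q, Gen j s → s.1 = t.1) : False := by
  obtain ⟨u, hu, hu1, hu2⟩ := exists_Hc_avoid hH j.1 t.1
  obtain ⟨w, hw, hw1, hw2⟩ := exists_Vc_avoid hV j.2 t.2
  rw [mem_Hc] at hu
  rw [mem_Vc] at hw
  have g1 : Gen w t := ⟨by rw [hw.2]; exact hg.1, hw2⟩
  have g2 : Gen w u := ⟨by rw [hw.2]; exact hu1.symm, by rw [hu.2]; exact hw1⟩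
  have g3 : Gen t u := ⟨hu2.symm, by rw [hu.2]; exact hg.2.symm⟩
  obtain ⟨s, hs, s1, s2, s3⟩ := four_gen h.four hw.1 ht hu.1 g1 g2 g3
  have hgs : Gen j s := ⟨by rw [← hw.2]; exact s1.1, by rw [← hu.2]; exact s3.2⟩
  exact s2.1 (hall s hs hgs).symm

/-- Seen from a point in two big classes, every other vertical class has at most two points off
the horizontal line of this point. -/
theorem BB_fiber (h : Conf Q) {j : ℂ × ℂ} (hj : j ∈ Q)
    (hV : 3 ≤ (Vc Q j).card) (hH : 3 ≤ (Hc Q j).card) {p : ℂ × ℂ}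
    (hne : p.1 ≠ j.1) : (Cl Q p.1 j.2).card ≤ 2 := by
  classical
  by_contra hcon
  push Not at hcon
  obtain ⟨β, hR⟩ := exists_rigid Q h.four
  have hz := BB_zero h hR hj hV hH
  set c : ℝ := Real.exp (-2 * β j) with hcdef
  have hc : 0 < c := Real.exp_pos _
  have hiso := chart_isom hR hj hz
  have hthird := chart_third (c := c) h.four hj hc
  obtain ⟨p0, hp0⟩ : (Cl Q p.1 j.2).Nonempty := Finset.card_pos.1 (by omega)
  have hp0' : p0 ∈ Q ∧ p0.1 = p.1 ∧ p0.2 ≠ j.2 := by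
    simpa [Cl, and_assoc] using hp0
  have hg0 : Gen j p0 := ⟨by rw [hp0'.2.1]; exact hne.symm, hp0'.2.2.symm⟩
  have hfib : ({q ∈ Vc Q p0 | Gen j q}) = Cl Q p.1 j.2 := by
    ext q
    rw [Finset.mem_filter, mem_Vc, Cl, Finset.mem_filter, hp0'.2.1]
    constructor
    · rintro ⟨⟨h1, h2⟩, h3, h4⟩; exact ⟨h1, h2, h4.symm⟩
    · rintro ⟨h1, h2, h3⟩; exact ⟨⟨h1, h2⟩, by rw [h2]; exact hne.symm, h3.symm⟩
  have hcard : 3 ≤ (Vc (ch c Q j) (chm c j p0)).card := by
    rw [Vc_ch hg0, card_image_chm hc, hfib]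
    omega
  have hmem0 : chm c j p0 ∈ ch c Q j := mem_ch.2 ⟨p0, hp0'.1, hg0, rfl⟩
  by_cases hcase : ∀ p ∈ Vc (ch c Q j) (chm c j p0), (Hc (ch c Q j) p).card ≠ 2
  · have hall := fiber_three hiso hthird hmem0 hcard hcase
    apply not_three_lines h hj hV hH hp0'.1 hg0
    intro s hs hgs
    exact (chm_fst hgs hg0).1 (hall _ (mem_ch.2 ⟨s, hs, hgs, rfl⟩))
  · push Not at hcase
    obtain ⟨p1', hp1', hcard2⟩ := hcase
    have hp1'2 := hp1'
    rw [mem_Vc, mem_ch] at hp1'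
    obtain ⟨⟨p1, hp1, hg1, rfl⟩, hfst⟩ := hp1'
    rw [Hc_ch hc hg1, card_image_chm hc] at hcard2
    -- a further point of the horizontal class, on the vertical line of j
    have hlt : ({q ∈ Hc Q p1 | Gen j q}).card < (Hc Q p1).card := by
      have h1 : ({q ∈ Hc Q p1 | Gen j q}).card ≤ (Hc Q p1).card := Finset.card_filter_le _ _
      have h2 := h.h2 p1 hp1
      omega
    have hH1 : 3 ≤ (Hc Q p1).card := by
      have h2 := h.h2 p1 hp1
      omega
    obtain ⟨k, hk, hkn⟩ : ∃ k ∈ Hc Q p1, ¬ Gen j k := by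
      by_contra hall
      push Not at hall
      have : ({q ∈ Hc Q p1 | Gen j q}) = Hc Q p1 := Finset.filter_true_of_mem hall
      rw [this] at hlt
      exact lt_irrefl _ hlt
    rw [mem_Hc] at hk
    have hk2 : k.2 ≠ j.2 := by rw [hk.2]; exact hg1.2.symm
    have hk1 : k.1 = j.1 := by
      by_contra hne'
      exact hkn ⟨fun e => hne' e.symm, hk2.symm⟩
    have hkz := BB_zero h hR hk.1 (by rw [Vc_congr hk1]; exact hV)
      (by rw [Hc_congr hk.2]; exact hH1)
    obtain ⟨r, hr⟩ := chart_circle hj hk.1 hk1 hk2 hz hkz hc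
    -- the other point of the horizontal class
    obtain ⟨q0, hq0, hq0n⟩ := Finset.exists_mem_ne (by rw [hcard2]; norm_num) p1
    rw [Finset.mem_filter, mem_Hc] at hq0
    have hx : (chm c j q0).1 ≠ (chm c j p0).1 := by
      rw [← hfst]
      intro he
      have := (chm_fst hq0.2 hg1).1 he
      exact hq0n (Prod.ext this hq0.1.2)
    refine fiber_circle hiso hthird hmem0 hcard hp1'2
      (mem_ch.2 ⟨q0, hq0.1.1, hq0.2, rfl⟩) hx ((chm_snd hc hq0.2 hg1).2 hq0.1.2) (r := r) ?_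
    intro q hq hqne
    obtain ⟨q', hq', hgq, rfl⟩ := mem_ch.1 hq
    have h1 : q'.2 ≠ k.2 := by
      intro he
      apply hqne
      rw [chm_snd hc hgq hg1, he, hk.2]
    have h2 := hr q' hq' hgq h1
    simp only [chm]
    rw [← hk.2]
    exact h2

/-- Transposed version of `BB_fiber`. -/
theorem BB_fiber' (h : Conf Q) {j : ℂ × ℂ} (hj : j ∈ Q)
    (hV : 3 ≤ (Vc Q j).card) (hH : 3 ≤ (Hc Q j).card) {p : ℂ × ℂ}
    (hne : p.2 ≠ j.2) : (Rw Q j.1 p.2).card ≤ 2 := by
  classical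
  have h1 := BB_fiber h.swap (j := j.swap) (Finset.mem_image_of_mem _ hj)
    (by rw [Vc_swap]; exact hH) (by rw [Hc_swap]; exact hV) (p := p.swap) hne
  have h2 : Cl (Q.image Prod.swap) p.swap.1 j.swap.2 = (Rw Q j.1 p.2).image Prod.swap := by
    ext q
    simp only [Cl, Rw, Finset.mem_filter, Finset.mem_image, Prod.fst_swap, Prod.snd_swap]
    constructor
    · rintro ⟨⟨a, ha, rfl⟩, h3, h4⟩
      exact ⟨a, ⟨ha, h3, h4⟩, rfl⟩
    · rintro ⟨a, ⟨ha, h3, h4⟩, rfl⟩
      exact ⟨⟨a, ha, rfl⟩, h3, h4⟩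
  rw [h2, Finset.card_image_of_injective _ Prod.swap_injective] at h1
  exact h1

theorem two_of_big (h : Conf Q) {j : ℂ × ℂ} (hj : j ∈ Q)
    (hV : 3 ≤ (Vc Q j).card) (hH : 3 ≤ (Hc Q j).card) {p : ℂ × ℂ}
    (hne : p.1 ≠ j.1) (hp : 3 ≤ (Vc Q p).card) :
    (Cl Q p.1 j.2).card = 2 ∧ ∃ t ∈ Q, t.1 = p.1 ∧ t.2 = j.2 := by
  classical
  have h1 := BB_fiber h hj hV hH hne
  have h2 : Vc Q p = Cl Q p.1 j.2 ∪ {q ∈ Q | q.1 = p.1 ∧ q.2 = j.2} := by
    ext q
    simp only [Vc, Cl, Finset.mem_filter, Finset.mem_union]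
    tauto
  have h3 : ({q ∈ Q | q.1 = p.1 ∧ q.2 = j.2}).card ≤ 1 := by
    apply Finset.card_le_one.2
    intro a ha b hb
    rw [Finset.mem_filter] at ha hb
    exact Prod.ext (ha.2.1.trans hb.2.1.symm) (ha.2.2.trans hb.2.2.symm)
  have h4 := Finset.card_union_le (Cl Q p.1 j.2) {q ∈ Q | q.1 = p.1 ∧ q.2 = j.2}
  rw [← h2] at h4
  refine ⟨by omega, ?_⟩
  have h5 : 0 < ({q ∈ Q | q.1 = p.1 ∧ q.2 = j.2}).card := by omega
  obtain ⟨t, ht⟩ := Finset.card_pos.1 h5
  rw [Finset.mem_filter] at ht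
  exact ⟨t, ht.1, ht.2⟩

theorem two_of_big' (h : Conf Q) {j : ℂ × ℂ} (hj : j ∈ Q)
    (hV : 3 ≤ (Vc Q j).card) (hH : 3 ≤ (Hc Q j).card) {p : ℂ × ℂ}
    (hne : p.2 ≠ j.2) (hp : 3 ≤ (Hc Q p).card) :
    (Rw Q j.1 p.2).card = 2 ∧ ∃ t ∈ Q, t.1 = j.1 ∧ t.2 = p.2 := by
  classical
  have h1 := BB_fiber' h hj hV hH hne
  have h2 : Hc Q p = Rw Q j.1 p.2 ∪ {q ∈ Q | q.1 = j.1 ∧ q.2 = p.2} := by
    ext q
    simp only [Hc, Rw, Finset.mem_filter, Finset.mem_union]
    tauto
  have h3 : ({q ∈ Q | q.1 = j.1 ∧ q.2 = p.2}).card ≤ 1 := by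
    apply Finset.card_le_one.2
    intro a ha b hb
    rw [Finset.mem_filter] at ha hb
    exact Prod.ext (ha.2.1.trans hb.2.1.symm) (ha.2.2.trans hb.2.2.symm)
  have h4 := Finset.card_union_le (Rw Q j.1 p.2) {q ∈ Q | q.1 = j.1 ∧ q.2 = p.2}
  rw [← h2] at h4
  refine ⟨by omega, ?_⟩
  have h5 : 0 < ({q ∈ Q | q.1 = j.1 ∧ q.2 = p.2}).card := by omega
  obtain ⟨t, ht⟩ := Finset.card_pos.1 h5
  rw [Finset.mem_filter] at ht
  exact ⟨t, ht.1, ht.2⟩

/-- All big vertical classes meet all big horizontal classes. -/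
theorem big_meet (h : Conf Q) {j : ℂ × ℂ} (hj : j ∈ Q)
    (hV : 3 ≤ (Vc Q j).card) (hH : 3 ≤ (Hc Q j).card) {p q : ℂ × ℂ}
    (hp : 3 ≤ (Vc Q p).card) (hq : 3 ≤ (Hc Q q).card) :
    ∃ t ∈ Q, t.1 = p.1 ∧ t.2 = q.2 := by
  by_cases h1 : p.1 = j.1
  · by_cases h2 : q.2 = j.2
    · exact ⟨j, hj, h1.symm, h2.symm⟩
    · obtain ⟨-, t, ht, ht1, ht2⟩ := two_of_big' h hj hV hH h2 hq
      exact ⟨t, ht, by rw [ht1, h1], ht2⟩
  · obtain ⟨-, t, ht, ht1, ht2⟩ := two_of_big h hj hV hH h1 hp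
    by_cases h2 : q.2 = j.2
    · exact ⟨t, ht, ht1, by rw [ht2, h2]⟩
    · have hV' : 3 ≤ (Vc Q t).card := by rw [Vc_congr ht1]; exact hp
      have hH' : 3 ≤ (Hc Q t).card := by rw [Hc_congr ht2]; exact hH
      obtain ⟨-, s, hs, hs1, hs2⟩ := two_of_big' h ht hV' hH' (p := q) (by rw [ht2]; exact h2) hq
      exact ⟨s, hs, by rw [hs1, ht1], hs2⟩

/-- The main step: a point generic to a doubly big point has a single vertical class. -/
theorem noBB_aux (h : Conf Q) {j : ℂ × ℂ} (hj : j ∈ Q)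
    (hV : 3 ≤ (Vc Q j).card) (hH : 3 ≤ (Hc Q j).card) {q : ℂ × ℂ} (hq : q ∈ Q) (hg : Gen j q)
    (hVq : 3 ≤ (Vc Q q).card) : False := by
  classical
  by_cases hcase : ∃ u ∈ Q, Gen j u ∧ 3 ≤ (Hc Q u).card
  · -- a second big horizontal class
    obtain ⟨u, hu, hgu, hHu⟩ := hcase
    obtain ⟨w, hw, hw1, hw2⟩ := big_meet h hj hV hH hVq hHu
    have hVw : 3 ≤ (Vc Q w).card := by rw [Vc_congr hw1]; exact hVq
    have hHw : 3 ≤ (Hc Q w).card := by rw [Hc_congr hw2]; exact hHu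
    have hjw1 : w.1 ≠ j.1 := by rw [hw1]; exact hg.1.symm
    have hjw2 : w.2 ≠ j.2 := by rw [hw2]; exact hgu.2.symm
    obtain ⟨hC2, -⟩ := two_of_big h hj hV hH hjw1 hVw
    obtain ⟨hR2, -⟩ := two_of_big' h hj hV hH hjw2 hHw
    have hwC : w ∈ Cl Q w.1 j.2 := by simp [Cl, hw, hjw2]
    have hwR : w ∈ Rw Q j.1 w.2 := by simp [Rw, hw, hjw1]
    obtain ⟨w', hw'C, hw'n⟩ := Finset.exists_mem_ne (by rw [hC2]; norm_num) w
    obtain ⟨e, heR, hen⟩ := Finset.exists_mem_ne (by rw [hR2]; norm_num) w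
    have hCeq : ∀ x ∈ Cl Q w.1 j.2, x = w ∨ x = w' := by
      intro x hx
      by_contra hcon
      push Not at hcon
      have hsub : ({x, w, w'} : Finset (ℂ × ℂ)) ⊆ Cl Q w.1 j.2 := by
        intro y hy
        simp only [Finset.mem_insert, Finset.mem_singleton] at hy
        rcases hy with rfl | rfl | rfl
        · exact hx
        · exact hwC
        · exact hw'C
      have h3 : ({x, w, w'} : Finset (ℂ × ℂ)).card = 3 := by
        rw [Finset.card_eq_three]
        exact ⟨x, w, w', hcon.1, hcon.2, hw'n.symm, rfl⟩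
      have := Finset.card_le_card hsub
      omega
    have hReq : ∀ x ∈ Rw Q j.1 w.2, x = w ∨ x = e := by
      intro x hx
      by_contra hcon
      push Not at hcon
      have hsub : ({x, w, e} : Finset (ℂ × ℂ)) ⊆ Rw Q j.1 w.2 := by
        intro y hy
        simp only [Finset.mem_insert, Finset.mem_singleton] at hy
        rcases hy with rfl | rfl | rfl
        · exact hx
        · exact hwR
        · exact heR
      have h3 : ({x, w, e} : Finset (ℂ × ℂ)).card = 3 := by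
        rw [Finset.card_eq_three]
        exact ⟨x, w, e, hcon.1, hcon.2, hen.symm, rfl⟩
      have := Finset.card_le_card hsub
      omega
    have hw'' : w' ∈ Q ∧ w'.1 = w.1 ∧ w'.2 ≠ j.2 := by
      simpa [Cl, and_assoc] using hw'C
    have he'' : e ∈ Q ∧ e.2 = w.2 ∧ e.1 ≠ j.1 := by
      simpa [Rw, and_assoc] using heR
    have g1 : Gen j w' := ⟨by rw [hw''.2.1]; exact hjw1.symm, hw''.2.2.symm⟩
    have g2 : Gen j e := ⟨he''.2.2.symm, by rw [he''.2.1]; exact hjw2.symm⟩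
    have g3 : Gen w' e := by
      refine ⟨fun he => hen (Prod.ext ?_ he''.2.1), fun he => hw'n (Prod.ext hw''.2.1 ?_)⟩
      · rw [← he, hw''.2.1]
      · rw [he, he''.2.1]
    obtain ⟨s, hs, s1, s2, s3⟩ := four_gen h.four hj hw''.1 he''.1 g1 g2 g3
    rcases h.Vc_cases hs with hVs | hVs
    · rcases h.Hc_cases hs with hHs | hHs
      · exact noSS h s hs ⟨hVs, hHs⟩
      · obtain ⟨x, hx, hx1, hx2⟩ := big_meet h hj hV hH hVw hHs
        have hxC : x ∈ Cl Q w.1 j.2 := by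
          simp only [Cl, Finset.mem_filter]
          exact ⟨hx, hx1, by rw [hx2]; exact s1.2.symm⟩
        rcases hCeq x hxC with rfl | rfl
        · apply s3.2
          rw [he''.2.1, hx2]
        · exact s2.2 hx2
    · obtain ⟨x, hx, hx1, hx2⟩ := big_meet h hj hV hH hVs hHw
      have hxR : x ∈ Rw Q j.1 w.2 := by
        simp only [Rw, Finset.mem_filter]
        exact ⟨hx, hx2, by rw [hx1]; exact s1.1.symm⟩
      rcases hReq x hxR with rfl | rfl
      · apply s2.1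
        rw [hw''.2.1, hx1]
      · exact s3.1 hx1
  · -- all points generic to j have a single horizontal class
    push Not at hcase
    have hHs : ∀ u ∈ Q, Gen j u → (Hc Q u).card = 1 := by
      intro u hu hgu
      rcases h.Hc_cases hu with h1 | h1
      · exact h1
      · exact absurd h1 (not_le.2 (hcase u hu hgu))
    have hVs : ∀ u ∈ Q, Gen j u → 3 ≤ (Vc Q u).card := by
      intro u hu hgu
      rcases h.Vc_cases hu with h1 | h1
      · exact absurd ⟨h1, hHs u hu hgu⟩ (noSS h u hu)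
      · exact h1
    have hne2 : ∀ u ∈ Q, Gen j u → ∀ x ∈ Q, x ≠ u → x.2 ≠ u.2 := by
      intro u hu hgu x hx hxu he
      exact hxu (eq_of_Hc_one hu (hHs u hu hgu) hx he)
    -- a point r on another vertical line
    obtain ⟨r, hr, hgr, hr1⟩ : ∃ r ∈ Q, Gen j r ∧ r.1 ≠ q.1 := by
      by_contra hcon
      push Not at hcon
      exact not_three_lines h hj hV hH hq hg hcon
    have gqr : Gen q r := ⟨hr1.symm, hne2 r hr hgr q hq (fun e => hr1 (by rw [e]))⟩
    obtain ⟨s, hs, s1, s2, s3⟩ := four_gen h.four hj hq hr hg hgr gqr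
    -- partners on the three vertical lines
    have partner : ∀ u ∈ Q, Gen j u → ∃ u' ∈ Q, Gen j u' ∧ u'.1 = u.1 ∧ u' ≠ u := by
      intro u hu hgu
      obtain ⟨hC2, -⟩ := two_of_big h hj hV hH hgu.1.symm (hVs u hu hgu)
      obtain ⟨u', hu', hn⟩ := Finset.exists_mem_ne (by rw [hC2]; norm_num) u
      have h1 : u' ∈ Q ∧ u'.1 = u.1 ∧ u'.2 ≠ j.2 := by
        simpa [Cl, and_assoc] using hu'
      exact ⟨u', h1.1, ⟨by rw [h1.2.1]; exact hgu.1, h1.2.2.symm⟩, h1.2.1, hn⟩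
    obtain ⟨q', hq', hgq', hq'1, hq'n⟩ := partner q hq hg
    obtain ⟨r', hr', hgr', hr'1, hr'n⟩ := partner r hr hgr
    obtain ⟨s', hs', hgs', hs'1, hs'n⟩ := partner s hs s1
    obtain ⟨β, hR⟩ := exists_rigid Q h.four
    have hz := BB_zero h hR hj hV hH
    have hc : 0 < Real.exp (-2 * β j) := Real.exp_pos _
    have hiso := chart_isom hR hj hz
    set c : ℝ := Real.exp (-2 * β j) with hcdef
    -- distances of heights only depend on the vertical lines
    have dist : ∀ u ∈ Q, Gen j u → ∀ x ∈ Q, Gen j x → u.1 ≠ x.1 →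
        ‖(chm c j u).2 - (chm c j x).2‖ = ‖(chm c j u).1 - (chm c j x).1‖ := by
      intro u hu hgu x hx hgx hux
      refine (hiso _ (mem_ch.2 ⟨u, hu, hgu, rfl⟩) _ (mem_ch.2 ⟨x, hx, hgx, rfl⟩) ⟨?_, ?_⟩).symm
      · intro he; exact hux ((chm_fst hgu hgx).1 he)
      · intro he
        exact hne2 x hx hgx u hu (fun e => hux (by rw [e])) ((chm_snd hc hgu hgx).1 he)
    have fsteq : ∀ u u' : ℂ × ℂ, u'.1 = u.1 → (chm c j u').1 = (chm c j u).1 := by
      intro u u' he
      simp only [chm, he]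
    have eqd : ∀ u ∈ Q, Gen j u → ∀ u' ∈ Q, Gen j u' → u'.1 = u.1 → ∀ x ∈ Q, Gen j x →
        u.1 ≠ x.1 → ‖(chm c j u).2 - (chm c j x).2‖ = ‖(chm c j u').2 - (chm c j x).2‖ := by
      intro u hu hgu u' hu' hgu' he x hx hgx hux
      rw [dist u hu hgu x hx hgx hux, dist u' hu' hgu' x hx hgx (by rw [he]; exact hux),
        fsteq u u' he]
    have sndne : ∀ u ∈ Q, Gen j u → ∀ u' ∈ Q, Gen j u' → u' ≠ u →
        (chm c j u).2 ≠ (chm c j u').2 := by
      intro u hu hgu u' hu' hgu' hn he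
      exact hne2 u hu hgu u' hu' hn ((chm_snd hc hgu hgu').1 he).symm
    have hqr : q.1 ≠ r.1 := gqr.1
    have hqs : q.1 ≠ s.1 := s2.1
    have hrs : r.1 ≠ s.1 := s3.1
    exact three_perp (chm c j q).2 (chm c j q').2 (chm c j r).2 (chm c j r').2
      (chm c j s).2 (chm c j s').2
      (sndne q hq hg q' hq' hgq' hq'n) (sndne r hr hgr r' hr' hgr' hr'n)
      (sndne s hs s1 s' hs' hgs' hs'n)
      (eqd q hq hg q' hq' hgq' hq'1 r hr hgr hqr)
      (eqd q hq hg q' hq' hgq' hq'1 r' hr' hgr' (by rw [hr'1]; exact hqr))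
      (eqd r hr hgr r' hr' hgr' hr'1 s hs s1 hrs)
      (eqd r hr hgr r' hr' hgr' hr'1 s' hs' hgs' (by rw [hs'1]; exact hrs))
      (eqd q hq hg q' hq' hgq' hq'1 s hs s1 hqs)
      (eqd q hq hg q' hq' hgq' hq'1 s' hs' hgs' (by rw [hs'1]; exact hqs))

/-- No point of a configuration is in two big classes. -/
theorem noBB (h : Conf Q) : ∀ p ∈ Q, ¬ (3 ≤ (Vc Q p).card ∧ 3 ≤ (Hc Q p).card) := by
  classical
  rintro j hj ⟨hV, hH⟩
  -- some point is generic to j
  obtain ⟨q, hq, hg⟩ : ∃ q ∈ Q, Gen j q := by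
    by_contra hcon
    push Not at hcon
    have := h.nocurve 1 (-j.2) (-j.1) (j.1 * j.2) (by
      intro p hp
      have h1 := hcon p hp
      unfold Gen at h1
      have h2 : (p.1 - j.1) * (p.2 - j.2) = 0 := by
        by_contra h3
        rw [mul_eq_zero] at h3
        push Not at h3
        exact h1 ⟨fun e => h3.1 (by rw [e]; ring), fun e => h3.2 (by rw [e]; ring)⟩
      unfold ev
      linear_combination h2)
    exact one_ne_zero this.1
  rcases h.Vc_cases hq with h1 | h1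
  · rcases h.Hc_cases hq with h2 | h2
    · exact noSS h q hq ⟨h1, h2⟩
    · exact noBB_aux h.swap (j := j.swap) (Finset.mem_image_of_mem _ hj)
        (by rw [Vc_swap]; exact hH) (by rw [Hc_swap]; exact hV) (q := q.swap)
        (Finset.mem_image_of_mem _ hq) ⟨hg.2, hg.1⟩ (by rw [Vc_swap]; exact h2)
  · exact noBB_aux h hj hV hH hq hg h1

/-- A big horizontal class excludes three big vertical classes. -/
theorem not_three_big (h : Conf Q) {q : ℂ × ℂ} (_hq : q ∈ Q) (hH : 3 ≤ (Hc Q q).card)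
    {p1 p2 p3 : ℂ × ℂ} (hp1 : p1 ∈ Q) (hp2 : p2 ∈ Q) (hp3 : p3 ∈ Q)
    (h1 : 3 ≤ (Vc Q p1).card) (h2 : 3 ≤ (Vc Q p2).card) (h3 : 3 ≤ (Vc Q p3).card)
    (h12 : p1.1 ≠ p2.1) (h13 : p1.1 ≠ p3.1) (h23 : p2.1 ≠ p3.1) : False := by
  classical
  obtain ⟨β, hR⟩ := exists_rigid Q h.four
  obtain ⟨s0, hs0, s1, hs1, s2, hs2, h01, h02, h12'⟩ := Finset.two_lt_card.1
    (show 2 < (Hc Q q).card by omega)
  have key : ∀ s ∈ Hc Q q, ∀ p ∈ Q, 3 ≤ (Vc Q p).card →
      ‖s.1 - p.1‖ = (‖q.2 - p.2‖ * Real.exp (β p)) * Real.exp (β s) ∧ 0 < ‖q.2 - p.2‖ := by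
    intro s hs p hp hVp
    rw [mem_Hc] at hs
    have hHs : 3 ≤ (Hc Q s).card := by rw [Hc_congr hs.2]; exact hH
    have hg : Gen s p := by
      constructor
      · intro he
        apply noBB h s hs.1
        exact ⟨by rw [Vc_congr he]; exact hVp, hHs⟩
      · intro he
        apply noBB h p hp
        exact ⟨hVp, by rw [Hc_congr he.symm]; exact hHs⟩
    have h0 := hR.zero_big hs.1 hp hHs hVp
    rw [Phi, if_pos hg, hs.2] at h0
    have hx : 0 < ‖s.1 - p.1‖ := norm_pos_iff.2 (sub_ne_zero.2 hg.1)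
    have hy : 0 < ‖q.2 - p.2‖ := by
      rw [← hs.2]; exact norm_pos_iff.2 (sub_ne_zero.2 hg.2)
    refine ⟨?_, hy⟩
    have : Real.log ‖s.1 - p.1‖ = Real.log ‖q.2 - p.2‖ + β p + β s := by linarith
    rw [← Real.exp_log hx, this, Real.exp_add, Real.exp_add, Real.exp_log hy]
  have hs0' := (mem_Hc.1 hs0)
  have hs1' := (mem_Hc.1 hs1)
  have hs2' := (mem_Hc.1 hs2)
  have n01 : s0.1 ≠ s1.1 := fun e => h01 (Prod.ext e (hs0'.2.trans hs1'.2.symm))
  have n02 : s0.1 ≠ s2.1 := fun e => h02 (Prod.ext e (hs0'.2.trans hs2'.2.symm))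
  have n12 : s1.1 ≠ s2.1 := fun e => h12' (Prod.ext e (hs1'.2.trans hs2'.2.symm))
  refine rank_one ![s0.1, s1.1, s2.1] ![p1.1, p2.1, p3.1] ?_ ?_
    ![Real.exp (β s0), Real.exp (β s1), Real.exp (β s2)]
    ![‖q.2 - p1.2‖ * Real.exp (β p1), ‖q.2 - p2.2‖ * Real.exp (β p2),
      ‖q.2 - p3.2‖ * Real.exp (β p3)] ?_ ?_ ?_
  · intro a b hab
    fin_cases a <;> fin_cases b <;> simp_all
  · intro a b hab
    fin_cases a <;> fin_cases b <;> simp_all
  · intro a
    fin_cases a <;> simp [Real.exp_pos]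
  · intro a
    fin_cases a
    · exact mul_pos (key s0 hs0 p1 hp1 h1).2 (Real.exp_pos _)
    · exact mul_pos (key s0 hs0 p2 hp2 h2).2 (Real.exp_pos _)
    · exact mul_pos (key s0 hs0 p3 hp3 h3).2 (Real.exp_pos _)
  · intro a b
    fin_cases a <;> fin_cases b
    · exact (key s0 hs0 p1 hp1 h1).1
    · exact (key s0 hs0 p2 hp2 h2).1
    · exact (key s0 hs0 p3 hp3 h3).1
    · exact (key s1 hs1 p1 hp1 h1).1
    · exact (key s1 hs1 p2 hp2 h2).1
    · exact (key s1 hs1 p3 hp3 h3).1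
    · exact (key s2 hs2 p1 hp1 h1).1
    · exact (key s2 hs2 p2 hp2 h2).1
    · exact (key s2 hs2 p3 hp3 h3).1

end Pool.Agent.Lib.MP_1c7511_co
end

section

set_option autoImplicit false

namespace Pool.Agent.Lib.MP_1c7511_co

open Finset

section
variable {ι : Type} [Fintype ι] [DecidableEq ι] {v : ι → Fin 3 → ℂ}

theorem rho_symm (a b : ι) : rho v a b = rho v b a := by
  unfold rho
  congr 1
  ext k
  exact col_swap12

theorem rho_two_iff {a b : ι} (hab : a ≠ b) :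
    rho v a b = 2 ↔ ∀ k, Col v a b k → k = a ∨ k = b := by
  classical
  have hsub : ({a, b} : Set ι) ⊆ {k | Col v a b k} := by
    intro k hk
    simp only [Set.mem_insert_iff, Set.mem_singleton_iff] at hk
    rcases hk with rfl | rfl
    · exact col_self1 _ _
    · exact col_self2 _ _
  constructor
  · intro h k hk
    have heq : ({a, b} : Set ι) = {k | Col v a b k} := by
      apply Set.eq_of_subset_of_ncard_le hsub
      rw [Set.ncard_pair hab]
      exact le_of_eq h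
    have : k ∈ ({a, b} : Set ι) := by rw [heq]; exact hk
    simpa using this
  · intro h
    have heq : {k | Col v a b k} = ({a, b} : Set ι) := by
      apply Set.Subset.antisymm _ hsub
      intro k hk
      simpa using h k hk
    rw [rho, heq, Set.ncard_pair hab]

theorem two_le_rho {a b : ι} (hab : a ≠ b) : 2 ≤ rho v a b := by
  rw [← Set.ncard_pair hab]
  apply Set.ncard_le_ncard _ (Set.toFinite _)
  intro k hk
  simp only [Set.mem_insert_iff, Set.mem_singleton_iff] at hk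
  rcases hk with rfl | rfl
  · exact col_self1 _ _
  · exact col_self2 _ _

theorem four_le_rho (h : BadConf v) {a b : ι} (hab : a ≠ b) (h2 : rho v a b ≠ 2) :
    4 ≤ rho v a b := by
  have h1 := two_le_rho (v := v) hab
  have h3 := no_three h hab
  omega

/-- The cardinality of a class in the coordinates adapted to `ab` (`x` is the base point of the
pencil of lines under consideration, `y` the other one). -/
theorem class_card {a b : ι} {ψ : ι → ℂ × ℂ} {f : ℂ × ℂ → ℂ}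
    (hinj : ∀ i j, i ≠ a → i ≠ b → j ≠ a → j ≠ b → ψ i = ψ j → i = j)
    (x y : ι) (hxy : (x = a ∧ y = b) ∨ (x = b ∧ y = a))
    (hf : ∀ i j, i ≠ a → i ≠ b → j ≠ a → j ≠ b → (f (ψ i) = f (ψ j) ↔ Col v x i j))
    (h2 : ∀ k, Col v a b k → k = a ∨ k = b)
    {c : ι} (hca : c ≠ a) (hcb : c ≠ b) :
    rho v x c = (({q ∈ (univ.filter (fun i => i ≠ a ∧ i ≠ b)).image ψ |
      f q = f (ψ c)} : Finset (ℂ × ℂ))).card + 1 := by
  classical
  set S : Finset ι := univ.filter (fun i => i ≠ a ∧ i ≠ b) with hS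
  have h1 : ({q ∈ S.image ψ | f q = f (ψ c)} : Finset (ℂ × ℂ))
      = (S.filter (fun k => Col v x c k)).image ψ := by
    ext q
    simp only [Finset.mem_filter, Finset.mem_image]
    constructor
    · rintro ⟨⟨k, hk, rfl⟩, hq⟩
      have hk' : k ≠ a ∧ k ≠ b := by simpa [hS] using hk
      exact ⟨k, ⟨hk, (hf c k hca hcb hk'.1 hk'.2).1 hq.symm⟩, rfl⟩
    · rintro ⟨k, ⟨hk, hq⟩, rfl⟩
      have hk' : k ≠ a ∧ k ≠ b := by simpa [hS] using hk
      exact ⟨⟨k, hk, rfl⟩, ((hf c k hca hcb hk'.1 hk'.2).2 hq).symm⟩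
  have h3 : ((S.filter (fun k => Col v x c k)).image ψ).card
      = (S.filter (fun k => Col v x c k)).card := by
    apply Finset.card_image_of_injOn
    intro i hi j hj hij
    have hi' : i ∈ S.filter (fun k => Col v x c k) := hi
    have hj' : j ∈ S.filter (fun k => Col v x c k) := hj
    have hi2 : i ≠ a ∧ i ≠ b := by
      have := (Finset.mem_filter.1 hi').1
      simpa [hS] using this
    have hj2 : j ≠ a ∧ j ≠ b := by
      have := (Finset.mem_filter.1 hj').1
      simpa [hS] using this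
    exact hinj i j hi2.1 hi2.2 hj2.1 hj2.2 hij
  rw [h1, h3]
  have hcx : c ≠ x := by rcases hxy with ⟨rfl, -⟩ | ⟨rfl, -⟩ <;> assumption
  -- y is not on the line x c
  have hy : ¬ Col v x c y := by
    intro hcol
    have h4 : Col v x y c := col_swap23.1 hcol
    rcases hxy with ⟨rfl, rfl⟩ | ⟨rfl, rfl⟩
    · rcases h2 c h4 with h | h
      · exact hca h
      · exact hcb h
    · rcases h2 c (col_swap12.1 h4) with h | h
      · exact hca h
      · exact hcb h
  have hset : {k | Col v x c k} = ((insert x (S.filter (fun k => Col v x c k)) : Finset ι) : Set ι) := by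
    ext k
    simp only [Set.mem_setOf_eq, Finset.coe_insert, Set.mem_insert_iff, Finset.mem_coe,
      Finset.mem_filter]
    constructor
    · intro hk
      by_cases hkx : k = x
      · exact Or.inl hkx
      · right
        refine ⟨?_, hk⟩
        have hky : k ≠ y := by rintro rfl; exact hy hk
        rcases hxy with ⟨rfl, rfl⟩ | ⟨rfl, rfl⟩
        · simp [hS, hkx, hky]
        · simp [hS, hkx, hky]
    · rintro (rfl | ⟨-, hk⟩)
      · exact col_self1 _ _
      · exact hk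
  have hx : x ∉ S.filter (fun k => Col v x c k) := by
    intro hx
    have := (Finset.mem_filter.1 hx).1
    rcases hxy with ⟨rfl, rfl⟩ | ⟨rfl, rfl⟩
    · simp [hS] at this
    · simp [hS] at this
  rw [rho, hset, Set.ncard_coe_finset, Finset.card_insert_of_notMem hx]

/-- The configuration attached to a two-point line. -/
theorem conf_of_bad (h : BadConf v) {a b : ι} (hab : a ≠ b) (h2 : rho v a b = 2) :
    ∃ (Q : Finset (ℂ × ℂ)) (ψ : ι → ℂ × ℂ), Conf Q ∧
      (∀ c, c ≠ a → c ≠ b → ψ c ∈ Q) ∧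
      (∀ c, c ≠ a → c ≠ b → rho v b c = (Vc Q (ψ c)).card + 1) ∧
      (∀ c, c ≠ a → c ≠ b → rho v a c = (Hc Q (ψ c)).card + 1) ∧
      (∀ i j, i ≠ a → i ≠ b → j ≠ a → j ≠ b → ((ψ i).1 = (ψ j).1 ↔ Col v b i j)) ∧
      (∀ i j, i ≠ a → i ≠ b → j ≠ a → j ≠ b → ((ψ i).2 = (ψ j).2 ↔ Col v a i j)) := by
  classical
  have h2' := (rho_two_iff hab).1 h2
  obtain ⟨ψ, hinj, h1, h3, h4, h5⟩ := coords h hab h2'
  have hV : ∀ c, c ≠ a → c ≠ b → rho v b c
      = (Vc ((univ.filter (fun i => i ≠ a ∧ i ≠ b)).image ψ) (ψ c)).card + 1 := by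
    intro c hca hcb
    exact class_card (v := v) (f := fun q => q.1) hinj b a (Or.inr ⟨rfl, rfl⟩) h1 h2' hca hcb
  have hH : ∀ c, c ≠ a → c ≠ b → rho v a c
      = (Hc ((univ.filter (fun i => i ≠ a ∧ i ≠ b)).image ψ) (ψ c)).card + 1 := by
    intro c hca hcb
    exact class_card (v := v) (f := fun q => q.2) hinj a b (Or.inl ⟨rfl, rfl⟩) h3 h2' hca hcb
  refine ⟨(univ.filter (fun i => i ≠ a ∧ i ≠ b)).image ψ, ψ, ⟨h4, h5, ?_, ?_⟩, ?_, hV, hH, h1, h3⟩
  · intro p hp
    obtain ⟨c, hc, rfl⟩ := Finset.mem_image.1 hp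
    have hc' : c ≠ a ∧ c ≠ b := by simpa using hc
    have e1 := hV c hc'.1 hc'.2
    have e2 := no_three h hc'.2.symm
    omega
  · intro p hp
    obtain ⟨c, hc, rfl⟩ := Finset.mem_image.1 hp
    have hc' : c ≠ a ∧ c ≠ b := by simpa using hc
    have e1 := hH c hc'.1 hc'.2
    have e2 := no_three h hc'.1.symm
    omega
  · intro c hca hcb
    exact Finset.mem_image_of_mem _ (by simp [hca, hcb])

/-- Translation of the local results to the plane: for a two-point line `ab` every other point `c`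
is joined by a two-point line to exactly one of `a` and `b`. -/
theorem edge_xor (h : BadConf v) {a b : ι} (hab : a ≠ b)
    (h2 : rho v a b = 2) {c : ι} (hca : c ≠ a) (hcb : c ≠ b) :
    (rho v a c = 2 ∧ rho v b c ≠ 2) ∨ (rho v a c ≠ 2 ∧ rho v b c = 2) := by
  obtain ⟨Q, ψ, hC, hmem, hV, hH, -, -⟩ := conf_of_bad h hab h2
  have e1 := hV c hca hcb
  have e2 := hH c hca hcb
  have e3 := noSS hC (ψ c) (hmem c hca hcb)
  have e4 := noBB hC (ψ c) (hmem c hca hcb)
  have e5 := hC.Vc_cases (hmem c hca hcb)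
  have e6 := hC.Hc_cases (hmem c hca hcb)
  omega

/-- For a two-point line `ab` such that some rich line passes through `b`, at most two rich lines
pass through `a`. -/
theorem edge_two (h : BadConf v) {a b : ι} (hab : a ≠ b) (h2 : rho v a b = 2)
    {d : ι} (hdb : d ≠ b) (hd : rho v b d ≠ 2) {c1 c2 c3 : ι}
    (h1a : c1 ≠ a) (h2a : c2 ≠ a) (h3a : c3 ≠ a)
    (hc1 : rho v a c1 ≠ 2) (hc2 : rho v a c2 ≠ 2) (hc3 : rho v a c3 ≠ 2)
    (h12 : ¬ Col v a c1 c2) (h13 : ¬ Col v a c1 c3) (h23 : ¬ Col v a c2 c3) : False := by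
  classical
  obtain ⟨Q, ψ, hC, hmem, hV, hH, -, hsnd⟩ := conf_of_bad h hab h2
  have hda : d ≠ a := by
    rintro rfl
    exact hd (by rw [rho_symm]; exact h2)
  have h1b : c1 ≠ b := by rintro rfl; exact hc1 h2
  have h2b : c2 ≠ b := by rintro rfl; exact hc2 h2
  have h3b : c3 ≠ b := by rintro rfl; exact hc3 h2
  have eV : 3 ≤ (Vc Q (ψ d)).card := by
    have e1 := hV d hda hdb
    have e2 := four_le_rho h hdb.symm hd
    omega
  have eH : ∀ c, c ≠ a → c ≠ b → rho v a c ≠ 2 → 3 ≤ (Hc Q (ψ c)).card := by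
    intro c hca hcb hc
    have e1 := hH c hca hcb
    have e2 := four_le_rho h hca.symm hc
    omega
  refine not_three_big hC.swap (q := (ψ d).swap) (Finset.mem_image_of_mem _ (hmem d hda hdb))
    (by rw [Hc_swap]; exact eV)
    (p1 := (ψ c1).swap) (p2 := (ψ c2).swap) (p3 := (ψ c3).swap)
    (Finset.mem_image_of_mem _ (hmem c1 h1a h1b))
    (Finset.mem_image_of_mem _ (hmem c2 h2a h2b))
    (Finset.mem_image_of_mem _ (hmem c3 h3a h3b))
    (by rw [Vc_swap]; exact eH c1 h1a h1b hc1)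
    (by rw [Vc_swap]; exact eH c2 h2a h2b hc2)
    (by rw [Vc_swap]; exact eH c3 h3a h3b hc3) ?_ ?_ ?_
  · intro he; exact h12 ((hsnd c1 c2 h1a h1b h2a h2b).1 he)
  · intro he; exact h13 ((hsnd c1 c3 h1a h1b h3a h3b).1 he)
  · intro he; exact h23 ((hsnd c2 c3 h2a h2b h3a h3b).1 he)

/-- If one side has two elements then the other side is collinear. -/
theorem side_line (h : BadConf v) {pA pB : ι → Prop}
    (hcov : ∀ i, pA i ∨ pB i)
    (hAB : ∀ c d, pA c → pB d → rho v c d = 2)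
    (hAA : ∀ c c', pA c → pA c' → c ≠ c' → rho v c c' ≠ 2)
    (hBB : ∀ c c', pB c → pB c' → c ≠ c' → rho v c c' ≠ 2)
    (hdis : ∀ i, pA i → pB i → False)
    {b d : ι} (hb : pB b) (hd : pB d) (hbd : b ≠ d)
    {a0 c2 : ι} (ha0 : pA a0) (hc2 : pA c2) (hne : a0 ≠ c2) : ∀ c, pA c → Col v a0 c2 c := by
  classical
  intro c hc
  by_contra hcol
  have hind := h.indep
  have hca0 : c ≠ a0 := by rintro rfl; exact hcol (col_self1 _ _)
  have hcc2 : c ≠ c2 := by rintro rfl; exact hcol (col_self2 _ _)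
  -- a third point on the line a0 c2
  have hrho := hAA a0 c2 ha0 hc2 hne
  obtain ⟨e, he, hea0, hec2⟩ : ∃ e, Col v a0 c2 e ∧ e ≠ a0 ∧ e ≠ c2 := by
    by_contra hcon
    push Not at hcon
    apply hrho
    rw [rho_two_iff hne]
    intro k hk
    by_cases hk0 : k = a0
    · exact Or.inl hk0
    · exact Or.inr (hcon k hk hk0)
  have heA : pA e := by
    rcases hcov e with h1 | h1
    · exact h1
    · exfalso
      have h3 := hAB a0 e ha0 h1
      have h4 := (rho_two_iff (Ne.symm hea0)).1 h3 c2 (col_swap23.1 he)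
      rcases h4 with h5 | h5
      · exact hne h5.symm
      · exact hec2 h5.symm
  have hce : c ≠ e := by rintro rfl; exact hcol he
  have hcb : c ≠ b := fun e' => hdis c hc (e' ▸ hb)
  refine edge_two h hcb (hAB c b hc hb) hbd.symm (hBB b d hb hd hbd)
    (c1 := a0) (c2 := c2) (c3 := e) hca0.symm hcc2.symm hce.symm
    (hAA c a0 hc ha0 hca0) (hAA c c2 hc hc2 hcc2) (hAA c e hc heA hce) ?_ ?_ ?_
  · intro h1
    -- Col c a0 c2
    exact hcol (col_swap23.1 (col_swap12.1 h1))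
  · intro h1
    have h2 : Col v a0 e c := col_swap23.1 (col_swap12.1 h1)
    have h3 := (col_line hind hne (Ne.symm hea0) (col_self1 a0 c2) he c).2 h2
    exact hcol h3
  · intro h1
    have h2 : Col v c2 e c := col_swap23.1 (col_swap12.1 h1)
    have h3 := (col_line hind hne (Ne.symm hec2) (col_self2 a0 c2) he c).2 h2
    exact hcol h3

/-- A side consisting of one point is impossible. -/
theorem star_false (h : BadConf v) {b : ι}
    (hAB : ∀ c, c ≠ b → rho v c b = 2)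
    (hAA : ∀ c c', c ≠ b → c' ≠ b → c ≠ c' → rho v c c' ≠ 2)
    {a : ι} (ha : a ≠ b) : False := by
  classical
  have hind := h.indep
  let v' : {i : ι // i ≠ b} → Fin 3 → ℂ := fun i => v i.1
  have hcol' : ∀ i j k : {i : ι // i ≠ b}, Col v' i j k ↔ Col v i.1 j.1 k.1 := fun i j k => Iff.rfl
  have hoff : ∀ c c' : ι, c ≠ b → c' ≠ b → c ≠ c' → ¬ Col v c c' b := by
    intro c c' hc hc' hcc' hcol
    have h1 := (rho_two_iff hc).1 (hAB c hc) c' (col_swap23.1 hcol)
    rcases h1 with h2 | h2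
    · exact hcc' h2.symm
    · exact hc' h2
  have hrho : ∀ i j : {i : ι // i ≠ b}, i ≠ j → 4 ≤ rho v' i j := by
    intro i j hij
    have hij' : i.1 ≠ j.1 := fun e => hij (Subtype.ext e)
    have h1 := four_le_rho h hij' (hAA i.1 j.1 i.2 j.2 hij')
    have h2 : rho v i.1 j.1 = rho v' i j := by
      unfold rho
      have : {k | Col v i.1 j.1 k} = Subtype.val '' {k | Col v' i j k} := by
        ext k
        simp only [Set.mem_setOf_eq, Set.mem_image]
        constructor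
        · intro hk
          have hkb : k ≠ b := by rintro rfl; exact hoff i.1 j.1 i.2 j.2 hij' hk
          exact ⟨⟨k, hkb⟩, hk, rfl⟩
        · rintro ⟨k', hk', rfl⟩
          exact hk'
      rw [this, Set.ncard_image_of_injective _ Subtype.val_injective]
    rw [← h2]; exact h1
  have hlanger := langer v' (fun i j hij => hind i.1 j.1 (fun e => hij (Subtype.ext e))) (by
    by_contra hcon
    push Not at hcon
    -- everything but b is on a line
    have hA : ∃ w : Fin 3 → ℂ, w ≠ 0 ∧ ∀ i, i ≠ b → w ⬝ᵥ v i = 0 := by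
      by_cases hex : ∃ c, c ≠ b ∧ c ≠ a
      · obtain ⟨c, hcb, hca⟩ := hex
        obtain ⟨w, hw, hw2⟩ := col_form hind hca.symm
        exact ⟨w, hw, fun i hi => (hw2 i).1 (hcon ⟨a, ha⟩ ⟨c, hcb⟩ ⟨i, hi⟩)⟩
      · push Not at hex
        obtain ⟨w, hw, hw2⟩ := col_form hind ha
        refine ⟨w, hw, fun i hi => ?_⟩
        rw [hex i hi]
        exact (hw2 a).1 (col_self1 _ _)
    obtain ⟨w, hw, hwA⟩ := hA
    obtain ⟨w', hw', hw2'⟩ := col_form hind ha
    refine not_two_lines h w w' hw hw' (fun i => ?_)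
    by_cases hi : i = b
    · right; rw [hi]; exact (hw2' b).1 (col_self2 _ _)
    · left; exact hwA i hi) (by
    intro i j hij
    by_contra hcon
    push Not at hcon
    have h1 := hrho i j hij
    have h2 : rho v' i j = 2 := by
      unfold rho
      have : {k | Col v' i j k} = {i, j} := by
        ext k
        simp only [Set.mem_setOf_eq, Set.mem_insert_iff, Set.mem_singleton_iff]
        constructor
        · intro hk
          by_cases hki : k = i
          · exact Or.inl hki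
          · right
            by_contra hkj
            exact hcon k hki hkj hk
        · rintro (rfl | rfl)
          · exact col_self1 _ _
          · exact col_self2 _ _
      rw [this, Set.ncard_pair hij]
    omega)
  have hempty : {p : {i : ι // i ≠ b} × {i : ι // i ≠ b} | p.1 ≠ p.2 ∧ rho v' p.1 p.2 = 3} = ∅ := by
    ext p
    simp only [Set.mem_setOf_eq, Set.mem_empty_iff_false, iff_false, not_and]
    intro hp hp3
    have := hrho p.1 p.2 hp
    omega
  rw [hempty, Set.ncard_empty] at hlanger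
  have hpos : 0 < Fintype.card {i : ι // i ≠ b} := Fintype.card_pos_iff.2 ⟨⟨a, ha⟩⟩
  omega

theorem no_bad (v : ι → Fin 3 → ℂ) : ¬ BadConf v := by
  classical
  intro h
  have hind := h.indep
  obtain ⟨a, b, hab, hk⟩ := exists_two h
  have h2 : rho v a b = 2 := (rho_two_iff hab).2 hk
  have h2' : rho v b a = 2 := by rw [rho_symm]; exact h2
  let pA : ι → Prop := fun c => c ≠ b ∧ rho v b c = 2
  let pB : ι → Prop := fun c => c ≠ a ∧ rho v a c = 2
  have hcov : ∀ i, pA i ∨ pB i := by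
    intro i
    by_cases hia : i = a
    · left; rw [hia]; exact ⟨hab, h2'⟩
    · by_cases hib : i = b
      · right; rw [hib]; exact ⟨hab.symm, h2⟩
      · rcases edge_xor h hab h2 hia hib with h3 | h3
        · right; exact ⟨hia, h3.1⟩
        · left; exact ⟨hib, h3.2⟩
  have hdis : ∀ i, pA i → pB i → False := by
    rintro i ⟨h3, h4⟩ ⟨h5, h6⟩
    rcases edge_xor h hab h2 h5 h3 with h7 | h7
    · exact h7.2 h4
    · exact h7.1 h6
  have hAB : ∀ c d, pA c → pB d → rho v c d = 2 := by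
    intro c d hc hd
    by_cases hca : c = a
    · rw [hca]; exact hd.2
    · by_cases hdb : d = b
      · rw [hdb, rho_symm]; exact hc.2
      · have h3 : rho v b d ≠ 2 := fun e => hdis d ⟨hdb, e⟩ hd
        have hdc : d ≠ c := by rintro rfl; exact hdis d hc hd
        rcases edge_xor h hc.1.symm hc.2 hdb hdc with h4 | h4
        · exact absurd h4.1 h3
        · exact h4.2
  have hAA : ∀ c c', pA c → pA c' → c ≠ c' → rho v c c' ≠ 2 := by
    intro c c' hc hc' hne
    rcases edge_xor h hc.1.symm hc.2 hc'.1 hne.symm with h4 | h4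
    · exact h4.2
    · exact absurd hc'.2 h4.1
  have hBB : ∀ c c', pB c → pB c' → c ≠ c' → rho v c c' ≠ 2 := by
    intro c c' hc hc' hne
    rcases edge_xor h hc.1.symm hc.2 hc'.1 hne.symm with h4 | h4
    · exact h4.2
    · exact absurd hc'.2 h4.1
  have hA : pA a := ⟨hab, h2'⟩
  have hB : pB b := ⟨hab.symm, h2⟩
  by_cases hB2 : ∃ d, pB d ∧ d ≠ b
  · obtain ⟨d, hd, hdb⟩ := hB2
    by_cases hA2 : ∃ c, pA c ∧ c ≠ a
    · obtain ⟨c, hc, hca⟩ := hA2
      have l1 := side_line h hcov hAB hAA hBB hdis hB hd hdb.symm hA hc hca.symm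
      have l2 := side_line h (fun i => (hcov i).symm) (fun x y hx hy => by
        rw [rho_symm]; exact hAB y x hy hx) hBB hAA (fun i hi hi' => hdis i hi' hi)
        hA hc hca.symm hB hd hdb.symm
      obtain ⟨w, hw, hw2⟩ := col_form hind hca.symm
      obtain ⟨w', hw', hw2'⟩ := col_form hind hdb.symm
      refine not_two_lines h w w' hw hw' (fun i => ?_)
      rcases hcov i with hi | hi
      · left; exact (hw2 i).1 (l1 i hi)
      · right; exact (hw2' i).1 (l2 i hi)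
    · -- A = {a}
      push Not at hA2
      have hBall : ∀ c, c ≠ a → pB c := by
        intro c hc
        rcases hcov c with h3 | h3
        · exact absurd (hA2 c h3) hc
        · exact h3
      exact star_false h (b := a) (fun c hc => by rw [rho_symm]; exact (hBall c hc).2)
        (fun c c' hc hc' hne => hBB c c' (hBall c hc) (hBall c' hc') hne) (a := b) hab.symm
  · push Not at hB2
    have hAall : ∀ c, c ≠ b → pA c := by
      intro c hc
      rcases hcov c with h3 | h3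
      · exact h3
      · exact absurd (hB2 c h3) hc
    exact star_false h (b := b) (fun c hc => by rw [rho_symm]; exact (hAall c hc).2)
      (fun c c' hc hc' hne => hAA c c' (hAall c hc) (hAall c' hc') hne) (a := a) hab

end

theorem main :
    ∀ P : Finset (Projectivization ℂ (Fin 3 → ℂ)),
      (∃ f : MvPolynomial (Fin 3) ℂ, f.IsHomogeneous 2 ∧ f ≠ 0 ∧
          ∀ p ∈ P, MvPolynomial.eval p.rep f = 0) ∨
      (∃ f : MvPolynomial (Fin 3) ℂ, f.IsHomogeneous 2 ∧ f ≠ 0 ∧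
          {p | p ∈ P ∧ MvPolynomial.eval p.rep f = 0}.ncard = 5 ∧
          ∀ g : MvPolynomial (Fin 3) ℂ, g.IsHomogeneous 2 →
            (∀ p ∈ P, MvPolynomial.eval p.rep f = 0 → MvPolynomial.eval p.rep g = 0) →
            ∃ c : ℂ, g = MvPolynomial.C c * f) :=
  frozen_of_no_bad (fun _ _ _ v => no_bad v)

end Pool.Agent.Lib.MP_1c7511_co
end
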